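import Mathlib
import Pool.Agent.Work.MP_8efaaa_nt.K6.Defs
import Pool.Agent.Work.MP_8efaaa_nt.K6.ARg
import Pool.Agent.Work.MP_8efaaa_nt.K6.ARm
import Pool.Agent.Work.MP_8efaaa_nt.W5.E1
import Pool.Agent.Work.MP_8efaaa_nt.W14.Defs
import Pool.Agent.Work.MP_8efaaa_nt.V6.Defs

/-!
# Definitions of the block T3 (fixed file)

Three odd primes, class 6 (mod 8): `a = 2 p q r`, `(p, q, r) = (1, 3, 5)` and `(1, 7, 5)` (mod 8). Notation:
`PP z k v c` (W14/Defs) is the point of an odd ideal `c`, `ep = (1, 0)`, `em = (-1, 0)`, `ez = (0, 0)`.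
-/

set_option autoImplicit false

namespace Pool.Agent.Work.MP_8efaaa_nt.T3

open NumberField Pool.Agent.Work.MP_8efaaa_nt.R Pool.Agent.Work.MP_8efaaa_nt.N5
  Pool.Agent.Work.MP_8efaaa_nt.K6 Pool.Agent.Work.MP_8efaaa_nt.W14
open scoped Classical nonZeroDivisors

noncomputable section

variable {K F : Type*} [Field K] [NumberField K] [Field F] [CharZero F]

/-- the relation of the translation by `1 + S` -/
structure Tq (S : 𝓞 K) (z k v : Ideal (𝓞 K) → F) (T : (cQ F).Point) : Prop where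
  two : T + T = ez F
  rel : ∀ c, OddI c → PP z k v (Ideal.span {1 + S} * c) + PP z k v c =
    T + if Ideal.absNorm c % 4 = 1 then 0 else em F

/-- the relation of the Fricke involution -/
structure Fr (a : ℕ) (S : 𝓞 K) (z k v : Ideal (𝓞 K) → F) (T : (cQ F).Point) : Prop where
  two : T + T = ep F
  rel : ∀ c, OddI c → PP z k v (r6 S (a / 2) * c) + PP z k v c =
    T + if Ideal.absNorm c % 8 = 1 ∨ Ideal.absNorm c % 8 = 7 then 0 else ez F

/-- difference of the sums over the classes in `H` and outside of `H` -/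
def DD {S : 𝓞 K} (z k v : Ideal (𝓞 K) → F) (H : Subgroup (CG S)) [Fintype (CG S)]
    (r : CG S → M13 K) : (cQ F).Point :=
  (∑ g ∈ Finset.univ.filter (· ∈ H), PP z k v (r g : Ideal (𝓞 K))) -
    ∑ g ∈ Finset.univ.filter (· ∉ H), PP z k v (r g : Ideal (𝓞 K))

/-- `r` is a system of representatives; the products over `H` and over its complement are `u` up to
integers -/
structure IsSec {S : 𝓞 K} (H : Subgroup (CG S)) [Fintype (CG S)] (r : CG S → M13 K)
    (u : M13 K) : Prop where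
  cl : ∀ g, clM S (r g) = g
  four : 4 ∣ Fintype.card (CG S)
  prod : ∃ m1 m2 : ℕ, m1 % 8 = 1 ∧ m2 % 8 = 3 ^ (Fintype.card (CG S) / 4) % 8 ∧
    ((∏ g ∈ Finset.univ.filter (· ∈ H), r g : M13 K) : Ideal (𝓞 K)) =
      Ideal.span {(m1 : 𝓞 K)} * (u : Ideal (𝓞 K)) ∧
    ((∏ g ∈ Finset.univ.filter (· ∉ H), r g : M13 K) : Ideal (𝓞 K)) =
      Ideal.span {(m2 : 𝓞 K)} * (u : Ideal (𝓞 K))

/-- the relation of an inertia element, `w0 = (1 + S) b` -/
def InE (τ : 𝓞 K ≃+* 𝓞 K) (z k v : Ideal (𝓞 K) → F) (T : (cQ F).Point)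
    (E : AddSubgroup (cQ F).Point) (w0 : Ideal (𝓞 K)) : Prop :=
  ∀ c, OddI c → PP z k v (w0 * cj τ c) + PP z k v c -
    (T + if Ideal.absNorm c % 4 = 1 then em F else 0) ∈ E

end

end Pool.Agent.Work.MP_8efaaa_nt.T3
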