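import Mathlib
import Pool.Agent.Work.MP_8efaaa_nt.T3.Defs
import Pool.Agent.Work.MP_8efaaa_nt.V6.PEt
import Pool.Agent.Work.MP_8efaaa_nt.W14.CCl
import Pool.Agent.Work.MP_8efaaa_nt.W14.CEq
import Pool.Agent.Work.MP_8efaaa_nt.W14.PGa

/-!
# T3/Kx (M): comparison of two ideals of the same class, exactly, `a = 14 (mod 16)`

`P = PP z k v`. Model: `kk_px` in V6/GPi.lean. `clM S b = clM S c` in both cases (`clM_eq`), so `N b = N c (mod 8)` (`norm_clM`).
kk_one: `equiv6` (W14/CEq) for `b`, `c` gives `(α) b = (β) c` with `N β = 1 (mod 8)`, `N α = ± 1 (mod 8)`; norms give `N α = 1 (mod 8)`. `V6.tr_px` (V6/PEt) for `α` (at `b x`) and for `β` (at `c x`): `P (b x) + εα = P (c x) + εβ`; each of `εα`, `εβ` is one of the four points `0, ep, em, ez`, which form a group of exponent two (`two_ep`), `ε = εα + εβ`.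
kk_two: put `c' = r6 S (a/2) * c`: `cls c' = cls (r6 S 2) * cls c` (`cls_two`, `cls_mul`), so `cls b = cls c'`; `N c' = (a/2) N c = 7 N c (mod 8)` (`norm_r6`, `a / 2 = 7 (mod 8)`). `equiv6` for `b`, `c'`: `(α) b = (β) c'`, `N β = 1`, and `N α = 7 (mod 8)` (norms). Multiply by `g = 1 + S` (`N g = 1 + a = 7 (mod 8)`, `norm_g`): `N (g α) = 1 (mod 8)`, so `V6.tr_px`: `P (g α b x) = P (b x) + ε1` and `P (β (g c' x)) = P (g c' x) + ε2`, and `g α b x = β (g c' x)`. Now `hT.rel` for `c' x`: `P (g c' x) = T + [N (c' x) = 3 mod 4] em - P (c' x)`, and `hT'.rel` for `c x`: `P (c' x) = T' + [N (c x) not 1, 7 mod 8] ez - P (c x)`. So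
`P (b x) = P (c x) + (T - T') + ε1 + ε2 + [N (c x) = 1 mod 4] em + [N (c x) not 1, 7 mod 8] ez` (all two-torsion signs are irrelevant; `N (c' x) = 3 (mod 4)` iff `N (c x) = 1 (mod 4)`). For `x`, `c` in `M13`: if `N c = 1 (mod 8)`: the last two terms are `em` for `N x = 1` and `ez` for `N x = 3`; if `N c = 3`: `ez` for `N x = 1`, `em` for `N x = 3` (`9 = 1`). As `em + ep = ez`, `ez + ep = em` (`two_ep`), take `ε = ε1 + ε2 + em` (`N c = 1`) or `ε1 + ε2 + ez` (`N c = 3`).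
-/

set_option autoImplicit false

namespace Pool.Agent.Work.MP_8efaaa_nt.T3

open NumberField Pool.Agent.Work.MP_8efaaa_nt.R Pool.Agent.Work.MP_8efaaa_nt.N5
  Pool.Agent.Work.MP_8efaaa_nt.K6 Pool.Agent.Work.MP_8efaaa_nt.W14
open scoped Classical nonZeroDivisors

variable {K F : Type*} [Field K] [NumberField K] [Field F] [NumberField F] [Algebra K F] {a : ℕ}
  {s : K} {S : 𝓞 K} {τ : 𝓞 K ≃+* 𝓞 K} {ζ : F} {w : ℕ → F} {z k v : Ideal (𝓞 K) → F}
  {κ : F ≃ₐ[ℚ] F}

private theorem kx_odd_mul {c d : Ideal (𝓞 K)} (hc : OddI c) (hd : OddI d) : OddI (c * d) := by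
  unfold OddI at *
  rw [map_mul]
  exact hc.mul hd

private theorem kx_tr (hb : B6 K a s) (hS : algebraMap (𝓞 K) K S = s)
    (hU : UD6 K F a s S τ ζ w z k v κ) {α : 𝓞 K}
    (hα : Ideal.absNorm (Ideal.span {α}) % 8 = 1) :
    ∃ ε : (cQ F).Point, ε + ε = 0 ∧
      ∀ c, OddI c → PP z k v (Ideal.span {α} * c) = PP z k v c + ε := by
  obtain ⟨e, h1, h2, he⟩ := V6.tr_px hb hS hU hα
  obtain ⟨t1, t2, t3, -, -, -⟩ := two_ep (F := F)
  refine ⟨e, ?_, he⟩
  by_cases h : Ideal.absNorm (Ideal.span {α}) % 16 = 1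
  · rcases h1 h with rfl | rfl
    · exact add_zero _
    · exact t2
  · rcases h2 h with rfl | rfl
    · exact t3
    · exact t1

theorem kk_one (hb : B6 K a s) (hS : algebraMap (𝓞 K) K S = s) (hτ : τ S = -S)
    (ha : a % 16 = 14) (hU : UD6 K F a s S τ ζ w z k v κ) {b c : M13 K}
    (h : cls (b : Ideal (𝓞 K)) = cls (c : Ideal (𝓞 K))) :
    ∃ ε : (cQ F).Point, ε + ε = 0 ∧ ∀ x, OddI x →
      PP z k v ((b : Ideal (𝓞 K)) * x) = PP z k v ((c : Ideal (𝓞 K)) * x) + ε := by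
  obtain ⟨α, β, hαβ, hβ, hα⟩ := equiv6 hb hS hτ (M13.odd b.2) (M13.odd c.2) h
  have hN := norm_clM hb hS hτ ha ((clM_eq hb hS).2 (Or.inl h))
  have hbo := M13.odd b.2
  have hα1 : Ideal.absNorm (Ideal.span {α}) % 8 = 1 := by
    rcases hα with h1 | h1
    · exact h1
    · exfalso
      have h4 := congrArg (fun I : Ideal (𝓞 K) => Ideal.absNorm I % 8) hαβ
      simp only [map_mul] at h4
      rw [Nat.mul_mod, Nat.mul_mod (Ideal.absNorm (Ideal.span {β})), hβ, h1, ← hN] at h4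
      unfold OddI at hbo
      rw [Nat.odd_iff] at hbo
      omega
  obtain ⟨e, e2, he⟩ := kx_tr hb hS hU hα1
  obtain ⟨f, f2, hf⟩ := kx_tr hb hS hU hβ
  refine ⟨e + f, ?_, ?_⟩
  · calc e + f + (e + f) = (e + e) + (f + f) := by abel
      _ = 0 := by rw [e2, f2, add_zero]
  · intro x hx
    have hbx := kx_odd_mul (M13.odd b.2) hx
    have hcx := kx_odd_mul (M13.odd c.2) hx
    have h5 := he _ hbx
    have h6 := hf _ hcx
    rw [← mul_assoc, hαβ, mul_assoc, h6] at h5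
    have h7 : PP z k v ((b : Ideal (𝓞 K)) * x) + e = PP z k v ((c : Ideal (𝓞 K)) * x) + f :=
      h5.symm
    calc PP z k v ((b : Ideal (𝓞 K)) * x) = (PP z k v ((b : Ideal (𝓞 K)) * x) + e) + e := by
          rw [add_assoc, e2, add_zero]
      _ = PP z k v ((c : Ideal (𝓞 K)) * x) + (e + f) := by
          rw [h7, add_assoc, add_comm f e]

theorem kk_two (hb : B6 K a s) (hS : algebraMap (𝓞 K) K S = s) (hτ : τ S = -S)
    (ha : a % 16 = 14) (hU : UD6 K F a s S τ ζ w z k v κ) {T T' : (cQ F).Point}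
    (hT : Tq S z k v T) (hT' : Fr a S z k v T') {b c : M13 K}
    (h : cls (b : Ideal (𝓞 K)) = cls (r6 S 2) * cls (c : Ideal (𝓞 K))) :
    ∃ ε : (cQ F).Point, ε + ε = 0 ∧ ∀ x ∈ M13 K,
      PP z k v ((b : Ideal (𝓞 K)) * x) = PP z k v ((c : Ideal (𝓞 K)) * x) + (T - T' + ε) +
        if Ideal.absNorm x % 8 = 1 then 0 else ep F := by
  have hd : a / 2 ∣ a := ⟨2, by have := hb.mod; omega⟩
  have hnr := norm_r6 hb hS hd
  have hro : OddI (r6 S (a / 2)) := by
    unfold OddI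
    rw [hnr, Nat.odd_iff]
    omega
  have hC'o : OddI (r6 S (a / 2) * (c : Ideal (𝓞 K))) := kx_odd_mul hro (M13.odd c.2)
  have hcl : cls (b : Ideal (𝓞 K)) = cls (r6 S (a / 2) * (c : Ideal (𝓞 K))) := by
    rw [cls_mul (r6_ne hb hS hd) (M13.ne c.2), (cls_two hb hS).2, h]
  obtain ⟨α, β, hαβ, hβ, hα⟩ := equiv6 hb hS hτ (M13.odd b.2) hC'o hcl
  have hN := norm_clM hb hS hτ ha ((clM_eq hb hS).2 (Or.inr h))
  have hbo := M13.odd b.2
  have hα7 : Ideal.absNorm (Ideal.span {α}) % 8 = 7 := by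
    rcases hα with h1 | h1
    · exfalso
      have h4 := congrArg (fun I : Ideal (𝓞 K) => Ideal.absNorm I % 8) hαβ
      simp only [map_mul] at h4
      rw [Nat.mul_mod, Nat.mul_mod (Ideal.absNorm (Ideal.span {β})), hβ, h1, hnr,
        Nat.mul_mod (a / 2), ← hN, show (a / 2) % 8 = 7 by omega] at h4
      unfold OddI at hbo
      rw [Nat.odd_iff] at hbo
      omega
    · exact h1
  have hg := norm_g hb hS
  have hgα : Ideal.absNorm (Ideal.span {(1 + S) * α}) % 8 = 1 := by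
    rw [← Ideal.span_singleton_mul_span_singleton, map_mul, Nat.mul_mod, hg, hα7,
      show (1 + a) % 8 = 7 by omega]
  obtain ⟨e, e2, he⟩ := kx_tr hb hS hU hgα
  obtain ⟨f, f2, hf⟩ := kx_tr hb hS hU hβ
  obtain ⟨t1, t2, t3, t4, t5, t6⟩ := two_ep (F := F)
  have hgo : OddI (Ideal.span {1 + S}) := by
    unfold OddI
    rw [hg, Nat.odd_iff]
    omega
  -- the general relation
  have hmain : ∀ x, OddI x → PP z k v ((b : Ideal (𝓞 K)) * x) =
      PP z k v ((c : Ideal (𝓞 K)) * x) + (T - T') + (e + f) +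
        (if Ideal.absNorm ((c : Ideal (𝓞 K)) * x) % 4 = 1 then W14.em F else 0) +
        (if Ideal.absNorm ((c : Ideal (𝓞 K)) * x) % 8 = 1 ∨
          Ideal.absNorm ((c : Ideal (𝓞 K)) * x) % 8 = 7 then 0 else ez F) := by
    intro x hx
    have hbx := kx_odd_mul (M13.odd b.2) hx
    have hcx := kx_odd_mul (M13.odd c.2) hx
    have hC'x := kx_odd_mul hro hcx
    have h5 := he _ hbx
    have h6 := hf _ (kx_odd_mul hgo hC'x)
    have h7 : Ideal.span {(1 + S) * α} * ((b : Ideal (𝓞 K)) * x) =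
        Ideal.span {β} * (Ideal.span {1 + S} * (r6 S (a / 2) * ((c : Ideal (𝓞 K)) * x))) := by
      rw [← Ideal.span_singleton_mul_span_singleton]
      calc Ideal.span {1 + S} * Ideal.span {α} * ((b : Ideal (𝓞 K)) * x) =
          Ideal.span {1 + S} * (Ideal.span {α} * (b : Ideal (𝓞 K))) * x := by ring
        _ = _ := by rw [hαβ]; ring
    rw [h7, h6] at h5
    have h8 := hT.rel _ hC'x
    have h9 := hT'.rel _ hcx
    have hNC : Ideal.absNorm (r6 S (a / 2) * ((c : Ideal (𝓞 K)) * x)) % 4 = 1 ↔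
        ¬ Ideal.absNorm ((c : Ideal (𝓞 K)) * x) % 4 = 1 := by
      rw [map_mul (Ideal.absNorm) (r6 S (a / 2)), hnr, Nat.mul_mod,
        show (a / 2) % 4 = 3 by omega]
      unfold OddI at hcx
      rw [Nat.odd_iff] at hcx
      omega
    have h10 : (if Ideal.absNorm (r6 S (a / 2) * ((c : Ideal (𝓞 K)) * x)) % 4 = 1 then
        (0 : (cQ F).Point) else W14.em F) =
        if Ideal.absNorm ((c : Ideal (𝓞 K)) * x) % 4 = 1 then W14.em F else 0 := by
      by_cases h11 : Ideal.absNorm ((c : Ideal (𝓞 K)) * x) % 4 = 1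
      · rw [if_pos h11, if_neg (fun h12 => hNC.1 h12 h11)]
      · rw [if_neg h11, if_pos (hNC.2 h11)]
    rw [h10] at h8
    set P1 := PP z k v ((b : Ideal (𝓞 K)) * x)
    set P2 := PP z k v (Ideal.span {1 + S} * (r6 S (a / 2) * ((c : Ideal (𝓞 K)) * x)))
    set P3 := PP z k v (r6 S (a / 2) * ((c : Ideal (𝓞 K)) * x))
    set P4 := PP z k v ((c : Ideal (𝓞 K)) * x)
    set A : (cQ F).Point :=
      if Ideal.absNorm ((c : Ideal (𝓞 K)) * x) % 4 = 1 then W14.em F else 0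
    set B : (cQ F).Point := if Ideal.absNorm ((c : Ideal (𝓞 K)) * x) % 8 = 1 ∨
          Ideal.absNorm ((c : Ideal (𝓞 K)) * x) % 8 = 7 then 0 else ez F with hB
    have hB2 : B + B = 0 := by
      rw [hB]
      split_ifs
      · exact add_zero _
      · exact t3
    -- h5 : P2 + f = P1 + e, h8 : P2 + P3 = T + A, h9 : P3 + P4 = T' + B
    have k1 : P2 = T + A - P3 := eq_sub_of_add_eq h8
    have k2 : P3 = T' + B - P4 := eq_sub_of_add_eq h9
    have k3 : P1 = P2 + f - e := eq_sub_of_add_eq h5.symm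
    have k4 : -e = e := neg_eq_of_add_eq_zero_left e2
    have k5 : -B = B := neg_eq_of_add_eq_zero_left hB2
    calc P1 = P4 + (T - T') + (-e + f) + A + -B := by
          rw [k3, k1, k2]
          abel
      _ = P4 + (T - T') + (e + f) + A + B := by rw [k4, k5]
  have hc13 : Ideal.absNorm (c : Ideal (𝓞 K)) % 8 = 1 ∨
      Ideal.absNorm (c : Ideal (𝓞 K)) % 8 = 3 := c.2
  rcases hc13 with hc1 | hc3
  · refine ⟨e + f + W14.em F, ?_, ?_⟩
    · calc e + f + W14.em F + (e + f + W14.em F) = (e + e) + (f + f) + (W14.em F + W14.em F) := by abel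
        _ = 0 := by rw [e2, f2, t2, add_zero, add_zero]
    · intro x hx
      rw [hmain x (M13.odd hx)]
      have hx13 : Ideal.absNorm x % 8 = 1 ∨ Ideal.absNorm x % 8 = 3 := hx
      rcases hx13 with hx1 | hx3
      · have hN8 : Ideal.absNorm ((c : Ideal (𝓞 K)) * x) % 8 = 1 := by
          rw [map_mul, Nat.mul_mod, hc1, hx1]
        have hN4 : Ideal.absNorm ((c : Ideal (𝓞 K)) * x) % 4 = 1 := by omega
        rw [if_pos hN4, if_pos (Or.inl hN8), if_pos hx1]
        abel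
      · have hN8 : Ideal.absNorm ((c : Ideal (𝓞 K)) * x) % 8 = 3 := by
          rw [map_mul, Nat.mul_mod, hc1, hx3]
        rw [if_neg (by omega), if_neg (by omega), if_neg (by omega), ← t4]
        abel
  · refine ⟨e + f + ez F, ?_, ?_⟩
    · calc e + f + ez F + (e + f + ez F) = (e + e) + (f + f) + (ez F + ez F) := by abel
        _ = 0 := by rw [e2, f2, t3, add_zero, add_zero]
    · intro x hx
      rw [hmain x (M13.odd hx)]
      have hx13 : Ideal.absNorm x % 8 = 1 ∨ Ideal.absNorm x % 8 = 3 := hx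
      rcases hx13 with hx1 | hx3
      · have hN8 : Ideal.absNorm ((c : Ideal (𝓞 K)) * x) % 8 = 3 := by
          rw [map_mul, Nat.mul_mod, hc3, hx1]
        rw [if_neg (by omega), if_neg (by omega), if_pos hx1]
        abel
      · have hN8 : Ideal.absNorm ((c : Ideal (𝓞 K)) * x) % 8 = 1 := by
          rw [map_mul, Nat.mul_mod, hc3, hx3]
        have hN4 : Ideal.absNorm ((c : Ideal (𝓞 K)) * x) % 4 = 1 := by omega
        rw [if_pos hN4, if_pos (Or.inl hN8), if_neg (by omega), ← t5]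
        abel

end Pool.Agent.Work.MP_8efaaa_nt.T3
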