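import Mathlib

/-!
# T3/Sx (M): comparison of two systems of representatives (pure algebra)

sec_H: `Finset.induction_on`, with the additional claim `cl (∏ g ∈ J, r g) ∈ H` (all factors are in `H`). Step (`g ∉ J`, `R = ∏ r`, `R' = ∏ r'` over `J`): `P (r g * R) - P (r' g * R') = (P (r g * R) - P (r' g * R)) + (P (R * r' g) - P (R' * r' g)) = (P (r g) - P (r' g)) + (P R - P R')`, by h (`cl R ∈ H`; `cl R = cl R'` because `cl R = ∏ g = cl R'`, and `cl (r' g) ∈ H`).
sec_K: by induction prove for all `J ⊆ complement of H`: (i) `cl (∏ r) ∈ H ↔ Even J.card` (`Subgroup.mul_mem_iff_of_index_two`), (ii) `∑ (P (r g) - P (r' g)) = P R - P R' + if Even J.card ∧ cc R ≠ cc R' then e else 0`. Step: by h1, h2 (for `x = R`, `cl R ∉ H` iff `J.card` is odd, resp. for `x = r' g`, `cl (r' g) ∉ H`): `P (r g * R) - P (r' g * R) = P (r g) - P (r' g) + [tw g and card odd] e`, `P (R * r' g) - P (R' * r' g) = P R - P R' + [TW] e`, with `tw g : cc (r g) ≠ cc (r' g)`, `TW : cc R ≠ cc R'` (by hcl exactly one of `cc b = cc c`, `cc b = t * cc c` holds, as `t ≠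 1`). So the sum over `insert g J` is `P (r g R) - P (r' g R') + [tw g and card odd] e + [TW] e + [TW and card even] e`. If the card of `J` is even this is `.. + 0` (`e + e = 0`) and `insert g J` has odd card: fine. If it is odd, it is `.. + [tw g] e + [TW] e = .. + [exactly one of tw g, TW] e`, and `cc (r g R) ≠ cc (r' g R')` iff exactly one of `tw g`, `TW` holds (`t * t = 1`, `t ≠ 1`). At the end `Even J.card`.
-/

set_option autoImplicit false

namespace Pool.Agent.Work.MP_8efaaa_nt.T3

open scoped Classical

theorem sec_H {M A G : Type*} [CommMonoid M] [AddCommGroup A] [CommGroup G] {P : M → A}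
    {cl : M →* G} {H : Subgroup G}
    (h : ∀ b c x, cl b = cl c → cl x ∈ H → P (b * x) - P (c * x) = P b - P c) {J : Finset G}
    (hJ : ∀ g ∈ J, g ∈ H) {r r' : G → M} (hr : ∀ g ∈ J, cl (r g) = g)
    (hr' : ∀ g ∈ J, cl (r' g) = g) :
    ∑ g ∈ J, (P (r g) - P (r' g)) = P (∏ g ∈ J, r g) - P (∏ g ∈ J, r' g) := by
  classical
  have main : ∀ J : Finset G, (∀ g ∈ J, g ∈ H) → (∀ g ∈ J, cl (r g) = g) →
      (∀ g ∈ J, cl (r' g) = g) → cl (∏ g ∈ J, r g) ∈ H ∧
      cl (∏ g ∈ J, r g) = cl (∏ g ∈ J, r' g) ∧
      ∑ g ∈ J, (P (r g) - P (r' g)) = P (∏ g ∈ J, r g) - P (∏ g ∈ J, r' g) := by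
    intro J
    induction J using Finset.induction_on with
    | empty =>
      intro _ _ _
      refine ⟨?_, ?_, ?_⟩
      · rw [Finset.prod_empty, map_one]; exact H.one_mem
      · rw [Finset.prod_empty, Finset.prod_empty]
      · rw [Finset.sum_empty, Finset.prod_empty, Finset.prod_empty, sub_self]
    | insert g J hg ih =>
      intro hJ hr hr'
      obtain ⟨i1, i2, i3⟩ := ih (fun x hx => hJ x (Finset.mem_insert_of_mem hx))
        (fun x hx => hr x (Finset.mem_insert_of_mem hx))
        (fun x hx => hr' x (Finset.mem_insert_of_mem hx))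
      have gH := hJ g (Finset.mem_insert_self _ _)
      have g1 := hr g (Finset.mem_insert_self _ _)
      have g2 := hr' g (Finset.mem_insert_self _ _)
      rw [Finset.prod_insert hg, Finset.prod_insert hg, Finset.sum_insert hg]
      refine ⟨?_, ?_, ?_⟩
      · rw [map_mul, g1]; exact H.mul_mem gH i1
      · rw [map_mul, map_mul, g1, g2, i2]
      · have e1 := h (r g) (r' g) (∏ g ∈ J, r g) (g1.trans g2.symm) i1
        have e2 := h (∏ g ∈ J, r g) (∏ g ∈ J, r' g) (r' g) i2 (by rw [g2]; exact gH)
        rw [mul_comm (∏ g ∈ J, r g) (r' g), mul_comm (∏ g ∈ J, r' g) (r' g)] at e2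
        rw [i3, ← e1, ← e2]
        abel
  exact (main J hJ hr hr').2.2

theorem sec_K {M A C G : Type*} [CommMonoid M] [AddCommGroup A] [CommGroup C] [CommGroup G]
    {P : M → A} {cc : M →* C} {cl : M →* G} {t : C} {H : Subgroup G} {e : A} (he : e + e = 0)
    (ht : t * t = 1) (ht1 : t ≠ 1) (hcl : ∀ b c, cl b = cl c → cc b = cc c ∨ cc b = t * cc c)
    (h1 : ∀ b c x, cc b = cc c → P (b * x) - P (c * x) = P b - P c)
    (h2 : ∀ b c x, cc b = t * cc c →
      P (b * x) - P (c * x) = P b - P c + if cl x ∈ H then 0 else e)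
    (hi : H.index = 2) {J : Finset G} (hJ : ∀ g ∈ J, g ∉ H) (hJe : Even J.card) {r r' : G → M}
    (hr : ∀ g ∈ J, cl (r g) = g) (hr' : ∀ g ∈ J, cl (r' g) = g) :
    ∑ g ∈ J, (P (r g) - P (r' g)) = P (∏ g ∈ J, r g) - P (∏ g ∈ J, r' g) +
      if cc (∏ g ∈ J, r g) = cc (∏ g ∈ J, r' g) then 0 else e := by
  classical
  have htne : ∀ x y : C, x = t * y → x ≠ y := by
    rintro x y rfl hxy
    exact ht1 (mul_eq_right.mp hxy)
  have main : ∀ J : Finset G, (∀ g ∈ J, g ∉ H) → (∀ g ∈ J, cl (r g) = g) →
      (∀ g ∈ J, cl (r' g) = g) → (cl (∏ g ∈ J, r g) ∈ H ↔ Even J.card) ∧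
      cl (∏ g ∈ J, r g) = cl (∏ g ∈ J, r' g) ∧
      ∑ g ∈ J, (P (r g) - P (r' g)) = P (∏ g ∈ J, r g) - P (∏ g ∈ J, r' g) +
        if Even J.card ∧ cc (∏ g ∈ J, r g) ≠ cc (∏ g ∈ J, r' g) then e else 0 := by
    intro J
    induction J using Finset.induction_on with
    | empty =>
      intro _ _ _
      refine ⟨?_, ?_, ?_⟩
      · rw [Finset.prod_empty, map_one]
        simp
      · rw [Finset.prod_empty, Finset.prod_empty]
      · rw [Finset.sum_empty, Finset.prod_empty, Finset.prod_empty, sub_self]
        simp
    | insert g J hg ih =>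
      intro hJ hr hr'
      obtain ⟨i1, i2, i3⟩ := ih (fun x hx => hJ x (Finset.mem_insert_of_mem hx))
        (fun x hx => hr x (Finset.mem_insert_of_mem hx))
        (fun x hx => hr' x (Finset.mem_insert_of_mem hx))
      have gH := hJ g (Finset.mem_insert_self _ _)
      have g1 := hr g (Finset.mem_insert_self _ _)
      have g2 := hr' g (Finset.mem_insert_self _ _)
      rw [Finset.prod_insert hg, Finset.prod_insert hg, Finset.sum_insert hg,
        Finset.card_insert_of_notMem hg]
      refine ⟨?_, ?_, ?_⟩
      · rw [map_mul, g1, Subgroup.mul_mem_iff_of_index_two hi, i1, Nat.even_add_one]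
        constructor
        · intro h hh
          exact gH (h.mpr hh)
        · intro h
          exact ⟨fun hh => absurd hh gH, fun hh => absurd hh h⟩
      · rw [map_mul, map_mul, g1, g2, i2]
      · set R := ∏ g ∈ J, r g with hR
        set R' := ∏ g ∈ J, r' g with hR'
        have key : P (r g * R) - P (r' g * R') =
            (P (r g * R) - P (r' g * R)) + (P (R * r' g) - P (R' * r' g)) := by
          rw [mul_comm R (r' g), mul_comm R' (r' g)]
          abel
        have gH2 : cl (r' g) ∉ H := by rw [g2]; exact gH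
        rw [i3, key, map_mul, map_mul]
        rcases hcl (r g) (r' g) (g1.trans g2.symm) with a1 | a1
        · rcases hcl R R' i2 with b1 | b1
          · rw [h1 _ _ R a1, h1 _ _ (r' g) b1, if_neg (by rintro ⟨-, hh⟩; exact hh b1),
              if_neg (by rintro ⟨-, hh⟩; exact hh (by rw [a1, b1]))]
            abel
          · have b2 := htne _ _ b1
            rw [h1 _ _ R a1, h2 _ _ (r' g) b1, if_neg gH2]
            by_cases hev : Even J.card
            · rw [if_pos ⟨hev, b2⟩, if_neg (by rintro ⟨hh, -⟩; exact (Nat.even_add_one.mp hh) hev)]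
              rw [add_zero]
            · rw [if_neg (by rintro ⟨hh, -⟩; exact hev hh), if_pos]
              · have : P (r g) - P (r' g) + (P R - P R' + e) + e =
                    P (r g) - P (r' g) + (P R - P R') + (e + e) := by abel
                rw [this, he]
                abel
              · refine ⟨Nat.even_add_one.mpr hev, ?_⟩
                rw [a1]
                intro hh
                exact b2 (mul_left_cancel hh)
        · have a2 := htne _ _ a1
          rcases hcl R R' i2 with b1 | b1
          · rw [h2 _ _ R a1, h1 _ _ (r' g) b1, if_neg (c := Even J.card ∧ cc R ≠ cc R')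
              (by rintro ⟨-, hh⟩; exact hh b1)]
            by_cases hev : Even J.card
            · rw [if_pos (i1.mpr hev), if_neg (by rintro ⟨hh, -⟩; exact (Nat.even_add_one.mp hh) hev)]
              abel
            · rw [if_neg (fun hh => hev (i1.mp hh)), if_pos]
              · have : P (r g) - P (r' g) + e + (P R - P R') + e =
                    P (r g) - P (r' g) + (P R - P R') + (e + e) := by abel
                rw [this, he]
                abel
              · refine ⟨Nat.even_add_one.mpr hev, ?_⟩
                rw [b1]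
                intro hh
                exact a2 (mul_right_cancel hh)
          · have b2 := htne _ _ b1
            rw [h2 _ _ R a1, h2 _ _ (r' g) b1, if_neg gH2]
            have hprod : cc (r g) * cc R = cc (r' g) * cc R' := by
              rw [a1, b1]
              calc t * cc (r' g) * (t * cc R') = t * t * (cc (r' g) * cc R') := by
                    rw [mul_mul_mul_comm]
                _ = _ := by rw [ht, one_mul]
            rw [if_neg (c := Even (J.card + 1) ∧ cc (r g) * cc R ≠ cc (r' g) * cc R')
              (by rintro ⟨-, hh⟩; exact hh hprod)]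
            by_cases hev : Even J.card
            · rw [if_pos (i1.mpr hev), if_pos ⟨hev, b2⟩]
              abel
            · rw [if_neg (fun hh => hev (i1.mp hh)), if_neg (by rintro ⟨hh, -⟩; exact hev hh)]
              have : P (r g) - P (r' g) + e + (P R - P R' + e) + 0 =
                    P (r g) - P (r' g) + (P R - P R') + (e + e) := by abel
              rw [this, he]
              abel
  have h3 := (main J hJ hr hr').2.2
  rw [h3]
  congr 1
  by_cases h4 : cc (∏ g ∈ J, r g) = cc (∏ g ∈ J, r' g)
  · rw [if_pos h4, if_neg (by rintro ⟨-, hh⟩; exact hh h4)]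
  · rw [if_neg h4, if_pos ⟨hJe, h4⟩]

end Pool.Agent.Work.MP_8efaaa_nt.T3
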