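import Mathlib
import Pool.Agent.Work.MP_8efaaa_nt.T3.Defs
import Pool.Agent.Work.MP_8efaaa_nt.T3.Kx
import Pool.Agent.Work.MP_8efaaa_nt.T3.Sx
import Pool.Agent.Work.MP_8efaaa_nt.V6.PEx
import Pool.Agent.Work.MP_8efaaa_nt.W14.CCl
import Pool.Agent.Work.MP_8efaaa_nt.W14.CEq
import Pool.Agent.Work.MP_8efaaa_nt.W14.PGa

/-!
# T3/Cm (M): comparison of two systems of representatives

`P = PP z k v`, `t = cls (r6 S 2)`, `t * t = 1` (`cls_two`). Define the monoid homomorphism `cc : M13 K →* ClassGroup (𝓞 K)`, `cc c = cls c` (`cls_one`, `cls_mul`, `M13.ne`).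
`kk_one`, `kk_two` (T3/Kx; take `x = 1` to eliminate `ε`): for `b c x : M13 K`: `cc b = cc c → P (b x) - P (c x) = P b - P c`; `cc b = t * cc c → P (b x) - P (c x) = P b - P c + [clM x ∉ H] ep` (hH: `clM x ∈ H` iff `N x % 8 = 1`). `clM_eq` (W14/CCl): `clM b = clM c → cc b = cc c ∨ cc b = t * cc c`.
So `sec_H` (T3/Sx; for `cl x ∈ H`, both cases) for `J1 = univ.filter (· ∈ H)` and `sec_K` (with `e = ep`, `two_ep`) for `J2 = univ.filter (· ∉ H)`, of cardinality `card / 2` (`H.index = 2`, see the private `tab_card` of W14/TAb.lean), an even number (`IsSec.four`). Let `RH, RK` and `RH', RK'` be the products: `DD r - DD r' = (P RH - P RH') - (P RK - P RK' + if cc RK = cc RK' then 0 else ep)` (`Finset.sum_sub_distrib`).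
`P RH = P ((m1) u) = P u` (`V6.nat_px`, `m1 = 1 (mod 8)`), `P RK = P ((m2) u) = P u + e2`, where `e2` depends only on `m2 % 8 = 3 ^ (card/4) % 8` (`nat_px`), and the same for `r'`; so `(P RH - P RH') - (P RK - P RK') = 0`. `cc RK = cc u`, `cc RK' = cc u'` (`cls_span`, `m2 ≠ 0` because it is odd: `3 ^ n % 8` is odd). `clM RK = ∏ g = clM RK'` (`map_prod`), so `clM u = clM u'` and `cc u = cc u'` or `cc u = t * cc u'`. First case: `DD r - DD r' = 0`. Second case (`cc u ≠ cc u'` by ht1): `DD r - DD r' = -ep = ep`. (The product in `M13 K` of the ideal `(m)` and `u`: work with the ideals, `(m)` itself is odd, `m2 % 8` is `1` or `3`, so `(m2)` has norm `m2^2 = 1 (mod 8)` and lies in `M13 K`.)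
-/

set_option autoImplicit false

namespace Pool.Agent.Work.MP_8efaaa_nt.T3

open NumberField Pool.Agent.Work.MP_8efaaa_nt.R Pool.Agent.Work.MP_8efaaa_nt.N5
  Pool.Agent.Work.MP_8efaaa_nt.K6 Pool.Agent.Work.MP_8efaaa_nt.W14
open scoped Classical nonZeroDivisors

variable {K F : Type*} [Field K] [NumberField K] [Field F] [NumberField F] [Algebra K F] {a : ℕ}
  {s : K} {S : 𝓞 K} {τ : 𝓞 K ≃+* 𝓞 K} {ζ : F} {w : ℕ → F} {z k v : Ideal (𝓞 K) → F}
  {κ : F ≃ₐ[ℚ] F}

private theorem cm_card {G : Type*} [CommGroup G] [Fintype G] {H : Subgroup G}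
    (h : H.index = 2) (h4 : 4 ∣ Fintype.card G) :
    Even (Finset.univ.filter (fun g : G => g ∉ H)).card := by
  have h1 : (Finset.univ.filter (fun g : G => g ∈ H)).card = Nat.card H := by
    rw [Nat.card_eq_fintype_card]
    exact (Fintype.card_subtype _).symm
  have h2 := Subgroup.card_mul_index H
  rw [h, Nat.card_eq_fintype_card (α := G)] at h2
  have h3 := Finset.card_filter_add_card_filter_not (s := (Finset.univ : Finset G))
    (fun g : G => g ∈ H)
  rw [Finset.card_univ] at h3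
  rw [Nat.even_iff]
  obtain ⟨l, hl⟩ := h4
  omega

private theorem cm_odd {m n : ℕ} (h : m % 8 = 3 ^ n % 8) : Odd m := by
  have h1 : 3 ^ n % 2 = 1 := Nat.odd_iff.1 (Odd.pow (by decide))
  rw [Nat.odd_iff]
  omega

private theorem cm_cls {K : Type*} [Field K] [NumberField K] {m : ℕ} (hm : Odd m) (u : M13 K) :
    cls (Ideal.span {(m : 𝓞 K)} * (u : Ideal (𝓞 K))) = cls (u : Ideal (𝓞 K)) := by
  have hm0 : (m : 𝓞 K) ≠ 0 := by
    rw [Nat.cast_ne_zero]
    rintro rfl
    exact absurd hm (by decide)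
  have hs : Ideal.span {(m : 𝓞 K)} ≠ (0 : Ideal (𝓞 K)) := by
    intro h
    exact hm0 (Ideal.span_singleton_eq_bot.1 h)
  rw [cls_mul hs (M13.ne u.2), cls_span hm0, one_mul]

theorem cmp14 (hb : B6 K a s) (hS : algebraMap (𝓞 K) K S = s) (hτ : τ S = -S)
    (ha : a % 16 = 14) (hU : UD6 K F a s S τ ζ w z k v κ) {T T' : (cQ F).Point}
    (hT : Tq S z k v T) (hT' : Fr a S z k v T') (ht1 : cls (r6 S 2) ≠ 1)
    {H : Subgroup (CG S)} (hi : H.index = 2)
    (hH : ∀ c : M13 K, clM S c ∈ H ↔ Ideal.absNorm (c : Ideal (𝓞 K)) % 8 = 1)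
    [Fintype (CG S)] {r r' : CG S → M13 K} {u u' : M13 K} (h : IsSec H r u)
    (h' : IsSec H r' u') :
    (cls (u : Ideal (𝓞 K)) = cls (u' : Ideal (𝓞 K)) ∧ DD z k v H r = DD z k v H r') ∨
    (cls (u : Ideal (𝓞 K)) = cls (r6 S 2) * cls (u' : Ideal (𝓞 K)) ∧
      DD z k v H r = DD z k v H r' + ep F) := by
  obtain ⟨P, hP⟩ : ∃ P : M13 K → (cQ F).Point, ∀ c, P c = PP z k v (c : Ideal (𝓞 K)) :=
    ⟨_, fun c => rfl⟩
  let cc : M13 K →* ClassGroup (𝓞 K) :=
    { toFun := fun c => cls (c : Ideal (𝓞 K))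
      map_one' := cls_one
      map_mul' := fun b c => cls_mul (M13.ne b.2) (M13.ne c.2) }
  have hcc : ∀ c : M13 K, cc c = cls (c : Ideal (𝓞 K)) := fun c => rfl
  have ht2 := (cls_two hb hS).1
  have hep := (two_ep (F := F)).1
  have h1 : ∀ b c x : M13 K, cc b = cc c → P (b * x) - P (c * x) = P b - P c := by
    intro b c x hbc
    obtain ⟨ε, -, hε⟩ := kk_one hb hS hτ ha hU hbc
    have k1 := hε x (M13.odd x.2)
    have k2 := hε 1 (M13.odd (M13 K).one_mem)
    rw [mul_one, mul_one] at k2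
    rw [hP, hP, hP, hP]
    show PP z k v ((b : Ideal (𝓞 K)) * x) - PP z k v ((c : Ideal (𝓞 K)) * x) = _
    rw [k1, k2]
    abel
  have h2 : ∀ b c x : M13 K, cc b = cls (r6 S 2) * cc c →
      P (b * x) - P (c * x) = P b - P c + if clM S x ∈ H then 0 else ep F := by
    intro b c x hbc
    obtain ⟨ε, -, hε⟩ := kk_two hb hS hτ ha hU hT hT' hbc
    have k1 := hε x x.2
    have k2 := hε 1 (M13 K).one_mem
    rw [mul_one, mul_one, map_one, if_pos (by norm_num), add_zero] at k2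
    rw [hP, hP, hP, hP]
    show PP z k v ((b : Ideal (𝓞 K)) * x) - PP z k v ((c : Ideal (𝓞 K)) * x) = _
    rw [k1, k2]
    by_cases hx : clM S x ∈ H
    · rw [if_pos hx, if_pos ((hH x).1 hx)]
      abel
    · rw [if_neg hx, if_neg (fun h3 => hx ((hH x).2 h3))]
      abel
  have hcl : ∀ b c : M13 K, clM S b = clM S c → cc b = cc c ∨ cc b = cls (r6 S 2) * cc c :=
    fun b c hbc => (clM_eq hb hS).1 hbc
  have h3 : ∀ b c x : M13 K, clM S b = clM S c → clM S x ∈ H →
      P (b * x) - P (c * x) = P b - P c := by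
    intro b c x hbc hx
    rcases hcl b c hbc with k | k
    · exact h1 b c x k
    · rw [h2 b c x k, if_pos hx, add_zero]
  -- the sums
  have s1 := sec_H (P := P) (cl := clM S) (H := H) h3 (J := Finset.univ.filter (· ∈ H))
    (fun g hg => (Finset.mem_filter.1 hg).2) (r := r) (r' := r') (fun g _ => h.cl g)
    (fun g _ => h'.cl g)
  have s2 := sec_K (P := P) (cc := cc) (cl := clM S) (H := H) hep ht2 ht1 hcl h1 h2 hi
    (J := Finset.univ.filter (· ∉ H)) (fun g hg => (Finset.mem_filter.1 hg).2)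
    (cm_card hi h.four) (r := r) (r' := r') (fun g _ => h.cl g) (fun g _ => h'.cl g)
  rw [Finset.sum_sub_distrib] at s1 s2
  obtain ⟨m1, m2, hm1, hm2, hRH, hRK⟩ := h.prod
  obtain ⟨m1', m2', hm1', hm2', hRH', hRK'⟩ := h'.prod
  have ho1 : Odd m1 := by
    rw [Nat.odd_iff]
    omega
  have ho1' : Odd m1' := by
    rw [Nat.odd_iff]
    omega
  have ho2 := cm_odd hm2
  have ho2' := cm_odd hm2'
  -- the classes of the products
  have hc1 : clM S (∏ g ∈ Finset.univ.filter (· ∉ H), r g) =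
      clM S (∏ g ∈ Finset.univ.filter (· ∉ H), r' g) := by
    rw [map_prod, map_prod]
    exact Finset.prod_congr rfl fun g _ => by rw [h.cl, h'.cl]
  have hc2 := hcl _ _ hc1
  have e1 : cc (∏ g ∈ Finset.univ.filter (· ∉ H), r g) = cls (u : Ideal (𝓞 K)) := by
    rw [hcc, hRK, cm_cls ho2]
  have e2 : cc (∏ g ∈ Finset.univ.filter (· ∉ H), r' g) = cls (u' : Ideal (𝓞 K)) := by
    rw [hcc, hRK', cm_cls ho2']
  have p1 : P (∏ g ∈ Finset.univ.filter (· ∈ H), r g) = PP z k v (u : Ideal (𝓞 K)) := by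
    rw [hP, hRH, V6.nat_px hb hS hU ho1 (M13.odd u.2), if_pos (Or.inl hm1), add_zero]
  have p1' : P (∏ g ∈ Finset.univ.filter (· ∈ H), r' g) = PP z k v (u' : Ideal (𝓞 K)) := by
    rw [hP, hRH', V6.nat_px hb hS hU ho1' (M13.odd u'.2), if_pos (Or.inl hm1'), add_zero]
  obtain ⟨d, hd⟩ : ∃ d : (cQ F).Point, d = if m2 % 8 = 1 ∨ m2 % 8 = 7 then 0 else ez F :=
    ⟨_, rfl⟩
  have p2 : P (∏ g ∈ Finset.univ.filter (· ∉ H), r g) = PP z k v (u : Ideal (𝓞 K)) + d := by
    rw [hP, hRK, V6.nat_px hb hS hU ho2 (M13.odd u.2), hd]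
  have p2' : P (∏ g ∈ Finset.univ.filter (· ∉ H), r' g) = PP z k v (u' : Ideal (𝓞 K)) + d := by
    rw [hP, hRK', V6.nat_px hb hS hU ho2' (M13.odd u'.2), hd, hm2, hm2']
  rw [p1, p1'] at s1
  rw [p2, p2', e1, e2] at s2
  rw [e1, e2] at hc2
  have hDD : ∀ r : CG S → M13 K, DD z k v H r = (∑ g ∈ Finset.univ.filter (· ∈ H), P (r g)) -
      ∑ g ∈ Finset.univ.filter (· ∉ H), P (r g) := by
    intro r
    unfold DD
    simp only [hP]
  have hmain : DD z k v H r - DD z k v H r' =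
      -(if cls (u : Ideal (𝓞 K)) = cls (u' : Ideal (𝓞 K)) then 0 else ep F) := by
    rw [hDD, hDD]
    have k1 : ∀ A B C D : (cQ F).Point, A - B - (C - D) = (A - C) - (B - D) := fun A B C D => by
      abel
    rw [k1, s1, s2]
    abel
  rcases hc2 with hu | hu
  · left
    refine ⟨hu, ?_⟩
    rw [if_pos hu, neg_zero, sub_eq_zero] at hmain
    exact hmain
  · right
    refine ⟨hu, ?_⟩
    have hne : cls (u : Ideal (𝓞 K)) ≠ cls (u' : Ideal (𝓞 K)) := by
      rw [hu]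
      intro k1
      exact ht1 (mul_eq_right.1 k1)
    rw [if_neg hne, neg_eq_of_add_eq_zero_left hep, sub_eq_iff_eq_add'] at hmain
    exact hmain

end Pool.Agent.Work.MP_8efaaa_nt.T3
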