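import Mathlib
import Pool.Agent.Work.MP_8efaaa_nt.T3.Defs
import Pool.Agent.Work.MP_8efaaa_nt.V6.GNu
import Pool.Agent.Work.MP_8efaaa_nt.V6.GTw
import Pool.Agent.Work.MP_8efaaa_nt.W14.CHi
import Pool.Agent.Work.MP_8efaaa_nt.W14.CHf
import Pool.Agent.Work.MP_8efaaa_nt.W14.CCh
import Pool.Agent.Work.MP_8efaaa_nt.W14.CCl
import Pool.Agent.Work.MP_8efaaa_nt.W14.CEq

/-!
# T3/Gr (M): the group data for `a = 2 p q r`, `p = 1`, `q = 3`, `r = 5 (mod 8)`

The proof of `exists_grp3` (W14/TGr.lean; copy it with its private lemmas `nonprin`, `rel3`, `abs16`, `two3`; or use `V6.r6_one` (V6/GTw) for the non principal classes and `V6.two_nsq` (V6/GNu) for the prime `q = 3 (mod 8)`: `cls (r6 S 2)` is not a square) with `r1 = q`, `r2 = r`, `l = p`. Here `z0 = r6 S p` (norm `p = 1 (mod 8)`), `z1 = r6 S q` (norm `q = 3 (mod 8)`, also the ideal for `exists_H`). `a = 2 p q r = 14 (mod 16)`. `t = cls (r6 S 2)`; the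 classes with square `1` are the `cls (r6 S d)`, `d ∣ a` (`hil6`), and `cls (r6 S r) = t * cls (r6 S p) * cls (r6 S q)` (`r6_all`).
The last two claims: `r6 S p * r6 S q * r6 S r = r6 S (p q r)` (`r6_mul`), `a / 2 = p q r`; `cls (r6 S 2) ≠ 1` (`V6.r6_one`).
-/

set_option autoImplicit false

namespace Pool.Agent.Work.MP_8efaaa_nt.T3

open NumberField Pool.Agent.Work.MP_8efaaa_nt.R Pool.Agent.Work.MP_8efaaa_nt.N5
  Pool.Agent.Work.MP_8efaaa_nt.K6 Pool.Agent.Work.MP_8efaaa_nt.W14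
open scoped Classical nonZeroDivisors

variable {K : Type*} [Field K] [NumberField K] {s : K} {S : 𝓞 K} {τ : 𝓞 K ≃+* 𝓞 K}

private theorem nonprin {a : ℕ} (hb : B6 K a s) (hS : algebraMap (𝓞 K) K S = s) {d : ℕ} (hd : d ∣ a)
    (h1 : 1 < d) (h2 : d < a) : cls (r6 S d) ≠ 1 := by
  intro h
  obtain ⟨γ, -, hγ⟩ := prin_of_cls (r6_ne hb hS hd) h
  obtain ⟨x, y, hxy⟩ := coords6 hb γ
  have h3 := norm_lin6 hb hxy
  rw [← hγ, norm_r6 hb hS hd] at h3
  have h4 : y = 0 := by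
    by_contra hy
    have h5 : 1 ≤ y ^ 2 := by
      have := sq_nonneg y
      have h6 : y ^ 2 ≠ 0 := pow_ne_zero 2 hy
      omega
    have h7 : (d : ℤ) < a := by exact_mod_cast h2
    nlinarith [sq_nonneg x]
  rw [h4] at h3
  have h5 : d = x.natAbs * x.natAbs := by
    have h6 : ((x.natAbs * x.natAbs : ℕ) : ℤ) = x ^ 2 := by
      push_cast
      rw [← pow_two, sq_abs]
    have h7 : (d : ℤ) = ((x.natAbs * x.natAbs : ℕ) : ℤ) := by
      rw [h6, h3]
      ring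
    exact_mod_cast h7
  have h6 : IsUnit x.natAbs := hb.sf _ (h5 ▸ hd)
  rw [Nat.isUnit_iff] at h6
  rw [h6] at h5
  omega

private theorem S_ne {a : ℕ} (hb : B6 K a s) (hS : algebraMap (𝓞 K) K S = s) : S ≠ 0 := by
  rintro rfl
  rw [map_zero] at hS
  have h := hb.sq
  rw [← hS] at h
  have h1 : (a : K) = 0 := by linear_combination h
  exact hb.sf.ne_zero (by exact_mod_cast h1)

private theorem csq {a : ℕ} (hb : B6 K a s) (hS : algebraMap (𝓞 K) K S = s) {d : ℕ} (hd : d ∣ a) :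
    cls (r6 S d) * cls (r6 S d) = 1 := by
  have h := r6_ne hb hS hd
  rw [← cls_mul h h, r6_sq hb hS hd]
  apply cls_span
  have h1 : d ≠ 0 := by
    rintro rfl
    exact hb.sf.ne_zero (Nat.eq_zero_of_zero_dvd hd)
  exact_mod_cast h1

private theorem cmul {a : ℕ} (hb : B6 K a s) (hS : algebraMap (𝓞 K) K S = s) {d e : ℕ} (hd : d * e ∣ a) :
    cls (r6 S (d * e)) = cls (r6 S d) * cls (r6 S e) := by
  rw [r6_mul hb hS hd, cls_mul (r6_ne hb hS (dvd_of_mul_right_dvd hd))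
    (r6_ne hb hS (dvd_of_mul_left_dvd hd))]

private theorem call {a : ℕ} (hb : B6 K a s) (hS : algebraMap (𝓞 K) K S = s) : cls (r6 S a) = 1 := by
  rw [r6_all hb hS]
  exact cls_span (S_ne hb hS)

private theorem cone {a : ℕ} (hb : B6 K a s) (hS : algebraMap (𝓞 K) K S = s) : cls (r6 S 1) = 1 := by
  have h := csq hb hS (one_dvd a)
  have h1 := cmul hb hS (d := 1) (e := 1) (by rw [mul_one]; exact one_dvd a)
  rw [mul_one, h] at h1
  exact h1


/-- the classes: all the relations -/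
private theorem rel3 {r1 r2 l : ℕ} (hb : B6 K (2 * r1 * r2 * l) s)
    (hS : algebraMap (𝓞 K) K S = s) :
    cls (r6 S 2) * cls (r6 S 2) = 1 ∧ cls (r6 S r1) * cls (r6 S r1) = 1 ∧
    cls (r6 S r2) * cls (r6 S r2) = 1 ∧ cls (r6 S l) * cls (r6 S l) = 1 ∧
    cls (r6 S 2) * cls (r6 S r1) * cls (r6 S r2) * cls (r6 S l) = 1 := by
  have d2 : 2 ∣ 2 * r1 * r2 * l := ⟨r1 * r2 * l, by ring⟩
  have d1 : r1 ∣ 2 * r1 * r2 * l := ⟨2 * r2 * l, by ring⟩
  have d3 : r2 ∣ 2 * r1 * r2 * l := ⟨2 * r1 * l, by ring⟩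
  have dl : l ∣ 2 * r1 * r2 * l := ⟨2 * r1 * r2, by ring⟩
  refine ⟨csq hb hS d2, csq hb hS d1, csq hb hS d3, csq hb hS dl, ?_⟩
  have e0 := call hb hS
  rw [cmul hb hS (d := 2 * r1 * r2) (e := l) dvd_rfl,
    cmul hb hS (d := 2 * r1) (e := r2) ⟨l, by ring⟩,
    cmul hb hS (d := 2) (e := r1) ⟨r2 * l, by ring⟩] at e0
  exact e0

private theorem abs16 {G : Type*} [CommGroup G] {t c1 cl u v x z : G} (e2 : t * t = 1)
    (e1 : c1 * c1 = 1) (el : cl * cl = 1) (hu : u = 1 ∨ u = t) (hv : v = 1 ∨ v = c1)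
    (hx : x = 1 ∨ x = t * c1 * cl) (hz : z = 1 ∨ z = cl) :
    u * v * x * z = 1 ∨ u * v * x * z = t ∨ u * v * x * z = cl ∨ u * v * x * z = t * cl ∨
    u * v * x * z = c1 ∨ u * v * x * z = t * c1 ∨
    u * v * x * z = cl * c1 ∨ u * v * x * z = t * (cl * c1) := by
  have T2 : ∀ y, t * (t * y) = y := fun y => by rw [← mul_assoc, e2, one_mul]
  have T1 : ∀ y, c1 * (c1 * y) = y := fun y => by rw [← mul_assoc, e1, one_mul]
  have Tl : ∀ y, cl * (cl * y) = y := fun y => by rw [← mul_assoc, el, one_mul]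
  rcases hu with hu | hu <;> rcases hv with hv | hv <;> rcases hx with hx | hx <;>
    rcases hz with hz | hz <;> rw [hu, hv, hx, hz] <;>
    simp only [one_mul, mul_one, mul_assoc, mul_comm, mul_left_comm, e2, e1, el, T2, T1, Tl,
      true_or, or_true]

/-- the classes of order two -/
private theorem two3 {r1 r2 l : ℕ} (h1 : r1.Prime) (h2 : r2.Prime) (hl : l.Prime)
    (hb : B6 K (2 * r1 * r2 * l) s) (hS : algebraMap (𝓞 K) K S = s)
    (hτ : τ S = -S) {C : ClassGroup (𝓞 K)} (hC : C * C = 1) :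
    C = 1 ∨ C = cls (r6 S 2) ∨ C = cls (r6 S l) ∨ C = cls (r6 S 2) * cls (r6 S l) ∨
    C = cls (r6 S r1) ∨ C = cls (r6 S 2) * cls (r6 S r1) ∨
    C = cls (r6 S l) * cls (r6 S r1) ∨ C = cls (r6 S 2) * (cls (r6 S l) * cls (r6 S r1)) := by
  obtain ⟨e2, e1, e3, el, e0⟩ := rel3 hb hS
  have ec2 : cls (r6 S r2) = cls (r6 S 2) * cls (r6 S r1) * cls (r6 S l) := by
    calc cls (r6 S r2) = (cls (r6 S 2) * cls (r6 S 2)) * (cls (r6 S r1) * cls (r6 S r1)) *
          cls (r6 S r2) * (cls (r6 S l) * cls (r6 S l)) := by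
          rw [e2, e1, el, one_mul, one_mul, mul_one]
      _ = (cls (r6 S 2) * cls (r6 S r1) * cls (r6 S r2) * cls (r6 S l)) *
          (cls (r6 S 2) * cls (r6 S r1) * cls (r6 S l)) := by ac_rfl
      _ = _ := by rw [e0, one_mul]
  obtain ⟨d, hd, rfl⟩ := hil6 hb hS hτ hC
  obtain ⟨y, z, hy, hz, rfl⟩ := (Nat.dvd_mul).1 hd
  obtain ⟨y', x, hy', hx, rfl⟩ := (Nat.dvd_mul).1 hy
  obtain ⟨u, v, hu, hv, rfl⟩ := (Nat.dvd_mul).1 hy'
  have hu1 := (Nat.dvd_prime Nat.prime_two).1 hu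
  have hv1 := (Nat.dvd_prime h1).1 hv
  have hx1 := (Nat.dvd_prime h2).1 hx
  have hz1 := (Nat.dvd_prime hl).1 hz
  have hdd : u * v * x ∣ 2 * r1 * r2 * l := (dvd_mul_right _ _).trans hd
  have hddd : u * v ∣ 2 * r1 * r2 * l := (dvd_mul_right _ _).trans hdd
  rw [cmul hb hS hd, cmul hb hS hdd, cmul hb hS hddd]
  have eo := cone hb hS
  refine abs16 e2 e1 el ?_ ?_ ?_ ?_
  · rcases hu1 with rfl | rfl
    · exact Or.inl eo
    · exact Or.inr rfl
  · rcases hv1 with rfl | rfl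
    · exact Or.inl eo
    · exact Or.inr rfl
  · rcases hx1 with rfl | rfl
    · exact Or.inl eo
    · exact Or.inr ec2
  · rcases hz1 with rfl | rfl
    · exact Or.inl eo
    · exact Or.inr rfl

theorem exists_grp135 {p q r : ℕ} (hp : p.Prime) (hq : q.Prime) (hr : r.Prime)
    (hp8 : p % 8 = 1) (hq8 : q % 8 = 3) (hr8 : r % 8 = 5) (hb : B6 K (2 * p * q * r) s)
    (hS : algebraMap (𝓞 K) K S = s) (hτ : τ S = -S) :
    ∃ (H : Subgroup (CG S)) (z0 z1 : M13 K), H.index = 2 ∧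
      (∀ c : M13 K, clM S c ∈ H ↔ Ideal.absNorm (c : Ideal (𝓞 K)) % 8 = 1) ∧
      (z0 : Ideal (𝓞 K)) = r6 S p ∧ (z1 : Ideal (𝓞 K)) = r6 S q ∧
      clM S z0 ∈ H ∧ clM S z0 ≠ 1 ∧ clM S z1 ∉ H ∧
      (∀ g : CG S, g * g = 1 ↔ g = 1 ∨ g = clM S z0 ∨ g = clM S z1 ∨
        g = clM S z0 * clM S z1) ∧
      (z0 : Ideal (𝓞 K)) * (z1 : Ideal (𝓞 K)) * r6 S r = r6 S ((2 * p * q * r) / 2) ∧
      cls (r6 S 2) ≠ 1 := by
  have heq : 2 * p * q * r = 2 * q * r * p := by ring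
  have hb' := hb
  rw [heq] at hb'
  have d2 : 2 ∣ 2 * q * r * p := ⟨q * r * p, by ring⟩
  have d1 : q ∣ 2 * q * r * p := ⟨2 * r * p, by ring⟩
  have dr : r ∣ 2 * q * r * p := ⟨2 * q * p, by ring⟩
  have dl : p ∣ 2 * q * r * p := ⟨2 * q * r, by ring⟩
  have d2l : 2 * p ∣ 2 * q * r * p := ⟨q * r, by ring⟩
  have h7 : (q * r * p) % 8 = 7 := by
    rw [Nat.mul_mod, Nat.mul_mod q r, hq8, hr8, hp8]
  have ha : (2 * q * r * p) % 16 = 14 := by
    have h9 : 2 * q * r * p = 2 * (q * r * p) := by ring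
    rw [h9]
    omega
  have hp1 : 2 < p := by
    have := hp.two_le
    omega
  have hq2 : 2 ≤ q := hq.two_le
  have hr2 : 2 ≤ r := hr.two_le
  have hlt : 2 * p < 2 * q * r * p := by nlinarith [Nat.mul_le_mul hq2 hr2]
  have h2lt : 2 < 2 * q * r * p := by omega
  obtain ⟨e2, e1, e3, el, e0⟩ := rel3 hb' hS
  have hN1 : Ideal.absNorm (r6 S q) % 8 = 3 := by
    rw [norm_r6 hb' hS d1]
    exact hq8
  have hN0 : Ideal.absNorm (r6 S p) % 8 = 1 := by
    rw [norm_r6 hb' hS dl]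
    exact hp8
  obtain ⟨H, hidx, hH⟩ := exists_H hb' hS hτ ha hN1
  obtain ⟨z0, hz0⟩ : ∃ z0 : M13 K, (z0 : Ideal (𝓞 K)) = r6 S p := ⟨⟨r6 S p, Or.inl hN0⟩, rfl⟩
  obtain ⟨z1, hz1⟩ : ∃ z1 : M13 K, (z1 : Ideal (𝓞 K)) = r6 S q := ⟨⟨r6 S q, Or.inr hN1⟩, rfl⟩
  have hcz0 : cls (z0 : Ideal (𝓞 K)) = cls (r6 S p) := by rw [hz0]
  have hcz1 : cls (z1 : Ideal (𝓞 K)) = cls (r6 S q) := by rw [hz1]
  have hcc : ∀ b c : M13 K, cls ((b * c : M13 K) : Ideal (𝓞 K)) =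
      cls (b : Ideal (𝓞 K)) * cls (c : Ideal (𝓞 K)) := fun b c => by
    rw [Submonoid.coe_mul, cls_mul (M13.ne b.2) (M13.ne c.2)]
  have hone : cls ((1 : M13 K) : Ideal (𝓞 K)) = 1 := cls_one
  have sq1 : ∀ c : M13 K, cls (c : Ideal (𝓞 K)) * cls (c : Ideal (𝓞 K)) = 1 →
      clM S c * clM S c = 1 := by
    intro c hc
    rw [← map_mul, ← map_one (clM S), clM_eq hb' hS]
    left
    rw [hcc, hone, hc]
  have hnsq : ∀ c : M13 K, cls (c : Ideal (𝓞 K)) * cls (c : Ideal (𝓞 K)) ≠ cls (r6 S 2) :=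
    fun c => V6.two_nsq hb' hS hτ hq (Or.inl hq8) d1 _
  refine ⟨H, z0, z1, hidx, hH, hz0, hz1, ?_, ?_, ?_, ?_, ?_, ?_⟩
  · rw [hH, hz0]
    exact hN0
  · intro h
    rw [← map_one (clM S), clM_eq hb' hS, hone, hcz0, mul_one] at h
    rcases h with h | h
    · exact nonprin hb' hS dl (by omega) (by omega) h
    · refine nonprin hb' hS d2l (by omega) hlt ?_
      rw [cmul hb' hS d2l, h, e2]
  · rw [hH, hz1]
    omega
  · intro g
    constructor
    · intro hgg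
      obtain ⟨c, rfl⟩ := clM_surj hb' hS g
      rw [← map_mul, ← map_one (clM S), clM_eq hb' hS, hone, hcc, mul_one] at hgg
      have hcls : cls (c : Ideal (𝓞 K)) * cls (c : Ideal (𝓞 K)) = 1 :=
        hgg.resolve_right (hnsq c)
      rw [← map_one (clM S), ← map_mul, clM_eq hb' hS, clM_eq hb' hS, clM_eq hb' hS,
        clM_eq hb' hS, hone, hcc, hcz0, hcz1, mul_one]
      rcases two3 hq hr hp hb' hS hτ hcls with h | h | h | h | h | h | h | h
      · exact Or.inl (Or.inl h)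
      · exact Or.inl (Or.inr h)
      · exact Or.inr (Or.inl (Or.inl h))
      · exact Or.inr (Or.inl (Or.inr h))
      · exact Or.inr (Or.inr (Or.inl (Or.inl h)))
      · exact Or.inr (Or.inr (Or.inl (Or.inr h)))
      · exact Or.inr (Or.inr (Or.inr (Or.inl h)))
      · exact Or.inr (Or.inr (Or.inr (Or.inr h)))
    · have s0 := sq1 z0 (by rw [hcz0, el])
      have s1 := sq1 z1 (by rw [hcz1, e1])
      rintro (rfl | rfl | rfl | rfl)
      · exact mul_one 1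
      · exact s0
      · exact s1
      · rw [mul_mul_mul_comm, s0, s1, mul_one]
  · have h1 : (2 * p * q * r) / 2 = p * q * r := by
      have h2 : 2 * p * q * r = 2 * (p * q * r) := by ring
      rw [h2, Nat.mul_div_cancel_left _ (by norm_num)]
    rw [hz0, hz1, h1, r6_mul hb' hS (d := p * q) (e := r) ⟨2, by ring⟩,
      r6_mul hb' hS (d := p) (e := q) ⟨2 * r, by ring⟩]
  · exact nonprin hb' hS d2 (by norm_num) h2lt

end Pool.Agent.Work.MP_8efaaa_nt.T3
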