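import Mathlib
import Pool.Agent.Work.MP_8efaaa_nt.T3.Defs
import Pool.Agent.Work.MP_8efaaa_nt.W14.LPt
import Pool.Agent.Work.MP_8efaaa_nt.W14.LVx
import Pool.Agent.Work.MP_8efaaa_nt.W14.CEq
import Pool.Agent.Work.MP_8efaaa_nt.W14.PGa
import Pool.Agent.Work.MP_8efaaa_nt.K6.DAc
import Pool.Agent.Work.MP_8efaaa_nt.K6.DIn
import Pool.Agent.Work.MP_8efaaa_nt.R.EInt

/-!
# T3/In (S-M): inertia at a ramified prime `l`, every `a = 6 (mod 8)`

Model: `in_pp` (V6/SIn.lean), copy the proof. `exists_inert6`, `inert_act6` give `b` with `N b = 7 (mod 8)`, prime to `a`, `jacobiSym d (N b) = 1` if `l ∤ d`, `= -1` if `l ∣ d` (`d ∣ a`), and `PP (b * cj τ c) - PP c ∈ E1 V` for odd `c`. `w0 = (1 + S) b`, `N w0 = (1 + a) N b = 7 * 7 = 1 (mod 8)` (`norm_g`, `hb.mod`: `a = 6 (mod 8)`); `1 + a` is prime to `a`. `hT.rel` for `b * cj τ c`, of norm `N b N c = 3 N c (mod 4)` (`norm_cj6`): `PP (w0 * cj τ c) + PP (b * cj τ c) = T + [N c = 1 (mod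 4)] em`. So `InE`.
Symbols, `d ∣ a` odd: `jacobiSym (N w0) d = jacobiSym (1 + a) d * jacobiSym (N b) d = jacobiSym (N b) d` (`1 + a = 1 (mod d)`), and (`N b = 3 (mod 4)`) it is `jacobiSym d (N b)` if `d = 1 (mod 4)` (`jacobiSym.quadratic_reciprocity_one_mod_four`), `- jacobiSym d (N b)` if `d = 3 (mod 4)` (`jacobiSym.quadratic_reciprocity_three_mod_four`; see `sym_w` in Y6/Nsq.lean).
-/

set_option autoImplicit false

namespace Pool.Agent.Work.MP_8efaaa_nt.T3

open NumberField Pool.Agent.Work.MP_8efaaa_nt.R Pool.Agent.Work.MP_8efaaa_nt.N5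
  Pool.Agent.Work.MP_8efaaa_nt.K6 Pool.Agent.Work.MP_8efaaa_nt.W14
open scoped Classical nonZeroDivisors

variable {K F : Type*} [Field K] [NumberField K] [Field F] [NumberField F] [Algebra K F] {a : ℕ}
  {s : K} {S : 𝓞 K} {τ : 𝓞 K ≃+* 𝓞 K} {ζ : F} {w : ℕ → F} {z k v : Ideal (𝓞 K) → F}
  {κ : F ≃ₐ[ℚ] F}

theorem in_gen [IsGalois ℚ F] (hb : B6 K a s) (hS : algebraMap (𝓞 K) K S = s) (hτ : τ S = -S)
    (hU : UD6 K F a s S τ ζ w z k v κ) {T : (cQ F).Point} (hT : Tq S z k v T) {Γ : Type}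
    [LinearOrderedCommGroupWithZero Γ] {V : Valuation F Γ} {L : Ideal (𝓞 F)} (hV : VL V L)
    {l : ℕ} (hl : l.Prime) (hl2 : l ≠ 2) (hla : l ∣ a) (hlL : (l : 𝓞 F) ∈ L) :
    ∃ w0 : Ideal (𝓞 K), Ideal.absNorm w0 % 8 = 1 ∧ Nat.Coprime (Ideal.absNorm w0) a ∧
      InE τ z k v T (W5.E1 V) w0 ∧
      ∀ d, d ∣ a → Odd d → jacobiSym (Ideal.absNorm w0) d = if (d % 4 = 1 ↔ l ∣ d) then -1 else 1 := by
  obtain ⟨ι, hin, hι⟩ := exists_inert6 hb hl hl2 hla hV.prime hlL
  obtain ⟨b, h8, hba, hj, hj', hact⟩ := inert_act6 hb hS hτ hU hl hl2 hla hlL hin hι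
  obtain ⟨h2L, hV2, -⟩ := vl_odd hV hl hl2 hlL
  have hmem : ∀ c, OddI c → PP z k v (b * cj τ c) - PP z k v c ∈ W5.E1 V := by
    intro c hc
    obtain ⟨e1, e2, e3⟩ := hact c hc
    have hg : gal ι (PP z k v c) = PP z k v (b * cj τ c) := gal_pp ι e1 e2 e3
    obtain ⟨x, y, h, e, hVx, hVy⟩ := pp_val hU hV h2L hc
    have hred := vl_red hV (σ := ι) (n := 1) (fun t => by
      obtain ⟨u, hu, hu2⟩ := hin.triv t
      exact ⟨u, hu, by rw [hu2, pow_one]⟩)
    rw [← hg, e, gal_pt]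
    have hx1 := (hred x hVx).2
    have hy1 := (hred y hVy).2
    rw [pow_one] at hx1 hy1
    exact W5.sub_mem hV2 hVx hx1 hy1
  have ha6 := hb.mod
  have hN0 : Ideal.absNorm (Ideal.span {1 + S} * b) = (1 + a) * Ideal.absNorm b := by
    rw [map_mul, norm_g hb hS]
  have hw0 : Ideal.absNorm (Ideal.span {1 + S} * b) % 8 = 1 := by
    rw [hN0, Nat.mul_mod, h8]
    have h5 : (1 + a) % 8 = 7 := by omega
    rw [h5]
  refine ⟨Ideal.span {1 + S} * b, hw0, ?_, ?_, ?_⟩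
  · rw [hN0]
    refine Nat.Coprime.mul_left ?_ hba
    rw [Nat.coprime_add_self_left]
    exact Nat.coprime_one_left a
  · intro c hco
    obtain ⟨n1', -, -⟩ := norm_cj6 hb hS hτ c
    have hc2 : Ideal.absNorm c % 2 = 1 := Nat.odd_iff.1 hco
    have hN : Ideal.absNorm (b * cj τ c) % 4 = 3 * (Ideal.absNorm c % 4) % 4 := by
      rw [map_mul, n1', Nat.mul_mod]
      have h3 : Ideal.absNorm b % 4 = 3 := by omega
      rw [h3]
    have hodd : OddI (b * cj τ c) := by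
      unfold OddI
      rw [Nat.odd_iff]
      omega
    have h1 := hT.rel _ hodd
    have hif : (if Ideal.absNorm (b * cj τ c) % 4 = 1 then 0 else W14.em F) =
        (if Ideal.absNorm c % 4 = 1 then W14.em F else 0) := by
      by_cases h4 : Ideal.absNorm c % 4 = 1
      · rw [if_pos h4, if_neg (by omega)]
      · rw [if_neg h4, if_pos (by omega)]
    rw [hif, ← mul_assoc] at h1
    have h2 : PP z k v (Ideal.span {1 + S} * b * cj τ c) + PP z k v c -
        (T + if Ideal.absNorm c % 4 = 1 then W14.em F else 0) =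
        -(PP z k v (b * cj τ c) - PP z k v c) := by
      rw [← h1]
      abel
    rw [h2]
    exact (W5.E1 V).neg_mem (hmem c hco)
  · intro d hd hdo
    have hone : jacobiSym ((1 + a : ℕ) : ℤ) d = 1 := by
      rw [jacobiSym.mod_left]
      have h2 : ((1 + a : ℕ) : ℤ) % (d : ℤ) = 1 % (d : ℤ) := by
        obtain ⟨m, hm⟩ := hd
        rw [hm]
        push_cast
        rw [Int.add_mul_emod_self_left]
      rw [h2, ← jacobiSym.mod_left, jacobiSym.one_left]
    have hNb3 : Ideal.absNorm b % 4 = 3 := by omega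
    have hNbo : Odd (Ideal.absNorm b) := Nat.odd_iff.2 (by omega)
    have hd2 : d % 2 = 1 := Nat.odd_iff.1 hdo
    rw [hN0, Nat.cast_mul, jacobiSym.mul_left, hone, one_mul]
    have hd4 : d % 4 = 1 ∨ d % 4 = 3 := by omega
    rcases hd4 with h4 | h4
    · have h2 : jacobiSym (Ideal.absNorm b) d = jacobiSym d (Ideal.absNorm b) :=
        (jacobiSym.quadratic_reciprocity_one_mod_four h4 hNbo).symm
      rw [h2]
      by_cases hld : l ∣ d
      · rw [hj' d hd hld, if_pos ⟨fun _ => hld, fun _ => h4⟩]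
      · rw [hj d hd hld, if_neg (fun h => hld (h.1 h4))]
    · have h2 : jacobiSym (Ideal.absNorm b) d = -jacobiSym d (Ideal.absNorm b) :=
        jacobiSym.quadratic_reciprocity_three_mod_four hNb3 h4
      rw [h2]
      by_cases hld : l ∣ d
      · rw [hj' d hd hld, if_neg (fun h => by have := h.2 hld; omega), neg_neg]
      · rw [hj d hd hld, if_pos ⟨fun h => by omega, fun h => absurd h hld⟩]

end Pool.Agent.Work.MP_8efaaa_nt.T3
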