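import Mathlib
import Pool.Agent.Work.MP_8efaaa_nt.T3.Defs
import Pool.Agent.Work.MP_8efaaa_nt.T3.Kx
import Pool.Agent.Work.MP_8efaaa_nt.W5.E1
import Pool.Agent.Work.MP_8efaaa_nt.W14.LEp
import Pool.Agent.Work.MP_8efaaa_nt.W14.LPt
import Pool.Agent.Work.MP_8efaaa_nt.W14.LVx
import Pool.Agent.Work.MP_8efaaa_nt.W14.PGa
import Pool.Agent.Work.MP_8efaaa_nt.W14.CEq

/-!
# T3/Lq (M): the four fixed classes at the prime `q = 3 (mod 8)`

`P = PP z k v`, `E = W5.E1 V`, `x ≡ y` means `x - y ∈ E`. `V 2 = 1` (`vl_odd`). `pp_frob` (W14/LPt): `φ` with `P (r6 S q * c) ≡ gal φ (P c)` for odd `c`; `gal φ` maps `E` to itself (`gal_e1` with the second property of `φ`, see the proof of `loc0` in W14/TLo.lean), and fixes `0, ep, em, ez` (`gal_ep`, `gal_two`).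
(1) `kk_one` for `w0 * cj τ c0` (norm `N w0 N c0`, `norm_cj6`; in `M13 K` as a product of elements of `M13 K`) and `c0`: class `cls c0 * cls c0 * (cls c0)⁻¹ = cls c0` (hcl, `cls_cj`, `cls_mul`). So `P (w0 * cj τ c0 * x) = P (c0 * x) + ε`, `ε + ε = 0`; `ε` is one of `0, ep, em, ez` (use `ep_cases` with `ε + ε = 0 ∈ E`: `ε - e' ∈ E` with `2 (ε - e') = 0`, so `ε = e'` by `W5.two_pow_tors`), so `gal φ ε = ε`.
(2) `x1 = P c0`: `hE` at `c0` (`N c0 % 4 = 1`) and (1) with `x = 1`: `x1 + x1 + ε ≡ T + em`. `x2 = P (c0 z0)`: `hE` at `c0 z0` (`cj τ (c0 z0) = cj τ c0 * z0`: `cj_mul6`, hz0; norm `= 1 (mod 8)`) and (1) with `x = z0`: `x2 + x2 + ε ≡ T + em`. So `2 (x2 - x1) ∈ E`, `x2 ≡ x1 + e'`, `e'` one of `0, ep, em, ez` (`ep_cases`).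
(3) `gal φ T ≡ T + em`: `hT.rel` at `c = 1`: `T = P (1+S) + P 1`; `gal φ`: `≡ P (r6 S q * (1+S)) + P (r6 S q) = T + em`, by `hT.rel` at `r6 S q` (norm `q = 3 (mod 4)`, `norm_r6`).
(4) `P (c0 z1) = P (r6 S q * c0) ≡ gal φ x1`, `P (c0 (z0 z1)) ≡ gal φ x2`. So `x1 + x2 - P (c0 z1) - P (c0 z0 z1) ≡ (x1 + x2) - gal φ (x1 + x2) ≡ (x1 + x1) - gal φ (x1 + x1)` (`gal φ e' = e'`) `≡ (T + em + ε) - gal φ (T + em + ε) = T - gal φ T ≡ -em = em` (`-ε = ε`; `two_ep`).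
-/

set_option autoImplicit false

namespace Pool.Agent.Work.MP_8efaaa_nt.T3

open NumberField Pool.Agent.Work.MP_8efaaa_nt.R Pool.Agent.Work.MP_8efaaa_nt.N5
  Pool.Agent.Work.MP_8efaaa_nt.K6 Pool.Agent.Work.MP_8efaaa_nt.W14
open scoped Classical nonZeroDivisors

variable {K F : Type*} [Field K] [NumberField K] [Field F] [NumberField F] [Algebra K F] {a : ℕ}
  {s : K} {S : 𝓞 K} {τ : 𝓞 K ≃+* 𝓞 K} {ζ : F} {w : ℕ → F} {z k v : Ideal (𝓞 K) → F}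
  {κ : F ≃ₐ[ℚ] F}

/-- a point of order two is fixed by the automorphisms -/
private theorem lq_fix {V' : Type*} [LinearOrderedCommGroupWithZero V'] {V : Valuation F V'}
    (hV2 : V 2 = 1) (φ : F ≃ₐ[K] F) {ε : (cQ F).Point} (h : ε + ε ∈ W5.E1 V) :
    ∃ e : (cQ F).Point, gal φ e = e ∧ e + e = 0 ∧ ε - e ∈ W5.E1 V := by
  obtain ⟨h1, h2, h3, h4, h5, h6⟩ := two_ep (F := F)
  rcases ep_cases hV2 h with h7 | h7 | h7 | h7
  · exact ⟨0, map_zero _, add_zero _, by rw [sub_zero]; exact h7⟩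
  · exact ⟨ep F, gal_ep φ, h1, h7⟩
  · exact ⟨em F, (gal_two φ).1, h2, h7⟩
  · exact ⟨ez F, (gal_two φ).2.1, h3, h7⟩

private theorem lq_fix' {V' : Type*} [LinearOrderedCommGroupWithZero V'] {V : Valuation F V'}
    (hV2 : V 2 = 1) (φ : F ≃ₐ[K] F) {ε : (cQ F).Point} (h : ε + ε = 0) : gal φ ε = ε := by
  obtain ⟨e, h1, h2, h3⟩ := lq_fix hV2 φ (by rw [h]; exact (W5.E1 V).zero_mem)
  have h4 : ε - e = 0 := by
    refine W5.two_tors h3 ?_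
    have : ε - e + (ε - e) = (ε + ε) - (e + e) := by abel
    rw [this, h, h2, sub_zero]
  rw [sub_eq_zero.1 h4]
  exact h1

/-- the computation in the quotient group -/
private theorem lq_alg {Q : Type*} [AddCommGroup Q] (γ : Q →+ Q) {x1 x2 t em' ε e' : Q}
    (h1 : x1 + x1 + ε = t + em') (h2 : x2 - x1 - e' = 0) (h4 : γ e' = e')
    (h5 : γ t = t + em') (h6 : γ em' = em') (h7 : em' + em' = 0) (h8 : γ ε = ε) :
    x1 + x2 - γ x1 - γ x2 - em' = 0 := by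
  have h2' : x2 = x1 + e' := by
    rw [sub_eq_zero] at h2
    rw [← h2]
    abel
  have h9 := congrArg γ h1
  simp only [map_add, h5, h6, h8] at h9
  have h10 : em' = -em' := eq_neg_of_add_eq_zero_left h7
  rw [h2', map_add, h4]
  have e1 : x1 + (x1 + e') - γ x1 - (γ x1 + e') - em' =
      (x1 + x1 + ε) - (γ x1 + γ x1 + ε) - em' := by abel
  rw [e1, h1, h9]
  have e2 : t + em' - (t + em' + em') - em' = -(em' + em') := by abel
  rw [e2, h7, neg_zero]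

theorem loc_q [IsGalois K F] (hb : B6 K a s) (hS : algebraMap (𝓞 K) K S = s) (hτ : τ S = -S)
    (ha : a % 16 = 14) (hU : UD6 K F a s S τ ζ w z k v κ) {T : (cQ F).Point}
    (hT : Tq S z k v T) {Γ : Type} [LinearOrderedCommGroupWithZero Γ] {V : Valuation F Γ}
    {L : Ideal (𝓞 F)} (hV : VL V L) {q : ℕ} (hq : q.Prime) (hq8 : q % 8 = 3) (hqa : q ∣ a)
    (hqL : (q : 𝓞 F) ∈ L) {w0 c0 z0 z1 : M13 K}
    (hc8 : Ideal.absNorm (c0 : Ideal (𝓞 K)) % 8 = 1)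
    (hz8 : Ideal.absNorm (z0 : Ideal (𝓞 K)) % 8 = 1)
    (hz0 : cj τ (z0 : Ideal (𝓞 K)) = z0) (hz1 : (z1 : Ideal (𝓞 K)) = r6 S q)
    (hcl : cls (w0 : Ideal (𝓞 K)) = cls (c0 : Ideal (𝓞 K)) * cls (c0 : Ideal (𝓞 K)))
    (hE : InE τ z k v T (W5.E1 V) (w0 : Ideal (𝓞 K))) :
    PP z k v (c0 : Ideal (𝓞 K)) + PP z k v ((c0 : Ideal (𝓞 K)) * (z0 : Ideal (𝓞 K))) -
      PP z k v ((c0 : Ideal (𝓞 K)) * (z1 : Ideal (𝓞 K))) -
      PP z k v ((c0 : Ideal (𝓞 K)) * ((z0 : Ideal (𝓞 K)) * (z1 : Ideal (𝓞 K)))) - em F ∈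
        W5.E1 V := by
  obtain ⟨h2L, hV2, -⟩ := vl_odd hV hq (by omega) hqL
  obtain ⟨φ, -, hφ', hfr⟩ := pp_frob hb hS hU hV hq (by omega) hqa hqL
  obtain ⟨e1, e2, e3, -, -, -⟩ := two_ep (F := F)
  have hNcj : Ideal.absNorm (cj τ (c0 : Ideal (𝓞 K))) = Ideal.absNorm (c0 : Ideal (𝓞 K)) :=
    (norm_cj6 hb hS hτ _).1
  -- the element of `M13 K`
  let cc : M13 K := ⟨cj τ (c0 : Ideal (𝓞 K)), Or.inl (by rw [hNcj]; exact hc8)⟩
  have hcc : (cc : Ideal (𝓞 K)) = cj τ (c0 : Ideal (𝓞 K)) := rfl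
  have hb0 : ((w0 * cc : M13 K) : Ideal (𝓞 K)) =
      (w0 : Ideal (𝓞 K)) * cj τ (c0 : Ideal (𝓞 K)) := rfl
  have hcls : cls ((w0 * cc : M13 K) : Ideal (𝓞 K)) = cls (c0 : Ideal (𝓞 K)) := by
    rw [hb0, cls_mul (M13.ne w0.2) (cls_cj hb hS hτ (M13.ne c0.2)).1, hcl,
      (cls_cj hb hS hτ (M13.ne c0.2)).2, mul_assoc, mul_inv_cancel, mul_one]
  obtain ⟨ε, hε, hεx⟩ := kk_one hb hS hτ ha hU hcls
  have hgε : gal φ ε = ε := lq_fix' hV2 φ hε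
  -- oddness
  have o0 : OddI (c0 : Ideal (𝓞 K)) := M13.odd c0.2
  have oz : OddI (z0 : Ideal (𝓞 K)) := M13.odd z0.2
  have o1 : OddI (1 : Ideal (𝓞 K)) := by
    unfold OddI
    rw [map_one]
    exact odd_one
  have ocz : OddI ((c0 : Ideal (𝓞 K)) * (z0 : Ideal (𝓞 K))) := o0.mul oz
  have oq : OddI (r6 S q) := by
    unfold OddI
    rw [norm_r6 hb hS hqa]
    exact hq.odd_of_ne_two (by omega)
  have og : OddI (Ideal.span {1 + S}) := by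
    unfold OddI
    rw [norm_g hb hS, Nat.odd_iff]
    omega
  -- the inertia relation
  have r1 := hE _ o0
  rw [if_pos (by omega), ← hb0] at r1
  have r1' := hεx 1 o1
  rw [mul_one, mul_one] at r1'
  rw [r1'] at r1
  have hN2 : Ideal.absNorm ((c0 : Ideal (𝓞 K)) * (z0 : Ideal (𝓞 K))) % 4 = 1 := by
    rw [map_mul, Nat.mul_mod]
    have h1 : Ideal.absNorm (c0 : Ideal (𝓞 K)) % 4 = 1 := by omega
    have h2 : Ideal.absNorm (z0 : Ideal (𝓞 K)) % 4 = 1 := by omega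
    rw [h1, h2]
  have r2 := hE _ ocz
  rw [if_pos hN2, cj_mul6, hz0, ← mul_assoc, ← hb0, hεx _ oz] at r2
  -- the relation for `T`
  have t1 := hT.rel 1 o1
  rw [map_one, if_pos (by norm_num), mul_one, add_zero] at t1
  have t2 := hT.rel (r6 S q) oq
  rw [norm_r6 hb hS hqa, if_neg (by omega)] at t2
  have f0 := hfr _ og
  have f1 := hfr 1 o1
  rw [mul_one] at f1
  have f2 := hfr _ o0
  have f3 := hfr _ ocz
  -- the quotient group
  let π : (cQ F).Point →+ (cQ F).Point ⧸ W5.E1 V := QuotientAddGroup.mk' (W5.E1 V)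
  have hπ : ∀ x : (cQ F).Point, x ∈ W5.E1 V → π x = 0 := fun x hx =>
    (QuotientAddGroup.eq_zero_iff x).2 hx
  have hπ' : ∀ x : (cQ F).Point, π x = 0 → x ∈ W5.E1 V := fun x hx =>
    (QuotientAddGroup.eq_zero_iff x).1 hx
  let γ : ((cQ F).Point ⧸ W5.E1 V) →+ ((cQ F).Point ⧸ W5.E1 V) :=
    QuotientAddGroup.map (W5.E1 V) (W5.E1 V) (gal φ) (fun x hx => gal_e1 hφ' hx)
  have hγ : ∀ x : (cQ F).Point, γ (π x) = π (gal φ x) := fun x => rfl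
  have q1 := hπ _ r1
  have q2 := hπ _ r2
  have g0 := hπ _ f0
  have g1 := hπ _ f1
  have g2 := hπ _ f2
  have g3 := hπ _ f3
  rw [map_sub, sub_eq_zero] at g0 g1 g2 g3
  -- the difference of the two points
  have hd : (PP z k v ((c0 : Ideal (𝓞 K)) * (z0 : Ideal (𝓞 K))) - PP z k v (c0 : Ideal (𝓞 K))) +
      (PP z k v ((c0 : Ideal (𝓞 K)) * (z0 : Ideal (𝓞 K))) - PP z k v (c0 : Ideal (𝓞 K))) ∈
      W5.E1 V := by
    have h := (W5.E1 V).sub_mem r2 r1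
    convert h using 1
    abel
  obtain ⟨e', he1, he2, he3⟩ := lq_fix hV2 φ hd
  have q3 := hπ _ he3
  rw [map_sub, map_sub] at q3
  -- conclusion
  have hcomm1 : (c0 : Ideal (𝓞 K)) * (z1 : Ideal (𝓞 K)) = r6 S q * (c0 : Ideal (𝓞 K)) := by
    rw [hz1, mul_comm]
  have hcomm2 : (c0 : Ideal (𝓞 K)) * ((z0 : Ideal (𝓞 K)) * (z1 : Ideal (𝓞 K))) =
      r6 S q * ((c0 : Ideal (𝓞 K)) * (z0 : Ideal (𝓞 K))) := by
    rw [hz1, ← mul_assoc, mul_comm]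
  apply hπ'
  rw [hcomm1, hcomm2]
  simp only [map_sub, map_add] at q1 q2 ⊢
  rw [g2, g3, ← hγ, ← hγ]
  refine lq_alg γ (t := π T) (ε := π ε) (e' := π e') ?_ q3 ?_ ?_ ?_ ?_ ?_
  · rw [sub_eq_zero] at q1
    rw [← q1]
    abel
  · rw [hγ, he1]
  · have h1 : γ (π T) = π (PP z k v (r6 S q * Ideal.span {1 + S})) + π (PP z k v (r6 S q)) := by
      rw [← t1, map_add, map_add, hγ, hγ, g0, g1]
    rw [h1, mul_comm (r6 S q), ← map_add, t2, map_add]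
  · rw [hγ, (gal_two φ).1]
  · rw [← map_add, e2, map_zero]
  · rw [hγ, hgε]

end Pool.Agent.Work.MP_8efaaa_nt.T3
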