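import Mathlib
import Pool.Agent.Work.MP_8efaaa_nt.T3.Defs
import Pool.Agent.Work.MP_8efaaa_nt.T3.Kx
import Pool.Agent.Work.MP_8efaaa_nt.V6.PEx
import Pool.Agent.Work.MP_8efaaa_nt.W5.E1
import Pool.Agent.Work.MP_8efaaa_nt.W14.LEp
import Pool.Agent.Work.MP_8efaaa_nt.W14.LPt
import Pool.Agent.Work.MP_8efaaa_nt.W14.LVx
import Pool.Agent.Work.MP_8efaaa_nt.W14.PGa
import Pool.Agent.Work.MP_8efaaa_nt.W14.CEq

/-!
# T3/Lr (M): the four fixed classes at the prime `r = 5 (mod 8)`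

`P = PP z k v`, `E = W5.E1 V`, `x ≡ y` means `x - y ∈ E`. `V 2 = 1` (`vl_odd`). `pp_frob` (W14/LPt): `φ` with `P (r6 S r * c) ≡ gal φ (P c)` for odd `c`; `gal φ` maps `E` to itself (`gal_e1`, see the proof of `loc0` in W14/TLo.lean), and fixes `0, ep, em, ez` (`gal_ep`, `gal_two`). `V6.nat_px` (V6/PEx): `P ((n) c) = P c + [n not 1, 7 (mod 8)] ez`.
(1) `kk_two` for `w0 * cj τ c0` (in `M13 K`, `norm_cj6`) and `c0`: class `cls (r6 S 2) * cls c0 * cls c0 * (cls c0)⁻¹ = cls (r6 S 2) * cls c0` (hcl, `cls_cj`, `cls_mul`). So for `x ∈ M13 K` with `N x = 1 (mod 8)`: `P (w0 * cj τ c0 * x) = P (c0 * x) + (T - T' + ε)`, `ε + ε = 0`; `ε` is one of `0, ep, em, ez` (`ep_cases` with `ε + ε = 0 ∈ E`, then `W5.two_pow_tors`), so `gal φ ε = ε`.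
(2) `x1 = P c0`: `hE` at `c0` (`N c0 % 4 = 1`) and (1) with `x = 1`: `x1 + x1 + (T - T' + ε) ≡ T + em`, i.e. `x1 + x1 ≡ T' + em + ε`. `x2 = P (c0 z0)`: `hE` at `c0 z0` (`cj τ (c0 z0) = cj τ c0 * z0`: `cj_mul6`, hz0) and (1) with `x = z0`: `x2 + x2 ≡ T' + em + ε`. So `2 (x2 - x1) ∈ E`, `x2 ≡ x1 + e'`, `e'` one of `0, ep, em, ez` (`ep_cases`).
(3) `gal φ T' ≡ T' + ez`: `hT'.rel` at `c = 1`: `T' = P (r6 S (a/2)) + P 1`; `gal φ`: `≡ P (r6 S r * r6 S (a/2)) + P (r6 S r) = T' + ez`, by `hT'.rel` at `r6 S r` (norm `r = 5 (mod 8)`).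
(4) For every ideal `y` of norm `1 (mod 8)`: `P (z0 z1 y) ≡ T' - gal φ (P y)`. Proof: `hT'.rel` at `r6 S r * y` (norm `5 (mod 8)`): `P (r6 S (a/2) * (r6 S r * y)) + P (r6 S r * y) = T' + ez`, and `r6 S (a/2) * (r6 S r * y) = (r) (z0 z1 y)` (hzr, `r6_sq`), `P ((r) (z0 z1 y)) = P (z0 z1 y) + ez` (`nat_px`, `r = 5 (mod 8)`), so `P (z0 z1 y) = T' - P (r6 S r * y)`.
`y = c0`: `P (c0 (z0 z1)) ≡ T' - gal φ x1`. `y = z0 c0`: `z0 z1 (z0 c0) = (p) (c0 z1)` (hp), `nat_px` (`p = 1 (mod 8)`): `P (c0 z1) ≡ T' - gal φ x2`.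
(5) `x1 + x2 - P (c0 z1) - P (c0 z0 z1) ≡ (x1 + x2) + gal φ (x1 + x2) - (T' + T') ≡ (x1 + x1) + gal φ (x1 + x1) - ep` (`e' + gal φ e' = 0`; `hT'.two`) `≡ (T' + em + ε) + (T' + ez + em + ε) - ep = ep + ez - ep = ez` (`two_ep`).
-/

set_option autoImplicit false

namespace Pool.Agent.Work.MP_8efaaa_nt.T3

open NumberField Pool.Agent.Work.MP_8efaaa_nt.R Pool.Agent.Work.MP_8efaaa_nt.N5
  Pool.Agent.Work.MP_8efaaa_nt.K6 Pool.Agent.Work.MP_8efaaa_nt.W14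
open scoped Classical nonZeroDivisors

variable {K F : Type*} [Field K] [NumberField K] [Field F] [NumberField F] [Algebra K F] {a : ℕ}
  {s : K} {S : 𝓞 K} {τ : 𝓞 K ≃+* 𝓞 K} {ζ : F} {w : ℕ → F} {z k v : Ideal (𝓞 K) → F}
  {κ : F ≃ₐ[ℚ] F}

/-- a point of order two is fixed by the automorphisms -/
private theorem lr_fix {V' : Type*} [LinearOrderedCommGroupWithZero V'] {V : Valuation F V'}
    (hV2 : V 2 = 1) (φ : F ≃ₐ[K] F) {ε : (cQ F).Point} (h : ε + ε ∈ W5.E1 V) :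
    ∃ e : (cQ F).Point, gal φ e = e ∧ e + e = 0 ∧ ε - e ∈ W5.E1 V := by
  obtain ⟨h1, h2, h3, h4, h5, h6⟩ := two_ep (F := F)
  rcases ep_cases hV2 h with h7 | h7 | h7 | h7
  · exact ⟨0, map_zero _, add_zero _, by rw [sub_zero]; exact h7⟩
  · exact ⟨ep F, gal_ep φ, h1, h7⟩
  · exact ⟨em F, (gal_two φ).1, h2, h7⟩
  · exact ⟨ez F, (gal_two φ).2.1, h3, h7⟩

private theorem lr_fix' {V' : Type*} [LinearOrderedCommGroupWithZero V'] {V : Valuation F V'}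
    (hV2 : V 2 = 1) (φ : F ≃ₐ[K] F) {ε : (cQ F).Point} (h : ε + ε = 0) : gal φ ε = ε := by
  obtain ⟨e, h1, h2, h3⟩ := lr_fix hV2 φ (by rw [h]; exact (W5.E1 V).zero_mem)
  have h4 : ε - e = 0 := by
    refine W5.two_tors h3 ?_
    have : ε - e + (ε - e) = (ε + ε) - (e + e) := by abel
    rw [this, h, h2, sub_zero]
  rw [sub_eq_zero.1 h4]
  exact h1

/-- the computation in the quotient group -/
private theorem lr_alg {Q : Type*} [AddCommGroup Q] (γ : Q →+ Q) {x1 x2 t t' em' ez' ε e' : Q}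
    (h1 : x1 + x1 + (t - t' + ε) = t + em') (h2 : x2 - x1 - e' = 0) (h3 : e' + e' = 0)
    (h4 : γ e' = e') (h5 : γ t' = t' + ez') (h6 : γ em' = em') (h7 : em' + em' = 0)
    (h8 : γ ε = ε) (h9 : ε + ε = 0) :
    x1 + x2 - (t' - γ x2) - (t' - γ x1) - ez' = 0 := by
  have h2' : x2 = x1 + e' := by
    rw [sub_eq_zero] at h2
    rw [← h2]
    abel
  have h10 : x1 + x1 = t' + em' - ε := by
    have e1 : x1 + x1 = (x1 + x1 + (t - t' + ε)) - (t - t' + ε) := by abel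
    rw [e1, h1]
    abel
  have h11 := congrArg γ h10
  rw [map_add, map_sub, map_add, h5, h6, h8] at h11
  rw [h2', map_add, h4]
  have e1 : x1 + (x1 + e') - (t' - (γ x1 + e')) - (t' - γ x1) - ez' =
      (x1 + x1) + (γ x1 + γ x1) + (e' + e') - t' - t' - ez' := by abel
  rw [e1, h10, h11, h3]
  have e2 : t' + em' - ε + (t' + ez' + em' - ε) + 0 - t' - t' - ez' =
      (em' + em') - (ε + ε) := by abel
  rw [e2, h7, h9, sub_zero]

theorem loc_r [IsGalois K F] (hb : B6 K a s) (hS : algebraMap (𝓞 K) K S = s) (hτ : τ S = -S)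
    (ha : a % 16 = 14) (hU : UD6 K F a s S τ ζ w z k v κ) {T T' : (cQ F).Point}
    (hT : Tq S z k v T) (hT' : Fr a S z k v T') {Γ : Type} [LinearOrderedCommGroupWithZero Γ]
    {V : Valuation F Γ} {L : Ideal (𝓞 F)} (hV : VL V L) {p r : ℕ} (hr : r.Prime)
    (hr8 : r % 8 = 5) (hra : r ∣ a) (hrL : (r : 𝓞 F) ∈ L) {w0 c0 z0 z1 : M13 K}
    (hc8 : Ideal.absNorm (c0 : Ideal (𝓞 K)) % 8 = 1)
    (hz8 : Ideal.absNorm (z0 : Ideal (𝓞 K)) % 8 = 1)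
    (hz0 : cj τ (z0 : Ideal (𝓞 K)) = z0) (hp8 : p % 8 = 1)
    (hp : (z0 : Ideal (𝓞 K)) * (z0 : Ideal (𝓞 K)) = Ideal.span {(p : 𝓞 K)})
    (hzr : (z0 : Ideal (𝓞 K)) * (z1 : Ideal (𝓞 K)) * r6 S r = r6 S (a / 2))
    (hcl : cls (w0 : Ideal (𝓞 K)) =
      cls (r6 S 2) * (cls (c0 : Ideal (𝓞 K)) * cls (c0 : Ideal (𝓞 K))))
    (hE : InE τ z k v T (W5.E1 V) (w0 : Ideal (𝓞 K))) :
    PP z k v (c0 : Ideal (𝓞 K)) + PP z k v ((c0 : Ideal (𝓞 K)) * (z0 : Ideal (𝓞 K))) -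
      PP z k v ((c0 : Ideal (𝓞 K)) * (z1 : Ideal (𝓞 K))) -
      PP z k v ((c0 : Ideal (𝓞 K)) * ((z0 : Ideal (𝓞 K)) * (z1 : Ideal (𝓞 K)))) - ez F ∈
        W5.E1 V := by
  obtain ⟨h2L, hV2, -⟩ := vl_odd hV hr (by omega) hrL
  obtain ⟨φ, -, hφ', hfr⟩ := pp_frob hb hS hU hV hr (by omega) hra hrL
  obtain ⟨e1, e2, e3, -, -, -⟩ := two_ep (F := F)
  have ha2 : a / 2 ∣ a := ⟨2, by omega⟩
  have hNcj : Ideal.absNorm (cj τ (c0 : Ideal (𝓞 K))) = Ideal.absNorm (c0 : Ideal (𝓞 K)) :=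
    (norm_cj6 hb hS hτ _).1
  -- the element of `M13 K`
  let cc : M13 K := ⟨cj τ (c0 : Ideal (𝓞 K)), Or.inl (by rw [hNcj]; exact hc8)⟩
  have hcc : (cc : Ideal (𝓞 K)) = cj τ (c0 : Ideal (𝓞 K)) := rfl
  have hb0 : ((w0 * cc : M13 K) : Ideal (𝓞 K)) =
      (w0 : Ideal (𝓞 K)) * cj τ (c0 : Ideal (𝓞 K)) := rfl
  have hcls : cls ((w0 * cc : M13 K) : Ideal (𝓞 K)) =
      cls (r6 S 2) * cls (c0 : Ideal (𝓞 K)) := by
    rw [hb0, cls_mul (M13.ne w0.2) (cls_cj hb hS hτ (M13.ne c0.2)).1, hcl,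
      (cls_cj hb hS hτ (M13.ne c0.2)).2, mul_assoc, mul_assoc, mul_inv_cancel, mul_one]
  obtain ⟨ε, hε, hεx⟩ := kk_two hb hS hτ ha hU hT hT' hcls
  have hgε : gal φ ε = ε := lr_fix' hV2 φ hε
  -- oddness
  have o0 : OddI (c0 : Ideal (𝓞 K)) := M13.odd c0.2
  have oz : OddI (z0 : Ideal (𝓞 K)) := M13.odd z0.2
  have oz1 : OddI (z1 : Ideal (𝓞 K)) := M13.odd z1.2
  have o1 : OddI (1 : Ideal (𝓞 K)) := by
    unfold OddI
    rw [map_one]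
    exact odd_one
  have omul : ∀ {x y : Ideal (𝓞 K)}, OddI x → OddI y → OddI (x * y) := fun hx hy => hx.mul hy
  have ocz : OddI ((c0 : Ideal (𝓞 K)) * (z0 : Ideal (𝓞 K))) := omul o0 oz
  have or' : OddI (r6 S r) := by
    unfold OddI
    rw [norm_r6 hb hS hra]
    exact hr.odd_of_ne_two (by omega)
  have oa : OddI (r6 S (a / 2)) := by
    unfold OddI
    rw [norm_r6 hb hS ha2, Nat.odd_iff]
    omega
  have m1 : (1 : Ideal (𝓞 K)) ∈ M13 K := (M13 K).one_mem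
  have hN1 : Ideal.absNorm (1 : Ideal (𝓞 K)) = 1 := map_one _
  -- the inertia relation
  have r1 := hE _ o0
  rw [if_pos (by omega), ← hb0] at r1
  have r1' := hεx 1 m1
  rw [mul_one, mul_one, hN1, if_pos (by norm_num), add_zero] at r1'
  rw [r1'] at r1
  have hN8 : Ideal.absNorm ((c0 : Ideal (𝓞 K)) * (z0 : Ideal (𝓞 K))) % 8 = 1 := by
    rw [map_mul, Nat.mul_mod, hc8, hz8]
  have r2 := hE _ ocz
  rw [if_pos (by omega), cj_mul6, hz0, ← mul_assoc, ← hb0, hεx _ z0.2, if_pos hz8,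
    add_zero] at r2
  -- the relation for `T'`
  have t1 := hT'.rel 1 o1
  rw [hN1, if_pos (by norm_num), mul_one, add_zero] at t1
  have t2 := hT'.rel (r6 S r) or'
  rw [norm_r6 hb hS hra, if_neg (by omega)] at t2
  have f0 := hfr _ oa
  have f1 := hfr 1 o1
  rw [mul_one] at f1
  have f2 := hfr _ o0
  have f3 := hfr _ ocz
  -- the relation (4)
  have hsq := r6_sq hb hS hra
  have rel4 : ∀ y : Ideal (𝓞 K), Ideal.absNorm y % 8 = 1 →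
      PP z k v ((z0 : Ideal (𝓞 K)) * (z1 : Ideal (𝓞 K)) * y) =
        T' - PP z k v (r6 S r * y) := by
    intro y hy
    have oy : OddI y := by
      unfold OddI
      rw [Nat.odd_iff]
      omega
    have h1 := hT'.rel (r6 S r * y) (omul or' oy)
    have hN : Ideal.absNorm (r6 S r * y) % 8 = 5 := by
      rw [map_mul, norm_r6 hb hS hra, Nat.mul_mod, hr8, hy]
    rw [if_neg (by omega)] at h1
    have h2 : r6 S (a / 2) * (r6 S r * y) =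
        Ideal.span {(r : 𝓞 K)} * ((z0 : Ideal (𝓞 K)) * (z1 : Ideal (𝓞 K)) * y) := by
      rw [← hzr, ← hsq]
      ring
    have h3 := V6.nat_px hb hS hU (n := r) (hr.odd_of_ne_two (by omega))
      (c := (z0 : Ideal (𝓞 K)) * (z1 : Ideal (𝓞 K)) * y) (omul (omul oz oz1) oy)
    rw [if_neg (by omega)] at h3
    rw [h2, h3] at h1
    have h4 : PP z k v ((z0 : Ideal (𝓞 K)) * (z1 : Ideal (𝓞 K)) * y) =
        (PP z k v ((z0 : Ideal (𝓞 K)) * (z1 : Ideal (𝓞 K)) * y) + ez F +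
          PP z k v (r6 S r * y)) - ez F - PP z k v (r6 S r * y) := by abel
    rw [h4, h1]
    abel
  have s1 := rel4 _ hc8
  have s2 := rel4 _ hN8
  have hs1 : (z0 : Ideal (𝓞 K)) * (z1 : Ideal (𝓞 K)) * (c0 : Ideal (𝓞 K)) =
      (c0 : Ideal (𝓞 K)) * ((z0 : Ideal (𝓞 K)) * (z1 : Ideal (𝓞 K))) := by ring
  have hs2 : (z0 : Ideal (𝓞 K)) * (z1 : Ideal (𝓞 K)) *
      ((c0 : Ideal (𝓞 K)) * (z0 : Ideal (𝓞 K))) =
      Ideal.span {(p : 𝓞 K)} * ((c0 : Ideal (𝓞 K)) * (z1 : Ideal (𝓞 K))) := by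
    rw [← hp]
    ring
  have s3 := V6.nat_px hb hS hU (n := p) (by rw [Nat.odd_iff]; omega)
    (c := (c0 : Ideal (𝓞 K)) * (z1 : Ideal (𝓞 K))) (omul o0 oz1)
  rw [if_pos (by omega), add_zero] at s3
  rw [hs1] at s1
  rw [hs2, s3] at s2
  -- the quotient group
  let π : (cQ F).Point →+ (cQ F).Point ⧸ W5.E1 V := QuotientAddGroup.mk' (W5.E1 V)
  have hπ : ∀ x : (cQ F).Point, x ∈ W5.E1 V → π x = 0 := fun x hx =>
    (QuotientAddGroup.eq_zero_iff x).2 hx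
  have hπ' : ∀ x : (cQ F).Point, π x = 0 → x ∈ W5.E1 V := fun x hx =>
    (QuotientAddGroup.eq_zero_iff x).1 hx
  let γ : ((cQ F).Point ⧸ W5.E1 V) →+ ((cQ F).Point ⧸ W5.E1 V) :=
    QuotientAddGroup.map (W5.E1 V) (W5.E1 V) (gal φ) (fun x hx => gal_e1 hφ' hx)
  have hγ : ∀ x : (cQ F).Point, γ (π x) = π (gal φ x) := fun x => rfl
  have q1 := hπ _ r1
  have g0 := hπ _ f0
  have g1 := hπ _ f1
  have g2 := hπ _ f2
  have g3 := hπ _ f3
  rw [map_sub, sub_eq_zero] at g0 g1 g2 g3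
  -- the difference of the two points
  have hd : (PP z k v ((c0 : Ideal (𝓞 K)) * (z0 : Ideal (𝓞 K))) - PP z k v (c0 : Ideal (𝓞 K))) +
      (PP z k v ((c0 : Ideal (𝓞 K)) * (z0 : Ideal (𝓞 K))) - PP z k v (c0 : Ideal (𝓞 K))) ∈
      W5.E1 V := by
    have h := (W5.E1 V).sub_mem r2 r1
    convert h using 1
    abel
  obtain ⟨e', he1, he2, he3⟩ := lr_fix hV2 φ hd
  have q3 := hπ _ he3
  rw [map_sub, map_sub] at q3
  -- conclusion
  apply hπ'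
  rw [s1, s2]
  simp only [map_sub, map_add] at q1 ⊢
  rw [g2, g3, ← hγ, ← hγ]
  refine lr_alg γ (t := π T) (ε := π ε) (e' := π e') (em' := π (em F)) ?_ q3 ?_ ?_ ?_ ?_ ?_ ?_ ?_
  · rw [sub_eq_zero] at q1
    rw [← q1]
    abel
  · rw [← map_add, he2, map_zero]
  · rw [hγ, he1]
  · have h1 : γ (π T') = π (PP z k v (r6 S r * r6 S (a / 2))) + π (PP z k v (r6 S r)) := by
      rw [← t1, map_add, map_add, hγ, hγ, g0, g1]
    rw [h1, mul_comm (r6 S r), ← map_add, t2, map_add]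
  · rw [hγ, (gal_two φ).1]
  · rw [← map_add, e2, map_zero]
  · rw [hγ, hgε]
  · rw [← map_add, hε, map_zero]

end Pool.Agent.Work.MP_8efaaa_nt.T3
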