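import Mathlib
import Pool.Agent.Work.MP_8efaaa_nt.T3.Defs
import Pool.Agent.Work.MP_8efaaa_nt.W14.CCl
import Pool.Agent.Work.MP_8efaaa_nt.W14.CEq

/-!
# T3/Sc (M): representatives for a set of classes stable under `g ↦ (class of w0) g⁻¹`

Model: `exists_sec` in Y6/Sec.lean (there for all classes and `M1 K`; copy it with its private lemmas). `ω = clM S w0`, `f g = ω * g⁻¹` is an involution of `CG S`; on `J` it has no fixed point (hJ). Half system `H0 = {g ∈ J | e g < e (f g)}`, `e = Fintype.equivFin` (the group `CG S` is finite: `Fintype.ofFinite`), `J` is the disjoint union of `H0` and `H0.image f`, `J.card = 2 H0.card`. `c g`: for `g ∈ J` a representative of norm `d (mod 8)` (hd; `choose`). `r g = c g` if `g ∈ H0`, `r g = w0 * cj τ (c (f g))` if `g ∈ J`, `g ∉ H0`; anything otherwise. (`cj τ c` has the norm of `c`: `norm_cj6`, so it is in `M13 K`; class `(cl c)⁻¹`: `cls_cj`.) Product: `∏ g ∈ J, r g = ∏ g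 ∈ H0, c g * (w0 * cj τ (c g)) = (∏ N (c g)) * w0 ^ H0.card`, `c * cj τ c = (N c)` (`norm_cj6`), `m = ∏ g ∈ H0, N (c g) = d ^ H0.card (mod 8)`. Sum: `∑ g ∈ H0, (P (w0 * cj τ (c g)) + P (c g) - T') ∈ E`.
-/

set_option autoImplicit false

namespace Pool.Agent.Work.MP_8efaaa_nt.T3

open NumberField Pool.Agent.Work.MP_8efaaa_nt.R Pool.Agent.Work.MP_8efaaa_nt.N5
  Pool.Agent.Work.MP_8efaaa_nt.K6 Pool.Agent.Work.MP_8efaaa_nt.W14
open scoped Classical nonZeroDivisors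

variable {K F : Type*} [Field K] [NumberField K] [Field F] [NumberField F] {a : ℕ}
  {s : K} {S : 𝓞 K} {τ : 𝓞 K ≃+* 𝓞 K}

private theorem secJ_half {α : Type*} [Finite α] [DecidableEq α] {f : α → α} {J : Finset α}
    (hf : ∀ j, f (f j) = j) (hfJ : ∀ j ∈ J, f j ∈ J) (hfx : ∀ j ∈ J, f j ≠ j) :
    ∃ H : Finset α, Disjoint H (H.image f) ∧ J = H ∪ H.image f ∧ ∀ j ∈ H, f j ∉ H := by
  let _ : Fintype α := Fintype.ofFinite α
  let e : α ≃ Fin (Fintype.card α) := Fintype.equivFin α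
  let H : Finset α := J.filter fun j => e j < e (f j)
  have hmem : ∀ j, j ∈ H ↔ j ∈ J ∧ e j < e (f j) := by
    intro j
    simp [H]
  have hH : ∀ j ∈ H, f j ∉ H := by
    intro j hj hj'
    rw [hmem] at hj hj'
    rw [hf] at hj'
    exact lt_asymm hj.2 hj'.2
  refine ⟨H, ?_, ?_, hH⟩
  · rw [Finset.disjoint_left]
    intro j hj hj'
    obtain ⟨k, hk, rfl⟩ := Finset.mem_image.1 hj'
    exact hH k hk hj
  · ext j
    rw [Finset.mem_union, Finset.mem_image]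
    constructor
    · intro hj
      have h1 : e j ≠ e (f j) := fun h => hfx j hj (e.injective h).symm
      rcases lt_or_gt_of_ne h1 with h2 | h2
      · exact Or.inl ((hmem j).2 ⟨hj, h2⟩)
      · refine Or.inr ⟨f j, (hmem _).2 ⟨hfJ j hj, ?_⟩, hf j⟩
        rw [hf]
        exact h2
    · rintro (h | ⟨k, hk, rfl⟩)
      · exact ((hmem j).1 h).1
      · exact hfJ k ((hmem k).1 hk).1

private theorem secJ_card {α : Type*} [DecidableEq α] {f : α → α} {J H : Finset α}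
    (hf : ∀ j, f (f j) = j) (hd : Disjoint H (H.image f)) (hu : J = H ∪ H.image f) :
    J.card = 2 * H.card := by
  have hinj : Function.Injective f := Function.Involutive.injective hf
  rw [hu, Finset.card_union_of_disjoint hd, Finset.card_image_of_injective _ hinj]
  ring

private theorem secJ_prod {α M : Type*} [DecidableEq α] [CommMonoid M] {f : α → α} {J H : Finset α}
    (hf : ∀ j, f (f j) = j) (hd : Disjoint H (H.image f)) (hu : J = H ∪ H.image f) (g : α → M) :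
    ∏ j ∈ J, g j = ∏ j ∈ H, (g j * g (f j)) := by
  have hinj : Function.Injective f := Function.Involutive.injective hf
  rw [hu, Finset.prod_union hd, Finset.prod_image (fun x _ y _ h => hinj h),
    Finset.prod_mul_distrib]

private theorem secJ_sum {α M : Type*} [DecidableEq α] [AddCommMonoid M] {f : α → α} {J H : Finset α}
    (hf : ∀ j, f (f j) = j) (hd : Disjoint H (H.image f)) (hu : J = H ∪ H.image f) (g : α → M) :
    ∑ j ∈ J, g j = ∑ j ∈ H, (g j + g (f j)) := by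
  have hinj : Function.Injective f := Function.Involutive.injective hf
  rw [hu, Finset.sum_union hd, Finset.sum_image (fun x _ y _ h => hinj h),
    Finset.sum_add_distrib]

private theorem secJ_mod {ι : Type*} (H : Finset ι) (N : ι → ℕ) (d : ℕ)
    (h : ∀ g ∈ H, N g % 8 = d) : (∏ g ∈ H, N g) % 8 = d ^ H.card % 8 := by
  rw [← ZMod.natCast_eq_natCast_iff', Nat.cast_prod, Nat.cast_pow]
  rw [Finset.prod_congr rfl (g := fun _ => (d : ZMod 8)), Finset.prod_const]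
  intro g hg
  rw [ZMod.natCast_eq_natCast_iff', ← h g hg, Nat.mod_mod]

theorem exists_secJ (hb : B6 K a s) (hS : algebraMap (𝓞 K) K S = s) (hτ : τ S = -S)
    {w0 : M13 K} {J : Finset (CG S)}
    (hJ : ∀ g ∈ J, clM S w0 * g⁻¹ ∈ J ∧ clM S w0 * g⁻¹ ≠ g) {d : ℕ}
    (hd : ∀ g ∈ J, ∃ c : M13 K, clM S c = g ∧ Ideal.absNorm (c : Ideal (𝓞 K)) % 8 = d) :
    Even J.card ∧ ∃ (r : CG S → M13 K) (m : ℕ), (∀ g ∈ J, clM S (r g) = g) ∧
      m % 8 = d ^ (J.card / 2) % 8 ∧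
      ((∏ g ∈ J, r g : M13 K) : Ideal (𝓞 K)) = Ideal.span {(m : 𝓞 K)} *
        (w0 : Ideal (𝓞 K)) ^ (J.card / 2) ∧
      ∀ (z k v : Ideal (𝓞 K) → F) (T' : (cQ F).Point) (E : AddSubgroup (cQ F).Point),
        (∀ c ∈ M13 K, Ideal.absNorm c % 8 = d →
          PP z k v ((w0 : Ideal (𝓞 K)) * cj τ c) + PP z k v c - T' ∈ E) →
        ∑ g ∈ J, PP z k v (r g : Ideal (𝓞 K)) - (J.card / 2) • T' ∈ E := by
  set ω : CG S := clM S w0 with hω
  have hf : ∀ g : CG S, ω * (ω * g⁻¹)⁻¹ = g := by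
    intro g
    rw [mul_inv_rev, inv_inv, mul_comm g ω⁻¹, mul_inv_cancel_left]
  have _ : Finite (CG S) := inferInstance
  obtain ⟨H, hdj, hu, hH⟩ := secJ_half (f := fun g : CG S => ω * g⁻¹) (J := J) hf
    (fun g hg => (hJ g hg).1) (fun g hg => (hJ g hg).2)
  have hcard : J.card = 2 * H.card := secJ_card hf hdj hu
  have hN2 : J.card / 2 = H.card := by omega
  have hHJ : ∀ g ∈ H, g ∈ J := fun g hg => by
    rw [hu]
    exact Finset.mem_union_left _ hg
  refine ⟨by rw [hcard]; exact even_two_mul _, ?_⟩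
  rw [hN2]
  have hcjm : ∀ c : Ideal (𝓞 K), c ∈ M13 K → cj τ c ∈ M13 K := by
    intro c hc
    show Ideal.absNorm (cj τ c) % 8 = 1 ∨ Ideal.absNorm (cj τ c) % 8 = 3
    rw [(norm_cj6 hb hS hτ c).1]
    exact hc
  have hinv : ∀ c : M13 K, clM S ⟨cj τ (c : Ideal (𝓞 K)), hcjm _ c.2⟩ = (clM S c)⁻¹ := by
    intro c
    show QuotientGroup.mk (cls (cj τ (c : Ideal (𝓞 K)))) =
      (QuotientGroup.mk (cls (c : Ideal (𝓞 K))))⁻¹
    rw [(cls_cj hb hS hτ (M13.ne c.2)).2]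
    rfl
  have hex : ∀ g : CG S, ∃ c : M13 K, g ∈ J → clM S c = g ∧
      Ideal.absNorm (c : Ideal (𝓞 K)) % 8 = d := by
    intro g
    by_cases hg : g ∈ J
    · obtain ⟨c, hc⟩ := hd g hg
      exact ⟨c, fun _ => hc⟩
    · exact ⟨1, fun h => absurd h hg⟩
  choose c hc using hex
  set r : CG S → M13 K := fun g => if g ∈ H then c g else
    w0 * ⟨cj τ (c (ω * g⁻¹) : Ideal (𝓞 K)), hcjm _ (c (ω * g⁻¹)).2⟩ with hr
  have hr1 : ∀ g ∈ H, r g = c g := by
    intro g hg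
    rw [hr]
    exact if_pos hg
  have hr2 : ∀ g ∈ H, r (ω * g⁻¹) = w0 * ⟨cj τ (c g : Ideal (𝓞 K)), hcjm _ (c g).2⟩ := by
    intro g hg
    have h1 : r (ω * g⁻¹) = w0 * ⟨cj τ (c (ω * (ω * g⁻¹)⁻¹) : Ideal (𝓞 K)),
        hcjm _ (c (ω * (ω * g⁻¹)⁻¹)).2⟩ := by
      rw [hr]
      exact if_neg (hH g hg)
    have h2 : ∀ x y : CG S, x = y → (w0 * ⟨cj τ (c x : Ideal (𝓞 K)), hcjm _ (c x).2⟩ : M13 K) =
        w0 * ⟨cj τ (c y : Ideal (𝓞 K)), hcjm _ (c y).2⟩ := by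
      rintro x y rfl
      rfl
    rw [h1]
    exact h2 _ _ (hf g)
  have hcl : ∀ g ∈ J, clM S (r g) = g := by
    intro g hgJ
    by_cases hg : g ∈ H
    · rw [hr1 g hg]
      exact (hc g hgJ).1
    · have h1 : r g = w0 * ⟨cj τ (c (ω * g⁻¹) : Ideal (𝓞 K)), hcjm _ (c (ω * g⁻¹)).2⟩ := by
        rw [hr]
        exact if_neg hg
      rw [h1, map_mul, hinv, (hc (ω * g⁻¹) (hJ g hgJ).1).1, ← hω]
      exact hf g
  refine ⟨r, ∏ g ∈ H, Ideal.absNorm (c g : Ideal (𝓞 K)), hcl, ?_, ?_, ?_⟩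
  · exact secJ_mod H _ d fun g hg => (hc g (hHJ g hg)).2
  · rw [secJ_prod hf hdj hu r]
    have h1 : (∏ g ∈ H, (r g * r (ω * g⁻¹)) : M13 K) = ∏ g ∈ H,
        (c g * (w0 * ⟨cj τ (c g : Ideal (𝓞 K)), hcjm _ (c g).2⟩)) := by
      refine Finset.prod_congr rfl fun g hg => ?_
      rw [hr1 g hg, hr2 g hg]
    have h2 : ∀ g ∈ H, ((c g * (w0 * ⟨cj τ (c g : Ideal (𝓞 K)), hcjm _ (c g).2⟩) : M13 K) :
        Ideal (𝓞 K)) = Ideal.span {((Ideal.absNorm (c g : Ideal (𝓞 K)) : ℕ) : 𝓞 K)} *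
          (w0 : Ideal (𝓞 K)) := by
      intro g _
      show (c g : Ideal (𝓞 K)) * ((w0 : Ideal (𝓞 K)) * cj τ (c g : Ideal (𝓞 K))) = _
      rw [← (norm_cj6 hb hS hτ (c g : Ideal (𝓞 K))).2.1]
      ring
    rw [h1, SubmonoidClass.coe_finsetProd, Finset.prod_congr rfl h2, Finset.prod_mul_distrib,
      Finset.prod_const, Ideal.prod_span_singleton, Nat.cast_prod]
  · intro z k v T' E hE
    rw [secJ_sum hf hdj hu (fun g => PP z k v (r g : Ideal (𝓞 K))), ← Finset.sum_const,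
      ← Finset.sum_sub_distrib]
    refine E.sum_mem fun g hg => ?_
    rw [hr1 g hg, hr2 g hg]
    have h1 := hE (c g : Ideal (𝓞 K)) (c g).2 (hc g (hHJ g hg)).2
    rw [add_comm (PP z k v (c g : Ideal (𝓞 K)))]
    exact h1

end Pool.Agent.Work.MP_8efaaa_nt.T3
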