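import Mathlib
import Pool.Agent.Work.MP_8efaaa_nt.T3.Defs
import Pool.Agent.Work.MP_8efaaa_nt.T3.Sc
import Pool.Agent.Work.MP_8efaaa_nt.W14.CCl

/-!
# T3/Sf (M): representatives for a class `w0` that is a square, four fixed classes

`ω = clM S w0 = clM c0 * clM c0`, `f g = ω * g⁻¹`. `f g = g` iff `g * g = clM c0 * clM c0` iff `g = clM c0 * h`, `h * h = 1`, i.e. (hG) `g` is one of `g0 = clM c0`, `g1 = clM (c0 z0)` (both in `H`: hc8, h0), `g2 = clM (c0 z1)`, `g3 = clM (c0 z0 z1)` (both not in `H`: h1, hi); `g0 ≠ g1` (h01), `g2 ≠ g3`. `exists_secJ` (T3/Sc) for `J1 = univ.filter (· ∈ H) \ {g0, g1}` with `d = 1` and for `J2 = univ.filter (· ∉ H) \ {g2, g3}` with `d = 3` (stable under the involution `f`: if `f g = gi` then `g = f gi = gi`; `ω ∈ H`). Each has `card / 2 - 2` elements (`H.index = 2`, see the private `tab_card` of W14/TAb.lean), an even number `2 n`, so `card = 4 (n + 1)`. `r g = r1 g` on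 `J1`, `r2 g` on `J2`, `r g0 = c0`, `r g1 = c0 z0`, `r g2 = c0 z1`, `r g3 = c0 z0 z1`.
Products: over `H`: `(m1) w0^n * (c0 * (c0 z0))`, `m1 = 1 (mod 8)`. Over the complement: `(m2) w0^n * ((c0 z1) * (c0 z0 z1)) = (m2 q) w0^n * (c0 c0 z0)` (hq), `m2 q = 3^n * 3 = 3^(n+1) (mod 8)`, `card / 4 = n + 1`.
Sum: `n • (T + em)` (over `J1`: `N c % 4 = 1`), `n • T` (over `J2`: `N c % 4 = 3`).
-/

set_option autoImplicit false

namespace Pool.Agent.Work.MP_8efaaa_nt.T3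

open NumberField Pool.Agent.Work.MP_8efaaa_nt.R Pool.Agent.Work.MP_8efaaa_nt.N5
  Pool.Agent.Work.MP_8efaaa_nt.K6 Pool.Agent.Work.MP_8efaaa_nt.W14
open scoped Classical nonZeroDivisors

variable {K F : Type*} [Field K] [NumberField K] [Field F] [NumberField F] {a : ℕ}
  {s : K} {S : 𝓞 K} {τ : 𝓞 K ≃+* 𝓞 K} {z k v : Ideal (𝓞 K) → F}

private theorem sf_card {G : Type*} [CommGroup G] [Fintype G] {H : Subgroup G}
    (h : H.index = 2) :
    (Finset.univ.filter (fun g : G => g ∈ H)).card =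
      (Finset.univ.filter (fun g : G => g ∉ H)).card ∧
    Fintype.card G = 2 * (Finset.univ.filter (fun g : G => g ∈ H)).card := by
  have h1 : (Finset.univ.filter (fun g : G => g ∈ H)).card = Nat.card H := by
    rw [Nat.card_eq_fintype_card]
    exact (Fintype.card_subtype _).symm
  have h2 := Subgroup.card_mul_index H
  rw [h, Nat.card_eq_fintype_card (α := G)] at h2
  have h3 := Finset.card_filter_add_card_filter_not (s := (Finset.univ : Finset G))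
    (fun g : G => g ∈ H)
  rw [Finset.card_univ] at h3
  omega

/-- the square roots -/
private theorem sf_roots {G : Type*} [CommGroup G] {ω g0 x y : G}
    (hG : ∀ g : G, g * g = 1 ↔ g = 1 ∨ g = x ∨ g = y ∨ g = x * y) (h : g0 * g0 = ω) (g : G)
    (hg : ω * g⁻¹ = g) : g = g0 ∨ g = g0 * x ∨ g = g0 * y ∨ g = g0 * x * y := by
  have hg' : g * g = g0 * g0 := by
    rw [h]
    nth_rewrite 1 [← hg]
    rw [inv_mul_cancel_right]
  have e1 : (g * g0⁻¹) * (g * g0⁻¹) = 1 := by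
    rw [mul_mul_mul_comm, hg', ← mul_inv, mul_inv_cancel]
  rcases (hG _).1 e1 with e | e | e | e
  · left
    rw [mul_inv_eq_iff_eq_mul.1 e, one_mul]
  · right; left
    rw [mul_inv_eq_iff_eq_mul.1 e, mul_comm]
  · right; right; left
    rw [mul_inv_eq_iff_eq_mul.1 e, mul_comm]
  · right; right; right
    rw [mul_inv_eq_iff_eq_mul.1 e, mul_comm, mul_assoc]

/-- roots are fixed -/
private theorem sf_fix {G : Type*} [CommGroup G] {ω g0 x : G} (h : g0 * g0 = ω)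
    (hx : x * x = 1) : ω * (g0 * x)⁻¹ = g0 * x := by
  rw [mul_inv_eq_iff_eq_mul, mul_mul_mul_comm, h, hx, mul_one]

private theorem sf_inv {G : Type*} [CommGroup G] {ω g e : G} (he : ω * e⁻¹ = e)
    (h : ω * g⁻¹ = e) : g = e := by
  have h1 : ω = e * g := mul_inv_eq_iff_eq_mul.1 h
  have h2 : ω = e * e := mul_inv_eq_iff_eq_mul.1 he
  exact mul_left_cancel (h1.symm.trans h2)

theorem sec_four (hb : B6 K a s) (hS : algebraMap (𝓞 K) K S = s) (hτ : τ S = -S)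
    {H : Subgroup (CG S)} (hi : H.index = 2)
    (hH : ∀ c : M13 K, clM S c ∈ H ↔ Ideal.absNorm (c : Ideal (𝓞 K)) % 8 = 1)
    [Fintype (CG S)] {w0 c0 z0 z1 : M13 K} (hw8 : Ideal.absNorm (w0 : Ideal (𝓞 K)) % 8 = 1)
    (hc8 : Ideal.absNorm (c0 : Ideal (𝓞 K)) % 8 = 1) (h0 : clM S z0 ∈ H)
    (h01 : clM S z0 ≠ 1) (h1 : clM S z1 ∉ H)
    (hG : ∀ g : CG S, g * g = 1 ↔ g = 1 ∨ g = clM S z0 ∨ g = clM S z1 ∨
      g = clM S z0 * clM S z1) (hsq : clM S c0 * clM S c0 = clM S w0) {q : ℕ}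
    (hq8 : q % 8 = 3) (hq : (z1 : Ideal (𝓞 K)) * (z1 : Ideal (𝓞 K)) = Ideal.span {(q : 𝓞 K)})
    {T : (cQ F).Point} {E : AddSubgroup (cQ F).Point}
    (hE : InE τ z k v T E (w0 : Ideal (𝓞 K))) :
    ∃ (n : ℕ) (r : CG S → M13 K), Fintype.card (CG S) = 4 * (n + 1) ∧
      IsSec H r (w0 ^ n * (c0 * c0 * z0)) ∧
      DD z k v H r - (n • em F + (PP z k v (c0 : Ideal (𝓞 K)) +
        PP z k v ((c0 : Ideal (𝓞 K)) * (z0 : Ideal (𝓞 K))) -
        PP z k v ((c0 : Ideal (𝓞 K)) * (z1 : Ideal (𝓞 K))) -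
        PP z k v ((c0 : Ideal (𝓞 K)) * ((z0 : Ideal (𝓞 K)) * (z1 : Ideal (𝓞 K)))))) ∈ E := by
  have h20 : clM S z0 * clM S z0 = 1 := (hG _).2 (Or.inr (Or.inl rfl))
  have h21 : clM S z1 * clM S z1 = 1 := (hG _).2 (Or.inr (Or.inr (Or.inl rfl)))
  have h22 : (clM S z0 * clM S z1) * (clM S z0 * clM S z1) = 1 :=
    (hG _).2 (Or.inr (Or.inr (Or.inr rfl)))
  have hωH : clM S w0 ∈ H := (hH w0).2 hw8
  have hc0H : clM S c0 ∈ H := (hH c0).2 hc8
  set ω : CG S := clM S w0 with hω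
  obtain ⟨g0, hg0⟩ : ∃ g, g = clM S c0 := ⟨_, rfl⟩
  obtain ⟨g1, hg1⟩ : ∃ g, g = clM S c0 * clM S z0 := ⟨_, rfl⟩
  obtain ⟨g2, hg2⟩ : ∃ g, g = clM S c0 * clM S z1 := ⟨_, rfl⟩
  obtain ⟨g3, hg3⟩ : ∃ g, g = clM S c0 * (clM S z0 * clM S z1) := ⟨_, rfl⟩
  have g0H : g0 ∈ H := by rw [hg0]; exact hc0H
  have g1H : g1 ∈ H := by rw [hg1]; exact H.mul_mem hc0H h0
  have g2H : g2 ∉ H := by
    rw [hg2]
    intro e
    exact h1 ((H.mul_mem_cancel_left hc0H).1 e)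
  have g3H : g3 ∉ H := by
    rw [hg3]
    intro e
    exact h1 ((H.mul_mem_cancel_left h0).1 ((H.mul_mem_cancel_left hc0H).1 e))
  have f0 : ω * g0⁻¹ = g0 := by
    have h := sf_fix hsq (one_mul (1 : CG S))
    rw [mul_one] at h
    rw [hg0]
    exact h
  have f1 : ω * g1⁻¹ = g1 := by rw [hg1]; exact sf_fix hsq h20
  have f2 : ω * g2⁻¹ = g2 := by rw [hg2]; exact sf_fix hsq h21
  have f3 : ω * g3⁻¹ = g3 := by rw [hg3]; exact sf_fix hsq h22
  have n01 : g0 ≠ g1 := by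
    rw [hg0, hg1]
    intro e
    exact h01 (left_eq_mul.1 e)
  have n23 : g2 ≠ g3 := by
    rw [hg2, hg3]
    intro e
    exact h01 (right_eq_mul.1 (mul_left_cancel e))
  have n02 : g0 ≠ g2 := fun e => g2H (e ▸ g0H)
  have n03 : g0 ≠ g3 := fun e => g3H (e ▸ g0H)
  have n12 : g1 ≠ g2 := fun e => g2H (e ▸ g1H)
  have n13 : g1 ≠ g3 := fun e => g3H (e ▸ g1H)
  have hroots : ∀ g, ω * g⁻¹ = g → g = g0 ∨ g = g1 ∨ g = g2 ∨ g = g3 := by
    intro g hg
    rcases sf_roots hG hsq g hg with h | h | h | h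
    · exact Or.inl (by rw [h, hg0])
    · exact Or.inr (Or.inl (by rw [h, hg1]))
    · exact Or.inr (Or.inr (Or.inl (by rw [h, hg2])))
    · exact Or.inr (Or.inr (Or.inr (by rw [h, hg3, mul_assoc])))
  have hfH : ∀ g, ω * g⁻¹ ∈ H ↔ g ∈ H := by
    intro g
    rw [H.mul_mem_cancel_left hωH, H.inv_mem_iff]
  obtain ⟨J1, hJ1⟩ : ∃ J : Finset (CG S), J = Finset.univ.filter (· ∈ H) \ {g0, g1} := ⟨_, rfl⟩
  obtain ⟨J2, hJ2⟩ : ∃ J : Finset (CG S), J = Finset.univ.filter (· ∉ H) \ {g2, g3} := ⟨_, rfl⟩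
  have m1 : ∀ g, g ∈ J1 ↔ g ∈ H ∧ g ≠ g0 ∧ g ≠ g1 := by
    intro g
    rw [hJ1, Finset.mem_sdiff, Finset.mem_filter, Finset.mem_insert, Finset.mem_singleton, not_or]
    exact ⟨fun h => ⟨h.1.2, h.2⟩, fun h => ⟨⟨Finset.mem_univ _, h.1⟩, h.2⟩⟩
  have m2 : ∀ g, g ∈ J2 ↔ g ∉ H ∧ g ≠ g2 ∧ g ≠ g3 := by
    intro g
    rw [hJ2, Finset.mem_sdiff, Finset.mem_filter, Finset.mem_insert, Finset.mem_singleton, not_or]
    exact ⟨fun h => ⟨h.1.2, h.2⟩, fun h => ⟨⟨Finset.mem_univ _, h.1⟩, h.2⟩⟩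
  have s1 : ({g0, g1} : Finset (CG S)) ⊆ Finset.univ.filter (· ∈ H) := by
    intro g hg
    rw [Finset.mem_insert, Finset.mem_singleton] at hg
    rw [Finset.mem_filter]
    rcases hg with rfl | rfl
    · exact ⟨Finset.mem_univ _, g0H⟩
    · exact ⟨Finset.mem_univ _, g1H⟩
  have s2 : ({g2, g3} : Finset (CG S)) ⊆ Finset.univ.filter (· ∉ H) := by
    intro g hg
    rw [Finset.mem_insert, Finset.mem_singleton] at hg
    rw [Finset.mem_filter]
    rcases hg with rfl | rfl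
    · exact ⟨Finset.mem_univ _, g2H⟩
    · exact ⟨Finset.mem_univ _, g3H⟩
  have hcJ1 : J1.card + 2 = (Finset.univ.filter fun g : CG S => g ∈ H).card := by
    have h := Finset.card_sdiff_add_card_eq_card s1
    rw [Finset.card_pair n01, ← hJ1] at h
    exact h
  have hcJ2 : J2.card + 2 = (Finset.univ.filter fun g : CG S => g ∉ H).card := by
    have h := Finset.card_sdiff_add_card_eq_card s2
    rw [Finset.card_pair n23, ← hJ2] at h
    exact h
  obtain ⟨hcd1, hcd2⟩ := sf_card hi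
  obtain ⟨e1, r1, p1, hr1, hp1, hq1, hs1⟩ := exists_secJ (F := F) hb hS hτ (w0 := w0) (J := J1)
    (fun g hg => by
      rw [m1] at hg
      refine ⟨(m1 _).2 ⟨(hfH g).2 hg.1, fun e => hg.2.1 (sf_inv f0 e),
        fun e => hg.2.2 (sf_inv f1 e)⟩, fun e => ?_⟩
      rcases hroots g e with h | h | h | h
      · exact hg.2.1 h
      · exact hg.2.2 h
      · exact g2H (h ▸ hg.1)
      · exact g3H (h ▸ hg.1)) (d := 1)
    (fun g hg => by
      obtain ⟨c, hc⟩ := clM_surj hb hS g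
      rw [m1] at hg
      refine ⟨c, hc, (hH c).1 ?_⟩
      rw [hc]
      exact hg.1)
  obtain ⟨e2, r2, p2, hr2, hp2, hq2, hs2⟩ := exists_secJ (F := F) hb hS hτ (w0 := w0) (J := J2)
    (fun g hg => by
      rw [m2] at hg
      refine ⟨(m2 _).2 ⟨fun h => hg.1 ((hfH g).1 h), fun e => hg.2.1 (sf_inv f2 e),
        fun e => hg.2.2 (sf_inv f3 e)⟩, fun e => ?_⟩
      rcases hroots g e with h | h | h | h
      · exact hg.1 (h ▸ g0H)
      · exact hg.1 (h ▸ g1H)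
      · exact hg.2.1 h
      · exact hg.2.2 h) (d := 3)
    (fun g hg => by
      obtain ⟨c, hc⟩ := clM_surj hb hS g
      rw [m2] at hg
      have h13 : Ideal.absNorm (c : Ideal (𝓞 K)) % 8 = 1 ∨
        Ideal.absNorm (c : Ideal (𝓞 K)) % 8 = 3 := c.2
      refine ⟨c, hc, h13.resolve_left fun h => hg.1 ?_⟩
      rw [← hc]
      exact (hH c).2 h)
  obtain ⟨n, hn⟩ := e1
  have hn1 : J1.card / 2 = n := by omega
  have hn2 : J2.card / 2 = n := by omega
  have hcard : Fintype.card (CG S) = 4 * (n + 1) := by omega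
  rw [hn1] at hp1 hq1 hs1
  rw [hn2] at hp2 hq2 hs2
  obtain ⟨r, hr⟩ : ∃ r : CG S → M13 K, r = fun g => if g = g0 then c0 else if g = g1 then c0 * z0
    else if g = g2 then c0 * z1 else if g = g3 then c0 * (z0 * z1) else if g ∈ H then r1 g
    else r2 g := ⟨_, rfl⟩
  have hrg0 : r g0 = c0 := by
    rw [hr]
    beta_reduce
    rw [if_pos rfl]
  have hrg1 : r g1 = c0 * z0 := by
    rw [hr]
    beta_reduce
    rw [if_neg n01.symm, if_pos rfl]
  have hrg2 : r g2 = c0 * z1 := by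
    rw [hr]
    beta_reduce
    rw [if_neg n02.symm, if_neg n12.symm, if_pos rfl]
  have hrg3 : r g3 = c0 * (z0 * z1) := by
    rw [hr]
    beta_reduce
    rw [if_neg n03.symm, if_neg n13.symm, if_neg n23.symm, if_pos rfl]
  have hrJ1 : ∀ g ∈ J1, r g = r1 g := by
    intro g hg
    rw [m1] at hg
    have a2 : g ≠ g2 := fun e => g2H (e ▸ hg.1)
    have a3 : g ≠ g3 := fun e => g3H (e ▸ hg.1)
    rw [hr]
    beta_reduce
    rw [if_neg hg.2.1, if_neg hg.2.2, if_neg a2, if_neg a3, if_pos hg.1]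
  have hrJ2 : ∀ g ∈ J2, r g = r2 g := by
    intro g hg
    rw [m2] at hg
    have a0 : g ≠ g0 := fun e => hg.1 (e ▸ g0H)
    have a1 : g ≠ g1 := fun e => hg.1 (e ▸ g1H)
    rw [hr]
    beta_reduce
    rw [if_neg a0, if_neg a1, if_neg hg.2.1, if_neg hg.2.2, if_neg hg.1]
  refine ⟨n, r, hcard, ⟨?_, ⟨n + 1, hcard⟩, ?_⟩, ?_⟩
  · intro g
    by_cases a0 : g = g0
    · rw [a0, hrg0, hg0]
    by_cases a1 : g = g1
    · rw [a1, hrg1, hg1, map_mul]
    by_cases a2 : g = g2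
    · rw [a2, hrg2, hg2, map_mul]
    by_cases a3 : g = g3
    · rw [a3, hrg3, hg3, map_mul, map_mul]
    by_cases hgH : g ∈ H
    · have hg : g ∈ J1 := (m1 g).2 ⟨hgH, a0, a1⟩
      rw [hrJ1 g hg]
      exact hr1 g hg
    · have hg : g ∈ J2 := (m2 g).2 ⟨hgH, a2, a3⟩
      rw [hrJ2 g hg]
      exact hr2 g hg
  · refine ⟨p1, p2 * q, ?_, ?_, ?_, ?_⟩
    · rw [hp1, one_pow]
      norm_num
    · have h4 : Fintype.card (CG S) / 4 = n + 1 := by omega
      rw [h4, Nat.mul_mod, hp2, hq8, pow_succ, Nat.mul_mod (3 ^ n) 3]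
    · rw [← Finset.prod_sdiff s1, Finset.prod_pair n01, ← hJ1, hrg0, hrg1,
        Finset.prod_congr rfl hrJ1]
      push_cast at hq1 ⊢
      rw [hq1]
      ring
    · rw [← Finset.prod_sdiff s2, Finset.prod_pair n23, ← hJ2, hrg2, hrg3,
        Finset.prod_congr rfl hrJ2]
      push_cast at hq2 ⊢
      rw [hq2]
      have h5 : Ideal.span {((p2 : 𝓞 K) * (q : 𝓞 K))} = Ideal.span {(p2 : 𝓞 K)} *
          ((z1 : Ideal (𝓞 K)) * (z1 : Ideal (𝓞 K))) := by
        rw [hq, Ideal.span_singleton_mul_span_singleton]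
      rw [h5]
      ring
  · have hd1 := hs1 z k v (T + em F) E (fun c hc h8 => by
      have h := hE c (M13.odd hc)
      rw [if_pos (show Ideal.absNorm c % 4 = 1 by omega)] at h
      exact h)
    have hd2 := hs2 z k v T E (fun c hc h8 => by
      have h := hE c (M13.odd hc)
      rw [if_neg (show ¬ Ideal.absNorm c % 4 = 1 by omega), add_zero] at h
      exact h)
    have h6 := E.sub_mem hd1 hd2
    have h7 : DD z k v H r - (n • em F + (PP z k v (c0 : Ideal (𝓞 K)) +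
        PP z k v ((c0 : Ideal (𝓞 K)) * (z0 : Ideal (𝓞 K))) -
        PP z k v ((c0 : Ideal (𝓞 K)) * (z1 : Ideal (𝓞 K))) -
        PP z k v ((c0 : Ideal (𝓞 K)) * ((z0 : Ideal (𝓞 K)) * (z1 : Ideal (𝓞 K)))))) =
        ∑ g ∈ J1, PP z k v (r1 g : Ideal (𝓞 K)) - n • (T + em F) -
          (∑ g ∈ J2, PP z k v (r2 g : Ideal (𝓞 K)) - n • T) := by
      unfold DD
      rw [← Finset.sum_sdiff s1, ← Finset.sum_sdiff s2, Finset.sum_pair n01, Finset.sum_pair n23,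
        ← hJ1, ← hJ2, hrg0, hrg1, hrg2, hrg3,
        Finset.sum_congr rfl (fun g hg => by rw [hrJ1 g hg] : ∀ g ∈ J1,
          PP z k v (r g : Ideal (𝓞 K)) = PP z k v (r1 g : Ideal (𝓞 K))),
        Finset.sum_congr rfl (fun g hg => by rw [hrJ2 g hg] : ∀ g ∈ J2,
          PP z k v (r g : Ideal (𝓞 K)) = PP z k v (r2 g : Ideal (𝓞 K))), nsmul_add]
      push_cast
      abel
    rw [h7]
    exact h6

end Pool.Agent.Work.MP_8efaaa_nt.T3
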