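import Mathlib
import Pool.Agent.Work.MP_8efaaa_nt.T3.Defs
import Pool.Agent.Work.MP_8efaaa_nt.T3.Sc
import Pool.Agent.Work.MP_8efaaa_nt.W14.CCl

/-!
# T3/Sp (S-M): representatives for a class `w0` that is not a square

`exists_secJ` (T3/Sc) for `J1 = univ.filter (· ∈ H)` with `d = 1` and for `J2 = univ.filter (· ∉ H)` with `d = 3`: `clM S w0 ∈ H` (hH, hw8), so both are stable under `g ↦ clM w0 * g⁻¹`, without fixed points (hw). Representatives: `clM_surj` (W14/CCl) and hH (`c.2`: norm `1` or `3`). Both have `card / 2` elements (`H.index = 2`: see the private `tab_card` of W14/TAb.lean). `J1.card` is even, so `4 ∣ card`, `J1.card / 2 = J2.card / 2 = card / 4`. `r g = r1 g` if `g ∈ H`, else `r2 g` (`Finset.prod_congr`, `Finset.sum_congr`). `m1 = 1 ^ n = 1 (mod 8)`, `m2 = 3 ^ n (mod 8)`. Sums: `T' = T + em` for `J1` (`N c = 1 (mod 8)`: `N c % 4 = 1`), `T' = T + 0` for `J2` (`N c % 4 = 3`); elements of `M13` are odd (`M13.odd`). Difference: `n • (T + em)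 - n • T = n • em`.
-/

set_option autoImplicit false

namespace Pool.Agent.Work.MP_8efaaa_nt.T3

open NumberField Pool.Agent.Work.MP_8efaaa_nt.R Pool.Agent.Work.MP_8efaaa_nt.N5
  Pool.Agent.Work.MP_8efaaa_nt.K6 Pool.Agent.Work.MP_8efaaa_nt.W14
open scoped Classical nonZeroDivisors

variable {K F : Type*} [Field K] [NumberField K] [Field F] [NumberField F] {a : ℕ}
  {s : K} {S : 𝓞 K} {τ : 𝓞 K ≃+* 𝓞 K} {z k v : Ideal (𝓞 K) → F}

private theorem sp_card {G : Type*} [CommGroup G] [Fintype G] {H : Subgroup G}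
    (h : H.index = 2) :
    (Finset.univ.filter (fun g : G => g ∈ H)).card =
      (Finset.univ.filter (fun g : G => g ∉ H)).card ∧
    (Finset.univ.filter (fun g : G => g ∈ H)).card +
      (Finset.univ.filter (fun g : G => g ∉ H)).card = Fintype.card G := by
  have h1 : (Finset.univ.filter (fun g : G => g ∈ H)).card = Nat.card H := by
    rw [Nat.card_eq_fintype_card]
    exact (Fintype.card_subtype _).symm
  have h2 := Subgroup.card_mul_index H
  rw [h, Nat.card_eq_fintype_card (α := G)] at h2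
  have h3 := Finset.card_filter_add_card_filter_not (s := (Finset.univ : Finset G))
    (fun g : G => g ∈ H)
  rw [Finset.card_univ] at h3
  constructor
  · omega
  · exact h3

theorem sec_p (hb : B6 K a s) (hS : algebraMap (𝓞 K) K S = s) (hτ : τ S = -S)
    {H : Subgroup (CG S)} (hi : H.index = 2)
    (hH : ∀ c : M13 K, clM S c ∈ H ↔ Ideal.absNorm (c : Ideal (𝓞 K)) % 8 = 1)
    [Fintype (CG S)] {w0 : M13 K} (hw8 : Ideal.absNorm (w0 : Ideal (𝓞 K)) % 8 = 1)
    (hw : ∀ g : CG S, g * g ≠ clM S w0) {T : (cQ F).Point} {E : AddSubgroup (cQ F).Point}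
    (hE : InE τ z k v T E (w0 : Ideal (𝓞 K))) :
    ∃ r : CG S → M13 K, IsSec H r (w0 ^ (Fintype.card (CG S) / 4)) ∧
      DD z k v H r - (Fintype.card (CG S) / 4) • em F ∈ E := by
  have hω : clM S w0 ∈ H := (hH w0).2 hw8
  obtain ⟨hc1, hc2⟩ := sp_card hi
  obtain ⟨he1, r1, m1, hr1, hm1, hp1, hs1⟩ := exists_secJ (F := F) hb hS hτ (w0 := w0)
    (J := Finset.univ.filter (fun g : CG S => g ∈ H)) (d := 1) (by
      intro g hg
      rw [Finset.mem_filter] at hg ⊢
      exact ⟨⟨Finset.mem_univ _, H.mul_mem hω (H.inv_mem hg.2)⟩,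
        fun h => hw g (mul_inv_eq_iff_eq_mul.1 h).symm⟩) (by
      intro g hg
      obtain ⟨c, hc⟩ := clM_surj hb hS g
      refine ⟨c, hc, (hH c).1 ?_⟩
      rw [hc]
      exact (Finset.mem_filter.1 hg).2)
  obtain ⟨he2, r2, m2, hr2, hm2, hp2, hs2⟩ := exists_secJ (F := F) hb hS hτ (w0 := w0)
    (J := Finset.univ.filter (fun g : CG S => g ∉ H)) (d := 3) (by
      intro g hg
      rw [Finset.mem_filter] at hg ⊢
      refine ⟨⟨Finset.mem_univ _, fun h => hg.2 ?_⟩,
        fun h => hw g (mul_inv_eq_iff_eq_mul.1 h).symm⟩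
      exact H.inv_mem_iff.1 ((H.mul_mem_cancel_left hω).1 h)) (by
      intro g hg
      obtain ⟨c, hc⟩ := clM_surj hb hS g
      have h1 : ¬ Ideal.absNorm (c : Ideal (𝓞 K)) % 8 = 1 := fun h2 => by
        have h3 := (hH c).2 h2
        rw [hc] at h3
        exact (Finset.mem_filter.1 hg).2 h3
      exact ⟨c, hc, (Or.resolve_left c.2 h1)⟩)
  have hn1 : (Finset.univ.filter (fun g : CG S => g ∈ H)).card / 2 =
      Fintype.card (CG S) / 4 := by
    obtain ⟨a, ha⟩ := he1
    omega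
  have hn2 : (Finset.univ.filter (fun g : CG S => g ∉ H)).card / 2 =
      Fintype.card (CG S) / 4 := by
    rw [← hc1]
    exact hn1
  have h4 : 4 ∣ Fintype.card (CG S) := by
    obtain ⟨a, ha⟩ := he1
    exact ⟨a, by omega⟩
  rw [hn1] at hm1 hp1 hs1
  rw [hn2] at hm2 hp2 hs2
  have hcl : ∀ g, clM S (if g ∈ H then r1 g else r2 g) = g := by
    intro g
    by_cases hg : g ∈ H
    · rw [if_pos hg]
      exact hr1 g (Finset.mem_filter.2 ⟨Finset.mem_univ _, hg⟩)
    · rw [if_neg hg]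
      exact hr2 g (Finset.mem_filter.2 ⟨Finset.mem_univ _, hg⟩)
  have e1 : ∏ g ∈ Finset.univ.filter (fun g : CG S => g ∈ H), (if g ∈ H then r1 g else r2 g) =
      ∏ g ∈ Finset.univ.filter (fun g : CG S => g ∈ H), r1 g :=
    Finset.prod_congr rfl fun g hg => if_pos (Finset.mem_filter.1 hg).2
  have e2 : ∏ g ∈ Finset.univ.filter (fun g : CG S => g ∉ H), (if g ∈ H then r1 g else r2 g) =
      ∏ g ∈ Finset.univ.filter (fun g : CG S => g ∉ H), r2 g :=
    Finset.prod_congr rfl fun g hg => if_neg (Finset.mem_filter.1 hg).2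
  have e3 : DD z k v H (fun g => if g ∈ H then r1 g else r2 g) =
      (∑ g ∈ Finset.univ.filter (fun g : CG S => g ∈ H), PP z k v (r1 g : Ideal (𝓞 K))) -
      ∑ g ∈ Finset.univ.filter (fun g : CG S => g ∉ H), PP z k v (r2 g : Ideal (𝓞 K)) := by
    unfold DD
    have e4 : ∑ g ∈ Finset.univ.filter (fun g : CG S => g ∈ H),
        PP z k v ((if g ∈ H then r1 g else r2 g : M13 K) : Ideal (𝓞 K)) =
        ∑ g ∈ Finset.univ.filter (fun g : CG S => g ∈ H), PP z k v (r1 g : Ideal (𝓞 K)) :=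
      Finset.sum_congr rfl fun g hg => by rw [if_pos (Finset.mem_filter.1 hg).2]
    have e5 : ∑ g ∈ Finset.univ.filter (fun g : CG S => g ∉ H),
        PP z k v ((if g ∈ H then r1 g else r2 g : M13 K) : Ideal (𝓞 K)) =
        ∑ g ∈ Finset.univ.filter (fun g : CG S => g ∉ H), PP z k v (r2 g : Ideal (𝓞 K)) :=
      Finset.sum_congr rfl fun g hg => by rw [if_neg (Finset.mem_filter.1 hg).2]
    rw [e4, e5]
  refine ⟨fun g => if g ∈ H then r1 g else r2 g, ⟨hcl, h4, m1, m2, ?_, hm2, ?_, ?_⟩, ?_⟩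
  · rw [hm1, one_pow]
    norm_num
  · rw [SubmonoidClass.coe_pow, ← hp1]
    exact congrArg Subtype.val e1
  · rw [SubmonoidClass.coe_pow, ← hp2]
    exact congrArg Subtype.val e2
  · rw [e3]
    have k1 := hs1 z k v (T + em F) E (fun c hc h8 => by
      have h5 := hE c (M13.odd hc)
      rw [if_pos (by omega)] at h5
      exact h5)
    have k2 := hs2 z k v T E (fun c hc h8 => by
      have h5 := hE c (M13.odd hc)
      rw [if_neg (by omega), add_zero] at h5
      exact h5)
    have k3 := E.sub_mem k1 k2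
    rw [smul_add] at k3
    have k4 : ∀ X Y Z W : (cQ F).Point, X - (Z + W) - (Y - Z) = X - Y - W := by
      intro X Y Z W
      abel
    rw [k4] at k3
    exact k3

end Pool.Agent.Work.MP_8efaaa_nt.T3
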