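import Mathlib
import Pool.Agent.Work.MP_8efaaa_nt.T3.Defs
import Pool.Agent.Work.MP_8efaaa_nt.V6.GNu
import Pool.Agent.Work.MP_8efaaa_nt.W14.CEq

/-!
# T3/Sy (S): symbols and a relation of classes

Let `C = cls b ^ N`, `B = b ^ N * (b' ^ N * d)`. `cls B = C * C` (h, `cls_mul`; `cls (b ^ N) = cls b ^ N` by induction, all ideals are nonzero because their norms are prime to `l`, i.e. the symbols are not `0`). `V6.chi_sq1` for `B`: `jacobiSym (N B) l = 1`, `N B = N b ^ N * (N b' ^ N * N d)`, `jacobiSym.mul_left`, `jacobiSym.pow_left`. All symbols are `1` or `-1`, so the claim follows (`x * y = 1 → x = y` for `x, y = ± 1`). `l ∤ N B` because the symbols are not `0`.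
-/

set_option autoImplicit false

namespace Pool.Agent.Work.MP_8efaaa_nt.T3

open NumberField Pool.Agent.Work.MP_8efaaa_nt.R Pool.Agent.Work.MP_8efaaa_nt.N5
  Pool.Agent.Work.MP_8efaaa_nt.K6 Pool.Agent.Work.MP_8efaaa_nt.W14
open scoped Classical nonZeroDivisors

variable {K : Type*} [Field K] [NumberField K] {a : ℕ} {s : K} {S : 𝓞 K} {τ : 𝓞 K ≃+* 𝓞 K}

private theorem sy_J {p : ℕ} (hp : p.Prime) {n : ℕ} (h : jacobiSym n p ≠ 0) :
    ¬ p ∣ n ∧ jacobiSym n p * jacobiSym n p = 1 := by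
  have h2 : ¬ p ∣ n := by
    intro h1
    apply h
    haveI : NeZero p := ⟨hp.ne_zero⟩
    rw [jacobiSym.eq_zero_iff_not_coprime]
    rw [Int.gcd_natCast_natCast, Nat.gcd_eq_right h1]
    exact hp.one_lt.ne'
  refine ⟨h2, ?_⟩
  have h3 : jacobiSym n p = 1 ∨ jacobiSym n p = -1 := by
    apply jacobiSym.eq_one_or_neg_one
    rw [Int.gcd_natCast_natCast]
    exact ((Nat.Prime.coprime_iff_not_dvd hp).2 h2).symm
  rcases h3 with h3 | h3 <;> rw [h3] <;> norm_num

private theorem sy_pow {b : Ideal (𝓞 K)} (hb : b ≠ 0) (N : ℕ) : cls (b ^ N) = cls b ^ N := by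
  induction N with
  | zero => rw [pow_zero, pow_zero, cls_one]
  | succ n ih => rw [pow_succ, pow_succ, cls_mul (pow_ne_zero n hb) hb, ih]

theorem sym_pow (hb : B6 K a s) (hS : algebraMap (𝓞 K) K S = s) (hτ : τ S = -S) {l : ℕ}
    (hl : l.Prime) (hl2 : l ≠ 2) (hla : l ∣ a) {b b' d : Ideal (𝓞 K)}
    (h1 : jacobiSym (Ideal.absNorm b) l ≠ 0) (h2 : jacobiSym (Ideal.absNorm b') l ≠ 0)
    (h3 : jacobiSym (Ideal.absNorm d) l ≠ 0) {N : ℕ} (h : cls b ^ N = cls b' ^ N * cls d) :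
    jacobiSym (Ideal.absNorm b) l ^ N =
      jacobiSym (Ideal.absNorm b') l ^ N * jacobiSym (Ideal.absNorm d) l := by
  obtain ⟨n1, s1⟩ := sy_J hl h1
  obtain ⟨n2, s2⟩ := sy_J hl h2
  obtain ⟨n3, s3⟩ := sy_J hl h3
  have z : ∀ e : Ideal (𝓞 K), ¬ l ∣ Ideal.absNorm e → e ≠ 0 := by
    rintro e he rfl
    apply he
    rw [map_zero]
    exact dvd_zero l
  have z1 := z b n1
  have z2 := z b' n2
  have z3 := z d n3
  have hB0 : b ^ N * (b' ^ N * d) ≠ 0 :=
    mul_ne_zero (pow_ne_zero N z1) (mul_ne_zero (pow_ne_zero N z2) z3)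
  have hcls : cls (b ^ N * (b' ^ N * d)) = cls b ^ N * cls b ^ N := by
    rw [cls_mul (pow_ne_zero N z1) (mul_ne_zero (pow_ne_zero N z2) z3),
      cls_mul (pow_ne_zero N z2) z3, sy_pow z1, sy_pow z2, ← h]
  have hnd : ¬ l ∣ Ideal.absNorm (b ^ N * (b' ^ N * d)) := by
    rw [map_mul, map_mul, map_pow, map_pow]
    intro h4
    rcases (Nat.Prime.dvd_mul hl).1 h4 with h5 | h5
    · exact n1 (hl.dvd_of_dvd_pow h5)
    · rcases (Nat.Prime.dvd_mul hl).1 h5 with h6 | h6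
      · exact n2 (hl.dvd_of_dvd_pow h6)
      · exact n3 h6
  have hj := (V6.chi_sq1 hb hS hτ hl hl2 hla hB0 hnd (C := cls b ^ N)).1 hcls
  rw [map_mul, map_mul, map_pow, map_pow] at hj
  push_cast at hj
  rw [jacobiSym.mul_left, jacobiSym.mul_left, jacobiSym.pow_left, jacobiSym.pow_left] at hj
  have hx : jacobiSym (Ideal.absNorm b) l ^ N * jacobiSym (Ideal.absNorm b) l ^ N = 1 := by
    rw [← mul_pow, s1, one_pow]
  calc jacobiSym (Ideal.absNorm b) l ^ N
      = jacobiSym (Ideal.absNorm b) l ^ N * 1 := (mul_one _).symm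
    _ = jacobiSym (Ideal.absNorm b) l ^ N * (jacobiSym (Ideal.absNorm b) l ^ N *
        (jacobiSym (Ideal.absNorm b') l ^ N * jacobiSym (Ideal.absNorm d) l)) := by rw [hj]
    _ = _ := by rw [← mul_assoc, hx, one_mul]

end Pool.Agent.Work.MP_8efaaa_nt.T3
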