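import Mathlib
import Pool.Agent.Work.MP_8efaaa_nt.T3.Defs
import Pool.Agent.Work.MP_8efaaa_nt.W5.E1
import Pool.Agent.Work.MP_8efaaa_nt.W14.DYt
import Pool.Agent.Work.MP_8efaaa_nt.W14.PGa
import Pool.Agent.Work.MP_8efaaa_nt.V6.STo
import Pool.Agent.Work.MP_8efaaa_nt.V6.GPi
import Pool.Agent.Work.MP_8efaaa_nt.V6.QFa

/-!
# T3/To (S-M): the sums are known exactly

dd_eq: `W14.y_tor` for `r`: `(16 : ℤ) • qm (DD r) = 0` (`PA = qm PP`, `map_sum`, `map_sub`, `map_zsmul`); a point with `qm R = 0` is `0` or `ep` (`qm_eq_zero`), killed by `2`, so `(32 : ℤ) • DD r = 0`, `(2 ^ 5 : ℤ) • (DD r - X) = 0`, `W5.two_pow_tors`.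
sum_eqX: the proof of `Y6.sum_eq` (Y6/Tor.lean) with `X` in place of `N • (T + em)` (`a = 6 (mod 16)`, all classes, `M1 K`); copy it.
-/

set_option autoImplicit false

namespace Pool.Agent.Work.MP_8efaaa_nt.T3

open NumberField Pool.Agent.Work.MP_8efaaa_nt.R Pool.Agent.Work.MP_8efaaa_nt.N5
  Pool.Agent.Work.MP_8efaaa_nt.K6 Pool.Agent.Work.MP_8efaaa_nt.W14
open scoped Classical nonZeroDivisors

variable {K F : Type*} [Field K] [NumberField K] [Field F] [NumberField F] [Algebra K F] {a : ℕ}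
  {s : K} {S : 𝓞 K} {τ : 𝓞 K ≃+* 𝓞 K} {ζ : F} {w : ℕ → F} {z k v : Ideal (𝓞 K) → F}
  {κ : F ≃ₐ[ℚ] F}

theorem dd_eq [FiniteDimensional K F] [IsGalois K F] (hb : B6 K a s)
    (hS : algebraMap (𝓞 K) K S = s) (hτ : τ S = -S) (ha : a % 16 = 14)
    (hU : UD6 K F a s S τ ζ w z k v κ) (hnc : ¬ IsCongruent a) {H : Subgroup (CG S)}
    (hi : H.index = 2)
    (hH : ∀ c : M13 K, clM S c ∈ H ↔ Ideal.absNorm (c : Ideal (𝓞 K)) % 8 = 1)
    [Fintype (CG S)] {r : CG S → M13 K} (hr : ∀ g, clM S (r g) = g) {Γ : Type}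
    [LinearOrderedCommGroupWithZero Γ] {V : Valuation F Γ} {X : (cQ F).Point}
    (hX : (32 : ℤ) • X = 0) (h : DD z k v H r - X ∈ W5.E1 V) : DD z k v H r = X := by
  obtain ⟨t1, -, -, -, -, -⟩ := two_ep (F := F)
  have h3 : (16 : ℤ) • qm (DD z k v H r) = 0 := by
    have h4 := y_tor hb hS hτ ha hU hnc hi hH r hr
    unfold DD
    rw [map_sub, map_sum, map_sum]
    exact h4
  rw [← map_zsmul] at h3
  have h32 : (32 : ℤ) • DD z k v H r = 0 := by
    have h5 : (32 : ℤ) • DD z k v H r =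
        (16 : ℤ) • DD z k v H r + (16 : ℤ) • DD z k v H r := by
      rw [← add_smul]
      norm_num
    rw [h5]
    rcases qm_eq_zero.1 h3 with h6 | h6
    · rw [h6, add_zero]
    · rw [h6, t1]
  have h7 : ((2 : ℤ) ^ 5) • (DD z k v H r - X) = 0 := by
    have h8 : ((2 : ℤ) ^ 5) = 32 := by norm_num
    rw [h8, smul_sub, h32, hX, sub_zero]
  exact sub_eq_zero.1 (W5.two_pow_tors h 5 h7)

theorem sum_eqX [FiniteDimensional K F] [IsGalois K F] (hb : B6 K a s)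
    (hS : algebraMap (𝓞 K) K S = s) (hτ : τ S = -S) (ha : a % 16 = 6)
    (hU : UD6 K F a s S τ ζ w z k v κ) (hnc : ¬ IsCongruent a) {Γ : Type}
    [LinearOrderedCommGroupWithZero Γ] {V : Valuation F Γ} [Fintype (CG S)]
    {r : CG S → V6.M1 K} (hr : ∀ g, V6.clN S (r g) = g) {X : (cQ F).Point}
    (hX : (32 : ℤ) • X = 0) (h : ∑ g, PP z k v (r g : Ideal (𝓞 K)) - X ∈ W5.E1 V) :
    ∑ g, PP z k v (r g : Ideal (𝓞 K)) = X := by
  obtain ⟨f, hf⟩ := V6.exists_pi hb hS hτ ha hU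
  obtain ⟨-, t2, -, -, -, -⟩ := two_ep (F := F)
  have h16 := V6.sum_tor hb hS hτ ha hU hnc hf
  have hd : ∀ n, (16 : ℤ) • V6.dd F n = 0 := by
    intro n
    have h1 : (16 : ℤ) • V6.dd F n = (8 : ℤ) • (V6.dd F n + V6.dd F n) := by
      rw [← two_zsmul, smul_smul]
      norm_num
    rw [h1, V6.dd_add, smul_zero]
  have h3 : (16 : ℤ) • V6.qn (∑ g, PP z k v (r g : Ideal (𝓞 K))) = 0 := by
    rw [map_sum, Finset.smul_sum]
    rw [Finset.smul_sum] at h16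
    rw [← h16]
    refine Finset.sum_congr rfl fun g _ => ?_
    have h4 := hf (r g)
    rw [hr] at h4
    rw [← h4, smul_add, hd, add_zero]
    rfl
  rw [← map_zsmul] at h3
  have h32 : (32 : ℤ) • ∑ g, PP z k v (r g : Ideal (𝓞 K)) = 0 := by
    have h5 : (32 : ℤ) • ∑ g, PP z k v (r g : Ideal (𝓞 K)) =
        (16 : ℤ) • ∑ g, PP z k v (r g : Ideal (𝓞 K)) +
          (16 : ℤ) • ∑ g, PP z k v (r g : Ideal (𝓞 K)) := by
      rw [← add_smul]
      norm_num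
    rw [h5]
    rcases V6.qn_eq_zero.1 h3 with h6 | h6
    · rw [h6, add_zero]
    · rw [h6, t2]
  have h7 : ((2 : ℤ) ^ 5) • (∑ g, PP z k v (r g : Ideal (𝓞 K)) - X) = 0 := by
    have h8 : ((2 : ℤ) ^ 5) = 32 := by norm_num
    rw [h8, smul_sub, h32, hX, sub_zero]
  exact sub_eq_zero.1 (W5.two_pow_tors h 5 h7)

end Pool.Agent.Work.MP_8efaaa_nt.T3
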