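import Mathlib
import Pool.Agent.Work.MP_8efaaa_nt.K6.CDt
import Pool.Agent.Work.MP_8efaaa_nt.K6.DIn
import Pool.Agent.Work.MP_8efaaa_nt.T3.Defs
import Pool.Agent.Work.MP_8efaaa_nt.T3.Sp
import Pool.Agent.Work.MP_8efaaa_nt.T3.Sf
import Pool.Agent.Work.MP_8efaaa_nt.T3.In
import Pool.Agent.Work.MP_8efaaa_nt.T3.To
import Pool.Agent.Work.MP_8efaaa_nt.T3.Lq
import Pool.Agent.Work.MP_8efaaa_nt.T3.Lr
import Pool.Agent.Work.MP_8efaaa_nt.T3.Cm
import Pool.Agent.Work.MP_8efaaa_nt.T3.Ge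
import Pool.Agent.Work.MP_8efaaa_nt.T3.Gr
import Pool.Agent.Work.MP_8efaaa_nt.T3.Sy
import Pool.Agent.Work.MP_8efaaa_nt.V6.PEx
import Pool.Agent.Work.MP_8efaaa_nt.W14.DEx
import Pool.Agent.Work.MP_8efaaa_nt.W14.PGa

/-!
# T3/Main135 (helper67): the theorem for `(1, 3, 5)`

`2 p q r` is a congruent number for primes `p = 1`, `q = 3`, `r = 5 (mod 8)` if `p` is not a square modulo `q` or not a
square modulo `r`.
-/

set_option autoImplicit false

namespace Pool.Agent.Work.MP_8efaaa_nt.T3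

open NumberField Pool.Agent.Work.MP_8efaaa_nt.R Pool.Agent.Work.MP_8efaaa_nt.N5
  Pool.Agent.Work.MP_8efaaa_nt.K6 Pool.Agent.Work.MP_8efaaa_nt.W14
open scoped Classical nonZeroDivisors

private theorem sqf {p q r : ℕ} (hp : p.Prime) (hq : q.Prime) (hr : r.Prime) (hp8 : p % 8 = 1)
    (hq8 : q % 8 = 3) (hr8 : r % 8 = 5) : Squarefree (2 * p * q * r) := by
  have c1 : Nat.Coprime 2 p := (Nat.coprime_primes Nat.prime_two hp).2 (by omega)
  have c2 : Nat.Coprime 2 q := (Nat.coprime_primes Nat.prime_two hq).2 (by omega)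
  have c3 : Nat.Coprime 2 r := (Nat.coprime_primes Nat.prime_two hr).2 (by omega)
  have c4 : Nat.Coprime p q := (Nat.coprime_primes hp hq).2 (by omega)
  have c5 : Nat.Coprime p r := (Nat.coprime_primes hp hr).2 (by omega)
  have c6 : Nat.Coprime q r := (Nat.coprime_primes hq hr).2 (by omega)
  rw [Nat.squarefree_mul (Nat.Coprime.mul_left (Nat.Coprime.mul_left c3 c5) c6),
    Nat.squarefree_mul (Nat.Coprime.mul_left c2 c4), Nat.squarefree_mul c1]
  exact ⟨⟨⟨Nat.prime_two.squarefree, hp.squarefree⟩, hq.squarefree⟩, hr.squarefree⟩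

private theorem mod16 {p q r : ℕ} (hp8 : p % 8 = 1) (hq8 : q % 8 = 3) (hr8 : r % 8 = 5) :
    (2 * p * q * r) % 16 = 14 := by
  have h1 : (p * q * r) % 8 = 7 := by
    rw [Nat.mul_mod (p * q), Nat.mul_mod p, hp8, hq8, hr8]
  have h2 : 2 * p * q * r = 2 * (p * q * r) := by ring
  omega

private theorem tors {F : Type*} [Field F] [CharZero F] (n : ℕ) {e : (cQ F).Point}
    (he : e + e = 0) : (32 : ℤ) • (n • em F + e) = 0 := by
  have h2 := (two_ep (F := F)).2.1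
  have h3 : (32 : ℤ) • (n • em F + e) = (16 : ℤ) • (n • (em F + em F) + (e + e)) := by
    have h4 : (n • (em F + em F) + (e + e)) = (2 : ℤ) • (n • em F + e) := by
      rw [two_zsmul, smul_add]
      abel
    rw [h4, smul_smul]
    norm_num
  rw [h3, h2, he, smul_zero, add_zero, smul_zero]

/-- `2 p q r` is a congruent number for primes `p = 1`, `q = 3`, `r = 5 (mod 8)` if `p` is not a square modulo `q` or
not a square modulo `r`. -/
theorem main_135 {p q r : ℕ} (hp : p.Prime) (hq : q.Prime) (hr : r.Prime) (hp8 : p % 8 = 1)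
    (hq8 : q % 8 = 3) (hr8 : r % 8 = 5) (h : jacobiSym p q = -1 ∨ jacobiSym p r = -1) :
    IsCongruent (2 * p * q * r) := by
  by_contra hnc
  have hsf := sqf hp hq hr hp8 hq8 hr8
  have ha := mod16 hp8 hq8 hr8
  have hp2 : p ≠ 2 := by omega
  have hq2 : q ≠ 2 := by omega
  have hr2 : r ≠ 2 := by omega
  have hpa : p ∣ 2 * p * q * r := ⟨2 * q * r, by ring⟩
  have hqa : q ∣ 2 * p * q * r := ⟨2 * p * r, by ring⟩
  have hra : r ∣ 2 * p * q * r := dvd_mul_left _ _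
  have hpo : Odd p := Nat.odd_iff.2 (by omega)
  have hqo : Odd q := Nat.odd_iff.2 (by omega)
  have hro : Odd r := Nat.odd_iff.2 (by omega)
  have npq : ¬ p ∣ q := fun h1 => by
    have := (Nat.prime_dvd_prime_iff_eq hp hq).1 h1
    omega
  have nqp : ¬ q ∣ p := fun h1 => by
    have := (Nat.prime_dvd_prime_iff_eq hq hp).1 h1
    omega
  have npr : ¬ p ∣ r := fun h1 => by
    have := (Nat.prime_dvd_prime_iff_eq hp hr).1 h1
    omega
  have nrp : ¬ r ∣ p := fun h1 => by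
    have := (Nat.prime_dvd_prime_iff_eq hr hp).1 h1
    omega
  have nqr : ¬ q ∣ r := fun h1 => by
    have := (Nat.prime_dvd_prime_iff_eq hq hr).1 h1
    omega
  have nrq : ¬ r ∣ q := fun h1 => by
    have := (Nat.prime_dvd_prime_iff_eq hr hq).1 h1
    omega
  obtain ⟨K, _, _, s, hb⟩ := exists_base6 hsf (a := 2 * p * q * r) (by omega)
  obtain ⟨S, hS, -, -⟩ := exists_S6 hb
  obtain ⟨τ, hτ⟩ := exists_tau6 hb hS
  obtain ⟨F, _, _, _, _, _, _, ζ, w, z, k, v, κ, hU⟩ := exists_ud6 hb hS hτ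
  obtain ⟨T, hTT, hTr⟩ := V6.tq_px hb hS hU
  obtain ⟨T', hTT', hTr'⟩ := V6.fr_px hb hS hU
  have hT : Tq S z k v T := ⟨hTT, hTr⟩
  have hT' : Fr (2 * p * q * r) S z k v T' := ⟨hTT', hTr'⟩
  have : Fintype (CG S) := Fintype.ofFinite _
  obtain ⟨H, z0, z1, hi, hH, hz0, hz1, h0, h01, h1, hG, hzr, ht1⟩ :=
    exists_grp135 hp hq hr hp8 hq8 hr8 hb hS hτ
  obtain ⟨tp, tm, tz, tpm, tpz, tmz⟩ := two_ep (F := F)
  have hz8 : Ideal.absNorm (z0 : Ideal (𝓞 K)) % 8 = 1 := (hH z0).1 h0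
  have hcz : cj τ (z0 : Ideal (𝓞 K)) = z0 := by
    rw [hz0]
    exact cj_r6 hb hS hτ p
  have hzq : (z1 : Ideal (𝓞 K)) * (z1 : Ideal (𝓞 K)) = Ideal.span {(q : 𝓞 K)} := by
    rw [hz1]
    exact r6_sq hb hS hqa
  have hzp : (z0 : Ideal (𝓞 K)) * (z0 : Ideal (𝓞 K)) = Ideal.span {(p : 𝓞 K)} := by
    rw [hz0]
    exact r6_sq hb hS hpa
  -- the places
  obtain ⟨Lp, hLp', hLp⟩ := exists_prime6 (F := F) hp
  obtain ⟨Γp, _, Vp, hVp⟩ := exists_vl hLp'
  obtain ⟨wp, wp8, wpc, wpE, wps⟩ := in_gen hb hS hτ hU hT hVp hp hp2 hpa hLp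
  obtain ⟨Lq, hLq', hLq⟩ := exists_prime6 (F := F) hq
  obtain ⟨Γq, _, Vq, hVq⟩ := exists_vl hLq'
  obtain ⟨wq, wq8, wqc, wqE, wqs⟩ := in_gen hb hS hτ hU hT hVq hq hq2 hqa hLq
  obtain ⟨Lr, hLr', hLr⟩ := exists_prime6 (F := F) hr
  obtain ⟨Γr, _, Vr, hVr⟩ := exists_vl hLr'
  obtain ⟨wr, wr8, wrc, wrE, wrs⟩ := in_gen hb hS hτ hU hT hVr hr hr2 hra hLr
  -- symbols
  have spp : jacobiSym (Ideal.absNorm wp) p = -1 := by
    rw [wps p hpa hpo, if_pos (iff_of_true (by omega) dvd_rfl)]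
  have spq : jacobiSym (Ideal.absNorm wp) q = -1 := by
    rw [wps q hqa hqo, if_pos (iff_of_false (by omega) npq)]
  have spr : jacobiSym (Ideal.absNorm wp) r = 1 := by
    rw [wps r hra hro, if_neg (fun h2 => npr (h2.1 (by omega)))]
  have sqp : jacobiSym (Ideal.absNorm wq) p = 1 := by
    rw [wqs p hpa hpo, if_neg (fun h2 => nqp (h2.1 (by omega)))]
  have sqq : jacobiSym (Ideal.absNorm wq) q = 1 := by
    rw [wqs q hqa hqo, if_neg (fun h2 => by have := h2.2 dvd_rfl; omega)]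
  have sqr : jacobiSym (Ideal.absNorm wq) r = 1 := by
    rw [wqs r hra hro, if_neg (fun h2 => nqr (h2.1 (by omega)))]
  have srp : jacobiSym (Ideal.absNorm wr) p = 1 := by
    rw [wrs p hpa hpo, if_neg (fun h2 => nrp (h2.1 (by omega)))]
  have srq : jacobiSym (Ideal.absNorm wr) q = -1 := by
    rw [wrs q hqa hqo, if_pos (iff_of_false (by omega) nrq)]
  have hcop : ∀ (l : ℕ) (w : Ideal (𝓞 K)), l.Prime → l ∣ 2 * p * q * r →
      Nat.Coprime (Ideal.absNorm w) (2 * p * q * r) → ¬ l ∣ Ideal.absNorm w := by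
    intro l w hl hla hc hlw
    have h2 : Nat.Coprime l l :=
      Nat.Coprime.coprime_dvd_left hlw (Nat.Coprime.coprime_dvd_right hla hc)
    exact hl.one_lt.ne' ((Nat.coprime_self l).1 h2)
  -- the prime `p`
  obtain ⟨rp, hrp, hDp⟩ := sec_p hb hS hτ hi hH (w0 := ⟨wp, Or.inl wp8⟩) wp8
    (fun g => nsq8 hb hS hτ hp (Or.inl hp8) hpa spp g) wpE
  have Dp := dd_eq hb hS hτ ha hU hnc hi hH hrp.cl (X := (Fintype.card (CG S) / 4) • em F)
    (by
      have h2 := tors (F := F) (Fintype.card (CG S) / 4) (e := 0) (add_zero 0)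
      rwa [add_zero] at h2) hDp
  have hsq : ∀ (w0 c0 : M13 K), cls (w0 : Ideal (𝓞 K)) = cls (c0 : Ideal (𝓞 K)) * cls (c0 : Ideal (𝓞 K)) ∨
      cls (w0 : Ideal (𝓞 K)) = cls (r6 S 2) * (cls (c0 : Ideal (𝓞 K)) * cls (c0 : Ideal (𝓞 K))) →
      clM S c0 * clM S c0 = clM S w0 := by
    intro w0 c0 h2
    have h3 : clM S w0 = clM S (c0 * c0) := by
      rw [clM_eq hb hS]
      rcases h2 with h2 | h2
      · left
        rw [h2, Submonoid.coe_mul, cls_mul (M13.ne c0.2) (M13.ne c0.2)]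
      · right
        rw [h2, Submonoid.coe_mul, cls_mul (M13.ne c0.2) (M13.ne c0.2)]
    rw [h3, map_mul]
  -- the prime `q`
  obtain ⟨cq, cq8, hcq, -⟩ := exists_c0 hb hS hτ ha hp hp8 hpa hq hq8 hqa (fun g hg => (hG g).1 hg)
    (Or.inl wp8) spp wq8 sqp (hcop q wq hq hqa wqc)
  have hcq' := hcq sqq
  obtain ⟨nq, rq, hnq, hrq, hDq⟩ := sec_four hb hS hτ hi hH (w0 := ⟨wq, Or.inl wq8⟩) wq8 cq8 h0 h01
    h1 hG (hsq _ _ (Or.inl hcq')) hq8 hzq wqE
  have hlq := loc_q hb hS hτ ha hU hT hVq hq hq8 hqa hLq (w0 := ⟨wq, Or.inl wq8⟩) cq8 hz8 hcz hz1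
    hcq' wqE
  -- the prime `r`
  obtain ⟨cr, cr8, -, hcr⟩ := exists_c0 hb hS hτ ha hp hp8 hpa hq hq8 hqa (fun g hg => (hG g).1 hg)
    (Or.inl wp8) spp wr8 srp (hcop q wr hq hqa wrc)
  have hcr' := hcr srq
  obtain ⟨nr, rr, hnr, hrr, hDr⟩ := sec_four hb hS hτ hi hH (w0 := ⟨wr, Or.inl wr8⟩) wr8 cr8 h0 h01
    h1 hG (hsq _ _ (Or.inr hcr')) hq8 hzq wrE
  have hlr := loc_r hb hS hτ ha hU hT hT' hVr hr hr8 hra hLr (w0 := ⟨wr, Or.inl wr8⟩) cr8 hz8 hcz
    hp8 hzp hzr hcr' wrE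
  obtain rfl : nr = nq := by omega
  have hn4 : Fintype.card (CG S) / 4 = nr + 1 := by omega
  -- the exact values
  have Dq : DD z k v H rq = (nr + 1) • em F := by
    refine dd_eq hb hS hτ ha hU hnc hi hH hrq.cl ?_ ?_ (V := Vq)
    · have h2 := tors (F := F) (nr + 1) (e := 0) (add_zero 0)
      rwa [add_zero] at h2
    · have h2 := (W5.E1 Vq).add_mem hDq hlq
      have e1 : ∀ D A X : (cQ F).Point, D - (nr • em F + A) + (A - em F) =
          D - (nr + 1) • em F := by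
        intro D A X
        rw [add_smul, one_smul]
        abel
      rwa [e1 _ _ 0] at h2
  have Dr : DD z k v H rr = (nr + 1) • em F + ep F := by
    refine dd_eq hb hS hτ ha hU hnc hi hH hrr.cl (tors (nr + 1) tp) ?_ (V := Vr)
    have h2 := (W5.E1 Vr).add_mem hDr hlr
    have e1 : ∀ D A : (cQ F).Point, D - (nr • em F + A) + (A - ez F) =
        D - ((nr + 1) • em F + ep F) := by
      intro D A
      have e2 : (nr + 1) • em F + ep F = nr • em F + ez F := by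
        rw [add_smul, one_smul, add_assoc, add_comm (em F), tpm]
      rw [e2]
      abel
    rwa [e1] at h2
  rw [hn4] at Dp hrp
  have hne : ∀ X : (cQ F).Point, X ≠ X + ep F := by
    intro X h2
    have h3 : ep F = 0 := by
      have h4 : X + 0 = X + ep F := by rw [add_zero]; exact h2
      exact (add_left_cancel h4).symm
    rw [h3, zero_add] at tpm
    have h5 : em F ≠ ez F := by
      intro h6
      unfold W14.em ez at h6
      rw [pt_inj] at h6
      have h7 := h6.1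
      norm_num at h7
    exact h5 tpm
  -- comparison
  have ht := (cls_two hb hS).1
  have hz00 : (z0 : Ideal (𝓞 K)) ≠ 0 := M13.ne z0.2
  have hpow : ∀ (b : M13 K) (n : ℕ), cls ((b ^ n : M13 K) : Ideal (𝓞 K)) =
      cls (b : Ideal (𝓞 K)) ^ n := by
    intro b n
    induction n with
    | zero => rw [pow_zero, pow_zero]; exact cls_one
    | succ n ih =>
      rw [pow_succ, pow_succ, Submonoid.coe_mul, cls_mul (M13.ne (b ^ n).2) (M13.ne b.2), ih]
  have hmul : ∀ b c : M13 K, cls ((b * c : M13 K) : Ideal (𝓞 K)) =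
      cls (b : Ideal (𝓞 K)) * cls (c : Ideal (𝓞 K)) := fun b c => by
    rw [Submonoid.coe_mul, cls_mul (M13.ne b.2) (M13.ne c.2)]
  have Cq : cls wp ^ (nr + 1) = cls wq ^ (nr + 1) * cls (r6 S p) := by
    rcases cmp14 hb hS hτ ha hU hT hT' ht1 hi hH hrp hrq with ⟨h2, -⟩ | ⟨-, h2⟩
    · rw [hpow, hmul, hpow, hmul, hmul] at h2
      rw [hcq'] at h2
      rw [h2, ← hz0, hcq', pow_succ (cls (cq : Ideal (𝓞 K)) * cls (cq : Ideal (𝓞 K)))]
      ac_rfl
    · exfalso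
      rw [Dp, Dq] at h2
      exact hne _ h2
  have Cr : cls wp ^ (nr + 1) = cls wr ^ (nr + 1) * cls (r6 S p) := by
    rcases cmp14 hb hS hτ ha hU hT hT' ht1 hi hH hrp hrr with ⟨-, h2⟩ | ⟨h2, -⟩
    · exfalso
      rw [Dp, Dr] at h2
      exact hne _ h2
    · rw [hpow, hmul, hpow, hmul, hmul] at h2
      have h3 : cls (cr : Ideal (𝓞 K)) * cls (cr : Ideal (𝓞 K)) = cls (r6 S 2) * cls wr := by
        rw [hcr', ← mul_assoc, ht, one_mul]
      rw [h3] at h2
      rw [← hz0, pow_succ (cls wr), h2]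
      calc cls (r6 S 2) * (cls wr ^ nr * (cls (r6 S 2) * cls wr * cls (z0 : Ideal (𝓞 K))))
          = (cls (r6 S 2) * cls (r6 S 2)) * (cls wr ^ nr * cls wr * cls (z0 : Ideal (𝓞 K))) := by
            ac_rfl
        _ = _ := by rw [ht, one_mul]
  have npN : ∀ l : ℕ, l.Prime → ¬ l ∣ p → jacobiSym (Ideal.absNorm (r6 S p)) l ≠ 0 := by
    intro l hl hlp h2
    rw [norm_r6 hb hS hpa] at h2
    have : NeZero l := ⟨hl.ne_zero⟩
    rw [jacobiSym.eq_zero_iff_not_coprime] at h2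
    apply h2
    rw [Int.gcd_natCast_natCast]
    exact ((Nat.Prime.coprime_iff_not_dvd hl).2 hlp).symm
  have fr : jacobiSym p r = 1 := by
    have h2 := sym_pow hb hS hτ hr hr2 hra (b := wp) (b' := wq) (d := r6 S p)
      (by rw [spr]; norm_num) (by rw [sqr]; norm_num) (npN r hr nrp) Cq
    rw [spr, sqr, norm_r6 hb hS hpa, one_pow, one_mul] at h2
    exact h2.symm
  have fq : jacobiSym p q = 1 := by
    have h2 := sym_pow hb hS hτ hq hq2 hqa (b := wp) (b' := wr) (d := r6 S p)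
      (by rw [spq]; norm_num) (by rw [srq]; norm_num) (npN q hq nqp) Cr
    rw [spq, srq, norm_r6 hb hS hpa] at h2
    have h3 : ((-1 : ℤ) ^ (nr + 1)) * 1 = (-1 : ℤ) ^ (nr + 1) * jacobiSym p q := by
      rw [mul_one]
      exact h2
    exact (mul_left_cancel₀ (pow_ne_zero _ (by norm_num)) h3).symm
  rcases h with h | h
  · rw [fq] at h
    norm_num at h
  · rw [fr] at h
    norm_num at h

end Pool.Agent.Work.MP_8efaaa_nt.T3
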