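import Mathlib
import Pool.Agent.Work.MP_8efaaa_nt.T3.Defs
import Pool.Agent.Work.MP_8efaaa_nt.V6.GPi
import Pool.Agent.Work.MP_8efaaa_nt.W5.E1
import Pool.Agent.Work.MP_8efaaa_nt.W14.LEp
import Pool.Agent.Work.MP_8efaaa_nt.W14.LPt
import Pool.Agent.Work.MP_8efaaa_nt.W14.LVx
import Pool.Agent.Work.MP_8efaaa_nt.W14.PGa
import Pool.Agent.Work.MP_8efaaa_nt.W14.CEq

/-!
# T3/BLq (M): the four fixed classes at the prime `q = 7 (mod 8)`, `a = 6 (mod 16)`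

`P = PP z k v`, `E = W5.E1 V`, `x ≡ y` means `x - y ∈ E`. `V 2 = 1` (`vl_odd`). `pp_frob` (W14/LPt): `φ` with `P (r6 S q * c) ≡ gal φ (P c)` for odd `c`; `gal φ` maps `E` to itself (`gal_e1` with the second property of `φ`, see the proof of `loc0` in W14/TLo.lean), and fixes `0, ep, em, ez` (`gal_ep`, `gal_two`).
(1) `V6.kk_px` for `w0 * cj τ c0` (in `M1 K`: `norm_cj6`) and `c0`: class `clN c0 * clN c0 * (clN c0)⁻¹ = clN c0` (hcl, `cls_cj`; as in `in_pi`, V6/SIn.lean). So `P (w0 * cj τ c0 * x) = P (c0 * x) + ε`, `ε + ε = 0`; `ε` is one of `0, ep, em, ez` (`ep_cases` with `ε + ε = 0 ∈ E`: `ε - e' ∈ E` with `2 (ε - e') = 0`, so `ε = e'` by `W5.two_pow_tors`), so `gal φ ε = ε`.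
(2) `x1 = P c0`: `hE` at `c0` (`N c0 % 4 = 1`) and (1) with `x = 1`: `x1 + x1 + ε ≡ T + em`. `x2 = P (c0 ρ)`: `hE` at `c0 ρ` (`cj τ (c0 ρ) = cj τ c0 * ρ`: `cj_mul6`, `cj_r6`) and (1) with `x = ρ`: `x2 + x2 + ε ≡ T + em`. So `2 (x2 - x1) ∈ E`, `x2 ≡ x1 + e'`, `e'` one of `0, ep, em, ez` (`ep_cases`).
(3) `gal φ T ≡ T + em`: `hT.rel` at `c = 1`: `T = P (1+S) + P 1`; `gal φ`: `≡ P (r6 S q * (1+S)) + P (r6 S q) = T + em`, by `hT.rel` at `r6 S q` (norm `q = 3 (mod 4)`, `norm_r6`).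
(4) `hT.rel` at `r6 S q * c0` (norm `q N c0 = 3 (mod 4)`): `P (c0 l1) = P ((1+S) (r6 S q * c0)) = T + em - P (r6 S q * c0) ≡ T + em - gal φ x1`. `r6 S (p * q) = r6 S p * r6 S q` (`r6_mul`, hpq): `P (c0 l2) = P ((1+S) (r6 S q * (c0 ρ))) ≡ T + em - gal φ x2`.
So the sum is `≡ x1 + x2 + 2 (T + em) - gal φ (x1 + x2)`, `2 (T + em) = ez` (`hT.two`), and `(x1 + x2) - gal φ (x1 + x2) ≡ (x1 + x1) - gal φ (x1 + x1) ≡ (T + em + ε) - gal φ (T + em + ε) = T - gal φ T ≡ -em = em`. `ez + em = ep` (`two_ep`).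
-/

set_option autoImplicit false

namespace Pool.Agent.Work.MP_8efaaa_nt.T3

open NumberField Pool.Agent.Work.MP_8efaaa_nt.R Pool.Agent.Work.MP_8efaaa_nt.N5
  Pool.Agent.Work.MP_8efaaa_nt.K6 Pool.Agent.Work.MP_8efaaa_nt.W14 Pool.Agent.Work.MP_8efaaa_nt.V6
open scoped Classical nonZeroDivisors

variable {K F : Type*} [Field K] [NumberField K] [Field F] [NumberField F] [Algebra K F] {a : ℕ}
  {s : K} {S : 𝓞 K} {τ : 𝓞 K ≃+* 𝓞 K} {ζ : F} {w : ℕ → F} {z k v : Ideal (𝓞 K) → F}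
  {κ : F ≃ₐ[ℚ] F}

private theorem blq_abs {A : Type*} [AddCommGroup A] (E : AddSubgroup A)
    {x1 x2 g1 g2 p1 p2 q1 q2 T gT em ep ez ε e' : A} (hq1 : q1 + p1 = T + em)
    (hq2 : q2 + p2 = T + em) (hTT : T + T = ez) (h : em + ez = ep)
    (A1 : x1 + ε + x1 - (T + em) ∈ E) (A1' : g1 + ε + g1 - (gT + em) ∈ E)
    (D : x2 - x1 - e' ∈ E) (D' : g2 - g1 - e' ∈ E) (C1 : p1 - g1 ∈ E) (C2 : p2 - g2 ∈ E)
    (B3 : T + em - gT ∈ E) : x1 + x2 + q1 + q2 - ep ∈ E := by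
  have e1 : q1 = T + em - p1 := eq_sub_of_add_eq hq1
  have e2 : q2 = T + em - p2 := eq_sub_of_add_eq hq2
  have e3 : x1 + x2 + q1 + q2 - ep = (x1 + ε + x1 - (T + em)) - (g1 + ε + g1 - (gT + em)) +
      (x2 - x1 - e') - (g2 - g1 - e') - (p1 - g1) - (p2 - g2) + (T + em - gT) +
      ((T + T) + em - ep) := by
    rw [e1, e2]
    abel
  have e4 : (T + T) + em - ep = 0 := by
    rw [hTT, add_comm, h, sub_self]
  rw [e3, e4, add_zero]
  exact E.add_mem (E.sub_mem (E.sub_mem (E.sub_mem (E.add_mem (E.sub_mem A1 A1') D) D') C1) C2) B3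

private theorem blq_two {A : Type*} [AddCommGroup A] (E : AddSubgroup A) {x1 x2 T em ε : A}
    (A1 : x1 + ε + x1 - (T + em) ∈ E) (A2 : x2 + ε + x2 - (T + em) ∈ E) :
    x2 - x1 + (x2 - x1) ∈ E := by
  have e : x2 - x1 + (x2 - x1) = (x2 + ε + x2 - (T + em)) - (x1 + ε + x1 - (T + em)) := by abel
  rw [e]
  exact E.sub_mem A2 A1

private theorem blq_tors [CharZero F] {Γ : Type} [LinearOrderedCommGroupWithZero Γ]
    {V : Valuation F Γ} (hV2 : V 2 = 1) {k0 : Type*} [Field k0] [Algebra k0 F] (φ : F ≃ₐ[k0] F)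
    {e : (cQ F).Point} (he : e + e = 0) : gal φ e = e := by
  obtain ⟨t1, t2, t3, -, -, -⟩ := two_ep (F := F)
  have key : ∀ u : (cQ F).Point, u ∈ W5.E1 V → u + u = 0 → u = 0 := by
    intro u hu h2
    refine W5.two_pow_tors hu 1 ?_
    rw [pow_one, two_zsmul]
    exact h2
  have hz : e + e ∈ W5.E1 V := by
    rw [he]
    exact (W5.E1 V).zero_mem
  have hsub : ∀ f : (cQ F).Point, f + f = 0 → e - f + (e - f) = 0 := by
    intro f hf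
    have e1 : e - f + (e - f) = (e + e) - (f + f) := by abel
    rw [e1, he, hf, sub_zero]
  rcases ep_cases hV2 hz with h | h | h | h
  · rw [key e h he, map_zero]
  · rw [sub_eq_zero.1 (key _ h (hsub _ t1))]
    exact gal_ep φ
  · rw [sub_eq_zero.1 (key _ h (hsub _ t2))]
    exact (gal_two φ).1
  · rw [sub_eq_zero.1 (key _ h (hsub _ t3))]
    exact (gal_two φ).2.1

private theorem blq_half [CharZero F] {Γ : Type} [LinearOrderedCommGroupWithZero Γ]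
    {V : Valuation F Γ} (hV2 : V 2 = 1) {k0 : Type*} [Field k0] [Algebra k0 F] (φ : F ≃ₐ[k0] F)
    {u : (cQ F).Point} (hu : u + u ∈ W5.E1 V) : ∃ e, gal φ e = e ∧ u - e ∈ W5.E1 V := by
  rcases ep_cases hV2 hu with h | h | h | h
  · exact ⟨0, map_zero _, by rw [sub_zero]; exact h⟩
  · exact ⟨ep F, gal_ep φ, h⟩
  · exact ⟨em F, (gal_two φ).1, h⟩
  · exact ⟨ez F, (gal_two φ).2.1, h⟩

private theorem blq_odd {n : ℕ} (h : n % 8 = 1) : Odd n := Nat.odd_iff.2 (by omega)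

theorem loc_q7 [IsGalois K F] (hb : B6 K a s) (hS : algebraMap (𝓞 K) K S = s) (hτ : τ S = -S)
    (ha : a % 16 = 6) (hU : UD6 K F a s S τ ζ w z k v κ) {T : (cQ F).Point}
    (hT : Tq S z k v T) {Γ : Type} [LinearOrderedCommGroupWithZero Γ] {V : Valuation F Γ}
    {L : Ideal (𝓞 F)} (hV : VL V L) {p q : ℕ} (hq : q.Prime) (hq8 : q % 8 = 7) (hqa : q ∣ a)
    (hpq : p * q ∣ a) (hqL : (q : 𝓞 F) ∈ L) {w0 c0 ρ l1 l2 : M1 K}
    (hρ : (ρ : Ideal (𝓞 K)) = r6 S p) (e1 : (l1 : Ideal (𝓞 K)) = Ideal.span {1 + S} * r6 S q)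
    (e2 : (l2 : Ideal (𝓞 K)) = Ideal.span {1 + S} * r6 S (p * q))
    (hcl : clN S c0 * clN S c0 = clN S w0)
    (hE : InE τ z k v T (W5.E1 V) (w0 : Ideal (𝓞 K))) :
    PP z k v (c0 : Ideal (𝓞 K)) + PP z k v ((c0 : Ideal (𝓞 K)) * ρ) +
      PP z k v ((c0 : Ideal (𝓞 K)) * l1) + PP z k v ((c0 : Ideal (𝓞 K)) * l2) - ep F ∈
        W5.E1 V := by
  have hq2 : q ≠ 2 := by omega
  have hV2 : V 2 = 1 := (vl_odd hV hq hq2 hqL).2.1
  obtain ⟨φ, -, hφ2, hφ3⟩ := pp_frob hb hS hU hV hq hq2 hqa hqL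
  have hφE : ∀ R : (cQ F).Point, R ∈ W5.E1 V → gal φ R ∈ W5.E1 V := fun R hR => gal_e1 hφ2 hR
  obtain ⟨t1, t2, t3, t4, t5, t6⟩ := two_ep (F := F)
  -- norms
  have nc : Ideal.absNorm (c0 : Ideal (𝓞 K)) % 8 = 1 := M1.nrm c0.2
  have nρ : Ideal.absNorm (ρ : Ideal (𝓞 K)) % 8 = 1 := M1.nrm ρ.2
  have nq : Ideal.absNorm (r6 S q) = q := norm_r6 hb hS hqa
  have nl : Ideal.absNorm (l1 : Ideal (𝓞 K)) % 8 = 1 := M1.nrm l1.2
  have ncρ : Ideal.absNorm ((c0 : Ideal (𝓞 K)) * (ρ : Ideal (𝓞 K))) % 8 = 1 := by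
    rw [map_mul, Nat.mul_mod, nc, nρ]
  have oc : OddI (c0 : Ideal (𝓞 K)) := blq_odd nc
  have oρ : OddI (ρ : Ideal (𝓞 K)) := blq_odd nρ
  have ocρ : OddI ((c0 : Ideal (𝓞 K)) * (ρ : Ideal (𝓞 K))) := blq_odd ncρ
  have o1 : OddI (1 : Ideal (𝓞 K)) := by
    unfold OddI
    rw [map_one]
    exact odd_one
  have oq : OddI (r6 S q) := by
    unfold OddI
    rw [nq]
    exact Nat.odd_iff.2 (by omega)
  have oS : OddI (Ideal.span {1 + S} : Ideal (𝓞 K)) := by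
    have h1 : Odd (Ideal.absNorm (Ideal.span {1 + S} * r6 S q)) := by
      rw [← e1]
      exact blq_odd nl
    rw [map_mul] at h1
    exact (Nat.odd_mul.1 h1).1
  have omul : ∀ {c d : Ideal (𝓞 K)}, OddI c → OddI d → OddI (c * d) := by
    intro c d hc hd
    unfold OddI at *
    rw [map_mul]
    exact hc.mul hd
  -- (1)
  have hcj : cj τ (c0 : Ideal (𝓞 K)) ∈ M1 K := by
    show Ideal.absNorm (cj τ (c0 : Ideal (𝓞 K))) % 8 = 1
    rw [(norm_cj6 hb hS hτ (c0 : Ideal (𝓞 K))).1]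
    exact nc
  have hinv : clN S ⟨cj τ (c0 : Ideal (𝓞 K)), hcj⟩ = (clN S c0)⁻¹ := by
    show QuotientGroup.mk (cls (cj τ (c0 : Ideal (𝓞 K)))) =
      (QuotientGroup.mk (cls (c0 : Ideal (𝓞 K))))⁻¹
    rw [(cls_cj hb hS hτ (M1.ne c0.2)).2]
    rfl
  obtain ⟨ε, hε, -, hεx⟩ := kk_px hb hS hτ ha hU
    (b := w0 * ⟨cj τ (c0 : Ideal (𝓞 K)), hcj⟩) (c := c0) (by
      rw [map_mul, hinv, ← hcl, mul_inv_cancel_right])
  have hεx' : ∀ x, OddI x → PP z k v ((w0 : Ideal (𝓞 K)) * cj τ (c0 : Ideal (𝓞 K)) * x) =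
      PP z k v ((c0 : Ideal (𝓞 K)) * x) + ε := hεx
  have hgε : gal φ ε = ε := blq_tors hV2 φ hε
  -- (2)
  have A1 : PP z k v (c0 : Ideal (𝓞 K)) + ε + PP z k v (c0 : Ideal (𝓞 K)) - (T + em F) ∈
      W5.E1 V := by
    have h1 := hE _ oc
    rw [if_pos (by omega : Ideal.absNorm (c0 : Ideal (𝓞 K)) % 4 = 1)] at h1
    have h2 := hεx' 1 o1
    rw [mul_one, mul_one] at h2
    rw [h2] at h1
    exact h1
  have A2 : PP z k v ((c0 : Ideal (𝓞 K)) * (ρ : Ideal (𝓞 K))) + ε +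
      PP z k v ((c0 : Ideal (𝓞 K)) * (ρ : Ideal (𝓞 K))) - (T + em F) ∈ W5.E1 V := by
    have h1 := hE _ ocρ
    rw [if_pos (by omega :
      Ideal.absNorm ((c0 : Ideal (𝓞 K)) * (ρ : Ideal (𝓞 K))) % 4 = 1), cj_mul6] at h1
    have h3 : cj τ (ρ : Ideal (𝓞 K)) = (ρ : Ideal (𝓞 K)) := by
      rw [hρ]
      exact cj_r6 hb hS hτ p
    rw [h3, ← mul_assoc, hεx' _ oρ] at h1
    exact h1
  obtain ⟨e', he1, he2⟩ := blq_half hV2 φ (blq_two (W5.E1 V) A1 A2)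
  have A1' : gal φ (PP z k v (c0 : Ideal (𝓞 K))) + ε + gal φ (PP z k v (c0 : Ideal (𝓞 K))) -
      (gal φ T + em F) ∈ W5.E1 V := by
    have h1 := hφE _ A1
    rw [map_sub, map_add, map_add, map_add, hgε, (gal_two φ).1] at h1
    exact h1
  have D' : gal φ (PP z k v ((c0 : Ideal (𝓞 K)) * (ρ : Ideal (𝓞 K)))) -
      gal φ (PP z k v (c0 : Ideal (𝓞 K))) - e' ∈ W5.E1 V := by
    have h1 := hφE _ he2
    rw [map_sub, map_sub, he1] at h1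
    exact h1
  -- (3)
  have B3 : T + em F - gal φ T ∈ W5.E1 V := by
    have h1 := hT.rel 1 o1
    have h2 : Ideal.absNorm (1 : Ideal (𝓞 K)) % 4 = 1 := by
      rw [map_one]
      norm_num
    rw [if_pos h2, add_zero, mul_one] at h1
    have h3 := hT.rel (r6 S q) oq
    rw [nq, if_neg (by omega : ¬ q % 4 = 1)] at h3
    have h4 := hφ3 _ oS
    have h5 := hφ3 _ o1
    rw [mul_one] at h5
    rw [mul_comm (r6 S q)] at h4
    have h6 : T + em F - gal φ T = (PP z k v (Ideal.span {1 + S} * r6 S q) -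
        gal φ (PP z k v (Ideal.span {1 + S}))) + (PP z k v (r6 S q) - gal φ (PP z k v 1)) := by
      rw [← h3, ← h1, map_add]
      abel
    rw [h6]
    exact (W5.E1 V).add_mem h4 h5
  -- (4)
  have n1 : ∀ c : Ideal (𝓞 K), Ideal.absNorm c % 8 = 1 →
      ¬ Ideal.absNorm (r6 S q * c) % 4 = 1 := by
    intro c hc h1
    rw [map_mul, nq, Nat.mul_mod] at h1
    have h2 : q % 4 = 3 := by omega
    have h3 : Ideal.absNorm c % 4 = 1 := by omega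
    rw [h2, h3] at h1
    norm_num at h1
  have Q1 : PP z k v ((c0 : Ideal (𝓞 K)) * (l1 : Ideal (𝓞 K))) +
      PP z k v (r6 S q * (c0 : Ideal (𝓞 K))) = T + em F := by
    have h1 := hT.rel (r6 S q * (c0 : Ideal (𝓞 K))) (omul oq oc)
    rw [if_neg (n1 _ nc)] at h1
    have h2 : (c0 : Ideal (𝓞 K)) * (l1 : Ideal (𝓞 K)) =
        Ideal.span {1 + S} * (r6 S q * (c0 : Ideal (𝓞 K))) := by
      rw [e1]
      ring
    rw [h2]
    exact h1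
  have Q2 : PP z k v ((c0 : Ideal (𝓞 K)) * (l2 : Ideal (𝓞 K))) +
      PP z k v (r6 S q * ((c0 : Ideal (𝓞 K)) * (ρ : Ideal (𝓞 K)))) = T + em F := by
    have h1 := hT.rel (r6 S q * ((c0 : Ideal (𝓞 K)) * (ρ : Ideal (𝓞 K)))) (omul oq ocρ)
    rw [if_neg (n1 _ ncρ)] at h1
    have h2 : (c0 : Ideal (𝓞 K)) * (l2 : Ideal (𝓞 K)) =
        Ideal.span {1 + S} * (r6 S q * ((c0 : Ideal (𝓞 K)) * (ρ : Ideal (𝓞 K)))) := by
      rw [e2, r6_mul hb hS hpq, hρ]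
      ring
    rw [h2]
    exact h1
  exact blq_abs (W5.E1 V) Q1 Q2 hT.two t6 A1 A1' he2 D' (hφ3 _ oc) (hφ3 _ ocρ) B3

end Pool.Agent.Work.MP_8efaaa_nt.T3
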