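import Mathlib
import Pool.Agent.Work.MP_8efaaa_nt.T3.Defs
import Pool.Agent.Work.MP_8efaaa_nt.V6.GPi
import Pool.Agent.Work.MP_8efaaa_nt.V6.PEx
import Pool.Agent.Work.MP_8efaaa_nt.W14.PGa
import Pool.Agent.Work.MP_8efaaa_nt.W14.CEq
import Pool.Agent.Work.MP_8efaaa_nt.Y6.Four
import Pool.Agent.Work.MP_8efaaa_nt.Y6.Prd

/-!
# T3/BPw (M): the point of a power, `a = 6 (mod 16)`

sq_pow (pure group theory): as in the proof of `Y6.four_pow` (Y6/Four.lean): the kernel of `powMonoidHom 2` has `4` elements, so its range has `card X / 4` elements, and `(g ^ 2) ^ (card X / 4) = 1` (`pow_card_eq_one'` in the range).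
pw_fin: `P = PP z k v`, `card = 4 (n + 1)`. (1) `P ((1+S) ((1+S) c)) = P c + em` for odd `c`: `hT.rel` for `(1+S) c` and for `c`; `N ((1+S) c) = (1+a) N c = 3 N c (mod 4)` (`norm_g`), so exactly one of the two norms is `1 (mod 4)` (see `g_sq` in V6/PEt.lean).
(2) `c0 * (c0 ρ) * (c0 l1) * (c0 l2) = (c0 c0 (c0 c0)) * ((1+S) ((1+S) (pq)))`, because `r6 S p * r6 S q = r6 S (p q)` (`r6_mul`) and `r6 S (p q) * r6 S (p q) = (p q)` (`r6_sq`); `p q = 7 (mod 8)`, `V6.nat_px`: so `P` of the product of the `rq` is `P (wq ^ (2 n) * (c0 c0 (c0 c0))) + em` (also the factor `(m)`, `m = 1 (mod 8)`, `nat_px`).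
(3) `V6.kk_px` for `c0 * c0` and `wq` (same class, hcl): `P (c0 c0 x) = P (wq x) + ε`, `ε + ε = 0`; twice: `P (c0 c0 (c0 c0) y) = P (wq (wq y)) + ε + ε`. So (2) is `P (wq ^ (2 n + 2)) + em`. `clN wq ^ (n + 1) = (clN c0 * clN c0) ^ (card / 4) = 1` (sq_pow), `kk_px` for `wq ^ (n + 1)` and `1`: `P (wq ^ (n+1) x) = P x + ε'`, twice: `P (wq ^ (2 n + 2)) = P 1`. So `P (∏ rq) = P 1 + em`.
(4) `Y6.sum_prod` for `rq`, `rp`: `∑ P (rq g) - ∑ P (rp g) = P (∏ rq) - P (∏ rp)`. Left side: `(2 n) • (T + em) + ep - (2 n + 2) • (T + em) = ep - 2 (T + em) = ep - ez = em` (`hT.two`, `two_ep`). `P (∏ rp) = P (wp ^ (card / 2))` (`nat_px`). So `P (wp ^ (card/2)) = P 1 + em - em = P 1`.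
-/

set_option autoImplicit false

namespace Pool.Agent.Work.MP_8efaaa_nt.T3

open NumberField Pool.Agent.Work.MP_8efaaa_nt.R Pool.Agent.Work.MP_8efaaa_nt.N5
  Pool.Agent.Work.MP_8efaaa_nt.K6 Pool.Agent.Work.MP_8efaaa_nt.W14 Pool.Agent.Work.MP_8efaaa_nt.V6
open scoped Classical nonZeroDivisors

theorem sq_pow {X : Type*} [CommGroup X] [Finite X] {ρ l1 l2 : X}
    (h : ∀ x : X, x * x = 1 ↔ x = 1 ∨ x = ρ ∨ x = l1 ∨ x = l2) (h1 : ρ ≠ 1) (h2 : l1 ≠ 1)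
    (h3 : l2 ≠ 1) (h4 : ρ ≠ l1) (h5 : ρ ≠ l2) (h6 : l1 ≠ l2) (g : X) :
    (g * g) ^ (Nat.card X / 4) = 1 := by
  have hcard : Nat.card X = 4 * Nat.card (powMonoidHom 2 : X →* X).range := by
    have hk : Nat.card (powMonoidHom 2 : X →* X).ker = 4 := by
      have hset : ((powMonoidHom 2 : X →* X).ker : Set X) = {1, ρ, l1, l2} := by
        ext x
        simp only [SetLike.mem_coe, MonoidHom.mem_ker, powMonoidHom_apply, Set.mem_insert_iff,
          Set.mem_singleton_iff, pow_two]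
        exact h x
      have h0 : Nat.card (powMonoidHom 2 : X →* X).ker = Nat.card ({1, ρ, l1, l2} : Set X) := by
        rw [← hset]
        rfl
      rw [h0, Nat.card_coe_set_eq]
      rw [Set.ncard_insert_of_notMem, Set.ncard_insert_of_notMem, Set.ncard_pair h6]
      · simp only [Set.mem_insert_iff, Set.mem_singleton_iff, not_or]
        exact ⟨h4, h5⟩
      · simp only [Set.mem_insert_iff, Set.mem_singleton_iff, not_or]
        exact ⟨h1.symm, h2.symm, h3.symm⟩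
    rw [← Subgroup.card_mul_index (powMonoidHom 2 : X →* X).ker, hk, Subgroup.index_ker]
  have hN4 : Nat.card X / 4 = Nat.card (powMonoidHom 2 : X →* X).range := by
    rw [hcard, Nat.mul_div_cancel_left _ (by norm_num)]
  rw [hN4]
  have h9 := pow_card_eq_one' (x := (⟨g ^ 2, ⟨g, rfl⟩⟩ : (powMonoidHom 2 : X →* X).range))
  have h10 := congrArg (fun y : (powMonoidHom 2 : X →* X).range => (y : X)) h9
  rw [← pow_two]
  simpa using h10

variable {K F : Type*} [Field K] [NumberField K] [Field F] [NumberField F] [Algebra K F] {a : ℕ}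
  {s : K} {S : 𝓞 K} {τ : 𝓞 K ≃+* 𝓞 K} {ζ : F} {w : ℕ → F} {z k v : Ideal (𝓞 K) → F}
  {κ : F ≃ₐ[ℚ] F}

private theorem bpw_odd_mul {c d : Ideal (𝓞 K)} (hc : OddI c) (hd : OddI d) : OddI (c * d) := by
  unfold OddI at *
  rw [map_mul]
  exact hc.mul hd

private theorem bpw_one : OddI (1 : Ideal (𝓞 K)) := by
  unfold OddI
  rw [map_one]
  exact odd_one

private theorem bpw_g (hb : B6 K a s) (hS : algebraMap (𝓞 K) K S = s) :
    OddI (Ideal.span {1 + S}) := by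
  unfold OddI
  rw [norm_g hb hS, Nat.odd_iff]
  have := hb.mod
  omega

private theorem bpw_gsq (hb : B6 K a s) (hS : algebraMap (𝓞 K) K S = s)
    {T : (cQ F).Point} (hT : Tq S z k v T) {c : Ideal (𝓞 K)} (hc : OddI c) :
    PP z k v (Ideal.span {1 + S} * (Ideal.span {1 + S} * c)) = PP z k v c + W14.em F := by
  have hc2 : OddI (Ideal.span {1 + S} * c) := bpw_odd_mul (bpw_g hb hS) hc
  have h1 := hT.rel c hc
  have h2 := hT.rel _ hc2
  have hN : Ideal.absNorm (Ideal.span {1 + S} * c) % 4 = 3 * Ideal.absNorm c % 4 := by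
    rw [map_mul, norm_g hb hS, Nat.mul_mod]
    have hmod := hb.mod
    have h3 : (1 + a) % 4 = 3 := by omega
    rw [h3]
    omega
  have hodd : Ideal.absNorm c % 2 = 1 := Nat.odd_iff.1 hc
  have hee := (two_ep (F := F)).2.1
  have h5 : PP z k v (Ideal.span {1 + S} * (Ideal.span {1 + S} * c)) =
      (PP z k v (Ideal.span {1 + S} * (Ideal.span {1 + S} * c)) +
        PP z k v (Ideal.span {1 + S} * c)) - (PP z k v (Ideal.span {1 + S} * c) + PP z k v c) +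
        PP z k v c := by abel
  by_cases h4 : Ideal.absNorm c % 4 = 1
  · rw [if_pos h4, add_zero] at h1
    rw [if_neg (by omega)] at h2
    rw [h5, h1, h2]
    abel
  · rw [if_neg h4] at h1
    rw [if_pos (by omega), add_zero] at h2
    rw [h5, h1, h2]
    have h6 : T - (T + W14.em F) + PP z k v c = PP z k v c + W14.em F -
      (W14.em F + W14.em F) := by abel
    rw [h6, hee, sub_zero]

/-- the ideal of the product -/
private theorem bpw_id (hb : B6 K a s) (hS : algebraMap (𝓞 K) K S = s) {p q : ℕ}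
    (hpq : p * q ∣ a) {c0 ρ l1 l2 W : Ideal (𝓞 K)} (hρ : ρ = r6 S p)
    (e1 : l1 = Ideal.span {1 + S} * r6 S q) (e2 : l2 = Ideal.span {1 + S} * r6 S (p * q)) :
    W * (c0 * (c0 * ρ) * (c0 * l1) * (c0 * l2)) =
      Ideal.span {1 + S} * (Ideal.span {1 + S} * (Ideal.span {((p * q : ℕ) : 𝓞 K)} *
        ((c0 * c0) * ((c0 * c0) * W)))) := by
  rw [hρ, e1, e2, ← r6_sq hb hS hpq]
  have h1 := r6_mul hb hS hpq
  calc W * (c0 * (c0 * r6 S p) * (c0 * (Ideal.span {1 + S} * r6 S q)) *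
        (c0 * (Ideal.span {1 + S} * r6 S (p * q))))
      = Ideal.span {1 + S} * (Ideal.span {1 + S} * ((r6 S p * r6 S q) * r6 S (p * q) *
        ((c0 * c0) * ((c0 * c0) * W)))) := by ring
    _ = _ := by rw [← h1]

private theorem bpw_odd_pow {c : Ideal (𝓞 K)} (hc : OddI c) (n : ℕ) : OddI (c ^ n) := by
  unfold OddI at *
  rw [map_pow]
  exact hc.pow

private theorem bpw_Y {A : Type*} [AddCommGroup A] {P : Ideal (𝓞 K) → A} {c w : Ideal (𝓞 K)}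
    {n : ℕ} (hc : OddI c) (hw : OddI w) {ε ε' : A} (he : ε + ε = 0) (he' : ε' + ε' = 0)
    (hx : ∀ x, OddI x → P ((c * c) * x) = P (w * x) + ε)
    (hx' : ∀ x, OddI x → P (w ^ (n + 1) * x) = P x + ε') :
    P ((c * c) * ((c * c) * w ^ (2 * n))) = P 1 := by
  have o1 : OddI (w ^ (2 * n)) := bpw_odd_pow hw _
  have o2 : OddI ((c * c) * w ^ (2 * n)) := bpw_odd_mul (bpw_odd_mul hc hc) o1
  have o4 : OddI (w * w ^ (2 * n)) := bpw_odd_mul hw o1
  have h9 : w * ((c * c) * w ^ (2 * n)) = (c * c) * (w * w ^ (2 * n)) := mul_left_comm _ _ _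
  have h10 : w * (w * w ^ (2 * n)) = w ^ (n + 1) * (w ^ (n + 1) * 1) := by
    rw [mul_one, ← pow_add, show n + 1 + (n + 1) = 2 * n + 1 + 1 by ring, pow_succ', pow_succ']
  rw [hx _ o2, h9, hx _ o4, add_assoc, he, add_zero, h10,
    hx' _ (bpw_odd_mul (bpw_odd_pow hw _) bpw_one), hx' _ bpw_one, add_assoc, he', add_zero]

private theorem bpw_gp {A : Type*} [AddCommGroup A] {T e m z x y : A} {n : ℕ} (hT : T + T = z)
    (hm : m + m = 0) (hem : e + z = m) (hz : z + z = 0)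
    (h : (2 * n) • (T + m) + e - (2 * n + 2) • (T + m) = (x + m) - y) : y = x := by
  have hl : (2 * n) • (T + m) + e - (2 * n + 2) • (T + m) = m := by
    rw [add_smul]
    have h7 : (2 : ℕ) • (T + m) = z := by
      rw [two_nsmul]
      calc T + m + (T + m) = (T + T) + (m + m) := by abel
        _ = z := by rw [hT, hm, add_zero]
    rw [h7]
    calc (2 * n) • (T + m) + e - ((2 * n) • (T + m) + z)
        = e + z - (z + z) := by abel
      _ = m := by rw [hem, hz, sub_zero]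
  rw [hl] at h
  have h8 : y = x + m - (x + m - y) := by abel
  rw [h8, ← h]
  abel

private theorem bpw_norm {p q : ℕ} (h : (p * q) % 8 = 7) : Odd (p * q) :=
  Nat.odd_iff.2 (by omega)

private theorem bpw_main (hb : B6 K a s) (hS : algebraMap (𝓞 K) K S = s)
    (hU : UD6 K F a s S τ ζ w z k v κ) {T : (cQ F).Point}
    (hT : Tq S z k v T) {p q : ℕ} (hpq : p * q ∣ a) (hpq8 : (p * q) % 8 = 7)
    {wp wq c0 ρ l1 l2 : Ideal (𝓞 K)} (hρ : ρ = r6 S p)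
    (e1 : l1 = Ideal.span {1 + S} * r6 S q) (e2 : l2 = Ideal.span {1 + S} * r6 S (p * q))
    (ow : OddI wq) (oc : OddI c0) (oρ : OddI ρ) (o1 : OddI l1) (o2 : OddI l2) (op : OddI wp)
    {n m m' N : ℕ} (hm : m % 8 = 1) (hm' : m' % 8 = 1) (hN : N = 2 * n + 2)
    {ε ε' : (cQ F).Point} (he : ε + ε = 0) (he' : ε' + ε' = 0)
    (hx : ∀ x, OddI x → PP z k v ((c0 * c0) * x) = PP z k v (wq * x) + ε)
    (hx' : ∀ x, OddI x → PP z k v (wq ^ (n + 1) * x) = PP z k v x + ε')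
    (hsum : (2 * n) • (T + W14.em F) + ep F - N • (T + W14.em F) =
      PP z k v (Ideal.span {(m' : 𝓞 K)} *
      (wq ^ (2 * n) * (c0 * (c0 * ρ) * (c0 * l1) * (c0 * l2)))) -
      PP z k v (Ideal.span {(m : 𝓞 K)} * wp ^ N)) :
    PP z k v (wp ^ N) = PP z k v 1 := by
  obtain ⟨t1, t2, t3, t4, t5, t6⟩ := two_ep (F := F)
  have opq : OddI (Ideal.span {((p * q : ℕ) : 𝓞 K)}) := by
    rw [← r6_sq hb hS hpq]
    unfold OddI
    rw [map_mul, norm_r6 hb hS hpq]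
    exact (bpw_norm hpq8).mul (bpw_norm hpq8)
  have hY := bpw_Y oc ow he he' hx hx'
  have o3 : OddI ((c0 * c0) * ((c0 * c0) * wq ^ (2 * n))) :=
    bpw_odd_mul (bpw_odd_mul oc oc) (bpw_odd_mul (bpw_odd_mul oc oc) (bpw_odd_pow ow _))
  have hQ : PP z k v (Ideal.span {(m' : 𝓞 K)} *
      (wq ^ (2 * n) * (c0 * (c0 * ρ) * (c0 * l1) * (c0 * l2)))) = PP z k v 1 + W14.em F := by
    have hX : OddI (wq ^ (2 * n) * (c0 * (c0 * ρ) * (c0 * l1) * (c0 * l2))) :=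
      bpw_odd_mul (bpw_odd_pow ow _) (bpw_odd_mul (bpw_odd_mul (bpw_odd_mul oc
        (bpw_odd_mul oc oρ)) (bpw_odd_mul oc o1)) (bpw_odd_mul oc o2))
    rw [nat_px hb hS hU (Nat.odd_iff.2 (by omega)) hX, if_pos (Or.inl hm'), add_zero,
      bpw_id hb hS hpq hρ e1 e2, bpw_gsq hb hS hT (bpw_odd_mul opq o3),
      nat_px hb hS hU (bpw_norm hpq8) o3, if_pos (Or.inr hpq8), add_zero, hY]
  have hP : PP z k v (Ideal.span {(m : 𝓞 K)} * wp ^ N) = PP z k v (wp ^ N) := by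
    rw [nat_px hb hS hU (Nat.odd_iff.2 (by omega)) (bpw_odd_pow op _), if_pos (Or.inl hm),
      add_zero]
  rw [hQ, hP, hN] at hsum
  rw [hN]
  exact bpw_gp hT.two t2 t5 t3 hsum

private theorem bpw_kk (hb : B6 K a s) (hS : algebraMap (𝓞 K) K S = s) (hτ : τ S = -S)
    (ha : a % 16 = 6) (hU : UD6 K F a s S τ ζ w z k v κ) {b c : M1 K}
    (h : clN S b = clN S c) {b' c' : Ideal (𝓞 K)} (h1 : (b : Ideal (𝓞 K)) = b')
    (h2 : (c : Ideal (𝓞 K)) = c') :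
    ∃ ε : (cQ F).Point, ε + ε = 0 ∧
      ∀ x, OddI x → PP z k v (b' * x) = PP z k v (c' * x) + ε := by
  obtain ⟨ε, he, -, hx⟩ := kk_px hb hS hτ ha hU h
  rw [h1, h2] at hx
  exact ⟨ε, he, hx⟩

private theorem bpw_cl {X : Type*} [CommGroup X] [Fintype X] {ρ l1 l2 c w : X} {n : ℕ}
    (h : ∀ x : X, x * x = 1 ↔ x = 1 ∨ x = ρ ∨ x = l1 ∨ x = l2) (h1 : ρ ≠ 1) (h2 : l1 ≠ 1)
    (h3 : l2 ≠ 1) (h4 : ρ ≠ l1) (h5 : ρ ≠ l2) (h6 : l1 ≠ l2) (hc : c * c = w)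
    (hn : Fintype.card X = 4 * (n + 1)) : w ^ (n + 1) = 1 := by
  have h7 := sq_pow h h1 h2 h3 h4 h5 h6 c
  have hcard4 : Nat.card X / 4 = n + 1 := by
    rw [Nat.card_eq_fintype_card, hn]
    omega
  rw [hcard4, hc] at h7
  exact h7

theorem pw_fin (hb : B6 K a s) (hS : algebraMap (𝓞 K) K S = s) (hτ : τ S = -S)
    (ha : a % 16 = 6) (hU : UD6 K F a s S τ ζ w z k v κ) {T : (cQ F).Point}
    (hT : Tq S z k v T) {p q : ℕ} (hpq : p * q ∣ a) (hpq8 : (p * q) % 8 = 7)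
    {wp wq c0 ρ l1 l2 : M1 K} (hρ : (ρ : Ideal (𝓞 K)) = r6 S p)
    (e1 : (l1 : Ideal (𝓞 K)) = Ideal.span {1 + S} * r6 S q)
    (e2 : (l2 : Ideal (𝓞 K)) = Ideal.span {1 + S} * r6 S (p * q))
    (h1 : clN S ρ ≠ 1) (h2 : clN S l1 ≠ 1) (h3 : clN S l2 ≠ 1) (h4 : clN S ρ ≠ clN S l1)
    (h5 : clN S ρ ≠ clN S l2) (h6 : clN S l1 ≠ clN S l2)
    (hG : ∀ g : CG S, g * g = 1 ↔ g = 1 ∨ g = clN S ρ ∨ g = clN S l1 ∨ g = clN S l2)
    (hcl : clN S c0 * clN S c0 = clN S wq) [Fintype (CG S)] {n m m' : ℕ}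
    (hn : Fintype.card (CG S) = 4 * (n + 1)) {rp rq : CG S → M1 K}
    (hp1 : ∀ g, clN S (rp g) = g) (hm : m % 8 = 1)
    (hp2 : ((∏ g, rp g : M1 K) : Ideal (𝓞 K)) = Ideal.span {(m : 𝓞 K)} *
      (wp : Ideal (𝓞 K)) ^ (Fintype.card (CG S) / 2))
    (hp3 : ∑ g, PP z k v (rp g : Ideal (𝓞 K)) = (Fintype.card (CG S) / 2) • (T + W14.em F))
    (hq1 : ∀ g, clN S (rq g) = g) (hm' : m' % 8 = 1)
    (hq2 : ((∏ g, rq g : M1 K) : Ideal (𝓞 K)) = Ideal.span {(m' : 𝓞 K)} *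
      ((wq : Ideal (𝓞 K)) ^ (2 * n) * ((c0 : Ideal (𝓞 K)) * ((c0 : Ideal (𝓞 K)) * ρ) *
        ((c0 : Ideal (𝓞 K)) * l1) * ((c0 : Ideal (𝓞 K)) * l2))))
    (hq3 : ∑ g, PP z k v (rq g : Ideal (𝓞 K)) = (2 * n) • (T + W14.em F) + ep F) :
    PP z k v ((wp : Ideal (𝓞 K)) ^ (Fintype.card (CG S) / 2)) = PP z k v 1 := by
  have hcl2 : clN S (wq ^ (n + 1)) = clN S 1 := by
    rw [map_pow, map_one]
    exact bpw_cl hG h1 h2 h3 h4 h5 h6 hcl hn
  have hcl3 : clN S (c0 * c0) = clN S wq := by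
    rw [map_mul]
    exact hcl
  obtain ⟨ε', he', hx'⟩ := bpw_kk hb hS hτ ha hU hcl2 (SubmonoidClass.coe_pow wq (n + 1)) rfl
  obtain ⟨ε, he, hx⟩ := bpw_kk hb hS hτ ha hU hcl3 (Submonoid.coe_mul _ c0 c0) rfl
  have hsum := Y6.sum_prod hb hS hτ ha hU hq1 hp1
  rw [hq3, hp3, hq2, hp2] at hsum
  refine bpw_main hb hS hU hT hpq hpq8 hρ e1 e2 (M1.odd wq.2) (M1.odd c0.2) (M1.odd ρ.2)
    (M1.odd l1.2) (M1.odd l2.2) (M1.odd wp.2) (n := n) hm hm' (by omega) he he' hx ?_ hsum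
  intro x hx1
  have h7 := hx' x hx1
  rw [Submonoid.coe_one, one_mul] at h7
  exact h7

end Pool.Agent.Work.MP_8efaaa_nt.T3
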