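import Mathlib
import Pool.Agent.Work.MP_8efaaa_nt.T3.Defs
import Pool.Agent.Work.MP_8efaaa_nt.V6.GSu
import Pool.Agent.Work.MP_8efaaa_nt.W14.CEq
import Pool.Agent.Work.MP_8efaaa_nt.K6.ARg

/-!
# T3/BSf (M): representatives for a class `w0` that is a square, four fixed classes, `a = 6 (mod 16)`

Model: `exists_sec2` (Z6/Sec.lean; there with two fixed classes; copy it with its private lemmas). `ω = clN S w0 = clN c0 * clN c0`, `f g = ω * g⁻¹` is an involution of `CG S`; `f g = g` iff `g * g = ω` iff `g * (clN c0)⁻¹` has square `1`, iff (hG) `g` is one of the four different classes `clN c0`, `clN (c0 ρ)`, `clN (c0 l1)`, `clN (c0 l2)` (h1 .. h6). Half system `H` of the complement of these four classes: `card = 2 H.card + 4`. The kernel of `g ↦ g * g` has four elements, so `4 ∣ card` (or: `CG S` is a finite group, the subgroup of the elements of square `1` has order `4`, `Subgroup.card_subgroup_dvd_card`), so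 `H.card = 2 n`, `card = 4 (n + 1)`.
Product: `∏ g ∈ H, c g * (w0 * cj τ (c g)) = (m) w0 ^ (2 n)`, `m = ∏ N (c g) = 1 (mod 8)`, times `c0 * (c0 ρ) * (c0 l1) * (c0 l2)`. Sum: `∑ g, P (r g) - ((2 n) • T' + (four terms)) = ∑ g ∈ H, (P (w0 * cj τ (c g)) + P (c g) - T') ∈ E`.
-/

set_option autoImplicit false

namespace Pool.Agent.Work.MP_8efaaa_nt.T3

open NumberField Pool.Agent.Work.MP_8efaaa_nt.R Pool.Agent.Work.MP_8efaaa_nt.N5
  Pool.Agent.Work.MP_8efaaa_nt.K6 Pool.Agent.Work.MP_8efaaa_nt.W14 Pool.Agent.Work.MP_8efaaa_nt.V6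
open scoped Classical nonZeroDivisors

variable {K F : Type*} [Field K] [NumberField K] [Field F] [NumberField F] {a : ℕ}
  {s : K} {S : 𝓞 K} {τ : 𝓞 K ≃+* 𝓞 K}

private theorem bsf_half {J : Type*} [Fintype J] {f : J → J} (hf : ∀ j, f (f j) = j) :
    ∃ H : Finset J, (∀ j ∈ H, f j ∉ H) ∧ (∀ j ∈ H, f j ≠ j) ∧
      ∀ j, f j ≠ j → j ∈ H ∨ f j ∈ H := by
  let e : J ≃ Fin (Fintype.card J) := Fintype.equivFin J
  let H : Finset J := Finset.univ.filter fun j => e j < e (f j)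
  have hmem : ∀ j, j ∈ H ↔ e j < e (f j) := by
    intro j
    simp [H]
  refine ⟨H, ?_, ?_, ?_⟩
  · intro j hj hj'
    rw [hmem] at hj hj'
    rw [hf] at hj'
    exact lt_asymm hj hj'
  · intro j hj h
    rw [hmem, h] at hj
    exact lt_irrefl _ hj
  · intro j hj
    have h1 : e j ≠ e (f j) := fun h => hj (e.injective h).symm
    rcases lt_or_gt_of_ne h1 with h2 | h2
    · exact Or.inl ((hmem j).2 h2)
    · refine Or.inr ((hmem _).2 ?_)
      rw [hf]
      exact h2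

private theorem bsf_univ {J : Type*} [Fintype J] {f : J → J} {H : Finset J} {g0 g1 g2 g3 : J}
    (hf : ∀ j, f (f j) = j) (hfx : ∀ j, f j = j ↔ j = g0 ∨ j = g1 ∨ j = g2 ∨ j = g3)
    (h1 : ∀ j ∈ H, f j ∉ H) (h2 : ∀ j ∈ H, f j ≠ j) (h3 : ∀ j, f j ≠ j → j ∈ H ∨ f j ∈ H) :
    Disjoint H (H.image f) ∧ Disjoint (H ∪ H.image f) ({g0, g1, g2, g3} : Finset J) ∧
      (Finset.univ : Finset J) = (H ∪ H.image f) ∪ {g0, g1, g2, g3} := by
  refine ⟨?_, ?_, ?_⟩
  · rw [Finset.disjoint_left]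
    intro j hj hj'
    obtain ⟨k, hk, rfl⟩ := Finset.mem_image.1 hj'
    exact h1 k hk hj
  · rw [Finset.disjoint_left]
    intro j hj hj'
    have h4 : f j = j := by
      rw [hfx]
      simpa using hj'
    rcases Finset.mem_union.1 hj with h5 | h5
    · exact h2 j h5 h4
    · obtain ⟨k, hk, rfl⟩ := Finset.mem_image.1 h5
      rw [hf] at h4
      exact h2 k hk h4.symm
  · symm
    rw [Finset.eq_univ_iff_forall]
    intro j
    by_cases h4 : f j = j
    · refine Finset.mem_union_right _ ?_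
      simpa using (hfx j).1 h4
    · refine Finset.mem_union_left _ ?_
      rcases h3 j h4 with h5 | h5
      · exact Finset.mem_union_left _ h5
      · exact Finset.mem_union_right _ (Finset.mem_image.2 ⟨f j, h5, hf j⟩)

private theorem bsf_card {J : Type*} [Fintype J] {f : J → J} {H : Finset J} {g0 g1 g2 g3 : J}
    (h01 : g0 ≠ g1) (h02 : g0 ≠ g2) (h03 : g0 ≠ g3) (h12 : g1 ≠ g2) (h13 : g1 ≠ g3)
    (h23 : g2 ≠ g3) (hf : ∀ j, f (f j) = j) (hd : Disjoint H (H.image f))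
    (hd2 : Disjoint (H ∪ H.image f) ({g0, g1, g2, g3} : Finset J))
    (hu : (Finset.univ : Finset J) = (H ∪ H.image f) ∪ {g0, g1, g2, g3}) :
    Fintype.card J = 2 * H.card + 4 := by
  have hinj : Function.Injective f := Function.Involutive.injective hf
  have h4 : ({g0, g1, g2, g3} : Finset J).card = 4 := by
    rw [Finset.card_insert_of_notMem (by simp [h01, h02, h03]),
      Finset.card_insert_of_notMem (by simp [h12, h13]),
      Finset.card_insert_of_notMem (by simp [h23]), Finset.card_singleton]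
  rw [← Finset.card_univ, hu, Finset.card_union_of_disjoint hd2,
    Finset.card_union_of_disjoint hd, Finset.card_image_of_injective _ hinj, h4]
  ring

private theorem bsf_prod {J M : Type*} [Fintype J] [CommMonoid M] {f : J → J} {H : Finset J}
    {g0 g1 g2 g3 : J} (h01 : g0 ≠ g1) (h02 : g0 ≠ g2) (h03 : g0 ≠ g3) (h12 : g1 ≠ g2)
    (h13 : g1 ≠ g3) (h23 : g2 ≠ g3) (hf : ∀ j, f (f j) = j) (hd : Disjoint H (H.image f))
    (hd2 : Disjoint (H ∪ H.image f) ({g0, g1, g2, g3} : Finset J))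
    (hu : (Finset.univ : Finset J) = (H ∪ H.image f) ∪ {g0, g1, g2, g3}) (g : J → M) :
    ∏ j, g j = (∏ j ∈ H, (g j * g (f j))) * (g g0 * g g1 * g g2 * g g3) := by
  have hinj : Function.Injective f := Function.Involutive.injective hf
  rw [hu, Finset.prod_union hd2, Finset.prod_union hd, Finset.prod_image (fun x _ y _ h => hinj h),
    Finset.prod_mul_distrib, Finset.prod_insert (by simp [h01, h02, h03]),
    Finset.prod_insert (by simp [h12, h13]), Finset.prod_insert (by simp [h23]),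
    Finset.prod_singleton, mul_assoc (g g0), mul_assoc (g g0), mul_assoc (g g1)]

private theorem bsf_sum {J M : Type*} [Fintype J] [AddCommMonoid M] {f : J → J} {H : Finset J}
    {g0 g1 g2 g3 : J} (h01 : g0 ≠ g1) (h02 : g0 ≠ g2) (h03 : g0 ≠ g3) (h12 : g1 ≠ g2)
    (h13 : g1 ≠ g3) (h23 : g2 ≠ g3) (hf : ∀ j, f (f j) = j) (hd : Disjoint H (H.image f))
    (hd2 : Disjoint (H ∪ H.image f) ({g0, g1, g2, g3} : Finset J))
    (hu : (Finset.univ : Finset J) = (H ∪ H.image f) ∪ {g0, g1, g2, g3}) (g : J → M) :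
    ∑ j, g j = (∑ j ∈ H, (g j + g (f j))) + (g g0 + g g1 + g g2 + g g3) := by
  have hinj : Function.Injective f := Function.Involutive.injective hf
  rw [hu, Finset.sum_union hd2, Finset.sum_union hd, Finset.sum_image (fun x _ y _ h => hinj h),
    Finset.sum_add_distrib, Finset.sum_insert (by simp [h01, h02, h03]),
    Finset.sum_insert (by simp [h12, h13]), Finset.sum_insert (by simp [h23]),
    Finset.sum_singleton, add_assoc (g g0), add_assoc (g g0), add_assoc (g g1)]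

private theorem bsf_card4 {J : Type*} {g0 g1 g2 g3 : J} (h01 : g0 ≠ g1)
    (h02 : g0 ≠ g2) (h03 : g0 ≠ g3) (h12 : g1 ≠ g2) (h13 : g1 ≠ g3) (h23 : g2 ≠ g3) :
    ({g0, g1, g2, g3} : Finset J).card = 4 := by
  rw [Finset.card_insert_of_notMem (by simp [h01, h02, h03]),
    Finset.card_insert_of_notMem (by simp [h12, h13]),
    Finset.card_insert_of_notMem (by simp [h23]), Finset.card_singleton]

private theorem bsf_four {G : Type*} [CommGroup G] [Fintype G] {a b c : G} (h1 : a ≠ 1)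
    (h2 : b ≠ 1) (h3 : c ≠ 1) (h4 : a ≠ b) (h5 : a ≠ c) (h6 : b ≠ c)
    (hG : ∀ g : G, g * g = 1 ↔ g = 1 ∨ g = a ∨ g = b ∨ g = c) : 4 ∣ Fintype.card G := by
  set T : Subgroup G := (powMonoidHom 2 : G →* G).ker with hT
  have hTs : (T : Set G) = (({1, a, b, c} : Finset G) : Set G) := by
    ext g
    rw [SetLike.mem_coe, hT, MonoidHom.mem_ker, powMonoidHom_apply, sq, hG]
    simp
  have hc : Nat.card T = 4 := by
    have e1 : Nat.card T = (T : Set G).ncard := rfl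
    rw [e1, hTs, Set.ncard_coe_finset]
    exact bsf_card4 h1.symm h2.symm h3.symm h4 h5 h6
  rw [← Nat.card_eq_fintype_card, ← hc]
  exact Subgroup.card_subgroup_dvd_card T

theorem sec_four6 (hb : B6 K a s) (hS : algebraMap (𝓞 K) K S = s) (hτ : τ S = -S)
    (ha : a % 16 = 6) {w0 c0 ρ l1 l2 : M1 K} (h1 : clN S ρ ≠ 1) (h2 : clN S l1 ≠ 1)
    (h3 : clN S l2 ≠ 1) (h4 : clN S ρ ≠ clN S l1) (h5 : clN S ρ ≠ clN S l2)
    (h6 : clN S l1 ≠ clN S l2)
    (hG : ∀ g : CG S, g * g = 1 ↔ g = 1 ∨ g = clN S ρ ∨ g = clN S l1 ∨ g = clN S l2)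
    (hw : clN S c0 * clN S c0 = clN S w0) [Fintype (CG S)] :
    ∃ (n : ℕ) (r : CG S → M1 K) (m : ℕ), Fintype.card (CG S) = 4 * (n + 1) ∧
      (∀ g, clN S (r g) = g) ∧ m % 8 = 1 ∧
      ((∏ g, r g : M1 K) : Ideal (𝓞 K)) = Ideal.span {(m : 𝓞 K)} *
        ((w0 : Ideal (𝓞 K)) ^ (2 * n) * ((c0 : Ideal (𝓞 K)) * ((c0 : Ideal (𝓞 K)) * ρ) *
          ((c0 : Ideal (𝓞 K)) * l1) * ((c0 : Ideal (𝓞 K)) * l2))) ∧
      ∀ (z k v : Ideal (𝓞 K) → F) (T' : (cQ F).Point) (E : AddSubgroup (cQ F).Point),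
        (∀ c ∈ M1 K, PP z k v ((w0 : Ideal (𝓞 K)) * cj τ c) + PP z k v c - T' ∈ E) →
        ∑ g, PP z k v (r g : Ideal (𝓞 K)) - ((2 * n) • T' +
          (PP z k v (c0 : Ideal (𝓞 K)) + PP z k v ((c0 : Ideal (𝓞 K)) * ρ) +
            PP z k v ((c0 : Ideal (𝓞 K)) * l1) + PP z k v ((c0 : Ideal (𝓞 K)) * l2))) ∈ E := by
  set ω : CG S := clN S w0 with hω
  set g0 : CG S := clN S c0 with hg0
  set g1 : CG S := g0 * clN S ρ with hg1
  set g2 : CG S := g0 * clN S l1 with hg2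
  set g3 : CG S := g0 * clN S l2 with hg3
  have h01 : g0 ≠ g1 := fun h => h1 (mul_eq_left.1 h.symm)
  have h02 : g0 ≠ g2 := fun h => h2 (mul_eq_left.1 h.symm)
  have h03 : g0 ≠ g3 := fun h => h3 (mul_eq_left.1 h.symm)
  have h12 : g1 ≠ g2 := fun h => h4 (mul_left_cancel h)
  have h13 : g1 ≠ g3 := fun h => h5 (mul_left_cancel h)
  have h23 : g2 ≠ g3 := fun h => h6 (mul_left_cancel h)
  have hf : ∀ g : CG S, ω * (ω * g⁻¹)⁻¹ = g := by
    intro g
    rw [mul_inv_rev, inv_inv, mul_comm g ω⁻¹, mul_inv_cancel_left]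
  have hfx0 : ∀ g : CG S, ω * g⁻¹ = g ↔ g = g0 ∨ g = g1 ∨ g = g2 ∨ g = g3 := by
    intro g
    rw [mul_inv_eq_iff_eq_mul, ← hw]
    have h1 : g0 * g0 = g * g ↔ (g * g0⁻¹) * (g * g0⁻¹) = 1 := by
      rw [mul_mul_mul_comm, ← mul_inv_rev, mul_inv_eq_one]
      exact eq_comm
    rw [h1, hG, mul_inv_eq_one, mul_inv_eq_iff_eq_mul, mul_inv_eq_iff_eq_mul,
      mul_inv_eq_iff_eq_mul, hg1, hg2, hg3, mul_comm (clN S ρ), mul_comm (clN S l1),
      mul_comm (clN S l2)]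
  obtain ⟨H, hH, hH2, hH3⟩ := bsf_half (f := fun g : CG S => ω * g⁻¹) hf
  obtain ⟨hd, hd2, hu⟩ := bsf_univ (f := fun g : CG S => ω * g⁻¹) hf hfx0 hH hH2 hH3
  have hcard : Fintype.card (CG S) = 2 * H.card + 4 :=
    bsf_card h01 h02 h03 h12 h13 h23 hf hd hd2 hu
  have h4d : 4 ∣ Fintype.card (CG S) := bsf_four h1 h2 h3 h4 h5 h6 hG
  obtain ⟨n, hn⟩ : ∃ n, H.card = 2 * n := ⟨H.card / 2, by omega⟩
  have hcjm : ∀ c : Ideal (𝓞 K), c ∈ M1 K → cj τ c ∈ M1 K := by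
    intro c hc
    show Ideal.absNorm (cj τ c) % 8 = 1
    rw [(norm_cj6 hb hS hτ c).1]
    exact M1.nrm hc
  have hinv : ∀ c : M1 K, clN S ⟨cj τ (c : Ideal (𝓞 K)), hcjm _ c.2⟩ = (clN S c)⁻¹ := by
    intro c
    show QuotientGroup.mk (cls (cj τ (c : Ideal (𝓞 K)))) =
      (QuotientGroup.mk (cls (c : Ideal (𝓞 K))))⁻¹
    rw [(cls_cj hb hS hτ (M1.ne c.2)).2]
    rfl
  obtain ⟨c, hc⟩ := (clN_surj hb hS ha).hasRightInverse
  set r : CG S → M1 K := fun g => if g = g0 then c0 else if g = g1 then c0 * ρ else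
    if g = g2 then c0 * l1 else if g = g3 then c0 * l2 else if g ∈ H then c g else
    w0 * ⟨cj τ (c (ω * g⁻¹) : Ideal (𝓞 K)), hcjm _ (c (ω * g⁻¹)).2⟩ with hr
  have hr0 : r g0 = c0 := by
    rw [hr]
    exact if_pos rfl
  have hr01 : r g1 = c0 * ρ := by
    rw [hr]
    show (if g1 = g0 then c0 else if g1 = g1 then c0 * ρ else _) = _
    rw [if_neg h01.symm, if_pos rfl]
  have hr02 : r g2 = c0 * l1 := by
    rw [hr]
    show (if g2 = g0 then c0 else if g2 = g1 then c0 * ρ else if g2 = g2 then c0 * l1 else _) = _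
    rw [if_neg h02.symm, if_neg h12.symm, if_pos rfl]
  have hr03 : r g3 = c0 * l2 := by
    rw [hr]
    show (if g3 = g0 then c0 else if g3 = g1 then c0 * ρ else if g3 = g2 then c0 * l1 else
      if g3 = g3 then c0 * l2 else _) = _
    rw [if_neg h03.symm, if_neg h13.symm, if_neg h23.symm, if_pos rfl]
  have hr1 : ∀ g ∈ H, r g = c g := by
    intro g hg
    have h0 : ¬ (g = g0 ∨ g = g1 ∨ g = g2 ∨ g = g3) := fun h => hH2 g hg ((hfx0 g).2 h)
    rw [not_or, not_or, not_or] at h0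
    rw [hr]
    show (if g = g0 then c0 else if g = g1 then c0 * ρ else if g = g2 then c0 * l1 else
      if g = g3 then c0 * l2 else if g ∈ H then c g else _) = _
    rw [if_neg h0.1, if_neg h0.2.1, if_neg h0.2.2.1, if_neg h0.2.2.2, if_pos hg]
  have hr3 : ∀ g, ω * g⁻¹ ≠ g → g ∉ H → r g =
      w0 * ⟨cj τ (c (ω * g⁻¹) : Ideal (𝓞 K)), hcjm _ (c (ω * g⁻¹)).2⟩ := by
    intro g hg hgH
    have h0 : ¬ (g = g0 ∨ g = g1 ∨ g = g2 ∨ g = g3) := fun h => hg ((hfx0 g).2 h)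
    rw [not_or, not_or, not_or] at h0
    rw [hr]
    show (if g = g0 then c0 else if g = g1 then c0 * ρ else if g = g2 then c0 * l1 else
      if g = g3 then c0 * l2 else if g ∈ H then c g else _) = _
    rw [if_neg h0.1, if_neg h0.2.1, if_neg h0.2.2.1, if_neg h0.2.2.2, if_neg hgH]
  have hr2 : ∀ g ∈ H, r (ω * g⁻¹) = w0 * ⟨cj τ (c g : Ideal (𝓞 K)), hcjm _ (c g).2⟩ := by
    intro g hg
    have h1 := hr3 (ω * g⁻¹) (by rw [hf]; exact (hH2 g hg).symm) (hH g hg)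
    have h2 : ∀ x y : CG S, x = y → (w0 * ⟨cj τ (c x : Ideal (𝓞 K)), hcjm _ (c x).2⟩ : M1 K) =
        w0 * ⟨cj τ (c y : Ideal (𝓞 K)), hcjm _ (c y).2⟩ := by
      rintro x y rfl
      rfl
    rw [h1]
    exact h2 _ _ (hf g)
  have hcl : ∀ g, clN S (r g) = g := by
    intro g
    by_cases e0 : g = g0
    · rw [e0, hr0]
    by_cases e1 : g = g1
    · rw [e1, hr01, map_mul]
    by_cases e2 : g = g2
    · rw [e2, hr02, map_mul]
    by_cases e3 : g = g3
    · rw [e3, hr03, map_mul]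
    by_cases hg : g ∈ H
    · rw [hr1 g hg]
      exact hc g
    · have h2 : ω * g⁻¹ ≠ g := fun h => by
        rcases (hfx0 g).1 h with h3 | h3 | h3 | h3
        · exact e0 h3
        · exact e1 h3
        · exact e2 h3
        · exact e3 h3
      rw [hr3 g h2 hg, map_mul, hinv, hc (ω * g⁻¹), ← hω]
      exact hf g
  refine ⟨n, r, ∏ g ∈ H, Ideal.absNorm (c g : Ideal (𝓞 K)), by omega, hcl, ?_, ?_, ?_⟩
  · refine Finset.prod_induction _ (fun n => n % 8 = 1) ?_ (by norm_num) ?_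
    · intro x y hx hy
      rw [Nat.mul_mod, hx, hy]
    · intro g _
      exact M1.nrm (c g).2
  · rw [bsf_prod h01 h02 h03 h12 h13 h23 hf hd hd2 hu r, hr0, hr01, hr02, hr03]
    have h1 : (∏ g ∈ H, (r g * r (ω * g⁻¹)) : M1 K) = ∏ g ∈ H,
        (c g * (w0 * ⟨cj τ (c g : Ideal (𝓞 K)), hcjm _ (c g).2⟩)) := by
      refine Finset.prod_congr rfl fun g hg => ?_
      rw [hr1 g hg, hr2 g hg]
    have h2 : ∀ g ∈ H, ((c g * (w0 * ⟨cj τ (c g : Ideal (𝓞 K)), hcjm _ (c g).2⟩) : M1 K) :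
        Ideal (𝓞 K)) = Ideal.span {((Ideal.absNorm (c g : Ideal (𝓞 K)) : ℕ) : 𝓞 K)} *
          (w0 : Ideal (𝓞 K)) := by
      intro g _
      show (c g : Ideal (𝓞 K)) * ((w0 : Ideal (𝓞 K)) * cj τ (c g : Ideal (𝓞 K))) = _
      rw [← (norm_cj6 hb hS hτ (c g : Ideal (𝓞 K))).2.1]
      ring
    show ((∏ g ∈ H, (r g * r (ω * g⁻¹)) : M1 K) : Ideal (𝓞 K)) *
      ((c0 : Ideal (𝓞 K)) * ((c0 : Ideal (𝓞 K)) * ρ) * ((c0 : Ideal (𝓞 K)) * l1) *
        ((c0 : Ideal (𝓞 K)) * l2)) = _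
    rw [h1, SubmonoidClass.coe_finsetProd, Finset.prod_congr rfl h2, Finset.prod_mul_distrib,
      Finset.prod_const, Ideal.prod_span_singleton, Nat.cast_prod, mul_assoc, hn]
  · intro z k v T' E hE
    rw [bsf_sum h01 h02 h03 h12 h13 h23 hf hd hd2 hu (fun g => PP z k v (r g : Ideal (𝓞 K)))]
    have h1 : (∑ g ∈ H, (PP z k v (r g : Ideal (𝓞 K)) +
          PP z k v (r (ω * g⁻¹) : Ideal (𝓞 K)))) + (PP z k v (r g0 : Ideal (𝓞 K)) +
          PP z k v (r g1 : Ideal (𝓞 K)) + PP z k v (r g2 : Ideal (𝓞 K)) +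
          PP z k v (r g3 : Ideal (𝓞 K))) - ((2 * n) • T' +
          (PP z k v (c0 : Ideal (𝓞 K)) + PP z k v ((c0 : Ideal (𝓞 K)) * ρ) +
            PP z k v ((c0 : Ideal (𝓞 K)) * l1) + PP z k v ((c0 : Ideal (𝓞 K)) * l2))) =
        ∑ g ∈ H, (PP z k v (r g : Ideal (𝓞 K)) +
          PP z k v (r (ω * g⁻¹) : Ideal (𝓞 K)) - T') := by
      rw [hr0, hr01, hr02, hr03, Finset.sum_sub_distrib, Finset.sum_const, hn]
      show _ + (PP z k v (c0 : Ideal (𝓞 K)) + PP z k v ((c0 : Ideal (𝓞 K)) * ρ) +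
            PP z k v ((c0 : Ideal (𝓞 K)) * l1) + PP z k v ((c0 : Ideal (𝓞 K)) * l2)) - _ = _
      abel
    refine Eq.mpr (congrArg (fun x => x ∈ E) h1) ?_
    refine E.sum_mem fun g hg => ?_
    rw [hr1 g hg, hr2 g hg]
    have h1 := hE (c g : Ideal (𝓞 K)) (c g).2
    rw [add_comm (PP z k v (c g : Ideal (𝓞 K)))]
    exact h1

end Pool.Agent.Work.MP_8efaaa_nt.T3
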