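import Mathlib
import Pool.Agent.Work.MP_8efaaa_nt.K6.CDt
import Pool.Agent.Work.MP_8efaaa_nt.K6.DIn
import Pool.Agent.Work.MP_8efaaa_nt.T3.Defs
import Pool.Agent.Work.MP_8efaaa_nt.T3.In
import Pool.Agent.Work.MP_8efaaa_nt.T3.To
import Pool.Agent.Work.MP_8efaaa_nt.T3.Ge
import Pool.Agent.Work.MP_8efaaa_nt.T3.BGr
import Pool.Agent.Work.MP_8efaaa_nt.T3.BSf
import Pool.Agent.Work.MP_8efaaa_nt.T3.BLq
import Pool.Agent.Work.MP_8efaaa_nt.T3.BPw
import Pool.Agent.Work.MP_8efaaa_nt.T3.BSq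
import Pool.Agent.Work.MP_8efaaa_nt.V6.PEx
import Pool.Agent.Work.MP_8efaaa_nt.W14.DEx
import Pool.Agent.Work.MP_8efaaa_nt.W14.PGa
import Pool.Agent.Work.MP_8efaaa_nt.Y6.Main

/-!
# T3/Main157 (helper67): the theorem for `(1, 7, 5)`

`2 p q r` is a congruent number for primes `p = 1`, `q = 7`, `r = 5 (mod 8)` if `p` is not a square modulo `q` or not a
square modulo `r`.
-/

set_option autoImplicit false

namespace Pool.Agent.Work.MP_8efaaa_nt.T3

open NumberField Pool.Agent.Work.MP_8efaaa_nt.R Pool.Agent.Work.MP_8efaaa_nt.N5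
  Pool.Agent.Work.MP_8efaaa_nt.K6 Pool.Agent.Work.MP_8efaaa_nt.W14 Pool.Agent.Work.MP_8efaaa_nt.V6
open scoped Classical nonZeroDivisors

private theorem sqf {p q r : ℕ} (hp : p.Prime) (hq : q.Prime) (hr : r.Prime) (hp8 : p % 8 = 1)
    (hq8 : q % 8 = 7) (hr8 : r % 8 = 5) : Squarefree (2 * p * q * r) := by
  have c1 : Nat.Coprime 2 p := (Nat.coprime_primes Nat.prime_two hp).2 (by omega)
  have c2 : Nat.Coprime 2 q := (Nat.coprime_primes Nat.prime_two hq).2 (by omega)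
  have c3 : Nat.Coprime 2 r := (Nat.coprime_primes Nat.prime_two hr).2 (by omega)
  have c4 : Nat.Coprime p q := (Nat.coprime_primes hp hq).2 (by omega)
  have c5 : Nat.Coprime p r := (Nat.coprime_primes hp hr).2 (by omega)
  have c6 : Nat.Coprime q r := (Nat.coprime_primes hq hr).2 (by omega)
  rw [Nat.squarefree_mul (Nat.Coprime.mul_left (Nat.Coprime.mul_left c3 c5) c6),
    Nat.squarefree_mul (Nat.Coprime.mul_left c2 c4), Nat.squarefree_mul c1]
  exact ⟨⟨⟨Nat.prime_two.squarefree, hp.squarefree⟩, hq.squarefree⟩, hr.squarefree⟩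

private theorem mod16 {p q r : ℕ} (hp8 : p % 8 = 1) (hq8 : q % 8 = 7) (hr8 : r % 8 = 5) :
    (2 * p * q * r) % 16 = 6 := by
  have h1 : (p * q * r) % 8 = 3 := by
    rw [Nat.mul_mod (p * q), Nat.mul_mod p, hp8, hq8, hr8]
  have h2 : 2 * p * q * r = 2 * (p * q * r) := by ring
  omega

private theorem tors {F : Type*} [Field F] [CharZero F] (n : ℕ) {T : (cQ F).Point}
    (hT : T + T = ez F) : (32 : ℤ) • ((2 * n) • (T + W14.em F) + ep F) = 0 := by
  obtain ⟨t1, t2, t3, -, -, -⟩ := two_ep (F := F)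
  have h1 : (2 * n) • (T + W14.em F) = n • ez F := by
    have h2 : (T + W14.em F) + (T + W14.em F) = ez F := by
      have h3 : (T + W14.em F) + (T + W14.em F) = (T + T) + (W14.em F + W14.em F) := by abel
      rw [h3, hT, t2, add_zero]
    rw [mul_comm, mul_smul, two_smul, h2]
  have h3 : (32 : ℤ) • ((2 * n) • (T + W14.em F) + ep F) =
      (16 : ℤ) • (n • (ez F + ez F) + (ep F + ep F)) := by
    have h4 : (n • (ez F + ez F) + (ep F + ep F)) = (2 : ℤ) • (n • ez F + ep F) := by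
      rw [two_zsmul, smul_add]
      abel
    rw [h1, h4, smul_smul]
    norm_num
  rw [h3, t3, t1, smul_zero, add_zero, smul_zero]

section

variable {K F : Type*} [Field K] [NumberField K] [Field F] [NumberField F] [Algebra K F] {a : ℕ}
  {s : K} {S : 𝓞 K} {τ : 𝓞 K ≃+* 𝓞 K} {ζ : F} {w : ℕ → F} {z k v : Ideal (𝓞 K) → F}
  {κ : F ≃ₐ[ℚ] F}

/-- the final contradiction -/
private theorem fin157 (hb : B6 K a s) (hS : algebraMap (𝓞 K) K S = s) (hτ : τ S = -S)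
    (ha : a % 16 = 6) (hU : UD6 K F a s S τ ζ w z k v κ) {T : (cQ F).Point}
    (hT : Tq S z k v T) [Fintype (CG S)] {p q : ℕ} (hq8 : q % 8 = 7) (hqa : q ∣ a)
    (hpq : p * q ∣ a) (hpq8 : (p * q) % 8 = 7) {ρ l1 l2 c : M1 K}
    (e1 : (l1 : Ideal (𝓞 K)) = Ideal.span {1 + S} * r6 S q)
    (e2 : (l2 : Ideal (𝓞 K)) = Ideal.span {1 + S} * r6 S (p * q))
    (h1 : clN S ρ ≠ 1) (h2 : clN S l1 ≠ 1) (h3 : clN S l2 ≠ 1) (h4 : clN S ρ ≠ clN S l1)
    (h5 : clN S ρ ≠ clN S l2) (h6 : clN S l1 ≠ clN S l2)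
    (hG : ∀ g : CG S, g * g = 1 ↔ g = 1 ∨ g = clN S ρ ∨ g = clN S l1 ∨ g = clN S l2)
    (n1 : ∀ g : CG S, g * g ≠ clN S ρ) (n2 : ∀ g : CG S, g * g ≠ clN S c)
    (n3 : ∀ g : CG S, g * g ≠ clN S ρ * clN S c)
    (h : PP z k v ((c : Ideal (𝓞 K)) ^ (Fintype.card (CG S) / 2)) = PP z k v 1) : False := by
  obtain ⟨h7, h8⟩ := Y6.four_pow hG h1 h2 h3 h4 h5 h6 n1 n2 n3
  rw [Nat.card_eq_fintype_card] at h7 h8
  have h9 : Fintype.card (CG S) / 2 = 2 * (Fintype.card (CG S) / 4) := by omega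
  rw [h9] at h
  rcases h8 with h8 | h8
  · exact Y6.no_pow hb hS hτ ha hU hT.rel hq8 hqa e1 h8 h
  · exact Y6.no_pow hb hS hτ ha hU hT.rel hpq8 hpq e2 h8 h

end

/-- `2 p q r` is a congruent number for primes `p = 1`, `q = 7`, `r = 5 (mod 8)` if `p` is not a square modulo `q` or
not a square modulo `r`. -/
theorem main_157 {p q r : ℕ} (hp : p.Prime) (hq : q.Prime) (hr : r.Prime) (hp8 : p % 8 = 1)
    (hq8 : q % 8 = 7) (hr8 : r % 8 = 5) (h : jacobiSym p q = -1 ∨ jacobiSym p r = -1) :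
    IsCongruent (2 * p * q * r) := by
  by_contra hnc
  have hsf := sqf hp hq hr hp8 hq8 hr8
  have ha := mod16 hp8 hq8 hr8
  have hp2 : p ≠ 2 := by omega
  have hq2 : q ≠ 2 := by omega
  have hr2 : r ≠ 2 := by omega
  have hpa : p ∣ 2 * p * q * r := ⟨2 * q * r, by ring⟩
  have hqa : q ∣ 2 * p * q * r := ⟨2 * p * r, by ring⟩
  have hra : r ∣ 2 * p * q * r := dvd_mul_left _ _
  have hpqa : p * q ∣ 2 * p * q * r := ⟨2 * r, by ring⟩
  have hpq8 : (p * q) % 8 = 7 := by rw [Nat.mul_mod, hp8, hq8]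
  have hpo : Odd p := Nat.odd_iff.2 (by omega)
  have hqo : Odd q := Nat.odd_iff.2 (by omega)
  have hro : Odd r := Nat.odd_iff.2 (by omega)
  have npq : ¬ p ∣ q := fun h1 => by
    have := (Nat.prime_dvd_prime_iff_eq hp hq).1 h1
    omega
  have nqp : ¬ q ∣ p := fun h1 => by
    have := (Nat.prime_dvd_prime_iff_eq hq hp).1 h1
    omega
  have npr : ¬ p ∣ r := fun h1 => by
    have := (Nat.prime_dvd_prime_iff_eq hp hr).1 h1
    omega
  have nrp : ¬ r ∣ p := fun h1 => by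
    have := (Nat.prime_dvd_prime_iff_eq hr hp).1 h1
    omega
  have nrq : ¬ r ∣ q := fun h1 => by
    have := (Nat.prime_dvd_prime_iff_eq hr hq).1 h1
    omega
  obtain ⟨K, _, _, s, hb⟩ := exists_base6 hsf (a := 2 * p * q * r) (by omega)
  obtain ⟨S, hS, -, -⟩ := exists_S6 hb
  obtain ⟨τ, hτ⟩ := exists_tau6 hb hS
  obtain ⟨F, _, _, _, _, _, _, ζ, w, z, k, v, κ, hU⟩ := exists_ud6 hb hS hτ
  obtain ⟨T, hTT, hTr⟩ := V6.tq_px hb hS hU
  have hT : Tq S z k v T := ⟨hTT, hTr⟩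
  have : Fintype (CG S) := Fintype.ofFinite _
  obtain ⟨ρ, l1, l2, hρ, e1, e2, h1, h2, h3, h4, h5, h6, hG, hqr⟩ :=
    exists_grp157 hp hq hr hp8 hq8 hr8 hb hS hτ
  -- the places
  obtain ⟨Lp, hLp', hLp⟩ := exists_prime6 (F := F) hp
  obtain ⟨Γp, _, Vp, hVp⟩ := exists_vl hLp'
  obtain ⟨wp, wp8, wpc, wpE, wps⟩ := in_gen hb hS hτ hU hT hVp hp hp2 hpa hLp
  obtain ⟨Lq, hLq', hLq⟩ := exists_prime6 (F := F) hq
  obtain ⟨Γq, _, Vq, hVq⟩ := exists_vl hLq'
  obtain ⟨wq, wq8, wqc, wqE, wqs⟩ := in_gen hb hS hτ hU hT hVq hq hq2 hqa hLq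
  obtain ⟨Lr, hLr', hLr⟩ := exists_prime6 (F := F) hr
  obtain ⟨Γr, _, Vr, hVr⟩ := exists_vl hLr'
  obtain ⟨wr, wr8, wrc, wrE, wrs⟩ := in_gen hb hS hτ hU hT hVr hr hr2 hra hLr
  -- symbols
  have spp : jacobiSym (Ideal.absNorm wp) p = -1 := by
    rw [wps p hpa hpo, if_pos (iff_of_true (by omega) dvd_rfl)]
  have spq : jacobiSym (Ideal.absNorm wp) q = -1 := by
    rw [wps q hqa hqo, if_pos (iff_of_false (by omega) npq)]
  have sqp : jacobiSym (Ideal.absNorm wq) p = 1 := by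
    rw [wqs p hpa hpo, if_neg (fun h2 => nqp (h2.1 (by omega)))]
  have sqq : jacobiSym (Ideal.absNorm wq) q = 1 := by
    rw [wqs q hqa hqo, if_neg (fun h2 => by have := h2.2 dvd_rfl; omega)]
  have srp : jacobiSym (Ideal.absNorm wr) p = 1 := by
    rw [wrs p hpa hpo, if_neg (fun h2 => nrp (h2.1 (by omega)))]
  have srq : jacobiSym (Ideal.absNorm wr) q = -1 := by
    rw [wrs q hqa hqo, if_pos (iff_of_false (by omega) nrq)]
  set up : M1 K := ⟨wp, wp8⟩ with hup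
  set uq : M1 K := ⟨wq, wq8⟩ with huq
  set ur : M1 K := ⟨wr, wr8⟩ with hur
  -- the nonsquare classes
  have key : ∀ (u : M1 K) (Γ : Type) [LinearOrderedCommGroupWithZero Γ] (V : Valuation F Γ),
      V 2 = 1 → InE τ z k v T (W5.E1 V) (u : Ideal (𝓞 K)) → (∀ g : CG S, g * g ≠ clN S u) →
      (clN S u) ^ (Fintype.card (CG S) / 2) = ∏ g : CG S, g ∧
        ∃ (r : CG S → M1 K) (m : ℕ), (∀ g, clN S (r g) = g) ∧ m % 8 = 1 ∧
          ((∏ g, r g : M1 K) : Ideal (𝓞 K)) = Ideal.span {(m : 𝓞 K)} *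
            (u : Ideal (𝓞 K)) ^ (Fintype.card (CG S) / 2) ∧
          ∑ g, PP z k v (r g : Ideal (𝓞 K)) = (Fintype.card (CG S) / 2) • (T + W14.em F) := by
    intro u Γ _ V hV2 hE hns
    obtain ⟨a1, r0, m0, a2, a3, a4, a5⟩ := Y6.exists_sec (F := F) hb hS hτ ha hns
    refine ⟨a1, r0, m0, a2, a3, a4, Y6.sum_eq hb hS hτ ha hU hnc hTT hV2 a2 (a5 z k v _ _ ?_)⟩
    intro c hc
    have a6 := hE c (M1.odd hc)
    have a7 := M1.nrm hc
    rwa [if_pos (by omega)] at a6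
  have nsp : ∀ g : CG S, g * g ≠ clN S up := fun g => nsq8 hb hS hτ hp (Or.inl hp8) hpa spp g
  have nsr : ∀ g : CG S, g * g ≠ clN S ur := fun g => nsq8 hb hS hτ hq (Or.inr hq8) hqa srq g
  have V2p := (vl_odd hVp hp hp2 hLp).2.1
  have V2r := (vl_odd hVr hr hr2 hLr).2.1
  have hkp := key up Γp Vp V2p wpE nsp
  have hkr := key ur Γr Vr V2r wrE nsr
  have hN : ∀ u u' : M1 K, Ideal.absNorm ((u : Ideal (𝓞 K)) * cj τ u') =
      Ideal.absNorm (u : Ideal (𝓞 K)) * Ideal.absNorm (u' : Ideal (𝓞 K)) := by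
    intro u u'
    rw [map_mul, (norm_cj6 hb hS hτ (u' : Ideal (𝓞 K))).1]
  have hρc : ∀ c : M1 K, clN S ρ * clN S c =
      QuotientGroup.mk (cls (r6 S p * (c : Ideal (𝓞 K)))) := by
    intro c
    rw [cls_mul (r6_ne hb hS hpa) (M1.ne c.2), ← hρ]
    rfl
  have hρp : clN S ρ = QuotientGroup.mk (cls (r6 S p)) := by
    rw [← hρ]
    rfl
  have hpm : jacobiSym p q = 1 ∨ jacobiSym p q = -1 :=
    jacobiSym.eq_one_or_neg_one (by
      rw [Int.gcd_natCast_natCast]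
      exact (Nat.coprime_primes hp hq).2 (by omega))
  rcases hpm with hpq1 | hpq1
  · -- second case
    have hpr1 : jacobiSym p r = -1 := by
      rcases h with h | h
      · rw [hpq1] at h
        norm_num at h
      · exact h
    obtain ⟨c0, hc0⟩ := exists_c6 hb hS hτ ha hp hp8 hpa hq hq8 hqa (fun g hg => (hG g).1 hg)
      (w0 := uq) (w1 := up) (w2 := ur) spp spq srp srq sqp sqq
    obtain ⟨n, rq, m', hn, hq1, hm', hq2', hq3⟩ := sec_four6 (F := F) hb hS hτ ha h1 h2 h3 h4 h5 h6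
      hG hc0
    have hq4 := hq3 z k v (T + W14.em F) (W5.E1 Vq) (fun c hc => by
      have a6 := wqE c (M1.odd hc)
      have a7 := M1.nrm hc
      rwa [if_pos (by omega)] at a6)
    have hlq := loc_q7 hb hS hτ ha hU hT hVq hq hq8 hqa hpqa hLq (w0 := uq) hρ e1 e2 hc0 wqE
    have hq5 := sum_eqX hb hS hτ ha hU hnc (V := Vq) hq1 (tors n hTT) (by
      have a8 := (W5.E1 Vq).add_mem hq4 hlq
      have a9 : ∀ D A B : (cQ F).Point, D - (B + A) + (A - ep F) = D - (B + ep F) := by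
        intro D A B
        abel
      rwa [a9] at a8)
    obtain ⟨-, rp, m, hp1, hm, hp2', hp3⟩ := hkp
    have hfin := pw_fin hb hS hτ ha hU hT hpqa hpq8 hρ e1 e2 h1 h2 h3 h4 h5 h6 hG hc0 hn hp1 hm
      hp2' hp3 hq1 hm' hq2' hq5
    refine fin157 hb hS hτ ha hU hT hq8 hqa hpqa hpq8 e1 e2 h1 h2 h3 h4 h5 h6 hG ?_ nsp ?_ hfin
    · intro g
      rw [← hqr]
      refine nsq8 hb hS hτ hp (Or.inl hp8) hpa ?_ g
      rw [norm_r6 hb hS ⟨2 * p, by ring⟩, Nat.cast_mul, jacobiSym.mul_left,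
        ← jacobiSym.quadratic_reciprocity_one_mod_four (a := p) (b := q) (by omega) hqo,
        ← jacobiSym.quadratic_reciprocity_one_mod_four (a := p) (b := r) (by omega) hro,
        hpq1, hpr1]
      norm_num
    · intro g
      rw [hρc]
      refine nsq8 hb hS hτ hq (Or.inr hq8) hqa ?_ g
      rw [map_mul, norm_r6 hb hS hpa, Nat.cast_mul, jacobiSym.mul_left, hpq1]
      show 1 * jacobiSym (Ideal.absNorm wp) q = -1
      rw [spq]
      norm_num
  · -- first case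
    have hcM : (up : Ideal (𝓞 K)) * cj τ ur ∈ M1 K := by
      show Ideal.absNorm ((up : Ideal (𝓞 K)) * cj τ ur) % 8 = 1
      rw [hN, Nat.mul_mod, M1.nrm up.2, M1.nrm ur.2]
    have hpr := Y6.pair6 hb hS hτ ha hU hkp hkr
    refine fin157 hb hS hτ ha hU hT hq8 hqa hpqa hpq8 (c := ⟨_, hcM⟩) e1 e2 h1 h2 h3 h4 h5 h6 hG
      ?_ ?_ ?_ hpr
    · intro g
      rw [hρp]
      refine nsq8 hb hS hτ hq (Or.inr hq8) hqa ?_ g
      rw [norm_r6 hb hS hpa]
      exact hpq1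
    · intro g
      refine nsq8 hb hS hτ hp (Or.inl hp8) hpa (b := (up : Ideal (𝓞 K)) * cj τ ur) ?_ g
      rw [hN, Nat.cast_mul, jacobiSym.mul_left]
      show jacobiSym (Ideal.absNorm wp) p * jacobiSym (Ideal.absNorm wr) p = -1
      rw [spp, srp]
      norm_num
    · intro g
      rw [hρc]
      refine nsq8 hb hS hτ hq (Or.inr hq8) hqa ?_ g
      show jacobiSym (Ideal.absNorm (r6 S p * ((up : Ideal (𝓞 K)) * cj τ ur))) q = -1
      rw [map_mul, hN, norm_r6 hb hS hpa, Nat.cast_mul, Nat.cast_mul, jacobiSym.mul_left,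
        jacobiSym.mul_left, hpq1]
      show -1 * (jacobiSym (Ideal.absNorm wp) q * jacobiSym (Ideal.absNorm wr) q) = -1
      rw [spq, srq]
      norm_num

end Pool.Agent.Work.MP_8efaaa_nt.T3
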