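import Mathlib
import Pool.Agent.Work.MP_8efaaa_nt.T3.Defs
import Pool.Agent.Work.MP_8efaaa_nt.V6.GNu
import Pool.Agent.Work.MP_8efaaa_nt.V6.GGe
import Pool.Agent.Work.MP_8efaaa_nt.V6.GSu
import Pool.Agent.Work.MP_8efaaa_nt.W14.CCh
import Pool.Agent.Work.MP_8efaaa_nt.W14.CEq
import Pool.Agent.Work.MP_8efaaa_nt.W14.CCo

/-!
# T3/BSq (M): the ideal of trivial symbols has a square class, `a = 6 (mod 16)`

`a = 2 p q r`, `p = 1`, `q = 7`, `r = 5 (mod 8)`. Model: `gen_sq` (V6/GGe.lean) and `genus_cg` (W14/TGe.lean); copy the private lemmas `wdp`, `genus_hom` (of V6/GGe.lean). The two characters of `CG S`: the symbols of `N b` modulo `p` and modulo `q` (`b` of norm prime to `2 p q`), well defined on `ClassGroup (𝓞 K)` by `num_desc` (as in `wdp`), trivial on `cls (r6 S 2)` (`jacobiSym 2 p = jacobiSym 2 q = 1`; choose a representative `b2` of `cls (r6 S 2)` of norm prime to `2 p q`: `r6 S 2 * b2` is principal, `2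 N b2 = x^2 + a y^2`, `num_desc`; or `chi_sq` with `C = 1`, second case, as in `genus_hom` of W14/TGe.lean). So they define `ψ : CG S →* ℤ × ℤ` with values `± 1`, and the squares are in the kernel. `ψ (w1) = (-1, -1)`, `ψ (w2) = (1, -1)` (the classes of the ideals `w1`, `w2`), so `ψ` takes four values and `4 * card ker ψ ≤ card` (as in `genus_cg`, injective map from `Bool × Bool × ker`). The kernel of `g ↦ g * g` has at most `4` elements (h4), so the range has at least `card / 4`, and it is contained in `ker ψ`: equality. `ψ (w0) = 1`, so `clN w0 = g * g`, and `g = clN c0` (`clN_surj`).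
-/

set_option autoImplicit false

namespace Pool.Agent.Work.MP_8efaaa_nt.T3

open NumberField Pool.Agent.Work.MP_8efaaa_nt.R Pool.Agent.Work.MP_8efaaa_nt.N5
  Pool.Agent.Work.MP_8efaaa_nt.K6 Pool.Agent.Work.MP_8efaaa_nt.W14 Pool.Agent.Work.MP_8efaaa_nt.V6
open scoped Classical nonZeroDivisors

variable {K : Type*} [Field K] [NumberField K] {a : ℕ} {s : K} {S : 𝓞 K} {τ : 𝓞 K ≃+* 𝓞 K}

private theorem bsq_J_pm {p : ℕ} (hp : p.Prime) {n : ℕ} (h : ¬ p ∣ n) :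
    jacobiSym n p = 1 ∨ jacobiSym n p = -1 := by
  apply jacobiSym.eq_one_or_neg_one
  rw [Int.gcd_natCast_natCast]
  exact ((Nat.Prime.coprime_iff_not_dvd hp).2 h).symm

private theorem bsq_J_ne {p : ℕ} (hp : p.Prime) {n : ℕ} (h : jacobiSym n p ≠ 0) : ¬ p ∣ n := by
  intro h1
  apply h
  haveI : NeZero p := ⟨hp.ne_zero⟩
  rw [jacobiSym.eq_zero_iff_not_coprime]
  rw [Int.gcd_natCast_natCast, Nat.gcd_eq_right h1]
  exact hp.one_lt.ne'

private theorem bsq_wdp (hb : B6 K a s) (hS : algebraMap (𝓞 K) K S = s) (hτ : τ S = -S)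
    {p : ℕ} (hp : p.Prime) (hp2 : p ≠ 2) (hpa : p ∣ a)
    {b c : Ideal (𝓞 K)} (hb0 : b ≠ 0) (hc0 : c ≠ 0) (hbp : ¬ p ∣ Ideal.absNorm b)
    (hcp : ¬ p ∣ Ideal.absNorm c) (h : cls b = cls c) :
    jacobiSym (Ideal.absNorm b) p = jacobiSym (Ideal.absNorm c) p := by
  obtain ⟨h1, h2⟩ := cls_cj hb hS hτ hc0
  obtain ⟨γ, hγ0, hγ⟩ := prin_of_cls (mul_ne_zero hb0 h1)
    (by rw [cls_mul hb0 h1, h2, h, mul_inv_cancel])
  obtain ⟨x, y, hxy⟩ := coords6 hb γ
  have h3 := norm_lin6 hb hxy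
  rw [← hγ, map_mul, (norm_cj6 hb hS hτ c).1] at h3
  have h4 : jacobiSym ((Ideal.absNorm b * Ideal.absNorm c : ℕ) : ℤ) p = 1 := by
    refine num_desc hp hp2 (a := a) hpa hb.sf (M := 1) (x := x) (y := y)
      one_ne_zero ?_ ?_
    · intro h5
      rcases (Nat.Prime.dvd_mul hp).1 h5 with h6 | h6
      · exact hbp h6
      · exact hcp h6
    · rw [h3]
      push_cast
      ring
  rw [Nat.cast_mul, jacobiSym.mul_left] at h4
  rcases bsq_J_pm hp hbp with h5 | h5 <;> rcases bsq_J_pm hp hcp with h6 | h6 <;> rw [h5, h6] at h4 ⊢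
  · norm_num at h4
  · norm_num at h4

private theorem bsq_exists_rep (hb : B6 K a s) (hS : algebraMap (𝓞 K) K S = s) (hτ : τ S = -S)
    (ha : a % 16 = 6) (g : CG S) :
    ∃ c : M1 K, clN S c = g ∧ Nat.Coprime (Ideal.absNorm (c : Ideal (𝓞 K))) a := by
  obtain ⟨c0, hc0⟩ := clN_surj hb hS ha g
  have ha0 : a ≠ 0 := hb.sf.ne_zero
  obtain ⟨c, hc1, hc2, hc3⟩ := exists_cop (K := K) (cls (c0 : Ideal (𝓞 K)))
    (M := 2 * a) (mul_ne_zero two_ne_zero ha0)
  have hca : Nat.Coprime (Ideal.absNorm c) a := Nat.Coprime.coprime_dvd_right ⟨2, by ring⟩ hc2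
  have hcodd : OddI c := by
    have h1 : Nat.Coprime (Ideal.absNorm c) 2 := Nat.Coprime.coprime_dvd_right ⟨a, rfl⟩ hc2
    exact Nat.coprime_two_right.1 h1
  have h00 : (c0 : Ideal (𝓞 K)) ≠ 0 := M1.ne c0.2
  have h08 := M1.nrm c0.2
  obtain ⟨k1, k2⟩ := cls_cj hb hS hτ h00
  obtain ⟨γ, hγ0, hγ⟩ := prin_of_cls (mul_ne_zero hc1 k1)
    (by rw [cls_mul hc1 k1, k2, hc3, mul_inv_cancel])
  have hγn : Ideal.absNorm (Ideal.span {γ}) = Ideal.absNorm c *
      Ideal.absNorm (c0 : Ideal (𝓞 K)) := by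
    rw [← hγ, map_mul, (norm_cj6 hb hS hτ _).1]
  have hγo : OddI (Ideal.span {γ}) := by
    unfold OddI
    rw [hγn]
    exact Odd.mul hcodd (M1.odd c0.2)
  have h8 := norm_prin hb hS hγo
  rw [hγn, Nat.mul_mod, h08, mul_one, Nat.mod_mod] at h8
  rcases h8 with h8 | h8
  · refine ⟨⟨c, h8⟩, ?_, hca⟩
    rw [← hc0]
    show (QuotientGroup.mk (cls c) : CG S) = QuotientGroup.mk (cls (c0 : Ideal (𝓞 K)))
    rw [hc3]
  · have hg := norm_g hb hS
    have hg0 : Ideal.span {(1 + S : 𝓞 K)} ≠ 0 := by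
      intro h
      rw [h, map_zero] at hg
      omega
    have hg1 : cls (Ideal.span {(1 + S : 𝓞 K)}) = 1 := cls_span (by
      intro h
      apply hg0
      rw [h]
      exact Ideal.span_singleton_eq_bot.2 rfl)
    have hm : Ideal.absNorm (Ideal.span {(1 + S : 𝓞 K)} * c) % 8 = 1 := by
      rw [map_mul, hg, Nat.mul_mod, h8]
      have : (1 + a) % 8 = 7 := by omega
      rw [this]
    refine ⟨⟨Ideal.span {(1 + S : 𝓞 K)} * c, hm⟩, ?_, ?_⟩
    · rw [← hc0]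
      show (QuotientGroup.mk (cls (Ideal.span {(1 + S : 𝓞 K)} * c)) : CG S) =
        QuotientGroup.mk (cls (c0 : Ideal (𝓞 K)))
      rw [cls_mul hg0 hc1, hg1, one_mul, hc3]
    · show Nat.Coprime (Ideal.absNorm (Ideal.span {(1 + S : 𝓞 K)} * c)) a
      rw [map_mul, hg]
      refine Nat.Coprime.mul_left ?_ hca
      simp

private theorem bsq_genus_hom (hb : B6 K a s) (hS : algebraMap (𝓞 K) K S = s) (hτ : τ S = -S)
    (ha : a % 16 = 6)
    {p q : ℕ} (hp : p.Prime) (hq : q.Prime) (hp2 : p ≠ 2) (hq2 : q ≠ 2) (hpa : p ∣ a)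
    (hqa : q ∣ a) :
    ∃ φ : CG S →* ℤ × ℤ,
      (∀ b : M1 K, ¬ p ∣ Ideal.absNorm (b : Ideal (𝓞 K)) →
        ¬ q ∣ Ideal.absNorm (b : Ideal (𝓞 K)) →
        φ (clN S b) = (jacobiSym (Ideal.absNorm (b : Ideal (𝓞 K))) p,
          jacobiSym (Ideal.absNorm (b : Ideal (𝓞 K))) q)) ∧
      (∀ C, ((φ C).1 = 1 ∨ (φ C).1 = -1) ∧ ((φ C).2 = 1 ∨ (φ C).2 = -1)) := by
  choose r hrC hrc using fun g : CG S => bsq_exists_rep hb hS hτ ha g
  have hnd : ∀ {l : ℕ}, l.Prime → l ∣ a → ∀ {n : ℕ}, Nat.Coprime n a → ¬ l ∣ n := by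
    intro l hl hla n hn hln
    have h1 : Nat.Coprime n l := Nat.Coprime.coprime_dvd_right hla hn
    exact hl.one_lt.ne' ((Nat.gcd_eq_right hln).symm.trans h1)
  have key : ∀ b c : M1 K, ¬ p ∣ Ideal.absNorm (b : Ideal (𝓞 K)) →
      ¬ q ∣ Ideal.absNorm (b : Ideal (𝓞 K)) → ¬ p ∣ Ideal.absNorm (c : Ideal (𝓞 K)) →
      ¬ q ∣ Ideal.absNorm (c : Ideal (𝓞 K)) → clN S b = clN S c →
      (jacobiSym (Ideal.absNorm (b : Ideal (𝓞 K))) p, jacobiSym (Ideal.absNorm (b : Ideal (𝓞 K))) q)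
      = (jacobiSym (Ideal.absNorm (c : Ideal (𝓞 K))) p,
        jacobiSym (Ideal.absNorm (c : Ideal (𝓞 K))) q) := by
    intro b c hbp hbq hcp hcq h
    have h1 := clN_eq hb hS hτ ha h
    rw [bsq_wdp hb hS hτ hp hp2 hpa (M1.ne b.2) (M1.ne c.2) hbp hcp h1,
      bsq_wdp hb hS hτ hq hq2 hqa (M1.ne b.2) (M1.ne c.2) hbq hcq h1]
  have hrp : ∀ g, ¬ p ∣ Ideal.absNorm (r g : Ideal (𝓞 K)) := fun g => hnd hp hpa (hrc g)
  have hrq : ∀ g, ¬ q ∣ Ideal.absNorm (r g : Ideal (𝓞 K)) := fun g => hnd hq hqa (hrc g)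
  refine ⟨⟨⟨fun g => (jacobiSym (Ideal.absNorm (r g : Ideal (𝓞 K))) p,
    jacobiSym (Ideal.absNorm (r g : Ideal (𝓞 K))) q), ?_⟩, ?_⟩, ?_, ?_⟩
  · have h1 := key (r 1) 1 (hrp 1) (hrq 1) (by
      show ¬ p ∣ Ideal.absNorm (1 : Ideal (𝓞 K))
      rw [map_one]
      exact hp.one_lt.ne' ∘ Nat.dvd_one.1) (by
      show ¬ q ∣ Ideal.absNorm (1 : Ideal (𝓞 K))
      rw [map_one]
      exact hq.one_lt.ne' ∘ Nat.dvd_one.1) (by rw [hrC, map_one])
    rw [h1]
    show (jacobiSym (Ideal.absNorm (1 : Ideal (𝓞 K))) p,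
      jacobiSym (Ideal.absNorm (1 : Ideal (𝓞 K))) q) = 1
    rw [map_one, Nat.cast_one, jacobiSym.one_left, jacobiSym.one_left]
    rfl
  · intro g h
    have h1 := key (r (g * h)) (r g * r h) (hrp _) (hrq _) (by
      show ¬ p ∣ Ideal.absNorm ((r g : Ideal (𝓞 K)) * (r h : Ideal (𝓞 K)))
      rw [map_mul, Nat.Prime.dvd_mul hp, not_or]
      exact ⟨hrp g, hrp h⟩) (by
      show ¬ q ∣ Ideal.absNorm ((r g : Ideal (𝓞 K)) * (r h : Ideal (𝓞 K)))
      rw [map_mul, Nat.Prime.dvd_mul hq, not_or]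
      exact ⟨hrq g, hrq h⟩) (by rw [hrC, map_mul, hrC, hrC])
    show (jacobiSym (Ideal.absNorm (r (g * h) : Ideal (𝓞 K))) p,
      jacobiSym (Ideal.absNorm (r (g * h) : Ideal (𝓞 K))) q) = _
    rw [h1]
    show (jacobiSym (Ideal.absNorm ((r g : Ideal (𝓞 K)) * (r h : Ideal (𝓞 K)))) p,
      jacobiSym (Ideal.absNorm ((r g : Ideal (𝓞 K)) * (r h : Ideal (𝓞 K)))) q) = _
    rw [map_mul, Nat.cast_mul, jacobiSym.mul_left, jacobiSym.mul_left]
    rfl
  · intro b hbp hbq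
    exact key _ b (hrp _) (hrq _) hbp hbq (hrC _)
  · intro C
    exact ⟨bsq_J_pm hp (hnd hp hpa (hrc C)), bsq_J_pm hq (hnd hq hqa (hrc C))⟩

theorem exists_c6 (hb : B6 K a s) (hS : algebraMap (𝓞 K) K S = s) (hτ : τ S = -S)
    (ha : a % 16 = 6) {p q : ℕ} (hp : p.Prime) (hp8 : p % 8 = 1) (hpa : p ∣ a) (hq : q.Prime)
    (hq8 : q % 8 = 7) (hqa : q ∣ a) {e0 e1 e2 : CG S}
    (h4 : ∀ g : CG S, g * g = 1 → g = 1 ∨ g = e0 ∨ g = e1 ∨ g = e2)
    {w0 w1 w2 : M1 K} (h1p : jacobiSym (Ideal.absNorm (w1 : Ideal (𝓞 K))) p = -1)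
    (h1q : jacobiSym (Ideal.absNorm (w1 : Ideal (𝓞 K))) q = -1)
    (h2p : jacobiSym (Ideal.absNorm (w2 : Ideal (𝓞 K))) p = 1)
    (h2q : jacobiSym (Ideal.absNorm (w2 : Ideal (𝓞 K))) q = -1)
    (h0p : jacobiSym (Ideal.absNorm (w0 : Ideal (𝓞 K))) p = 1)
    (h0q : jacobiSym (Ideal.absNorm (w0 : Ideal (𝓞 K))) q = 1) :
    ∃ c0 : M1 K, clN S c0 * clN S c0 = clN S w0 := by
  have hp2 : p ≠ 2 := by omega
  have hq2 : q ≠ 2 := by omega
  obtain ⟨ψ, ψ1, ψ3⟩ := bsq_genus_hom hb hS hτ ha hp hq hp2 hq2 hpa hqa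
  have hbk : clN S w0 ∈ ψ.ker := by
    rw [MonoidHom.mem_ker, ψ1 w0 (bsq_J_ne hp (by rw [h0p]; norm_num))
      (bsq_J_ne hq (by rw [h0q]; norm_num)), h0p, h0q]
    rfl
  -- the squares
  let sqh : CG S →* CG S := powMonoidHom 2
  have hQ : sqh.range ≤ ψ.ker := by
    rintro _ ⟨C, rfl⟩
    rw [MonoidHom.mem_ker]
    show ψ (C ^ 2) = 1
    rw [map_pow]
    obtain ⟨h1, h2⟩ := ψ3 C
    apply Prod.ext
    · rw [Prod.pow_fst]
      rcases h1 with h | h <;> rw [h] <;> norm_num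
    · rw [Prod.pow_snd]
      rcases h2 with h | h <;> rw [h] <;> norm_num
  -- the kernel of the squaring
  have hfin : Finite (CG S) := inferInstance
  have hk4 : Nat.card sqh.ker ≤ 4 := by
    have h1 : (sqh.ker : Set (CG S)) ⊆ ({1, e0, e1, e2} : Finset (CG S)) := by
      intro C hC
      have hC' : C * C = 1 := by
        have := MonoidHom.mem_ker.1 hC
        rw [← pow_two]
        exact this
      have := h4 C hC'
      simpa using this
    have h2 : Nat.card sqh.ker ≤ Finset.card ({1, e0, e1, e2} : Finset (CG S)) := by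
      have h3 := Set.ncard_le_ncard h1 (Finset.finite_toSet _)
      rw [Set.ncard_coe_finset] at h3
      exact h3
    exact h2.trans Finset.card_le_four
  have hG1 : Nat.card (CG S) = Nat.card sqh.ker * Nat.card sqh.range := by
    rw [← Subgroup.index_ker]
    exact (Subgroup.card_mul_index _).symm
  -- the index of the kernel of `ψ`
  have c1p : ¬ p ∣ Ideal.absNorm (w1 : Ideal (𝓞 K)) := bsq_J_ne hp (by rw [h1p]; norm_num)
  have c1q : ¬ q ∣ Ideal.absNorm (w1 : Ideal (𝓞 K)) := bsq_J_ne hq (by rw [h1q]; norm_num)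
  have c2p : ¬ p ∣ Ideal.absNorm (w2 : Ideal (𝓞 K)) := bsq_J_ne hp (by rw [h2p]; norm_num)
  have c2q : ¬ q ∣ Ideal.absNorm (w2 : Ideal (𝓞 K)) := bsq_J_ne hq (by rw [h2q]; norm_num)
  set g3 : CG S := clN S w1 with hg3
  set g1 : CG S := clN S w2 with hg1
  have hψ3 : (ψ g3).1 = -1 := by rw [hg3, ψ1 w1 c1p c1q, h1p]
  have hψ11 : (ψ g1).1 = 1 := by rw [hg1, ψ1 w2 c2p c2q, h2p]
  have hψ12 : (ψ g1).2 = -1 := by rw [hg1, ψ1 w2 c2p c2q, h2q]
  let f : Bool × Bool × ψ.ker → CG S := fun x =>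
    (if x.1 then g3 else 1) * (if x.2.1 then g1 else 1) * x.2.2
  have hf : Function.Injective f := by
    rintro ⟨x, y, t⟩ ⟨x', y', t'⟩ h
    have h' : (if x then g3 else 1) * (if y then g1 else 1) * (t : CG S) =
      (if x' then g3 else 1) * (if y' then g1 else 1) * (t' : CG S) := h
    have h1 := congrArg ψ h'
    rw [map_mul, map_mul, map_mul, map_mul, MonoidHom.mem_ker.1 t.2, MonoidHom.mem_ker.1 t'.2,
      mul_one, mul_one] at h1
    have h2 := congrArg Prod.fst h1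
    have h3 := congrArg Prod.snd h1
    rw [Prod.fst_mul, Prod.fst_mul] at h2
    rw [Prod.snd_mul, Prod.snd_mul] at h3
    have hxx : x = x' := by
      clear h h' h1 h3 hG1 hk4 hQ
      have e1 : (ψ 1).1 = 1 := by rw [map_one]; rfl
      have e2 : ∀ y : Bool, (ψ (if y then g1 else 1)).1 = 1 := by
        intro y
        cases y
        · rw [if_neg Bool.false_ne_true]; exact e1
        · rw [if_pos rfl]; exact hψ11
      rw [e2, e2, mul_one, mul_one] at h2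
      cases x <;> cases x'
      · rfl
      · rw [if_neg Bool.false_ne_true, if_pos rfl, e1, hψ3] at h2
        norm_num at h2
      · rw [if_neg Bool.false_ne_true, if_pos rfl, e1, hψ3] at h2
        norm_num at h2
      · rfl
    subst hxx
    have hyy : y = y' := by
      clear h h' h1 h2 hG1 hk4 hQ
      have e1 : (ψ 1).2 = 1 := by rw [map_one]; rfl
      have e2 : (ψ (if x then g3 else 1)).2 ≠ 0 := by
        rcases (ψ3 (if x then g3 else 1)).2 with h4 | h4 <;> rw [h4] <;> norm_num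
      have h4 := mul_left_cancel₀ e2 h3
      cases y <;> cases y'
      · rfl
      · rw [if_neg Bool.false_ne_true, if_pos rfl, e1, hψ12] at h4
        norm_num at h4
      · rw [if_neg Bool.false_ne_true, if_pos rfl, e1, hψ12] at h4
        norm_num at h4
      · rfl
    subst hyy
    have h5 : (t : CG S) = t' := mul_left_cancel h'
    rw [Subtype.ext h5]
  have hG2 : 4 * Nat.card ψ.ker ≤ Nat.card (CG S) := by
    have h1 := Nat.card_le_card_of_injective f hf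
    rw [Nat.card_prod, Nat.card_prod, Nat.card_eq_fintype_card (α := Bool), Fintype.card_bool] at h1
    omega
  have hle : Nat.card ψ.ker ≤ Nat.card sqh.range := by
    have h1 : Nat.card sqh.ker * Nat.card sqh.range ≤ 4 * Nat.card sqh.range :=
      Nat.mul_le_mul_right _ hk4
    omega
  have heq : sqh.range = ψ.ker := Subgroup.eq_of_le_of_card_ge hQ hle
  rw [← heq] at hbk
  obtain ⟨g, hg⟩ := hbk
  obtain ⟨c0, rfl⟩ := clN_surj hb hS ha g
  refine ⟨c0, ?_⟩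
  rw [← hg]
  show clN S c0 * clN S c0 = clN S c0 ^ 2
  rw [pow_two]

end Pool.Agent.Work.MP_8efaaa_nt.T3
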