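import Mathlib
import Pool.Agent.Work.MP_8efaaa_nt.T3.Defs
import Pool.Agent.Work.MP_8efaaa_nt.Q7.Ds2
import Pool.Agent.Work.MP_8efaaa_nt.W14.CEq

/-!
# T3/CB3 (S-M): there is an ideal of norm `3 (mod 8)`

Suppose not. Then there is no odd ideal `b` with `N b = 3` or `5 (mod 8)`: if `N b = 5 (mod 8)`, `(1 + S) b` has norm `(1 + a) N b = 7 * 5 = 3 (mod 8)` (`norm_g`; `a = 14 (mod 16)`). So every `σ : F ≃ₐ[K] F` acts (`hU.act`: `σ ζ = ζ ^ N b`) with `N b = 1` or `7 (mod 8)` and fixes `θ = ζ + ζ ^ 7` (`Q7.roots8`, with `k0 = K`; the norm is odd). Also `κ θ = θ` (`hU.cz`: `κ ζ = ζ ^ 7`; `Q7.roots8` with `k0 = ℚ`, `n = 7`). `Q7.desc_q` (`hU.cs`): `θ = r`, `r` rational, and `θ ^ 2 = 2`: `r ^ 2 = 2`, impossible (`irrational_sqrt_two` or `Nat.Prime.irrational_sqrt`).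
-/

set_option autoImplicit false

namespace Pool.Agent.Work.MP_8efaaa_nt.T3

open NumberField Pool.Agent.Work.MP_8efaaa_nt.R Pool.Agent.Work.MP_8efaaa_nt.N5
  Pool.Agent.Work.MP_8efaaa_nt.K6 Pool.Agent.Work.MP_8efaaa_nt.W14
open scoped Classical nonZeroDivisors

variable {K F : Type*} [Field K] [NumberField K] [Field F] [NumberField F] [Algebra K F] {a : ℕ}
  {s : K} {S : 𝓞 K} {τ : 𝓞 K ≃+* 𝓞 K} {ζ : F} {w : ℕ → F} {z k v : Ideal (𝓞 K) → F}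
  {κ : F ≃ₐ[ℚ] F}

theorem exists_b3 [FiniteDimensional K F] [IsGalois K F] (hb : B6 K a s)
    (hS : algebraMap (𝓞 K) K S = s) (ha : a % 16 = 14)
    (hU : UD6 K F a s S τ ζ w z k v κ) : ∃ b : Ideal (𝓞 K), Ideal.absNorm b % 8 = 3 := by
  by_contra hne
  have hno : ∀ b : Ideal (𝓞 K), Ideal.absNorm b % 8 ≠ 3 := fun b hb3 => hne ⟨b, hb3⟩
  have h17 : ∀ b : Ideal (𝓞 K), OddI b →
      Ideal.absNorm b % 8 = 1 ∨ Ideal.absNorm b % 8 = 7 := by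
    intro b hb1
    have h1 := hno b
    have h2 := hno (Ideal.span {1 + S} * b)
    rw [map_mul, norm_g hb hS, Nat.mul_mod] at h2
    have h3 : (1 + a) % 8 = 7 := by omega
    rw [h3] at h2
    unfold OddI at hb1
    rw [Nat.odd_iff] at hb1
    by_contra h4
    have h5 : Ideal.absNorm b % 8 = 5 := by omega
    rw [h5] at h2
    exact h2 rfl
  obtain ⟨hθ2, -, -, -, -, -, hact⟩ := Q7.roots8 hU.z8
  obtain ⟨-, -, -, -, -, -, hactQ⟩ := Q7.roots8 hU.z8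
  have hσ : ∀ σ : F ≃ₐ[K] F, σ (ζ + ζ ^ 7) = ζ + ζ ^ 7 := by
    intro σ
    obtain ⟨b, hb1, -, hM⟩ := hU.act σ
    have h1 := (hact K σ (Ideal.absNorm b) (Nat.odd_iff.1 hb1) hM.z8).1
    rw [h1, if_pos (h17 b hb1), one_mul]
  have hκ : κ (ζ + ζ ^ 7) = ζ + ζ ^ 7 := by
    have h1 := (hactQ ℚ κ 7 (by norm_num) hU.cz).1
    rw [h1, if_pos (Or.inr (by norm_num)), one_mul]
  obtain ⟨r, hr⟩ := (Q7.desc_q hb hU.cs hσ).1 hκ
  rw [hr] at hθ2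
  have hr2 : r ^ 2 = 2 := by exact_mod_cast hθ2
  have hirr := irrational_sqrt_two
  apply hirr
  refine ⟨|r|, ?_⟩
  have h1 : ((|r| : ℚ) : ℝ) = Real.sqrt (((r : ℚ) : ℝ) ^ 2) := by
    rw [Real.sqrt_sq_eq_abs]
    push_cast
    rfl
  rw [h1]
  congr 1
  exact_mod_cast hr2

end Pool.Agent.Work.MP_8efaaa_nt.T3
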