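import Mathlib
import Pool.Agent.Work.MP_8efaaa_nt.T3.Defs
import Pool.Agent.Work.MP_8efaaa_nt.W14.CCl

/-!
# Definitions of the modules C* of the block T3 (fixed file)

`a = 14 (mod 16)`, all odd primes of `a` are `1` or `7 (mod 8)`; `n = card (CG S)`.
-/

set_option autoImplicit false

namespace Pool.Agent.Work.MP_8efaaa_nt.T3

open NumberField Pool.Agent.Work.MP_8efaaa_nt.R Pool.Agent.Work.MP_8efaaa_nt.N5
  Pool.Agent.Work.MP_8efaaa_nt.K6 Pool.Agent.Work.MP_8efaaa_nt.W14
open scoped Classical nonZeroDivisors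

variable {K : Type*} [Field K] [NumberField K]

/-- the class group: `8 ∣ n`, and `cls c ^ (n / 4)` depends only on the norm of `c` modulo `8` -/
structure C8 (S : 𝓞 K) [Fintype (CG S)] : Prop where
  eight : 8 ∣ Fintype.card (CG S)
  t1 : cls (r6 S 2) ≠ 1
  pow : ∀ c : Ideal (𝓞 K), OddI c → cls c ^ (Fintype.card (CG S) / 4) =
    if Ideal.absNorm c % 8 = 1 ∨ Ideal.absNorm c % 8 = 7 then 1 else cls (r6 S 2)

end Pool.Agent.Work.MP_8efaaa_nt.T3
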