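import Mathlib
import Pool.Agent.Work.MP_8efaaa_nt.T3.Defs
import Pool.Agent.Work.MP_8efaaa_nt.V6.GTw
import Pool.Agent.Work.MP_8efaaa_nt.W14.CHi
import Pool.Agent.Work.MP_8efaaa_nt.W14.CCh
import Pool.Agent.Work.MP_8efaaa_nt.W14.CCl
import Pool.Agent.Work.MP_8efaaa_nt.W14.CEq

/-!
# T3/CGt (M): the classes with square `1`, `a = 2 l1 l2 l3`

`t = cls (r6 S 2)`, `c1 = cls (r6 S l1)`, `c2 = cls (r6 S l2)`, `c3 = cls (r6 S l3)`; all have square `1` (`r6_sq`, `cls_span`) and `t c1 c2 c3 = 1` (`r6_mul`, `r6_all`): see the private lemmas `csq`, `cmul`, `call`, `rel3`, `two3` of T3/Gr.lean (copy). tt_one: `V6.r6_one`. tt_sq: `x * x = 1 ↔ ∃ d ∣ a, x = cls (r6 S d)` (`hil6`); if `d` is even, `d = 2 e`, `e ∣ l1 l2 l3`, `l1 l2 l3 = e e'`: `cls (r6 S d) = t * cls (r6 S e)` and `t = cls (r6 S (l1 l2 l3))` (`cls_two`, `a / 2 = l1 l2 l3`) `= cls (r6 S e) * cls (r6 S e')`, so `cls (r6 S d) = cls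 (r6 S e')`.
tt_card: the set is `{1, c1, c2, c3, c1 c2, c1 c3, c2 c3, c1 c2 c3}`, eight different elements: `c_i ≠ 1`, `c_i ≠ c_j` (`c_i c_j = cls (r6 S (l_i l_j)) ≠ 1`), `c1 c2 c3 = t ≠ 1`, by `V6.r6_one` (`l_i`, `l_i l_j`, `l1 l2 l3` are not `1` and not `a`). E.g. the map `Fin 2 × Fin 2 × Fin 2 → {x // x * x = 1}`, `(i, j, k) ↦ c1 ^ i c2 ^ j c3 ^ k` is bijective.
tt_half: `card (CG S) * 2 = card (ClassGroup)`: `CG S` is the quotient by `zpowers t`, of order `orderOf t = 2` (`Subgroup.card_eq_card_quotient_mul_card_subgroup`, `Nat.card_zpowers`, `orderOf_eq_prime`).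
-/

set_option autoImplicit false

namespace Pool.Agent.Work.MP_8efaaa_nt.T3

open NumberField Pool.Agent.Work.MP_8efaaa_nt.R Pool.Agent.Work.MP_8efaaa_nt.N5
  Pool.Agent.Work.MP_8efaaa_nt.K6 Pool.Agent.Work.MP_8efaaa_nt.W14
open scoped Classical nonZeroDivisors

variable {K : Type*} [Field K] [NumberField K] {s : K} {S : 𝓞 K} {τ : 𝓞 K ≃+* 𝓞 K}

private theorem cgt_S {a : ℕ} (hb : B6 K a s) (hS : algebraMap (𝓞 K) K S = s) : S ≠ 0 := by
  rintro rfl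
  rw [map_zero] at hS
  have h := hb.sq
  rw [← hS] at h
  have h1 : (a : K) = 0 := by linear_combination h
  exact hb.sf.ne_zero (by exact_mod_cast h1)

private theorem cgt_sq {a : ℕ} (hb : B6 K a s) (hS : algebraMap (𝓞 K) K S = s) {d : ℕ}
    (hd : d ∣ a) : cls (r6 S d) * cls (r6 S d) = 1 := by
  have h := r6_ne hb hS hd
  rw [← cls_mul h h, r6_sq hb hS hd]
  apply cls_span
  have h1 : d ≠ 0 := by
    rintro rfl
    exact hb.sf.ne_zero (Nat.eq_zero_of_zero_dvd hd)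
  exact_mod_cast h1

private theorem cgt_mul {a : ℕ} (hb : B6 K a s) (hS : algebraMap (𝓞 K) K S = s) {d e : ℕ}
    (hd : d * e ∣ a) : cls (r6 S (d * e)) = cls (r6 S d) * cls (r6 S e) := by
  rw [r6_mul hb hS hd, cls_mul (r6_ne hb hS (dvd_of_mul_right_dvd hd))
    (r6_ne hb hS (dvd_of_mul_left_dvd hd))]

private theorem cgt_one {a : ℕ} (hb : B6 K a s) (hS : algebraMap (𝓞 K) K S = s) :
    cls (r6 S 1) = 1 := by
  have h := cgt_sq hb hS (one_dvd a)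
  have h1 := cgt_mul hb hS (d := 1) (e := 1) (by rw [mul_one]; exact one_dvd a)
  rw [mul_one, h] at h1
  exact h1

private theorem cgt_inj {a M : ℕ} (hb : B6 K a s) (hS : algebraMap (𝓞 K) K S = s)
    (ha : a = 2 * M) {d e : ℕ} (hd : d ∣ M) (he : e ∣ M)
    (h : cls (r6 S d) = cls (r6 S e)) : d = e := by
  have ha0 : a ≠ 0 := hb.sf.ne_zero
  have hM0 : M ≠ 0 := by
    rintro rfl
    exact ha0 (by rw [ha])
  have hMa : M ∣ a := ⟨2, by rw [ha]; ring⟩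
  have hd0 : d ≠ 0 := by
    rintro rfl
    exact hM0 (Nat.eq_zero_of_zero_dvd hd)
  obtain ⟨g, d', e', hg, hco, rfl, rfl⟩ := Nat.exists_coprime' (m := d) (n := e)
    (Nat.gcd_pos_of_pos_left _ (Nat.pos_of_ne_zero hd0))
  have hd1 : d' ∣ M := dvd_of_mul_right_dvd hd
  have he1 : e' ∣ M := dvd_of_mul_right_dvd he
  have hde : d' * e' ∣ M := hco.mul_dvd_of_dvd_of_dvd hd1 he1
  have h1 := cgt_mul hb hS (hd.trans hMa)
  have h2 := cgt_mul hb hS (he.trans hMa)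
  rw [h1, h2] at h
  have h3 := mul_right_cancel h
  have h4 := cgt_mul hb hS (hde.trans hMa)
  rw [h3, cgt_sq hb hS (he1.trans hMa)] at h4
  by_contra hne
  refine V6.r6_one hb hS (hde.trans hMa) ?_ ?_ h4
  · intro h5
    have h6 := Nat.eq_one_of_mul_eq_one_right h5
    have h7 := Nat.eq_one_of_mul_eq_one_left h5
    exact hne (by rw [h6, h7])
  · intro h5
    have h6 := Nat.le_of_dvd (Nat.pos_of_ne_zero hM0) hde
    omega

theorem tt_one {l1 l2 l3 : ℕ} (h1 : l1.Prime) (h2 : l2.Prime) (h3 : l3.Prime)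
    (hb : B6 K (2 * l1 * l2 * l3) s) (hS : algebraMap (𝓞 K) K S = s) :
    cls (r6 S 2) ≠ 1 := by
  have h8 : 2 * 2 * 2 ≤ l1 * l2 * l3 :=
    Nat.mul_le_mul (Nat.mul_le_mul h1.two_le h2.two_le) h3.two_le
  have he : 2 * l1 * l2 * l3 = 2 * (l1 * l2 * l3) := by ring
  refine V6.r6_one hb hS ⟨l1 * l2 * l3, he⟩ (by norm_num) ?_
  rw [he]
  omega

theorem tt_sq {l1 l2 l3 : ℕ} (h1 : l1.Prime) (h2 : l2.Prime) (h3 : l3.Prime)
    (hb : B6 K (2 * l1 * l2 * l3) s) (hS : algebraMap (𝓞 K) K S = s) (hτ : τ S = -S)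
    {x : ClassGroup (𝓞 K)} (hx : x * x = 1) :
    ∃ d, d ∣ l1 * l2 * l3 ∧ x = cls (r6 S d) := by
  have _ := h1
  have _ := h2
  have _ := h3
  have he : 2 * l1 * l2 * l3 = 2 * (l1 * l2 * l3) := by ring
  have hMa : l1 * l2 * l3 ∣ 2 * l1 * l2 * l3 := ⟨2, by ring⟩
  obtain ⟨d, hd, rfl⟩ := hil6 hb hS hτ hx
  rcases Nat.even_or_odd d with hev | hod
  · obtain ⟨e, hde⟩ := hev.two_dvd
    subst hde
    have h4 : 2 * e ∣ 2 * (l1 * l2 * l3) := he ▸ hd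
    have h5 : e ∣ l1 * l2 * l3 := Nat.dvd_of_mul_dvd_mul_left (by norm_num) h4
    obtain ⟨e', he'⟩ := h5
    refine ⟨e', ⟨e, by rw [he']; ring⟩, ?_⟩
    have h6 := (cls_two hb hS).2
    have h7 : 2 * l1 * l2 * l3 / 2 = e * e' := by
      rw [he, Nat.mul_div_cancel_left _ (by norm_num), he']
    rw [h7] at h6
    have h8 : e * e' ∣ 2 * l1 * l2 * l3 := he' ▸ hMa
    rw [cgt_mul hb hS h8] at h6
    rw [cgt_mul hb hS hd, ← h6]
    have h9 := cgt_sq hb hS ((dvd_mul_right e e').trans h8)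
    calc cls (r6 S e) * cls (r6 S e') * cls (r6 S e)
        = cls (r6 S e) * cls (r6 S e) * cls (r6 S e') := by ac_rfl
      _ = cls (r6 S e') := by rw [h9, one_mul]
  · refine ⟨d, ?_, rfl⟩
    have h4 : d ∣ 2 * (l1 * l2 * l3) := he ▸ hd
    exact (Nat.Coprime.dvd_mul_left (Nat.coprime_two_right.2 hod)).1 h4

theorem tt_card {l1 l2 l3 : ℕ} (h1 : l1.Prime) (h2 : l2.Prime) (h3 : l3.Prime) (h12 : l1 ≠ l2)
    (h13 : l1 ≠ l3) (h23 : l2 ≠ l3) (hb : B6 K (2 * l1 * l2 * l3) s)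
    (hS : algebraMap (𝓞 K) K S = s) (hτ : τ S = -S) :
    Nat.card {x : ClassGroup (𝓞 K) // x * x = 1} = 8 := by
  have he : 2 * l1 * l2 * l3 = 2 * (l1 * l2 * l3) := by ring
  have hMa : l1 * l2 * l3 ∣ 2 * l1 * l2 * l3 := ⟨2, by ring⟩
  have hM0 : l1 * l2 * l3 ≠ 0 := mul_ne_zero (mul_ne_zero h1.ne_zero h2.ne_zero) h3.ne_zero
  have hcard : (l1 * l2 * l3).divisors.card = 8 := by
    have c12 : Nat.Coprime l1 l2 := (Nat.coprime_primes h1 h2).2 h12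
    have c3 : Nat.Coprime (l1 * l2) l3 := Nat.Coprime.mul_left
      ((Nat.coprime_primes h1 h3).2 h13) ((Nat.coprime_primes h2 h3).2 h23)
    rw [c3.card_divisors_mul, c12.card_divisors_mul]
    have hp : ∀ l : ℕ, l.Prime → l.divisors.card = 2 := by
      intro l hl
      rw [hl.divisors, Finset.card_pair hl.one_lt.ne]
    rw [hp l1 h1, hp l2 h2, hp l3 h3]
  rw [← hcard, ← Fintype.card_coe, ← Nat.card_eq_fintype_card]
  symm
  refine Nat.card_congr (Equiv.ofBijective (fun d : (l1 * l2 * l3).divisors =>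
    (⟨cls (r6 S d.1), cgt_sq hb hS ((Nat.dvd_of_mem_divisors d.2).trans hMa)⟩ :
      {x : ClassGroup (𝓞 K) // x * x = 1})) ⟨?_, ?_⟩)
  · intro d e hde
    have h4 : cls (r6 S d.1) = cls (r6 S e.1) := congrArg Subtype.val hde
    exact Subtype.ext (cgt_inj hb hS he (Nat.dvd_of_mem_divisors d.2)
      (Nat.dvd_of_mem_divisors e.2) h4)
  · rintro ⟨x, hx⟩
    obtain ⟨d, hd, rfl⟩ := tt_sq h1 h2 h3 hb hS hτ hx
    exact ⟨⟨d, Nat.mem_divisors.2 ⟨hd, hM0⟩⟩, rfl⟩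

theorem tt_half {l1 l2 l3 : ℕ} (h1 : l1.Prime) (h2 : l2.Prime) (h3 : l3.Prime)
    (hb : B6 K (2 * l1 * l2 * l3) s) (hS : algebraMap (𝓞 K) K S = s) [Fintype (CG S)] :
    Fintype.card (CG S) * 2 = Nat.card (ClassGroup (𝓞 K)) := by
  have h4 : orderOf (cls (r6 S 2)) = 2 := by
    have : Fact (Nat.Prime 2) := ⟨Nat.prime_two⟩
    refine orderOf_eq_prime ?_ (tt_one h1 h2 h3 hb hS)
    rw [pow_two]
    exact (cls_two hb hS).1
  have h5 := Subgroup.card_eq_card_quotient_mul_card_subgroup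
    (Subgroup.zpowers (cls (r6 S 2)))
  rw [Nat.card_zpowers, h4] at h5
  rw [h5, ← Nat.card_eq_fintype_card]

end Pool.Agent.Work.MP_8efaaa_nt.T3
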