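import Mathlib
import Pool.Agent.Work.MP_8efaaa_nt.Y6.Two

/-!
# T3/CSq (M): two lemmas on finite abelian groups (pure group theory)

`C2 = {x | x * x = 1}` (the kernel of `sq = powMonoidHom 2`), `S = sq.range`, `card S * card C2 = card C` (`Subgroup.card_range_mul_card_ker`-like lemma, or `MonoidHom.card...`; first isomorphism theorem).
sq_of_rank: suppose `t` is not a square. In `Q = C ⧸ S`, of order `card C2 = 8`, the sixteen classes of `t ^ i * u1 ^ j * u2 ^ k * u3 ^ l`, `i, j, k, l ∈ {0, 1}`, are distinct: if two are equal, the product (all classes of `Q` have square `1`) `t ^ (i + i') * u1 ^ (j + j') * u2 ^ (k + k') * u3 ^ (l + l')` is a square; up to squares the exponents may be reduced modulo `2`, they are not all `0`; exponent of `u3` is `1`: h3; else exponent of `u1` is `1`: h1; else exponent of `u2` is `1`: h2; else `t` is a square. So `16 ≤ 8`.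
(Or: count a chain `S < S⟨t⟩ < S⟨t, u2⟩ < S⟨t, u2, u1⟩ < S⟨t, u2, u1, u3⟩`.)
pow_e8: (1) `N = card S` (hN), `t ∈ S` has order two, so `2 ∣ N` (Lagrange). (2) `two_cyc` (Y6/Two.lean; copy the statement's use: `∃ y ∈ S, y ^ (N / 2) ≠ 1`, with `μ = t`, by h4 the only element of order two of `S`); `y = b * b`, so `b ^ N ≠ 1`. (3) for all `c`: `c ^ N` has square `(c * c) ^ N = 1` (`c * c ∈ S`) and is the square of `c ^ (N / 2)`, so it is `1` or `t` (h4). (4) `c ∈ E → c ^ N = 1`: `E2 = E.map sq`, `S2 = S.map sq`; `ker sq ≤ E` (hE1), so `card E2 * card C2 = card E = card C / 2`, `card E2 = N / 2`; `ker sq ⊓ S = {1, t}`, so `card S2 * 2 = N`; `S ≤ E` (index two: `Subgroup.mul_self_mem_of_index_two`), so `S2 ≤ E2`, they are equal (`Subgroup.eq_of_le_of_card_ge`). So `c * c = (b * b) * (b * b)` for some `b`, `c = (b * b) * e`, `e * e = 1`, `c ^ N = (b * b) ^ N * e ^ N = 1`. (5) `c ∉ E`: with `b` of (2): `b ∉ E` by (4), `c * b⁻¹ ∈ E` (index two), `c ^ N = b ^ N = t`.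
-/

set_option autoImplicit false

namespace Pool.Agent.Work.MP_8efaaa_nt.T3

open scoped Classical

private theorem cs_card {C : Type*} [CommGroup C] [Finite C] :
    Nat.card {x : C // x * x = 1} * Nat.card (powMonoidHom 2 : C →* C).range = Nat.card C := by
  have h1 : Nat.card {x : C // x * x = 1} = Nat.card (powMonoidHom 2 : C →* C).ker := by
    refine Nat.card_congr (Equiv.subtypeEquivRight fun x => ?_)
    rw [MonoidHom.mem_ker, powMonoidHom_apply, pow_two]
  rw [h1, ← Subgroup.index_ker, Subgroup.card_mul_index]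

private theorem cs_pos {C : Type*} [CommGroup C] [Finite C] :
    0 < Nat.card {x : C // x * x = 1} := by
  have : Nonempty {x : C // x * x = 1} := ⟨⟨1, one_mul 1⟩⟩
  exact Nat.card_pos

private theorem cs_mem {C : Type*} [CommGroup C] (x : C) :
    x ∈ (powMonoidHom 2 : C →* C).range ↔ ∃ y : C, y * y = x := by
  constructor
  · rintro ⟨y, hy⟩
    refine ⟨y, ?_⟩
    rw [powMonoidHom_apply, pow_two] at hy
    exact hy
  · rintro ⟨y, hy⟩
    refine ⟨y, ?_⟩
    rw [powMonoidHom_apply, pow_two]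
    exact hy

/-- sixteen different elements of a group of exponent two -/
private theorem cs_inj {Q : Type*} [CommGroup Q] (hsq : ∀ x : Q, x * x = 1) {t u1 u2 u3 : Q}
    (h0 : t ≠ 1) (h3 : ∀ i j k : ℕ, t ^ i * u1 ^ j * u2 ^ k * u3 ≠ 1)
    (h1 : ∀ i k : ℕ, t ^ i * u1 * u2 ^ k ≠ 1) (h2 : ∀ i : ℕ, t ^ i * u2 ≠ 1) :
    Function.Injective (fun p : Fin 2 × Fin 2 × Fin 2 × Fin 2 =>
      t ^ (p.1 : ℕ) * u1 ^ (p.2.1 : ℕ) * u2 ^ (p.2.2.1 : ℕ) * u3 ^ (p.2.2.2 : ℕ)) := by
  rintro ⟨i, j, k, l⟩ ⟨i', j', k', l'⟩ h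
  simp only at h
  have e : t ^ ((i : ℕ) + i') * u1 ^ ((j : ℕ) + j') * u2 ^ ((k : ℕ) + k') *
      u3 ^ ((l : ℕ) + l') = 1 := by
    have e1 : t ^ ((i : ℕ) + i') * u1 ^ ((j : ℕ) + j') * u2 ^ ((k : ℕ) + k') *
        u3 ^ ((l : ℕ) + l') = (t ^ (i : ℕ) * u1 ^ (j : ℕ) * u2 ^ (k : ℕ) * u3 ^ (l : ℕ)) *
          (t ^ (i' : ℕ) * u1 ^ (j' : ℕ) * u2 ^ (k' : ℕ) * u3 ^ (l' : ℕ)) := by
      simp only [pow_add]
      ac_rfl
    rw [e1, h]
    exact hsq _
  have hd : ∀ (x : Q) (n : Fin 2), x ^ ((n : ℕ) + n) = 1 := by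
    intro x n
    rw [pow_add]
    exact hsq _
  have hn : ∀ n n' : Fin 2, n ≠ n' → (n : ℕ) + n' = 1 := by
    intro n n' hnn
    have a1 := n.2
    have a2 := n'.2
    have a3 : (n : ℕ) ≠ n' := fun h => hnn (Fin.ext h)
    omega
  by_cases hl : l = l'
  · subst hl
    rw [hd, mul_one] at e
    by_cases hj : j = j'
    · subst hj
      rw [hd, mul_one] at e
      by_cases hk : k = k'
      · subst hk
        rw [hd, mul_one] at e
        by_cases hi : i = i'
        · rw [hi]
        · rw [hn _ _ hi, pow_one] at e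
          exact absurd e h0
      · rw [hn _ _ hk, pow_one] at e
        exact absurd e (h2 _)
    · rw [hn _ _ hj, pow_one] at e
      exact absurd e (h1 _ _)
  · rw [hn _ _ hl, pow_one] at e
    exact absurd e (h3 _ _ _)

theorem sq_of_rank {C : Type*} [CommGroup C] [Finite C] {t u1 u2 u3 : C}
    (h8 : Nat.card {x : C // x * x = 1} = 8)
    (h3 : ∀ (i j k : ℕ) (x : C), x * x ≠ t ^ i * u1 ^ j * u2 ^ k * u3)
    (h1 : ∀ (i k : ℕ) (x : C), x * x ≠ t ^ i * u1 * u2 ^ k)
    (h2 : ∀ (i : ℕ) (x : C), x * x ≠ t ^ i * u2) : ∃ x : C, x * x = t := by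
  by_contra hcon
  push Not at hcon
  have hc := cs_card (C := C)
  rw [h8] at hc
  have hi := Subgroup.card_mul_index (powMonoidHom 2 : C →* C).range
  have hpos : 0 < Nat.card (powMonoidHom 2 : C →* C).range := Nat.card_pos
  have hidx : (powMonoidHom 2 : C →* C).range.index = 8 := by
    rw [← hc, mul_comm] at hi
    exact Nat.eq_of_mul_eq_mul_right hpos hi
  have hone : ∀ x : C, (QuotientGroup.mk x : C ⧸ (powMonoidHom 2 : C →* C).range) = 1 →
      ∃ y : C, y * y = x := by
    intro x hx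
    exact (cs_mem x).1 ((QuotientGroup.eq_one_iff x).1 hx)
  have hsq : ∀ x : C ⧸ (powMonoidHom 2 : C →* C).range, x * x = 1 := by
    intro x
    induction x using QuotientGroup.induction_on with
    | H y =>
      rw [← QuotientGroup.mk_mul]
      exact (QuotientGroup.eq_one_iff _).2 ((cs_mem _).2 ⟨y, rfl⟩)
  have hinj := cs_inj hsq (t := QuotientGroup.mk t) (u1 := QuotientGroup.mk u1)
    (u2 := QuotientGroup.mk u2) (u3 := QuotientGroup.mk u3)
    (fun h => by
      obtain ⟨y, hy⟩ := hone _ h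
      exact hcon y hy)
    (fun i j k h => by
      obtain ⟨y, hy⟩ := hone (t ^ i * u1 ^ j * u2 ^ k * u3) h
      exact h3 i j k y hy)
    (fun i k h => by
      obtain ⟨y, hy⟩ := hone (t ^ i * u1 * u2 ^ k) h
      exact h1 i k y hy)
    (fun i h => by
      obtain ⟨y, hy⟩ := hone (t ^ i * u2) h
      exact h2 i y hy)
  have hle := Nat.card_le_card_of_injective _ hinj
  have h16 : Nat.card (Fin 2 × Fin 2 × Fin 2 × Fin 2) = 16 := by
    rw [Nat.card_eq_fintype_card]
    rfl
  have h8' : Nat.card (C ⧸ (powMonoidHom 2 : C →* C).range) = 8 := hidx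
  omega

theorem pow_e8 {C : Type*} [CommGroup C] [Finite C] {t : C} {E : Subgroup C}
    (hE : E.index = 2) (hE1 : ∀ x : C, x * x = 1 → x ∈ E) (ht : ∃ x : C, x * x = t)
    (ht1 : t ≠ 1) (ht2 : t * t = 1)
    (h4 : ∀ x : C, (x * x) * (x * x) = 1 → x * x = 1 ∨ x * x = t) {N : ℕ}
    (hN : Nat.card C = N * Nat.card {x : C // x * x = 1}) :
    Even N ∧ ∀ c : C, (c ∈ E → c ^ N = 1) ∧ (c ∉ E → c ^ N = t) := by
  set sq : C →* C := powMonoidHom 2 with hsq
  have hsqa : ∀ x : C, sq x = x * x := by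
    intro x
    rw [hsq, powMonoidHom_apply, pow_two]
  have hc := cs_card (C := C)
  have hKpos := cs_pos (C := C)
  have hNS : Nat.card sq.range = N := by
    rw [hN, mul_comm N] at hc
    exact Nat.eq_of_mul_eq_mul_left hKpos hc
  obtain ⟨x0, hx0⟩ := ht
  have htS : t ∈ sq.range := ⟨x0, by rw [hsqa, hx0]⟩
  have hτ : orderOf (⟨t, htS⟩ : sq.range) = 2 := by
    apply orderOf_eq_prime
    · apply Subtype.ext
      show t ^ 2 = 1
      rw [pow_two, ht2]
    · intro h
      exact ht1 (congrArg Subtype.val h)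
  have h2N : 2 ∣ N := by
    rw [← hNS, ← hτ]
    exact orderOf_dvd_natCard _
  obtain ⟨n, hn⟩ := h2N
  have hNn : N / 2 = n := by omega
  -- an element with a nontrivial power
  have hy : ∃ b : C, b ^ N ≠ 1 := by
    have h2S : 2 ∣ Nat.card sq.range := by
      rw [hNS]
      exact ⟨n, hn⟩
    obtain ⟨y, hy⟩ := Y6.two_cyc (Q := sq.range) h2S (μ := ⟨t, htS⟩) (by
      rintro ⟨x, y, hy⟩ hx
      have hx1 : x * x = 1 := congrArg Subtype.val hx
      rw [hsqa] at hy
      rw [← hy] at hx1
      rcases h4 y hx1 with h | h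
      · left
        apply Subtype.ext
        show x = 1
        rw [← hy, h]
      · right
        apply Subtype.ext
        show x = t
        rw [← hy, h])
    obtain ⟨x, b, hb⟩ := y
    refine ⟨b, fun h => hy ?_⟩
    apply Subtype.ext
    show x ^ (Nat.card sq.range / 2) = 1
    rw [hNS, hNn, ← hb, hsqa, ← pow_two, ← pow_mul, ← hn, h]
  have hSN : ∀ x : C, (x * x) ^ N = 1 := by
    intro x
    have h1 : (⟨x * x, ⟨x, hsqa x⟩⟩ : sq.range) ^ Nat.card sq.range = 1 := pow_card_eq_one'
    rw [hNS] at h1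
    exact congrArg Subtype.val h1
  have h1t : ∀ c : C, c ^ N = 1 ∨ c ^ N = t := by
    intro c
    have h1 : c ^ n * c ^ n = c ^ N := by
      rw [← pow_add, hn]
      congr 1
      ring
    have h2 : (c ^ n * c ^ n) * (c ^ n * c ^ n) = 1 := by
      rw [h1, ← mul_pow]
      exact hSN c
    have h3 := h4 _ h2
    rw [h1] at h3
    exact h3
  -- the squares of the elements of E
  have hSE : sq.range ≤ E := by
    rintro _ ⟨x, rfl⟩
    rw [hsqa]
    exact Subgroup.mul_self_mem_of_index_two hE x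
  have hmapS : Nat.card (sq.range.map sq) * 2 = N := by
    have h1 := Subgroup.card_mul_index (sq.comp sq.range.subtype).ker
    rw [Subgroup.index_ker, MonoidHom.range_comp, Subgroup.range_subtype, hNS] at h1
    have h2 : Nat.card (sq.comp sq.range.subtype).ker = 2 := by
      have h3 : (sq.comp sq.range.subtype).ker = Subgroup.zpowers (⟨t, htS⟩ : sq.range) := by
        ext x
        obtain ⟨x, y, hy⟩ := x
        rw [hsqa] at hy
        rw [MonoidHom.mem_ker, Subgroup.mem_zpowers_iff]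
        constructor
        · intro hx
          have hx1 : x * x = 1 := by
            have := hx
            rw [MonoidHom.comp_apply, hsqa] at this
            exact this
          rw [← hy] at hx1
          rcases h4 y hx1 with h | h
          · refine ⟨0, ?_⟩
            rw [zpow_zero]
            apply Subtype.ext
            show (1 : C) = x
            rw [← hy, h]
          · refine ⟨1, ?_⟩
            rw [zpow_one]
            apply Subtype.ext
            show t = x
            rw [← hy, h]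
        · rintro ⟨m, hm⟩
          have hm1 : t ^ m = x := congrArg Subtype.val hm
          rw [MonoidHom.comp_apply, hsqa]
          show x * x = 1
          rw [← hm1, ← mul_zpow, ht2, one_zpow]
      rw [h3, Nat.card_zpowers, hτ]
    rw [h2] at h1
    rw [mul_comm]
    exact h1
  have hcE : Nat.card E * 2 = Nat.card C := by
    rw [← hE]
    exact Subgroup.card_mul_index E
  have hmapE : Nat.card (E.map sq) * 2 = N := by
    have h1 := Subgroup.card_mul_index (sq.comp E.subtype).ker
    rw [Subgroup.index_ker, MonoidHom.range_comp, Subgroup.range_subtype] at h1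
    have h2 : Nat.card (sq.comp E.subtype).ker = Nat.card {x : C // x * x = 1} := by
      refine Nat.card_congr ⟨fun x => ⟨x.1.1, ?_⟩, fun x => ⟨⟨x.1, hE1 x.1 x.2⟩, ?_⟩, ?_, ?_⟩
      · have h3 := x.2
        rw [MonoidHom.mem_ker, MonoidHom.comp_apply, hsqa] at h3
        exact h3
      · rw [MonoidHom.mem_ker, MonoidHom.comp_apply, hsqa]
        exact x.2
      · intro x
        rfl
      · intro x
        rfl
    rw [h2] at h1
    rw [← h1, hN] at hcE
    have h3 : Nat.card {x : C // x * x = 1} * (Nat.card (E.map sq) * 2) =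
        Nat.card {x : C // x * x = 1} * N := by
      rw [← mul_assoc, hcE, mul_comm]
    exact Nat.eq_of_mul_eq_mul_left hKpos h3
  have hmap : sq.range.map sq = E.map sq := by
    apply Subgroup.eq_of_le_of_card_ge (Subgroup.map_mono hSE)
    omega
  have hE4 : ∀ c : C, c ∈ E → c ^ N = 1 := by
    intro c hcE'
    have h1 : sq c ∈ sq.range.map sq := by
      rw [hmap]
      exact Subgroup.mem_map_of_mem sq hcE'
    obtain ⟨_, ⟨b, rfl⟩, hb⟩ := h1
    rw [hsqa, hsqa, hsqa] at hb
    have h2 : ((b * b)⁻¹ * c) ^ 2 = 1 := by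
      rw [mul_pow, inv_pow, pow_two, pow_two, hb, inv_mul_cancel]
    have h3 : c = (b * b) * ((b * b)⁻¹ * c) := (mul_inv_cancel_left _ _).symm
    rw [h3, mul_pow, hSN, one_mul, hn, pow_mul, h2, one_pow]
  obtain ⟨b, hb⟩ := hy
  have hbE : b ∉ E := fun h => hb (hE4 b h)
  have hbt : b ^ N = t := (h1t b).resolve_left hb
  refine ⟨⟨n, by omega⟩, fun c => ⟨hE4 c, fun hcE' => ?_⟩⟩
  have h1 : c * b ∈ E := by
    rw [Subgroup.mul_mem_iff_of_index_two hE]
    tauto
  have h2 := hE4 _ h1
  rw [mul_pow, hbt] at h2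
  calc c ^ N = c ^ N * (t * t) := by rw [ht2, mul_one]
    _ = (c ^ N * t) * t := by rw [mul_assoc]
    _ = t := by rw [h2, one_mul]

end Pool.Agent.Work.MP_8efaaa_nt.T3
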