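import Mathlib
import Pool.Agent.Work.MP_8efaaa_nt.T3.Defs
import Pool.Agent.Work.MP_8efaaa_nt.T3.CSq
import Pool.Agent.Work.MP_8efaaa_nt.W14.CCh
import Pool.Agent.Work.MP_8efaaa_nt.W14.CCl
import Pool.Agent.Work.MP_8efaaa_nt.W14.CEq

/-!
# T3/CSt (M): squares in the class group, `a = 14 (mod 16)`

st_sq: `sq_of_rank` (T3/CSq) for `t = cls (r6 S 2)` (`t * t = 1`, `cls_two`), `u1`, `u2` the classes of the ideals `b1`, `b2`, `u3 = cls d`. h1: `x * x = t ^ i * cls b1 * cls b2 ^ k`: `t ^ i` is `1` or `t`, so `cls (b1 * b2 ^ k) = x * x` or `t * (x * x)` (`cls_mul`; ideals not zero), `chi_sq` (W14/CCh) for `q = la`: `jacobiSym (N b1 * N b2 ^ k) la = 1`, but it is `(-1) * 1 ^ k` (`jacobiSym.mul_left`, `jacobiSym.pow_left`; the symbol is not `0`, so `¬ la ∣ N`: see `nsq_ne` in T3/Ge.lean). h2: `x * x = t ^ i * cls b2`: `chi_sq` for `lb`. h3: `x = cls c` with `c` odd (`cls_surj`), `cls (b1 ^ j * b2 ^ k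 * d) = cls (c * c)` or `t * cls (c * c)`; norms: `norm_cls`: `N (b1 ^ j * b2 ^ k * d) = ± (N c) ^ 2 = ± 1 (mod 8)`, but it is `3 (mod 8)`.
st_nsq: `cls (r6 S e) = x * x`, `e ∣ l1 l2 l3`, so `e = 1`, `l1`, `l2`, `l3`, `l1 l2`, `l1 l3`, `l2 l3` or `l1 l2 l3` (`Nat.dvd_mul`, `Nat.dvd_prime`). In the cases `l_i`, and `l_j l_k` where `cls (r6 S (l_j l_k)) = cls (r6 S (l1 l2 l3)) * cls (r6 S l_i) = t * cls (r6 S l_i)` (`r6_mul`, `r6_sq`, `cls_two`; `a / 2 = l1 l2 l3`), so `cls (r6 S l_i) = t * (x * x)`: `chi_sq` for `b = r6 S l_i` (norm `l_i`, `norm_r6`) at the prime `l_j` with `jacobiSym l_i l_j = -1`.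
-/

set_option autoImplicit false

namespace Pool.Agent.Work.MP_8efaaa_nt.T3

open NumberField Pool.Agent.Work.MP_8efaaa_nt.R Pool.Agent.Work.MP_8efaaa_nt.N5
  Pool.Agent.Work.MP_8efaaa_nt.K6 Pool.Agent.Work.MP_8efaaa_nt.W14
open scoped Classical nonZeroDivisors

variable {K : Type*} [Field K] [NumberField K] {s : K} {S : 𝓞 K} {τ : 𝓞 K ≃+* 𝓞 K}

private theorem cst_ne {p : ℕ} (hp : p.Prime) {n : ℕ} (h : jacobiSym n p = -1) : ¬ p ∣ n := by
  intro h1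
  have h0 : jacobiSym n p ≠ 0 := by
    rw [h]
    norm_num
  apply h0
  haveI : NeZero p := ⟨hp.ne_zero⟩
  rw [jacobiSym.eq_zero_iff_not_coprime]
  rw [Int.gcd_natCast_natCast, Nat.gcd_eq_right h1]
  exact hp.one_lt.ne'

private theorem cst_pow {b : Ideal (𝓞 K)} (hb : b ≠ 0) (k : ℕ) : cls (b ^ k) = cls b ^ k := by
  induction k with
  | zero => rw [pow_zero, pow_zero, cls_one]
  | succ k ih => rw [pow_succ, pow_succ, cls_mul (pow_ne_zero k hb) hb, ih]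

private theorem cst_t {C : Type*} [CommGroup C] {t u x : C} (ht : t * t = 1) {i : ℕ}
    (h : x * x = t ^ i * u) : u = x * x ∨ u = t * (x * x) := by
  rcases Nat.even_or_odd' i with ⟨j, rfl | rfl⟩
  · left
    rw [h, pow_mul, pow_two, ht, one_pow, one_mul]
  · right
    rw [h, pow_succ, pow_mul, pow_two, ht, one_pow, one_mul, ← mul_assoc, ht, one_mul]

private theorem cst_no {a : ℕ} (hb : B6 K a s) (hS : algebraMap (𝓞 K) K S = s) (hτ : τ S = -S)
    {q : ℕ} (hq : q.Prime) (hq8 : q % 8 = 1 ∨ q % 8 = 7) (hqa : q ∣ a) {b : Ideal (𝓞 K)}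
    (hj : jacobiSym (Ideal.absNorm b) q = -1) {C : ClassGroup (𝓞 K)}
    (h : cls b = C * C ∨ cls b = cls (r6 S 2) * (C * C)) : False := by
  have hn := cst_ne hq hj
  have hb0 : b ≠ 0 := by
    rintro rfl
    apply hn
    rw [map_zero]
    exact dvd_zero q
  have h1 := chi_sq hb hS hτ hq hq8 hqa hb0 hn h
  rw [h1] at hj
  norm_num at hj

theorem st_sq {a : ℕ} (hb : B6 K a s) (hS : algebraMap (𝓞 K) K S = s) (hτ : τ S = -S)
    (ha : a % 16 = 14) (h8 : Nat.card {x : ClassGroup (𝓞 K) // x * x = 1} = 8)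
    {d b1 b2 : Ideal (𝓞 K)} (hd : Ideal.absNorm d % 8 = 3) (hb1 : Ideal.absNorm b1 % 8 = 1)
    (hb2 : Ideal.absNorm b2 % 8 = 1) {la lb : ℕ} (hla : la.Prime)
    (hla8 : la % 8 = 1 ∨ la % 8 = 7) (hlaa : la ∣ a) (hlb : lb.Prime)
    (hlb8 : lb % 8 = 1 ∨ lb % 8 = 7) (hlba : lb ∣ a)
    (s1 : jacobiSym (Ideal.absNorm b1) la = -1) (s2 : jacobiSym (Ideal.absNorm b2) la = 1)
    (s3 : jacobiSym (Ideal.absNorm b2) lb = -1) : ∃ x : ClassGroup (𝓞 K), x * x = cls (r6 S 2) := by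
  have ht := (cls_two hb hS).1
  have hd0 : d ≠ 0 := by
    rintro rfl
    rw [map_zero] at hd
    omega
  have hb10 : b1 ≠ 0 := by
    rintro rfl
    rw [map_zero] at hb1
    omega
  have hb20 : b2 ≠ 0 := by
    rintro rfl
    rw [map_zero] at hb2
    omega
  refine sq_of_rank (t := cls (r6 S 2)) (u1 := cls b1) (u2 := cls b2) (u3 := cls d) h8 ?_ ?_ ?_
  · intro i j k x hx
    have hc1 : cls (b1 ^ j * b2 ^ k * d) = cls b1 ^ j * cls b2 ^ k * cls d := by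
      rw [cls_mul (mul_ne_zero (pow_ne_zero j hb10) (pow_ne_zero k hb20)) hd0,
        cls_mul (pow_ne_zero j hb10) (pow_ne_zero k hb20), cst_pow hb10, cst_pow hb20]
    have hx' : x * x = cls (r6 S 2) ^ i * cls (b1 ^ j * b2 ^ k * d) := by
      rw [hx, hc1]
      simp only [mul_assoc]
    have h1 := cst_t ht hx'
    obtain ⟨c, hc, rfl⟩ := cls_surj hb hS x
    have hc0 := M13.ne hc
    have hn1 : Ideal.absNorm (b1 ^ j * b2 ^ k * d) % 8 = 3 := by
      have e1 : Ideal.absNorm b1 ^ j ≡ 1 ^ j [MOD 8] := Nat.ModEq.pow j hb1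
      have e2 : Ideal.absNorm b2 ^ k ≡ 1 ^ k [MOD 8] := Nat.ModEq.pow k hb2
      have e3 : Ideal.absNorm d ≡ 3 [MOD 8] := hd
      have e4 := (e1.mul e2).mul e3
      rw [one_pow, one_pow, one_mul, one_mul] at e4
      rw [map_mul, map_mul, map_pow, map_pow]
      exact e4
    have hn2 : Ideal.absNorm (c * c) % 8 = 1 := by
      rw [map_mul, Nat.mul_mod]
      rcases hc with hc | hc <;> rw [hc]
    have ho1 : OddI (b1 ^ j * b2 ^ k * d) := by
      unfold OddI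
      rw [Nat.odd_iff]
      omega
    have ho2 : OddI (c * c) := by
      unfold OddI
      rw [Nat.odd_iff]
      omega
    rw [← cls_mul hc0 hc0] at h1
    have h2 := norm_cls hb hS hτ ha ho1 ho2 h1
    omega
  · intro i k x hx
    have hc1 : cls (b1 * b2 ^ k) = cls b1 * cls b2 ^ k := by
      rw [cls_mul hb10 (pow_ne_zero k hb20), cst_pow hb20]
    have hx' : x * x = cls (r6 S 2) ^ i * cls (b1 * b2 ^ k) := by
      rw [hx, hc1]
      simp only [mul_assoc]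
    refine cst_no hb hS hτ hla hla8 hlaa (b := b1 * b2 ^ k) ?_ (cst_t ht hx')
    rw [map_mul, map_pow, Nat.cast_mul, Nat.cast_pow, jacobiSym.mul_left, jacobiSym.pow_left, s1, s2,
      one_pow, mul_one]
  · intro i x hx
    exact cst_no hb hS hτ hlb hlb8 hlba s3 (cst_t ht hx)

private theorem cst_co {a : ℕ} (hb : B6 K a s) (hS : algebraMap (𝓞 K) K S = s) {m l : ℕ}
    (hml : m * l = a / 2) {x : ClassGroup (𝓞 K)} (hx : x * x = cls (r6 S m)) :
    cls (r6 S l) = cls (r6 S 2) * (x⁻¹ * x⁻¹) := by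
  have h2 : 2 * (a / 2) = a := by
    have := hb.mod
    omega
  have hd : m * l ∣ a := ⟨2, by rw [hml]; omega⟩
  have hm : m ∣ a := (Dvd.intro _ rfl).trans hd
  have hl : l ∣ a := (Dvd.intro_left _ rfl).trans hd
  have h3 := congrArg cls (r6_mul hb hS hd)
  rw [cls_mul (r6_ne hb hS hm) (r6_ne hb hS hl), hml, (cls_two hb hS).2, ← hx] at h3
  rw [h3, ← mul_inv, mul_comm (x * x), mul_assoc, mul_inv_cancel, mul_one]

theorem st_nsq {l1 l2 l3 : ℕ} (h1 : l1.Prime) (h2 : l2.Prime) (h3 : l3.Prime)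
    (e1 : l1 % 8 = 1 ∨ l1 % 8 = 7) (e2 : l2 % 8 = 1 ∨ l2 % 8 = 7) (e3 : l3 % 8 = 1 ∨ l3 % 8 = 7)
    (hb : B6 K (2 * l1 * l2 * l3) s) (hS : algebraMap (𝓞 K) K S = s) (hτ : τ S = -S)
    (n1 : jacobiSym l1 l2 = -1 ∨ jacobiSym l1 l3 = -1)
    (n2 : jacobiSym l2 l1 = -1 ∨ jacobiSym l2 l3 = -1)
    (n3 : jacobiSym l3 l1 = -1 ∨ jacobiSym l3 l2 = -1) {e : ℕ} (he : e ∣ l1 * l2 * l3)
    {x : ClassGroup (𝓞 K)} (hx : x * x = cls (r6 S e)) :
    cls (r6 S e) = 1 ∨ cls (r6 S e) = cls (r6 S 2) := by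
  have hmod := hb.mod
  have ha2 : (2 * l1 * l2 * l3) / 2 = l1 * l2 * l3 := by
    rw [show 2 * l1 * l2 * l3 = 2 * (l1 * l2 * l3) by ring]
    exact Nat.mul_div_cancel_left _ two_pos
  have d1 : l1 ∣ 2 * l1 * l2 * l3 := ⟨2 * l2 * l3, by ring⟩
  have d2 : l2 ∣ 2 * l1 * l2 * l3 := ⟨2 * l1 * l3, by ring⟩
  have d3 : l3 ∣ 2 * l1 * l2 * l3 := ⟨2 * l1 * l2, by ring⟩
  -- a single prime is impossible
  have k1 : ∀ C : ClassGroup (𝓞 K), (cls (r6 S l1) = C * C ∨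
      cls (r6 S l1) = cls (r6 S 2) * (C * C)) → False := by
    intro C h
    rcases n1 with n1 | n1
    · exact cst_no hb hS hτ h2 e2 d2 (by rw [norm_r6 hb hS d1]; exact n1) h
    · exact cst_no hb hS hτ h3 e3 d3 (by rw [norm_r6 hb hS d1]; exact n1) h
  have k2 : ∀ C : ClassGroup (𝓞 K), (cls (r6 S l2) = C * C ∨
      cls (r6 S l2) = cls (r6 S 2) * (C * C)) → False := by
    intro C h
    rcases n2 with n2 | n2
    · exact cst_no hb hS hτ h1 e1 d1 (by rw [norm_r6 hb hS d2]; exact n2) h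
    · exact cst_no hb hS hτ h3 e3 d3 (by rw [norm_r6 hb hS d2]; exact n2) h
  have k3 : ∀ C : ClassGroup (𝓞 K), (cls (r6 S l3) = C * C ∨
      cls (r6 S l3) = cls (r6 S 2) * (C * C)) → False := by
    intro C h
    rcases n3 with n3 | n3
    · exact cst_no hb hS hτ h1 e1 d1 (by rw [norm_r6 hb hS d3]; exact n3) h
    · exact cst_no hb hS hτ h2 e2 d2 (by rw [norm_r6 hb hS d3]; exact n3) h
  obtain ⟨y, z, hy, hz, hyz⟩ := Nat.dvd_mul.1 he
  obtain ⟨u, v, hu, hv, huv⟩ := Nat.dvd_mul.1 hy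
  rcases (Nat.dvd_prime h1).1 hu with hu | hu <;> rcases (Nat.dvd_prime h2).1 hv with hv | hv <;>
    rcases (Nat.dvd_prime h3).1 hz with hz | hz <;> rw [hu, hv] at huv <;> rw [← huv, hz] at hyz
  · left
    rw [one_mul, one_mul] at hyz
    rw [← hyz]
    have h4 : r6 S 1 = 1 := by
      unfold r6
      rw [Nat.cast_one, Ideal.one_eq_top]
      exact Ideal.eq_top_of_isUnit_mem _ (Ideal.subset_span (Set.mem_insert _ _)) isUnit_one
    rw [h4, cls_one]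
  · rw [one_mul, one_mul] at hyz
    rw [← hyz] at hx
    exact (k3 x (Or.inl hx.symm)).elim
  · rw [one_mul, mul_one] at hyz
    rw [← hyz] at hx
    exact (k2 x (Or.inl hx.symm)).elim
  · rw [one_mul] at hyz
    rw [← hyz] at hx
    exact (k1 x⁻¹ (Or.inr (cst_co hb hS (by rw [ha2]; ring) hx))).elim
  · rw [mul_one, mul_one] at hyz
    rw [← hyz] at hx
    exact (k1 x (Or.inl hx.symm)).elim
  · rw [mul_one] at hyz
    rw [← hyz] at hx
    exact (k2 x⁻¹ (Or.inr (cst_co hb hS (by rw [ha2]; ring) hx))).elim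
  · rw [mul_one] at hyz
    rw [← hyz] at hx
    exact (k3 x⁻¹ (Or.inr (cst_co hb hS (by rw [ha2]) hx))).elim
  · right
    rw [← hyz, ← ha2]
    exact (cls_two hb hS).2

end Pool.Agent.Work.MP_8efaaa_nt.T3
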