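import Mathlib
import Pool.Agent.Work.MP_8efaaa_nt.T3.CDf
import Pool.Agent.Work.MP_8efaaa_nt.T3.CSq
import Pool.Agent.Work.MP_8efaaa_nt.T3.CGt
import Pool.Agent.Work.MP_8efaaa_nt.T3.CSt
import Pool.Agent.Work.MP_8efaaa_nt.W14.CHf
import Pool.Agent.Work.MP_8efaaa_nt.W14.CCl
import Pool.Agent.Work.MP_8efaaa_nt.W14.CEq

/-!
# T3/CCl (M): the class group, assembly

`exists_H` (W14/CHf) with `d`: `H : Subgroup (CG S)` of index two. `E = H.comap (QuotientGroup.mk' _)`, index two (`Subgroup.index_comap_of_surjective`). For an odd ideal `c`: `cls c ∈ E ↔ N c % 8 = 1 ∨ N c % 8 = 7`: if `N c = 1` or `3 (mod 8)`, `c ∈ M13 K`, hH; if `N c = 5` or `7`, `c' = (1 + S) c` is in `M13 K`, norm `(1 + a) N c = 7 N c = 3` or `1 (mod 8)`, same class (`norm_g`, `cls_mul`, `cls_span`; see `cls_surj` in W14/CCl.lean). `pow_e8` (T3/CSq) for `C = ClassGroup`, `t = cls (r6 S 2)`,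 `N = card (CG S) / 4`: hE1: `tt_sq`, `x = cls (r6 S d)`, `d ∣ l1 l2 l3`, norm `d = ± 1 (mod 8)` (product of numbers `± 1 (mod 8)`; `r6 S d` is odd). ht: `st_sq` with `tt_card`. ht1: `tt_one`. ht2: `cls_two`. h4: `tt_sq` for `x * x` gives `x * x = cls (r6 S e)`, `st_nsq`. hN: `card C = 2 * card (CG S)` (`tt_half`), `tt_card`, and `4 ∣ card (CG S)`: `card C = card (range sq) * 8` (first isomorphism theorem for `powMonoidHom 2`), so `card (CG S) = 4 * card (range sq)`. Then `Even N` gives `8 ∣ card (CG S)`.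
-/

set_option autoImplicit false

namespace Pool.Agent.Work.MP_8efaaa_nt.T3

open NumberField Pool.Agent.Work.MP_8efaaa_nt.R Pool.Agent.Work.MP_8efaaa_nt.N5
  Pool.Agent.Work.MP_8efaaa_nt.K6 Pool.Agent.Work.MP_8efaaa_nt.W14
open scoped Classical nonZeroDivisors

variable {K : Type*} [Field K] [NumberField K] {s : K} {S : 𝓞 K} {τ : 𝓞 K ≃+* 𝓞 K}

theorem exists_C8 {l1 l2 l3 : ℕ} (h1 : l1.Prime) (h2 : l2.Prime) (h3 : l3.Prime) (h12 : l1 ≠ l2)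
    (h13 : l1 ≠ l3) (h23 : l2 ≠ l3) (e1 : l1 % 8 = 1 ∨ l1 % 8 = 7) (e2 : l2 % 8 = 1 ∨ l2 % 8 = 7)
    (e3 : l3 % 8 = 1 ∨ l3 % 8 = 7) (ha : (2 * l1 * l2 * l3) % 16 = 14)
    (hb : B6 K (2 * l1 * l2 * l3) s) (hS : algebraMap (𝓞 K) K S = s) (hτ : τ S = -S)
    (n1 : jacobiSym l1 l2 = -1 ∨ jacobiSym l1 l3 = -1)
    (n2 : jacobiSym l2 l1 = -1 ∨ jacobiSym l2 l3 = -1)
    (n3 : jacobiSym l3 l1 = -1 ∨ jacobiSym l3 l2 = -1)
    {d b1 b2 : Ideal (𝓞 K)} (hd : Ideal.absNorm d % 8 = 3) (hb1 : Ideal.absNorm b1 % 8 = 1)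
    (hb2 : Ideal.absNorm b2 % 8 = 1) {la lb : ℕ} (hla : la.Prime)
    (hla8 : la % 8 = 1 ∨ la % 8 = 7) (hlaa : la ∣ 2 * l1 * l2 * l3) (hlb : lb.Prime)
    (hlb8 : lb % 8 = 1 ∨ lb % 8 = 7) (hlba : lb ∣ 2 * l1 * l2 * l3)
    (s1 : jacobiSym (Ideal.absNorm b1) la = -1) (s2 : jacobiSym (Ideal.absNorm b2) la = 1)
    (s3 : jacobiSym (Ideal.absNorm b2) lb = -1) [Fintype (CG S)] : C8 S := by
  sorry

end Pool.Agent.Work.MP_8efaaa_nt.T3
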