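import Mathlib
import Pool.Agent.Work.MP_8efaaa_nt.T3.CDf
import Pool.Agent.Work.MP_8efaaa_nt.Q7.Ds1
import Pool.Agent.Work.MP_8efaaa_nt.Q7.Ds2
import Pool.Agent.Work.MP_8efaaa_nt.W14.CEq
import Pool.Agent.Work.MP_8efaaa_nt.W14.PGa

/-!
# T3/CFn (M): the descent of the point `Z`, final contradiction

(1) `Z + Z ≠ 0`: else `Z` is `0`, `ep`, `em` or `ez` (a point of order two of `y^2 = x^3 - x`; see `W14.y_tor` or `tor_two`-like lemmas, or `pt x y` with `y = 0`, `x (x-1) (x+1) = 0`), fixed by every `gal σ` (`gal_pt`); an ideal `d` of norm `3 (mod 8)` acts by some `σ` (`hU.mov`), `gal σ Z = Z + em` (hZ), so `em = 0`, false (`two_ep`).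
(2) `Q7.ds_two`: `Z = pt x y h`, `y ≠ 0`, `x + 1 ≠ 0`. `η = y / (x + 1)`, `δ = ((x + 1) ^ 2 - 2) / (x + 1)`; `Q7.ds_act`: for `σ` acting by `b`: `N b = 1`: `η`, `δ` fixed; `N b = 3`: `gal σ Z = Z + em`: `η ↦ -η`, `δ ↦ -δ`; `N b = 5`: `gal σ Z = -Z + em`: `η ↦ η`, `δ ↦ -δ`; `N b = 7`: `gal σ Z = -Z`: `η ↦ -η`, `δ ↦ δ`. `κ` fixes both (hκ, `ds_act` for `κ`).
(3) `θ = ζ + ζ ^ 7`, `i2 = ζ + ζ ^ 3` (`Q7.roots8`): `θ ^ 2 = 2`, `i2 ^ 2 = -2`; `σ θ = θ` iff `N b = 1, 7`, else `-θ`; `σ i2 = i2` iff `N b = 1, 3`, else `-i2`; `κ θ = θ`, `κ i2 = -i2` (`hU.cz`, `n = 7`). So `η ^ 2`, `δ θ`, `η δ i2` are fixed by all `σ : F ≃ₐ[K] F` (`hU.act`), `κ` fixes `η ^ 2` and `δ θ`, and `κ (η δ i2) = -η δ i2`. `Q7.desc_q` (`hU.cs`): `η ^ 2 = X`, `δ θ = u`, `η δ i2 = t s` with `X, u, t` rational.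
(4) `Q7.ds_rel`: `δ ^ 2 = X ^ 2 + 6 X + 1`; `2 δ ^ 2 = u ^ 2`; `-2 X δ ^ 2 = t ^ 2 s ^ 2 = -a t ^ 2` (`hb.sq`), `a = 2 m`: `X (X ^ 2 + 6 X + 1) = m t ^ 2`. `X ≠ 0` (`y ≠ 0`). `δ ≠ 0`: else `X ^ 2 + 6 X + 1 = 0`, `(X + 3) ^ 2 = 8`, `X` rational, impossible. So `u ≠ 0` and `X = m t ^ 2 / (u ^ 2 / 2) = 2 m (t / u) ^ 2`. `Q7.ds_arith` with `n = m`, `r = t / u`. (`m = a / 2` is odd as `a = 14 (mod 16)`.)
-/

set_option autoImplicit false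

namespace Pool.Agent.Work.MP_8efaaa_nt.T3

open NumberField Pool.Agent.Work.MP_8efaaa_nt.R Pool.Agent.Work.MP_8efaaa_nt.N5
  Pool.Agent.Work.MP_8efaaa_nt.K6 Pool.Agent.Work.MP_8efaaa_nt.W14
open scoped Classical nonZeroDivisors

variable {K F : Type*} [Field K] [NumberField K] [Field F] [NumberField F] [Algebra K F] {a : ℕ}
  {s : K} {S : 𝓞 K} {τ : 𝓞 K ≃+* 𝓞 K} {ζ : F} {w : ℕ → F} {z k v : Ideal (𝓞 K) → F}
  {κ : F ≃ₐ[ℚ] F}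

theorem c_fin [FiniteDimensional K F] [IsGalois K F] (hb : B6 K a s)
    (hS : algebraMap (𝓞 K) K S = s) (ha : a % 16 = 14)
    (hU : UD6 K F a s S τ ζ w z k v κ) {d : Ideal (𝓞 K)} (hd : Ideal.absNorm d % 8 = 3)
    {Z : (cQ F).Point}
    (hZ : ∀ (σ : F ≃ₐ[K] F) (b : Ideal (𝓞 K)), OddI b → MA6 a ζ w z k v σ b →
      gal σ Z = (if Ideal.absNorm b % 8 = 1 ∨ Ideal.absNorm b % 8 = 3 then Z else -Z) +
        if Ideal.absNorm b % 8 = 1 ∨ Ideal.absNorm b % 8 = 7 then 0 else W14.em F)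
    (hκ : gal κ Z = Z) : False := by
  sorry

end Pool.Agent.Work.MP_8efaaa_nt.T3
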