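import Mathlib
import Pool.Agent.Work.MP_8efaaa_nt.T3.CDf
import Pool.Agent.Work.MP_8efaaa_nt.T3.Kx
import Pool.Agent.Work.MP_8efaaa_nt.W14.CEq
import Pool.Agent.Work.MP_8efaaa_nt.W14.PGa

/-!
# T3/CPw (M): translation by `b ^ (n / 2)`, `n = card (CG S)`

`P = PP z k v`, `B = b ^ (n / 4)` in `M13 K`, norm `(N b) ^ (n / 4) = 1 (mod 8)` (`n / 4` is even, `3 ^ 2 = 1`), `cls B = cls b ^ (n / 4)` (`cls` is multiplicative on `M13 K`: `Q7.ccM`, or `cls_mul` and induction; `M13.ne`). `b ^ (n / 2) = B * B` (`n / 2 = n / 4 + n / 4`).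
`N b = 1 (mod 8)`: `cls B = 1 = cls 1` (`hc.pow`): `kk_one` (T3/Kx) for `B` and `1`: `P (B x) = P x + ε` for odd `x`, `ε + ε = 0`: for `x = B y` and `x = y`: `P (B B y) = P y`.
`N b = 3 (mod 8)`: `cls B = t * cls 1`: `kk_two`: `P (B x) = P x + (T - T' + ε) + [N x = 3] ep` for `x` in `M13 K`; for `x = B y` and `x = y` (`N (B y) = N y (mod 8)`): `P (B B y) = P y + 2 (T - T' + ε) + 2 [..] ep = P y + (T + T) - (T' + T') = P y + ez - ep = P y + em` (`hT.two`, `hT'.two`, `two_ep`).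
-/

set_option autoImplicit false

namespace Pool.Agent.Work.MP_8efaaa_nt.T3

open NumberField Pool.Agent.Work.MP_8efaaa_nt.R Pool.Agent.Work.MP_8efaaa_nt.N5
  Pool.Agent.Work.MP_8efaaa_nt.K6 Pool.Agent.Work.MP_8efaaa_nt.W14
open scoped Classical nonZeroDivisors

variable {K F : Type*} [Field K] [NumberField K] [Field F] [NumberField F] [Algebra K F] {a : ℕ}
  {s : K} {S : 𝓞 K} {τ : 𝓞 K ≃+* 𝓞 K} {ζ : F} {w : ℕ → F} {z k v : Ideal (𝓞 K) → F}
  {κ : F ≃ₐ[ℚ] F}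

theorem c_pw (hb : B6 K a s) (hS : algebraMap (𝓞 K) K S = s) (hτ : τ S = -S)
    (ha : a % 16 = 14) (hU : UD6 K F a s S τ ζ w z k v κ) {T T' : (cQ F).Point}
    (hT : Tq S z k v T) (hT' : Fr a S z k v T') [Fintype (CG S)] (hc : C8 S) (b y : M13 K) :
    PP z k v ((b : Ideal (𝓞 K)) ^ (Fintype.card (CG S) / 2) * (y : Ideal (𝓞 K))) =
      PP z k v (y : Ideal (𝓞 K)) +
        if Ideal.absNorm (b : Ideal (𝓞 K)) % 8 = 1 then 0 else W14.em F := by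
  sorry

end Pool.Agent.Work.MP_8efaaa_nt.T3
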