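import Mathlib
import Pool.Agent.Work.MP_8efaaa_nt.T3.CDf
import Pool.Agent.Work.MP_8efaaa_nt.T3.CPw
import Pool.Agent.Work.MP_8efaaa_nt.T3.Kx
import Pool.Agent.Work.MP_8efaaa_nt.T3.Sx
import Pool.Agent.Work.MP_8efaaa_nt.V6.PEt
import Pool.Agent.Work.MP_8efaaa_nt.W14.CCl
import Pool.Agent.Work.MP_8efaaa_nt.W14.CEq
import Pool.Agent.Work.MP_8efaaa_nt.W14.PGa

/-!
# T3/CZs (M): the half sum, shifted by an ideal of norm `1` or `3 (mod 8)`

`P = PP z k v`, `n = card (CG S)`, `Z = ∑_{g ∈ H} P (r g)`. MODEL for the use of `sec_H`, `sec_K` (T3/Sx) with `kk_one`, `kk_two`: `cmp14` in T3/Cm.lean (its proof verifies the hypotheses `h`, `h1`, `h2`, `hcl` of `sec_H` and `sec_K`, with `M = M13 K`, `P c = PP z k v c`, `cc = Q7.ccM` or the hom used there, `cl = clM S`, `t = cls (r6 S 2)`, `e = ep`; copy). `#H = #Hᶜ = n / 2`, even (`hc.eight`).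
Case `N b = 1 (mod 8)`: `clM S b ∈ H` (hH). `r' g = b * r ((clM S b)⁻¹ * g)`, `clM S (r' g) = g` (`hr.cl`). Reindexing (`g ↦ (clM S b)⁻¹ * g` is a bijection of `H`): `∑_H P (r' g) = ∑_H P (b * r g)`, `∏_H r' = b ^ (n / 2) * ∏_H r`. `sec_H`: `∑_H P (r' g) - Z = P (b ^ (n / 2) * R0) - P R0 = 0` (`c_pw`, `R0 = ∏_H r`).
Case `N b = 3 (mod 8)`: `clM S b ∉ H`. The same `r'`, now on the complement of `H` (`(clM S b)⁻¹ * g ∈ H` iff `g ∉ H`: `Subgroup.mul_mem_iff_of_index_two`): `∑_{g ∉ H} P (r' g) = ∑_H P (b * r g)`, `∏_{∉ H} r' = b ^ (n / 2) * ∏_H r`. `sec_K` for `r'` and `r`: `∑_{∉H} P (r' g) - ∑_{∉H} P (r g) = P (b ^ (n / 2) * R0) - P R1 + (if cc (b ^ (n / 2) * R0) = cc R1 then 0 else ep)`, `R1 = ∏_{∉H} r`. By `hr.prod`: `R0 = (m1) u`, `R1 = (m2) u`, `u = w0 ^ (n / 4)`, `m1 = 1`, `m2 = 3 ^ (n / 4) = 1 (mod 8)` (`n / 4` even). `cls (m1) = cls (m2) = 1` (`cls_span`), `cls (b ^ (n / 2)) = (cls b ^ (n / 4)) ^ 2 = 1` (`hc.pow`,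 `cls_two`): the classes are equal, the last term is `0`. `V6.nat_px` (`m1`, `m2` are `1 (mod 8)`): `P R0 = P u = P R1`, and `c_pw` for `y = R0`: `P (b ^ (n / 2) * R0) = P R0 + em`. So `∑_H P (b * r g) = ∑_{∉H} P (r g) + em = Z + em` (hD: `DD = 0`).
-/

set_option autoImplicit false

namespace Pool.Agent.Work.MP_8efaaa_nt.T3

open NumberField Pool.Agent.Work.MP_8efaaa_nt.R Pool.Agent.Work.MP_8efaaa_nt.N5
  Pool.Agent.Work.MP_8efaaa_nt.K6 Pool.Agent.Work.MP_8efaaa_nt.W14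
open scoped Classical nonZeroDivisors

variable {K F : Type*} [Field K] [NumberField K] [Field F] [NumberField F] [Algebra K F] {a : ℕ}
  {s : K} {S : 𝓞 K} {τ : 𝓞 K ≃+* 𝓞 K} {ζ : F} {w : ℕ → F} {z k v : Ideal (𝓞 K) → F}
  {κ : F ≃ₐ[ℚ] F}

private theorem cz_card {G : Type*} [CommGroup G] [Fintype G] {H : Subgroup G}
    (h : H.index = 2) (h8 : 8 ∣ Fintype.card G) :
    (Finset.univ.filter (fun g : G => g ∈ H)).card = Fintype.card G / 2 ∧
      (Finset.univ.filter (fun g : G => g ∉ H)).card = Fintype.card G / 2 := by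
  have h1 : (Finset.univ.filter (fun g : G => g ∈ H)).card = Nat.card H := by
    rw [Nat.card_eq_fintype_card]
    exact (Fintype.card_subtype _).symm
  have h2 := Subgroup.card_mul_index H
  rw [h, Nat.card_eq_fintype_card (α := G)] at h2
  have h3 := Finset.card_filter_add_card_filter_not (s := (Finset.univ : Finset G))
    (fun g : G => g ∈ H)
  rw [Finset.card_univ] at h3
  obtain ⟨l, hl⟩ := h8
  omega

private theorem cz_cls {K : Type*} [Field K] [NumberField K] {m : ℕ} (hm : Odd m) (u : M13 K) :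
    cls (Ideal.span {(m : 𝓞 K)} * (u : Ideal (𝓞 K))) = cls (u : Ideal (𝓞 K)) := by
  have hm0 : (m : 𝓞 K) ≠ 0 := by
    rw [Nat.cast_ne_zero]
    rintro rfl
    exact absurd hm (by decide)
  have hs : Ideal.span {(m : 𝓞 K)} ≠ (0 : Ideal (𝓞 K)) := by
    intro h
    exact hm0 (Ideal.span_singleton_eq_bot.1 h)
  rw [cls_mul hs (M13.ne u.2), cls_span hm0, one_mul]

theorem c_zs (hb : B6 K a s) (hS : algebraMap (𝓞 K) K S = s) (hτ : τ S = -S)
    (ha : a % 16 = 14) (hU : UD6 K F a s S τ ζ w z k v κ) {T T' : (cQ F).Point}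
    (hT : Tq S z k v T) (hT' : Fr a S z k v T') [Fintype (CG S)] (hc : C8 S)
    {H : Subgroup (CG S)} (hi : H.index = 2)
    (hH : ∀ c : M13 K, clM S c ∈ H ↔ Ideal.absNorm (c : Ideal (𝓞 K)) % 8 = 1)
    {r : CG S → M13 K} {w0 : M13 K} (hr : IsSec H r (w0 ^ (Fintype.card (CG S) / 4)))
    (hD : DD z k v H r = 0) (b : M13 K) :
    ∑ g ∈ Finset.univ.filter (· ∈ H), PP z k v ((b : Ideal (𝓞 K)) * (r g : Ideal (𝓞 K))) =
      ∑ g ∈ Finset.univ.filter (· ∈ H), PP z k v (r g : Ideal (𝓞 K)) +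
        if Ideal.absNorm (b : Ideal (𝓞 K)) % 8 = 1 then 0 else W14.em F := by
  obtain ⟨P, hP⟩ : ∃ P : M13 K → (cQ F).Point, ∀ c, P c = PP z k v (c : Ideal (𝓞 K)) :=
    ⟨_, fun c => rfl⟩
  let cc : M13 K →* ClassGroup (𝓞 K) :=
    { toFun := fun c => cls (c : Ideal (𝓞 K))
      map_one' := cls_one
      map_mul' := fun b c => cls_mul (M13.ne b.2) (M13.ne c.2) }
  have hcc : ∀ c : M13 K, cc c = cls (c : Ideal (𝓞 K)) := fun c => rfl
  have ht2 := (cls_two hb hS).1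
  have hep := (two_ep (F := F)).1
  have h1 : ∀ b c x : M13 K, cc b = cc c → P (b * x) - P (c * x) = P b - P c := by
    intro b c x hbc
    obtain ⟨ε, -, hε⟩ := kk_one hb hS hτ ha hU hbc
    have k1 := hε x (M13.odd x.2)
    have k2 := hε 1 (M13.odd (M13 K).one_mem)
    rw [mul_one, mul_one] at k2
    rw [hP, hP, hP, hP]
    show PP z k v ((b : Ideal (𝓞 K)) * x) - PP z k v ((c : Ideal (𝓞 K)) * x) = _
    rw [k1, k2]
    abel
  have h2 : ∀ b c x : M13 K, cc b = cls (r6 S 2) * cc c →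
      P (b * x) - P (c * x) = P b - P c + if clM S x ∈ H then 0 else ep F := by
    intro b c x hbc
    obtain ⟨ε, -, hε⟩ := kk_two hb hS hτ ha hU hT hT' hbc
    have k1 := hε x x.2
    have k2 := hε 1 (M13 K).one_mem
    rw [mul_one, mul_one, map_one, if_pos (by norm_num), add_zero] at k2
    rw [hP, hP, hP, hP]
    show PP z k v ((b : Ideal (𝓞 K)) * x) - PP z k v ((c : Ideal (𝓞 K)) * x) = _
    rw [k1, k2]
    by_cases hx : clM S x ∈ H
    · rw [if_pos hx, if_pos ((hH x).1 hx)]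
      abel
    · rw [if_neg hx, if_neg (fun h3 => hx ((hH x).2 h3))]
      abel
  have hcl : ∀ b c : M13 K, clM S b = clM S c → cc b = cc c ∨ cc b = cls (r6 S 2) * cc c :=
    fun b c hbc => (clM_eq hb hS).1 hbc
  have h3 : ∀ b c x : M13 K, clM S b = clM S c → clM S x ∈ H →
      P (b * x) - P (c * x) = P b - P c := by
    intro b c x hbc hx
    rcases hcl b c hbc with k | k
    · exact h1 b c x k
    · rw [h2 b c x k, if_pos hx, add_zero]
  obtain ⟨q1, q2⟩ := cz_card hi hc.eight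
  obtain ⟨n, hn⟩ : ∃ n : ℕ, n = Fintype.card (CG S) := ⟨_, rfl⟩
  have h8 := hc.eight
  rw [← hn] at q1 q2 h8
  have hcpw := c_pw hb hS hτ ha hU hT hT' hc
  have hpow := hc.pow b (M13.odd b.2)
  rw [← hn] at hcpw hpow
  -- the shifted system
  obtain ⟨g0, hg0⟩ : ∃ g0 : CG S, g0 = clM S b := ⟨_, rfl⟩
  obtain ⟨r', hr'⟩ : ∃ r' : CG S → M13 K, ∀ g, r' g = b * r (g0⁻¹ * g) := ⟨_, fun _ => rfl⟩
  have hclr' : ∀ g, clM S (r' g) = g := by
    intro g
    rw [hr', map_mul, hr.cl, ← hg0, mul_inv_cancel_left]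
  have hshift : ∀ g, r' (g0 * g) = b * r g := by
    intro g
    rw [hr', inv_mul_cancel_left]
  obtain ⟨R0, hR0⟩ : ∃ R0 : M13 K, R0 = ∏ g ∈ Finset.univ.filter (· ∈ H), r g := ⟨_, rfl⟩
  have hprodb : ∏ g ∈ Finset.univ.filter (· ∈ H), b * r g = b ^ (n / 2) * R0 := by
    rw [Finset.prod_mul_distrib, Finset.prod_const, q1, hR0]
  have hPb : ∀ y : M13 K, P (b ^ (n / 2) * y) = P y +
      if Ideal.absNorm (b : Ideal (𝓞 K)) % 8 = 1 then 0 else W14.em F := by
    intro y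
    rw [hP, hP]
    exact hcpw b y
  have hgoal : ∑ g ∈ Finset.univ.filter (· ∈ H),
      PP z k v ((b : Ideal (𝓞 K)) * (r g : Ideal (𝓞 K))) =
      ∑ g ∈ Finset.univ.filter (· ∈ H), P (r' (g0 * g)) := by
    refine Finset.sum_congr rfl fun g _ => ?_
    rw [hshift, hP]
    rfl
  have hgoal2 : ∑ g ∈ Finset.univ.filter (· ∈ H), PP z k v (r g : Ideal (𝓞 K)) =
      ∑ g ∈ Finset.univ.filter (· ∈ H), P (r g) :=
    Finset.sum_congr rfl fun g _ => (hP _).symm
  rw [hgoal, hgoal2]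
  have hb13 : Ideal.absNorm (b : Ideal (𝓞 K)) % 8 = 1 ∨
      Ideal.absNorm (b : Ideal (𝓞 K)) % 8 = 3 := b.2
  rcases hb13 with hb1 | hb3
  · have hg : g0 ∈ H := by
      rw [hg0]
      exact (hH b).2 hb1
    have hmem : ∀ g : CG S, g ∈ Finset.univ.filter (fun x : CG S => x ∈ H) ↔
        Equiv.mulLeft g0 g ∈ Finset.univ.filter (fun x : CG S => x ∈ H) := by
      intro g
      rw [Finset.mem_filter, Finset.mem_filter, Equiv.coe_mulLeft]
      simp only [Finset.mem_univ, true_and]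
      exact (H.mul_mem_cancel_left hg).symm
    have e1 : ∑ g ∈ Finset.univ.filter (· ∈ H), P (r' (g0 * g)) =
        ∑ g ∈ Finset.univ.filter (· ∈ H), P (r' g) :=
      Finset.sum_equiv (Equiv.mulLeft g0) hmem (fun g _ => by rw [Equiv.coe_mulLeft])
    have e2 : ∏ g ∈ Finset.univ.filter (· ∈ H), r' g = b ^ (n / 2) * R0 := by
      rw [← hprodb]
      refine (Finset.prod_equiv (Equiv.mulLeft g0) hmem (fun g _ => ?_)).symm
      rw [Equiv.coe_mulLeft, hshift]
    have s1 := sec_H (P := P) (cl := clM S) (H := H) h3 (J := Finset.univ.filter (· ∈ H))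
      (fun g hg => (Finset.mem_filter.1 hg).2) (r := r') (r' := r) (fun g _ => hclr' g)
      (fun g _ => hr.cl g)
    rw [Finset.sum_sub_distrib, e2, ← hR0, hPb, if_pos hb1, add_zero, sub_self,
      sub_eq_zero] at s1
    rw [e1, s1, if_pos hb1, add_zero]
  · have hb1' : ¬ Ideal.absNorm (b : Ideal (𝓞 K)) % 8 = 1 := by omega
    have hg : g0 ∉ H := by
      rw [hg0]
      exact fun h4 => hb1' ((hH b).1 h4)
    have hmem : ∀ g : CG S, g ∈ Finset.univ.filter (fun x : CG S => x ∈ H) ↔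
        Equiv.mulLeft g0 g ∈ Finset.univ.filter (fun x : CG S => x ∉ H) := by
      intro g
      rw [Finset.mem_filter, Finset.mem_filter, Equiv.coe_mulLeft,
        Subgroup.mul_mem_iff_of_index_two hi]
      simp only [Finset.mem_univ, true_and]
      tauto
    have e1 : ∑ g ∈ Finset.univ.filter (· ∈ H), P (r' (g0 * g)) =
        ∑ g ∈ Finset.univ.filter (· ∉ H), P (r' g) :=
      Finset.sum_equiv (Equiv.mulLeft g0) hmem (fun g _ => by rw [Equiv.coe_mulLeft])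
    have e2 : ∏ g ∈ Finset.univ.filter (· ∉ H), r' g = b ^ (n / 2) * R0 := by
      rw [← hprodb]
      refine (Finset.prod_equiv (Equiv.mulLeft g0) hmem (fun g _ => ?_)).symm
      rw [Equiv.coe_mulLeft, hshift]
    obtain ⟨m1, m2, hm1, hm2, hRH, hRK⟩ := hr.prod
    have hev : Even (n / 4) := by
      obtain ⟨l, hl⟩ := h8
      exact ⟨l, by omega⟩
    have hm2' : m2 % 8 = 1 := by
      rw [hm2, ← hn]
      obtain ⟨l, hl⟩ := hev
      have h5 : 3 ^ (l + l) % 8 = (3 ^ 2) ^ l % 8 := by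
        rw [← pow_mul, two_mul]
      rw [hl, h5, Nat.pow_mod]
      norm_num
    have ho1 : Odd m1 := by
      rw [Nat.odd_iff]
      omega
    have ho2 : Odd m2 := by
      rw [Nat.odd_iff]
      omega
    have hJe : Even (Finset.univ.filter (fun g : CG S => g ∉ H)).card := by
      rw [q2]
      obtain ⟨l, hl⟩ := h8
      exact ⟨2 * l, by omega⟩
    have s2 := sec_K (P := P) (cc := cc) (cl := clM S) (H := H) hep ht2 hc.t1 hcl h1 h2 hi
      (J := Finset.univ.filter (· ∉ H)) (fun g hg => (Finset.mem_filter.1 hg).2) hJe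
      (r := r') (r' := r) (fun g _ => hclr' g) (fun g _ => hr.cl g)
    have hccb : cc b ^ (n / 2) = 1 := by
      rw [if_neg (by omega)] at hpow
      have h5 : n / 2 = n / 4 + n / 4 := by
        obtain ⟨l, hl⟩ := h8
        omega
      rw [h5, pow_add, hcc, hpow, ht2]
    have p0 : P R0 = PP z k v ((w0 ^ (Fintype.card (CG S) / 4) : M13 K) : Ideal (𝓞 K)) := by
      rw [hP, hR0, hRH, V6.nat_px hb hS hU ho1 (M13.odd (w0 ^ (Fintype.card (CG S) / 4)).2),
        if_pos (Or.inl hm1), add_zero]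
    have p1 : P (∏ g ∈ Finset.univ.filter (· ∉ H), r g) =
        PP z k v ((w0 ^ (Fintype.card (CG S) / 4) : M13 K) : Ideal (𝓞 K)) := by
      rw [hP, hRK, V6.nat_px hb hS hU ho2 (M13.odd (w0 ^ (Fintype.card (CG S) / 4)).2),
        if_pos (Or.inl hm2'), add_zero]
    have c0 : cc (b ^ (n / 2) * R0) = cc (∏ g ∈ Finset.univ.filter (· ∉ H), r g) := by
      rw [map_mul, map_pow, hccb, one_mul, hcc, hcc, hR0, hRH, hRK, cz_cls ho1, cz_cls ho2]
    rw [Finset.sum_sub_distrib, e2, if_pos c0, add_zero, hPb, if_neg hb1', p0, p1,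
      add_sub_cancel_left, sub_eq_iff_eq_add'] at s2
    have hDD : ∑ g ∈ Finset.univ.filter (· ∈ H), P (r g) =
        ∑ g ∈ Finset.univ.filter (· ∉ H), P (r g) := by
      unfold DD at hD
      rw [sub_eq_zero] at hD
      simp only [hP]
      exact hD
    rw [e1, s2, if_neg hb1', hDD]

end Pool.Agent.Work.MP_8efaaa_nt.T3
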