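import Mathlib
import Pool.Agent.Work.MP_8efaaa_nt.T3.CDf
import Pool.Agent.Work.MP_8efaaa_nt.T3.CZs
import Pool.Agent.Work.MP_8efaaa_nt.W14.CEq
import Pool.Agent.Work.MP_8efaaa_nt.W14.PGa

/-!
# T3/CZg (M): the half sum, shifted by any odd ideal

`N b = 1, 3 (mod 8)`: `c_zs`. `N b = 5, 7 (mod 8)`: `b' = (1 + S) b`, norm `(1 + a) N b = 7 N b = 3`, resp. `1 (mod 8)` (`norm_g`), in `M13 K`. `hT.rel` for `b * r g`: `P ((1 + S) (b * r g)) + P (b * r g) = T + if N (b * r g) % 4 = 1 then 0 else em`; `N (r g) = 1 (mod 8)` for `g ∈ H` (hH, `hr.cl`), so the last term is `c = 0` (`N b = 5`) or `c = em` (`N b = 7`) for all `g ∈ H`. Sum over `H` (`card H = n / 2`, `4 ∣ n / 2` by `hc.eight`; see `sp_card` in T3/Sp.lean): `∑_H P (b * r g) = (n / 2) • (T + c) - ∑_H P (b' * r g) = - ∑_H P (b' * r g)`, as `4 • (T + c) = 2 • ez + 4 • c = 0` (`hT.two`, `two_ep`). `c_zs` for `b'`: `N b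 = 5`: `-(Z + em) = -Z + em`; `N b = 7`: `-Z`.
-/

set_option autoImplicit false

namespace Pool.Agent.Work.MP_8efaaa_nt.T3

open NumberField Pool.Agent.Work.MP_8efaaa_nt.R Pool.Agent.Work.MP_8efaaa_nt.N5
  Pool.Agent.Work.MP_8efaaa_nt.K6 Pool.Agent.Work.MP_8efaaa_nt.W14
open scoped Classical nonZeroDivisors

variable {K F : Type*} [Field K] [NumberField K] [Field F] [NumberField F] [Algebra K F] {a : ℕ}
  {s : K} {S : 𝓞 K} {τ : 𝓞 K ≃+* 𝓞 K} {ζ : F} {w : ℕ → F} {z k v : Ideal (𝓞 K) → F}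
  {κ : F ≃ₐ[ℚ] F}

theorem c_zg (hb : B6 K a s) (hS : algebraMap (𝓞 K) K S = s) (hτ : τ S = -S)
    (ha : a % 16 = 14) (hU : UD6 K F a s S τ ζ w z k v κ) {T T' : (cQ F).Point}
    (hT : Tq S z k v T) (hT' : Fr a S z k v T') [Fintype (CG S)] (hc : C8 S)
    {H : Subgroup (CG S)} (hi : H.index = 2)
    (hH : ∀ c : M13 K, clM S c ∈ H ↔ Ideal.absNorm (c : Ideal (𝓞 K)) % 8 = 1)
    {r : CG S → M13 K} {w0 : M13 K} (hr : IsSec H r (w0 ^ (Fintype.card (CG S) / 4)))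
    (hD : DD z k v H r = 0) {Z : (cQ F).Point}
    (hZ : Z = ∑ g ∈ Finset.univ.filter (· ∈ H), PP z k v (r g : Ideal (𝓞 K)))
    {b : Ideal (𝓞 K)} (hbo : OddI b) :
    ∑ g ∈ Finset.univ.filter (· ∈ H), PP z k v (b * (r g : Ideal (𝓞 K))) =
      (if Ideal.absNorm b % 8 = 1 ∨ Ideal.absNorm b % 8 = 3 then Z else -Z) +
        if Ideal.absNorm b % 8 = 1 ∨ Ideal.absNorm b % 8 = 7 then 0 else W14.em F := by
  sorry

end Pool.Agent.Work.MP_8efaaa_nt.T3
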