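import Mathlib
import Pool.Agent.Work.MP_8efaaa_nt.T3.CDf
import Pool.Agent.Work.MP_8efaaa_nt.T3.Kx
import Pool.Agent.Work.MP_8efaaa_nt.T3.Sx
import Pool.Agent.Work.MP_8efaaa_nt.V6.PEt
import Pool.Agent.Work.MP_8efaaa_nt.W14.CCl
import Pool.Agent.Work.MP_8efaaa_nt.W14.CEq
import Pool.Agent.Work.MP_8efaaa_nt.W14.PGa

/-!
# T3/CZk (M): the half sum and complex conjugation

`P = PP z k v`, `n = card (CG S)`. `r' g = bar (r g⁻¹)`, `bar c = cj τ c` in `M13 K` (`norm_cj6`: same norm), `clM S (bar c) = (clM S c)⁻¹` (`cls_cj`), so `clM S (r' g) = g`. Reindexing `g ↦ g⁻¹`: `∑_H P (r' g) = ∑_H P (cj τ (r g))`, `∏_H r' = cj τ (∏_H r)` (`cj τ` is multiplicative, `cj τ 1 = 1`; a monoid hom on ideals, `Ideal.map`/`map_prod` or induction on the finset). `sec_H` (T3/Sx; MODEL for its hypothesis: `cmp14` in T3/Cm.lean): `∑_H P (r' g) - ∑_H P (r g) = P (cj τ R0) - P R0`, `R0 = ∏_H r = (m1) u`, `u =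 w0 ^ (n / 4)`, `m1 = 1 (mod 8)` (`hr.prod`), `cj τ R0 = (m1) (cj τ u)`. `V6.nat_px`: `P R0 = P u`, `P (cj τ R0) = P (cj τ u)`.
`P (cj τ u) = P u`: `cls u = cls w0 ^ (n / 4) = 1` (`hc.pow`, `N w0 = 1 (mod 8)`), `cls (cj τ u) = 1` (`cls_cj`). `kk_one` for `u` and `1`: `P (u x) = P x + ε`; for `cj τ u` and `1`: `P (cj τ u x) = P x + ε'`, `ε + ε = 0 = ε' + ε'`. So `P (u (cj τ u)) = P 1 + ε' + ε`; but `u (cj τ u) = (N u)` (`norm_cj6`), `N u = 1 (mod 8)`, so `V6.nat_px` gives `P (u (cj τ u)) = P 1`. So `ε = ε'`, and `P u = P 1 + ε = P (cj τ u)`.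
-/

set_option autoImplicit false

namespace Pool.Agent.Work.MP_8efaaa_nt.T3

open NumberField Pool.Agent.Work.MP_8efaaa_nt.R Pool.Agent.Work.MP_8efaaa_nt.N5
  Pool.Agent.Work.MP_8efaaa_nt.K6 Pool.Agent.Work.MP_8efaaa_nt.W14
open scoped Classical nonZeroDivisors

variable {K F : Type*} [Field K] [NumberField K] [Field F] [NumberField F] [Algebra K F] {a : ℕ}
  {s : K} {S : 𝓞 K} {τ : 𝓞 K ≃+* 𝓞 K} {ζ : F} {w : ℕ → F} {z k v : Ideal (𝓞 K) → F}
  {κ : F ≃ₐ[ℚ] F}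

private theorem zk_bar {K : Type*} [Field K] [NumberField K] {S : 𝓞 K} {τ : 𝓞 K ≃+* 𝓞 K}
    {bar : M13 K → M13 K} (hbar : ∀ c, (bar c : Ideal (𝓞 K)) = cj τ (c : Ideal (𝓞 K)))
    (X : Finset (CG S)) (f : CG S → M13 K) : ∏ g ∈ X, bar (f g) = bar (∏ g ∈ X, f g) := by
  induction X using Finset.induction_on with
  | empty =>
    rw [Finset.prod_empty, Finset.prod_empty]
    apply Subtype.ext
    rw [hbar]
    show (1 : Ideal (𝓞 K)) = cj τ (1 : Ideal (𝓞 K))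
    unfold cj
    rw [Ideal.one_eq_top, Ideal.map_top]
  | insert g X hg ih =>
    rw [Finset.prod_insert hg, Finset.prod_insert hg, ih]
    apply Subtype.ext
    rw [hbar]
    show (bar (f g) : Ideal (𝓞 K)) * (bar (∏ g ∈ X, f g) : Ideal (𝓞 K)) =
      cj τ ((f g : Ideal (𝓞 K)) * ((∏ g ∈ X, f g : M13 K) : Ideal (𝓞 K)))
    rw [cj_mul6, hbar, hbar]

private theorem zk_span {K : Type*} [Field K] [NumberField K] (τ : 𝓞 K ≃+* 𝓞 K) (m : ℕ) :
    cj τ (Ideal.span {(m : 𝓞 K)}) = Ideal.span {(m : 𝓞 K)} := by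
  unfold cj
  rw [Ideal.map_span, Set.image_singleton]
  congr 2
  exact map_natCast _ m

theorem c_zk (hb : B6 K a s) (hS : algebraMap (𝓞 K) K S = s) (hτ : τ S = -S)
    (ha : a % 16 = 14) (hU : UD6 K F a s S τ ζ w z k v κ) {T T' : (cQ F).Point}
    (hT : Tq S z k v T) (hT' : Fr a S z k v T') [Fintype (CG S)] (hc : C8 S)
    {H : Subgroup (CG S)} (hi : H.index = 2)
    (hH : ∀ c : M13 K, clM S c ∈ H ↔ Ideal.absNorm (c : Ideal (𝓞 K)) % 8 = 1)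
    {r : CG S → M13 K} {w0 : M13 K} (hw0 : Ideal.absNorm (w0 : Ideal (𝓞 K)) % 8 = 1)
    (hr : IsSec H r (w0 ^ (Fintype.card (CG S) / 4))) :
    ∑ g ∈ Finset.univ.filter (· ∈ H), PP z k v (cj τ (r g : Ideal (𝓞 K))) =
      ∑ g ∈ Finset.univ.filter (· ∈ H), PP z k v (r g : Ideal (𝓞 K)) := by
  have _ := hi
  obtain ⟨P, hP⟩ : ∃ P : M13 K → (cQ F).Point, ∀ c, P c = PP z k v (c : Ideal (𝓞 K)) :=
    ⟨_, fun c => rfl⟩
  let cc : M13 K →* ClassGroup (𝓞 K) :=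
    { toFun := fun c => cls (c : Ideal (𝓞 K))
      map_one' := cls_one
      map_mul' := fun b c => cls_mul (M13.ne b.2) (M13.ne c.2) }
  have hcc : ∀ c : M13 K, cc c = cls (c : Ideal (𝓞 K)) := fun c => rfl
  have h1 : ∀ b c x : M13 K, cc b = cc c → P (b * x) - P (c * x) = P b - P c := by
    intro b c x hbc
    obtain ⟨ε, -, hε⟩ := kk_one hb hS hτ ha hU hbc
    have k1 := hε x (M13.odd x.2)
    have k2 := hε 1 (M13.odd (M13 K).one_mem)
    rw [mul_one, mul_one] at k2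
    rw [hP, hP, hP, hP]
    show PP z k v ((b : Ideal (𝓞 K)) * x) - PP z k v ((c : Ideal (𝓞 K)) * x) = _
    rw [k1, k2]
    abel
  have h2 : ∀ b c x : M13 K, cc b = cls (r6 S 2) * cc c →
      P (b * x) - P (c * x) = P b - P c + if clM S x ∈ H then 0 else ep F := by
    intro b c x hbc
    obtain ⟨ε, -, hε⟩ := kk_two hb hS hτ ha hU hT hT' hbc
    have k1 := hε x x.2
    have k2 := hε 1 (M13 K).one_mem
    rw [mul_one, mul_one, map_one, if_pos (by norm_num), add_zero] at k2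
    rw [hP, hP, hP, hP]
    show PP z k v ((b : Ideal (𝓞 K)) * x) - PP z k v ((c : Ideal (𝓞 K)) * x) = _
    rw [k1, k2]
    by_cases hx : clM S x ∈ H
    · rw [if_pos hx, if_pos ((hH x).1 hx)]
      abel
    · rw [if_neg hx, if_neg (fun h3 => hx ((hH x).2 h3))]
      abel
  have hcl : ∀ b c : M13 K, clM S b = clM S c → cc b = cc c ∨ cc b = cls (r6 S 2) * cc c :=
    fun b c hbc => (clM_eq hb hS).1 hbc
  have h3 : ∀ b c x : M13 K, clM S b = clM S c → clM S x ∈ H →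
      P (b * x) - P (c * x) = P b - P c := by
    intro b c x hbc hx
    rcases hcl b c hbc with k | k
    · exact h1 b c x k
    · rw [h2 b c x k, if_pos hx, add_zero]
  -- conjugation on `M13`
  have hcjm : ∀ c : Ideal (𝓞 K), c ∈ M13 K → cj τ c ∈ M13 K := by
    intro c hc
    show Ideal.absNorm (cj τ c) % 8 = 1 ∨ Ideal.absNorm (cj τ c) % 8 = 3
    rw [(norm_cj6 hb hS hτ c).1]
    exact hc
  obtain ⟨bar, hbar⟩ : ∃ bar : M13 K → M13 K, ∀ c, (bar c : Ideal (𝓞 K)) =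
      cj τ (c : Ideal (𝓞 K)) := ⟨fun c => ⟨cj τ (c : Ideal (𝓞 K)), hcjm _ c.2⟩, fun c => rfl⟩
  have hclb : ∀ c : M13 K, clM S (bar c) = (clM S c)⁻¹ := by
    intro c
    show QuotientGroup.mk (cls (bar c : Ideal (𝓞 K))) =
      (QuotientGroup.mk (cls (c : Ideal (𝓞 K))))⁻¹
    rw [hbar, (cls_cj hb hS hτ (M13.ne c.2)).2]
    rfl
  obtain ⟨J, hJd⟩ : ∃ J : Finset (CG S), J = Finset.univ.filter (· ∈ H) := ⟨_, rfl⟩
  have hJ : ∀ g, g ∈ J ↔ g ∈ H := by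
    intro g
    rw [hJd]
    simp
  have hJi : ∀ g ∈ J, g⁻¹ ∈ J := fun g hg => (hJ _).2 (H.inv_mem ((hJ g).1 hg))
  have s1 := sec_H (P := P) (cl := clM S) (H := H) h3 (J := J)
    (fun g hg => (hJ g).1 hg) (r := fun g => bar (r g⁻¹)) (r' := r)
    (fun g _ => by rw [hclb, hr.cl, inv_inv]) (fun g _ => hr.cl g)
  rw [Finset.sum_sub_distrib] at s1
  have s2 : ∑ g ∈ J, P (bar (r g⁻¹)) = ∑ g ∈ J, P (bar (r g)) := by
    refine Finset.sum_nbij' (fun g => g⁻¹) (fun g => g⁻¹) hJi hJi ?_ ?_ ?_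
    · intro g _
      exact inv_inv g
    · intro g _
      exact inv_inv g
    · intro g _
      rfl
  have s3 : ∏ g ∈ J, bar (r g⁻¹) = bar (∏ g ∈ J, r g) := by
    rw [← zk_bar hbar]
    refine Finset.prod_nbij' (fun g => g⁻¹) (fun g => g⁻¹) hJi hJi ?_ ?_ ?_
    · intro g _
      exact inv_inv g
    · intro g _
      exact inv_inv g
    · intro g _
      rfl
  rw [s2, s3] at s1
  -- the power of `w0`
  obtain ⟨m1, m2, hm1, -, hRH, -⟩ := hr.prod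
  rw [← hJd] at hRH
  obtain ⟨u, hu⟩ : ∃ u : M13 K, u = w0 ^ (Fintype.card (CG S) / 4) := ⟨_, rfl⟩
  rw [← hu] at hRH
  have ho1 : Odd m1 := by
    rw [Nat.odd_iff]
    omega
  have hw1 : cls (u : Ideal (𝓞 K)) = 1 := by
    have k1 := hc.pow (w0 : Ideal (𝓞 K)) (M13.odd w0.2)
    rw [if_pos (Or.inl hw0)] at k1
    rw [← hcc, hu, map_pow, hcc, k1]
  have hw2 : cls (bar u : Ideal (𝓞 K)) = 1 := by
    rw [hbar, (cls_cj hb hS hτ (M13.ne u.2)).2, hw1, inv_one]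
  have hNu : Ideal.absNorm (u : Ideal (𝓞 K)) % 8 = 1 := by
    have k1 : ((u : M13 K) : Ideal (𝓞 K)) = (w0 : Ideal (𝓞 K)) ^ (Fintype.card (CG S) / 4) := by
      rw [hu]
      rfl
    rw [k1, map_pow, Nat.pow_mod, hw0, one_pow, Nat.one_mod_eq_one.2 (by norm_num)]
  obtain ⟨e1, f1, g1⟩ := kk_one (c := (1 : M13 K)) hb hS hτ ha hU (hw1.trans cls_one.symm)
  obtain ⟨e2, f2, g2⟩ := kk_one (c := (1 : M13 K)) hb hS hτ ha hU (hw2.trans cls_one.symm)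
  have hodd1 : OddI (1 : Ideal (𝓞 K)) := M13.odd (M13 K).one_mem
  have k1 := g1 _ (M13.odd (bar u).2)
  have k2 := g2 _ hodd1
  have k3 := g1 _ hodd1
  have hone : ((1 : M13 K) : Ideal (𝓞 K)) = 1 := rfl
  rw [hone, one_mul] at k1
  rw [hone, one_mul, mul_one] at k2 k3
  have k4 : PP z k v ((u : Ideal (𝓞 K)) * (bar u : Ideal (𝓞 K))) =
      PP z k v (1 : Ideal (𝓞 K)) := by
    have k5 := V6.nat_px hb hS hU (n := Ideal.absNorm (u : Ideal (𝓞 K)))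
      (by rw [Nat.odd_iff]; omega) hodd1
    rw [mul_one, if_pos (Or.inl hNu), add_zero] at k5
    rw [hbar, (norm_cj6 hb hS hτ (u : Ideal (𝓞 K))).2.1, k5]
  have k6 : PP z k v (bar u : Ideal (𝓞 K)) = PP z k v (u : Ideal (𝓞 K)) := by
    have k7 : PP z k v (1 : Ideal (𝓞 K)) = PP z k v (1 : Ideal (𝓞 K)) + e2 + e1 := by
      rw [← k2, ← k1, k4]
    have k8 : e2 + e1 = 0 := by
      rw [add_assoc] at k7
      exact left_eq_add.1 k7
    have k9 : e1 = e2 := by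
      calc e1 = (e2 + e2) + e1 := by rw [f2, zero_add]
        _ = e2 + (e2 + e1) := by rw [add_assoc]
        _ = e2 := by rw [k8, add_zero]
    rw [k2, k3, k9]
  -- the two products
  have p1 : P (∏ g ∈ J, r g) = PP z k v (u : Ideal (𝓞 K)) := by
    rw [hP, hRH, V6.nat_px hb hS hU ho1 (M13.odd u.2), if_pos (Or.inl hm1), add_zero]
  have p2 : P (bar (∏ g ∈ J, r g)) = PP z k v (bar u : Ideal (𝓞 K)) := by
    rw [hP, hbar, hRH, cj_mul6, zk_span, ← hbar u,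
      V6.nat_px hb hS hU ho1 (M13.odd (bar u).2), if_pos (Or.inl hm1), add_zero]
  rw [p1, p2, k6, sub_self, sub_eq_zero] at s1
  rw [← hJd]
  have s4 : ∑ g ∈ J, P (bar (r g)) = ∑ g ∈ J, PP z k v (cj τ (r g : Ideal (𝓞 K))) :=
    Finset.sum_congr rfl fun g _ => by rw [hP, hbar]
  have s5 : ∑ g ∈ J, P (r g) = ∑ g ∈ J, PP z k v (r g : Ideal (𝓞 K)) :=
    Finset.sum_congr rfl fun g _ => by rw [hP]
  rw [← s4, ← s5]
  exact s1

end Pool.Agent.Work.MP_8efaaa_nt.T3
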