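import Mathlib
import Pool.Agent.Work.MP_8efaaa_nt.K6.CDt
import Pool.Agent.Work.MP_8efaaa_nt.K6.DIn
import Pool.Agent.Work.MP_8efaaa_nt.T3.Defs
import Pool.Agent.Work.MP_8efaaa_nt.T3.In
import Pool.Agent.Work.MP_8efaaa_nt.T3.To
import Pool.Agent.Work.MP_8efaaa_nt.T3.Ge
import Pool.Agent.Work.MP_8efaaa_nt.T3.Sp
import Pool.Agent.Work.MP_8efaaa_nt.T3.CB3
import Pool.Agent.Work.MP_8efaaa_nt.T3.CCl
import Pool.Agent.Work.MP_8efaaa_nt.T3.CZg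
import Pool.Agent.Work.MP_8efaaa_nt.T3.CZk
import Pool.Agent.Work.MP_8efaaa_nt.T3.CFn
import Pool.Agent.Work.MP_8efaaa_nt.V6.PEx
import Pool.Agent.Work.MP_8efaaa_nt.W14.DEx
import Pool.Agent.Work.MP_8efaaa_nt.W14.PGa

/-!
# T3/MainPm (helper67): the theorems for `(1, 1, 7)` and `(7, 7, 7)`

Three different primes `l1`, `l2`, `l3`, all `1` or `7 (mod 8)`, with product `7 (mod 8)`; each of them is not a square
modulo one of the other two. Then `2 l1 l2 l3` is a congruent number.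
-/

set_option autoImplicit false

namespace Pool.Agent.Work.MP_8efaaa_nt.T3

open NumberField Pool.Agent.Work.MP_8efaaa_nt.R Pool.Agent.Work.MP_8efaaa_nt.N5
  Pool.Agent.Work.MP_8efaaa_nt.K6 Pool.Agent.Work.MP_8efaaa_nt.W14
open scoped Classical nonZeroDivisors

private theorem tors2 {F : Type*} [Field F] [CharZero F] {n : ℕ} (h : 2 ∣ n) :
    n • W14.em F = 0 := by
  obtain ⟨m, rfl⟩ := h
  obtain ⟨-, h2, -⟩ := two_ep (F := F)
  rw [mul_comm, mul_smul, two_smul, h2, smul_zero]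

private theorem core_pm {l1 l2 l3 : ℕ} (h1 : l1.Prime) (h2 : l2.Prime) (h3 : l3.Prime)
    (h12 : l1 ≠ l2) (h13 : l1 ≠ l3) (h23 : l2 ≠ l3) (e1 : l1 % 8 = 1 ∨ l1 % 8 = 7)
    (e2 : l2 % 8 = 1 ∨ l2 % 8 = 7) (e3 : l3 % 8 = 1 ∨ l3 % 8 = 7)
    (ha : (2 * l1 * l2 * l3) % 16 = 14)
    (n1 : jacobiSym l1 l2 = -1 ∨ jacobiSym l1 l3 = -1)
    (n2 : jacobiSym l2 l1 = -1 ∨ jacobiSym l2 l3 = -1)
    (n3 : jacobiSym l3 l1 = -1 ∨ jacobiSym l3 l2 = -1) {la lb k1 k2 : ℕ} (hla : la.Prime)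
    (hla8 : la % 8 = 1 ∨ la % 8 = 7) (hlaa : la ∣ 2 * l1 * l2 * l3) (hlb : lb.Prime)
    (hlb8 : lb % 8 = 1 ∨ lb % 8 = 7) (hlba : lb ∣ 2 * l1 * l2 * l3) (hk1 : k1.Prime)
    (hk12 : k1 ≠ 2) (hk1a : k1 ∣ 2 * l1 * l2 * l3) (hk2 : k2.Prime) (hk22 : k2 ≠ 2)
    (hk2a : k2 ∣ 2 * l1 * l2 * l3) (c1 : la % 4 = 1 ↔ k1 ∣ la) (c2 : ¬ (la % 4 = 1 ↔ k2 ∣ la))
    (c3 : lb % 4 = 1 ↔ k2 ∣ lb) : IsCongruent (2 * l1 * l2 * l3) := by
  by_contra hnc
  have hsf : Squarefree (2 * l1 * l2 * l3) := by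
    have c1 : Nat.Coprime 2 l1 := (Nat.coprime_primes Nat.prime_two h1).2 (by omega)
    have c2 : Nat.Coprime 2 l2 := (Nat.coprime_primes Nat.prime_two h2).2 (by omega)
    have c3 : Nat.Coprime 2 l3 := (Nat.coprime_primes Nat.prime_two h3).2 (by omega)
    have c4 : Nat.Coprime l1 l2 := (Nat.coprime_primes h1 h2).2 h12
    have c5 : Nat.Coprime l1 l3 := (Nat.coprime_primes h1 h3).2 h13
    have c6 : Nat.Coprime l2 l3 := (Nat.coprime_primes h2 h3).2 h23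
    rw [Nat.squarefree_mul (Nat.Coprime.mul_left (Nat.Coprime.mul_left c3 c5) c6),
      Nat.squarefree_mul (Nat.Coprime.mul_left c2 c4), Nat.squarefree_mul c1]
    exact ⟨⟨⟨Nat.prime_two.squarefree, h1.squarefree⟩, h2.squarefree⟩, h3.squarefree⟩
  obtain ⟨K, _, _, s, hb⟩ := exists_base6 hsf (a := 2 * l1 * l2 * l3) (by omega)
  obtain ⟨S, hS, -, -⟩ := exists_S6 hb
  obtain ⟨τ, hτ⟩ := exists_tau6 hb hS
  obtain ⟨F, _, _, _, _, _, _, ζ, w, z, k, v, κ, hU⟩ := exists_ud6 hb hS hτ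
  obtain ⟨T, hTT, hTr⟩ := V6.tq_px hb hS hU
  obtain ⟨T', hTT', hTr'⟩ := V6.fr_px hb hS hU
  have hT : Tq S z k v T := ⟨hTT, hTr⟩
  have hT' : Fr (2 * l1 * l2 * l3) S z k v T' := ⟨hTT', hTr'⟩
  have : Fintype (CG S) := Fintype.ofFinite _
  obtain ⟨d, hd⟩ := exists_b3 hb hS ha hU
  obtain ⟨H, hi, hH⟩ := exists_H hb hS hτ ha hd
  obtain ⟨L1, hL1', hL1⟩ := exists_prime6 (F := F) hk1
  obtain ⟨Γ1, _, V1, hV1⟩ := exists_vl hL1'
  obtain ⟨w1, w18, w1c, w1E, w1s⟩ := in_gen hb hS hτ hU hT hV1 hk1 hk12 hk1a hL1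
  obtain ⟨L2, hL2', hL2⟩ := exists_prime6 (F := F) hk2
  obtain ⟨Γ2, _, V2, hV2⟩ := exists_vl hL2'
  obtain ⟨w2, w28, w2c, w2E, w2s⟩ := in_gen hb hS hτ hU hT hV2 hk2 hk22 hk2a hL2
  have hlao : Odd la := Nat.odd_iff.2 (by omega)
  have hlbo : Odd lb := Nat.odd_iff.2 (by omega)
  have s1 : jacobiSym (Ideal.absNorm w1) la = -1 := by
    rw [w1s la hlaa hlao, if_pos c1]
  have s2 : jacobiSym (Ideal.absNorm w2) la = 1 := by
    rw [w2s la hlaa hlao, if_neg c2]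
  have s3 : jacobiSym (Ideal.absNorm w2) lb = -1 := by
    rw [w2s lb hlba hlbo, if_pos c3]
  have hc : C8 S := exists_C8 h1 h2 h3 h12 h13 h23 e1 e2 e3 ha hb hS hτ n1 n2 n3 hd w18 w28 hla
    hla8 hlaa hlb hlb8 hlba s1 s2 s3
  have h8 := hc.eight
  have h4 : 2 ∣ Fintype.card (CG S) / 4 := by omega
  obtain ⟨r, hr, hD⟩ := sec_p hb hS hτ hi hH (w0 := ⟨w1, Or.inl w18⟩) w18
    (fun g => nsq8 hb hS hτ hla hla8 hlaa s1 g) w1E
  rw [tors2 h4, sub_zero] at hD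
  have hD0 : DD z k v H r = 0 := by
    refine dd_eq hb hS hτ ha hU hnc hi hH hr.cl (smul_zero _) ?_ (V := V1)
    rw [sub_zero]
    exact hD
  refine c_fin hb hS ha hU hd
    (Z := ∑ g ∈ Finset.univ.filter (· ∈ H), PP z k v (r g : Ideal (𝓞 K))) ?_ ?_
  · intro σ b hbo hσ
    rw [map_sum, ← c_zg hb hS hτ ha hU hT hT' hc hi hH hr hD0 rfl hbo]
    refine Finset.sum_congr rfl fun g _ => ?_
    obtain ⟨q1, q2, q3⟩ := hσ.act (r g : Ideal (𝓞 K)) (M13.odd (r g).2)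
    exact gal_pp σ q1 q2 q3
  · rw [map_sum]
    refine Eq.trans (Finset.sum_congr rfl fun g _ => ?_)
      (c_zk hb hS hτ ha hU hT hT' hc hi hH (w0 := ⟨w1, Or.inl w18⟩) w18 hr)
    obtain ⟨q1, q2, q3⟩ := hU.cc (r g : Ideal (𝓞 K)) (M13.odd (r g).2)
    exact gal_pp κ q1 q2 q3

private theorem mod14 {l1 l2 l3 x y t : ℕ} (h1 : l1 % 8 = x) (h2 : l2 % 8 = y) (h3 : l3 % 8 = t)
    (h : (x * y * t) % 8 = 7) : (2 * l1 * l2 * l3) % 16 = 14 := by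
  have h4 : (l1 * l2 * l3) % 8 = 7 := by
    rw [Nat.mul_mod (l1 * l2), Nat.mul_mod l1, h1, h2, h3, ← h]
    simp [Nat.mul_mod]
  have h5 : 2 * l1 * l2 * l3 = 2 * (l1 * l2 * l3) := by ring
  omega

/-- `2 p p' q` is a congruent number for different primes `p = p' = 1 (mod 8)`, `q = 7 (mod 8)`, if each of them is
not a square modulo one of the other two. -/
theorem main_117 {p p' q : ℕ} (hp : p.Prime) (hp' : p'.Prime) (hq : q.Prime) (hp8 : p % 8 = 1)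
    (hp8' : p' % 8 = 1) (hq8 : q % 8 = 7) (hpp : p ≠ p')
    (h1 : jacobiSym p p' = -1 ∨ jacobiSym p q = -1)
    (h2 : jacobiSym p' p = -1 ∨ jacobiSym p' q = -1)
    (h3 : jacobiSym q p = -1 ∨ jacobiSym q p' = -1) : IsCongruent (2 * p * p' * q) := by
  have npp : ¬ p' ∣ p := fun h => hpp ((Nat.prime_dvd_prime_iff_eq hp' hp).1 h).symm
  refine core_pm hp hp' hq hpp (by omega) (by omega) (Or.inl hp8) (Or.inl hp8') (Or.inr hq8)
    (mod14 hp8 hp8' hq8 (by norm_num)) h1 h2 h3 (la := p) (lb := p') (k1 := p) (k2 := p') hp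
    (Or.inl hp8) ⟨2 * p' * q, by ring⟩ hp' (Or.inl hp8') ⟨2 * p * q, by ring⟩ hp (by omega)
    ⟨2 * p' * q, by ring⟩ hp' (by omega) ⟨2 * p * q, by ring⟩ ?_ ?_ ?_
  · exact iff_of_true (by omega) dvd_rfl
  · exact fun h => npp (h.1 (by omega))
  · exact iff_of_true (by omega) dvd_rfl

/-- `2 p q r` is a congruent number for different primes `p = q = r = 7 (mod 8)`, if each of them is not a square
modulo one of the other two. -/
theorem main_777 {p q r : ℕ} (hp : p.Prime) (hq : q.Prime) (hr : r.Prime) (hp8 : p % 8 = 7)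
    (hq8 : q % 8 = 7) (hr8 : r % 8 = 7) (hpq : p ≠ q) (hpr : p ≠ r) (hqr : q ≠ r)
    (h1 : jacobiSym p q = -1 ∨ jacobiSym p r = -1)
    (h2 : jacobiSym q p = -1 ∨ jacobiSym q r = -1)
    (h3 : jacobiSym r p = -1 ∨ jacobiSym r q = -1) : IsCongruent (2 * p * q * r) := by
  have npq : ¬ p ∣ q := fun h => hpq ((Nat.prime_dvd_prime_iff_eq hp hq).1 h)
  have nqp : ¬ q ∣ p := fun h => hpq ((Nat.prime_dvd_prime_iff_eq hq hp).1 h).symm
  refine core_pm hp hq hr hpq hpr hqr (Or.inr hp8) (Or.inr hq8) (Or.inr hr8)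
    (mod14 hp8 hq8 hr8 (by norm_num)) h1 h2 h3 (la := q) (lb := p) (k1 := p) (k2 := q) hq
    (Or.inr hq8) ⟨2 * p * r, by ring⟩ hp (Or.inr hp8) ⟨2 * q * r, by ring⟩ hp (by omega)
    ⟨2 * q * r, by ring⟩ hq (by omega) ⟨2 * p * r, by ring⟩ ?_ ?_ ?_
  · exact iff_of_false (by omega) npq
  · exact fun h => by
      have := h.2 dvd_rfl
      omega
  · exact iff_of_false (by omega) nqp

end Pool.Agent.Work.MP_8efaaa_nt.T3
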